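import Mathlib
import Pool.Agent.Lib.PolyTime.PF
import Pool.Agent.Lib.PolyTime.FPT

/-!
# Budgeted colouring of trees: instances, languages and running times
-/

namespace Pool.Agent.BCP

open Pool.Agent.PolyTime Finset

/-- The tree on the vertices `0, …, n` in which the vertex `i + 1` is joined to its parent
`p i ≤ i`. -/
def treeOf {n : ℕ} (p : (i : Fin n) → Fin (i + 1)) : SimpleGraph (Fin (n + 1)) :=
  SimpleGraph.fromRel (fun u v => ∃ i : Fin n, u = i.succ ∧ (v : ℕ) = p i)

open Classical in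
/-- `G` has a proper colouring with the colours `0, …, c - 1` in which the colour `j` is used at
most `b j` times. -/
def BudgetColorable {V : Type} [Fintype V] (G : SimpleGraph V) {c : ℕ} (b : Fin c → ℕ) : Prop :=
  ∃ φ : G.Coloring (Fin c), ∀ j, (univ.filter (fun v => φ v = j)).card ≤ b j

/-- Code of an instance: the number of vertices minus one, the number of colours, the parents and
the budgets, all in unary. -/
def encInst {n c : ℕ} (p : (i : Fin n) → Fin (i + 1)) (b : Fin c → ℕ) : List Bool :=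
  unary (n :: c :: (List.ofFn (fun i => (p i : ℕ)) ++ List.ofFn b))

/-- The budgeted colouring problem on trees with at least three colours, as a set of bit
strings. -/
def BCPTree : Set (List Bool) :=
  {x | ∃ (n c : ℕ) (p : (i : Fin n) → Fin (i + 1)) (b : Fin c → ℕ),
    3 ≤ c ∧ x = encInst p b ∧ BudgetColorable (treeOf p) b}

/-- Formulas with `N` variables and `M` clauses of three literals; a literal is a variable and a
sign. -/
abbrev CNF3 (N M : ℕ) := Fin M → Fin 3 → Fin N × Bool

/-- Satisfiability. -/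
def Sat {N M : ℕ} (φ : CNF3 N M) : Prop :=
  ∃ a : Fin N → Bool, ∀ j, ∃ r, a (φ j r).1 = (φ j r).2

/-- Code of a formula: the numbers of variables and clauses and the literals (`2 v` or `2 v + 1`
for the variable `v`), in unary. -/
def encCNF {N M : ℕ} (φ : CNF3 N M) : List Bool :=
  unary (N :: M :: List.ofFn (fun k : Fin (M * 3) =>
    2 * ((φ k.divNat k.modNat).1 : ℕ) + (φ k.divNat k.modNat).2.toNat))

open Classical in
/-- Some Turing machine decides `L` and halts on the input `x` after at most `T x` steps. -/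
def DecidedIn (L : Set (List Bool)) (T : List Bool → ℕ) : Prop :=
  ∃ M : Turing.TM2ComputableAux Bool Bool, ∀ x, OutIn M x [decide (x ∈ L)] (T x)

/-! ### Working definitions -/

/-- `p` gives the parents of a tree on `0, …, n - 1`. -/
def IsPar (n : ℕ) (p : ℕ → ℕ) : Prop := ∀ i, 0 < i → i < n → p i < i

/-- The tree given by `p` on `0, …, n - 1` has a proper colouring with budgets `b j`, `j < c`. -/
def Feas (n c : ℕ) (p b : ℕ → ℕ) : Prop :=
  ∃ φ : ℕ → ℕ, (∀ i < n, φ i < c) ∧ (∀ i < n, 0 < i → φ i ≠ φ (p i)) ∧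
    ∀ j < c, ((range n).filter (fun i => φ i = j)).card ≤ b j

/-- `(b j, j)` is smaller than `(θ, ι)`. -/
def Small (b : ℕ → ℕ) (θ ι j : ℕ) : Prop := b j < θ ∨ (b j = θ ∧ j < ι)

/-- `j` is one of the tracked colours. -/
def InJ (t : ℕ) (J : ℕ → ℕ) (j : ℕ) : Prop := ∃ a < t, J a = j

open Classical in
/-- Capacity of the slot `a`. -/
noncomputable def cap (c : ℕ) (J b : ℕ → ℕ) (a : ℕ) : ℕ :=
  if J a < c ∧ ∀ a' < a, J a' ≠ J a then b (J a) else 0

open Classical in
/-- Capacity of the pure classes on the side `false`. -/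
noncomputable def capA (c t : ℕ) (J b : ℕ → ℕ) (θ ι : ℕ) : ℕ :=
  ∑ j ∈ (range c).filter (fun j => ¬ InJ t J j ∧ ¬ Small b θ ι j), b j

open Classical in
/-- Capacity of the pure classes on the side `true`. -/
noncomputable def capB (c t : ℕ) (J b : ℕ → ℕ) (θ ι : ℕ) : ℕ :=
  ∑ j ∈ (range c).filter (fun j => ¬ InJ t J j ∧ Small b θ ι j), b j

/-- Labellings: tracked classes `0, …, t - 1`, and the label `t` for the pure classes; `σ` is the
side. -/
def ValidLab (n t : ℕ) (p : ℕ → ℕ) (lab : ℕ → ℕ) (σ : ℕ → Bool) : Prop :=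
  (∀ i < n, lab i ≤ t) ∧
    ∀ i < n, 0 < i → σ i ≠ σ (p i) ∧ (lab i ≠ lab (p i) ∨ lab i = t)

/-- Existence of a structured solution with `t` tracked classes. -/
def StructFeas (n c t : ℕ) (p b : ℕ → ℕ) : Prop :=
  ∃ (J : ℕ → ℕ) (θ ι : ℕ) (lab : ℕ → ℕ) (σ : ℕ → Bool),
    (∀ a < t, J a ≤ c) ∧ θ ≤ ∑ j ∈ range c, b j ∧ ι ≤ c ∧ ValidLab n t p lab σ ∧
    (∀ a < t, ((range n).filter (fun i => lab i = a)).card ≤ cap c J b a) ∧
    ((range n).filter (fun i => lab i = t ∧ σ i = false)).card ≤ capA c t J b θ ι ∧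
    ((range n).filter (fun i => lab i = t ∧ σ i = true)).card ≤ capB c t J b θ ι

end Pool.Agent.BCP
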