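import Mathlib
import Pool.Agent.BCP.Defs

/-!
# Instances given by adjacency matrices
-/

namespace Pool.Agent.BCP

open Pool.Agent.PolyTime Finset

open Classical in
/-- The adjacency matrix of a graph, row by row. -/
noncomputable def adjBits {n : ℕ} (G : SimpleGraph (Fin n)) : List Bool :=
  List.ofFn (fun k : Fin (n * n) => decide (G.Adj k.divNat k.modNat))

/-- Code of an instance: the number of vertices, the number of colours and the budgets in unary,
and the adjacency matrix. -/
noncomputable def encInstG {n c : ℕ} (G : SimpleGraph (Fin n)) (b : Fin c → ℕ) : List Bool :=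
  unary (n :: c :: List.ofFn b) ++ adjBits G

/-- The budgeted colouring problem on trees with at least three colours, as a set of bit
strings. -/
def BCPT : Set (List Bool) :=
  {x | ∃ (n c : ℕ) (G : SimpleGraph (Fin n)) (b : Fin c → ℕ),
    G.IsTree ∧ 3 ≤ c ∧ x = encInstG G b ∧ BudgetColorable G b}

end Pool.Agent.BCP
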