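import Mathlib
import Pool.Agent.BCP.Defs

/-!
# Trees given by parents
-/

namespace Pool.Agent.BCP

open Finset Pool.Agent.PolyTime

/-- Adjacency in `treeOf p`. -/
theorem GR_adj {n : ℕ} (p : (i : Fin n) → Fin (i + 1)) (u v : Fin (n + 1)) :
    (treeOf p).Adj u v ↔
      (∃ i : Fin n, (u : ℕ) = i + 1 ∧ (v : ℕ) = p i) ∨
        (∃ i : Fin n, (v : ℕ) = i + 1 ∧ (u : ℕ) = p i) := by
  unfold treeOf
  rw [SimpleGraph.fromRel_adj]
  constructor
  · rintro ⟨_, ⟨i, h1, h2⟩ | ⟨i, h1, h2⟩⟩
    · exact Or.inl ⟨i, by rw [h1]; simp, h2⟩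
    · exact Or.inr ⟨i, by rw [h1]; simp, h2⟩
  · rintro (⟨i, h1, h2⟩ | ⟨i, h1, h2⟩)
    · refine ⟨?_, Or.inl ⟨i, Fin.ext (by simpa using h1), h2⟩⟩
      intro h
      have := (p i).isLt
      rw [h] at h1
      omega
    · refine ⟨?_, Or.inr ⟨i, Fin.ext (by simpa using h1), h2⟩⟩
      intro h
      have := (p i).isLt
      rw [h] at h2
      omega

/-! ### The encodings and the working predicates -/

/-- Feasibility of an instance given by functions on the natural numbers. -/
theorem budgetColorable_iff {n c : ℕ} (p : (i : Fin n) → Fin (i + 1)) (b : Fin c → ℕ)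
    (p' b' : ℕ → ℕ) (hp : ∀ i : Fin n, p' (i + 1) = p i) (hb : ∀ j : Fin c, b' j = b j) :
    BudgetColorable (treeOf p) b ↔ Feas (n + 1) c p' b' := by
  classical
  constructor
  · rintro ⟨φ, hφ⟩
    have hval : ∀ (i : ℕ) (h : i < n + 1),
        (if h : i < n + 1 then (φ ⟨i, h⟩ : ℕ) else 0) = φ ⟨i, h⟩ := fun i h => by rw [dif_pos h]
    refine ⟨fun i => if h : i < n + 1 then (φ ⟨i, h⟩ : ℕ) else 0, ?_, ?_, ?_⟩
    · intro i hi
      beta_reduce
      rw [hval i hi]
      exact (φ ⟨i, hi⟩).isLt
    · intro i hi h0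
      obtain ⟨k, rfl⟩ : ∃ k, i = k + 1 := ⟨i - 1, by omega⟩
      have hk : k < n := by omega
      have hpk : p' (k + 1) = p ⟨k, hk⟩ := hp ⟨k, hk⟩
      have hlt : p' (k + 1) < n + 1 := by
        rw [hpk]
        have := (p ⟨k, hk⟩).isLt
        simp only at this
        omega
      beta_reduce
      rw [hval _ hi, hval _ hlt]
      have hadj : (treeOf p).Adj ⟨k + 1, hi⟩ ⟨p' (k + 1), hlt⟩ := by
        rw [GR_adj]
        exact Or.inl ⟨⟨k, hk⟩, rfl, hpk⟩
      intro h
      exact φ.valid hadj (Fin.ext h)
    · intro j hj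
      have hle := hφ ⟨j, hj⟩
      rw [hb ⟨j, hj⟩]
      refine le_trans (le_of_eq ?_) hle
      symm
      refine Finset.card_bij (fun (v : Fin (n + 1)) _ => (v : ℕ)) ?_ ?_ ?_
      · intro v hv
        rw [Finset.mem_filter] at hv
        rw [Finset.mem_filter, Finset.mem_range]
        refine ⟨v.isLt, ?_⟩
        beta_reduce
        rw [hval v v.isLt]
        have := hv.2
        simp only [Fin.eta]
        rw [this]
      · intro v _ w _ h
        exact Fin.ext h
      · intro i hi
        rw [Finset.mem_filter, Finset.mem_range] at hi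
        refine ⟨⟨i, hi.1⟩, ?_, rfl⟩
        rw [Finset.mem_filter]
        refine ⟨Finset.mem_univ _, Fin.ext ?_⟩
        have := hi.2
        beta_reduce at this
        rw [hval i hi.1] at this
        exact this
  · rintro ⟨φ, h1, h2, h3⟩
    refine ⟨SimpleGraph.Coloring.mk (fun v => ⟨φ v, h1 v v.isLt⟩) ?_, ?_⟩
    · intro u v huv
      rw [GR_adj] at huv
      intro h
      rw [Fin.mk.injEq] at h
      rcases huv with ⟨i, hu, hv⟩ | ⟨i, hv, hu⟩
      · have := h2 u u.isLt (by omega)
        apply this
        rw [h, hu, hp i, hv]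
      · have := h2 v v.isLt (by omega)
        apply this
        rw [← h, hv, hp i, hu]
    · intro j
      rw [← hb j]
      refine le_trans (le_of_eq ?_) (h3 j j.isLt)
      refine Finset.card_bij (fun (v : Fin (n + 1)) _ => (v : ℕ)) ?_ ?_ ?_
      · intro v hv
        rw [Finset.mem_filter] at hv
        rw [Finset.mem_filter, Finset.mem_range]
        refine ⟨v.isLt, ?_⟩
        have := hv.2
        exact congrArg Fin.val this
      · intro v _ w _ h
        exact Fin.ext h
      · intro i hi
        rw [Finset.mem_filter, Finset.mem_range] at hi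
        refine ⟨⟨i, hi.1⟩, ?_, rfl⟩
        rw [Finset.mem_filter]
        exact ⟨Finset.mem_univ _, Fin.ext hi.2⟩

/-- `treeOf p` is a tree. -/
theorem treeOf_isTree {n : ℕ} (p : (i : Fin n) → Fin (i + 1)) : (treeOf p).IsTree := by
  classical
  have hconn : (treeOf p).Connected := by
    rw [SimpleGraph.connected_iff_exists_forall_reachable]
    refine ⟨0, ?_⟩
    have key : ∀ (k : ℕ) (hk : k < n + 1), (treeOf p).Reachable 0 ⟨k, hk⟩ := by
      intro k
      induction k using Nat.strong_induction_on with
      | _ k ih =>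
        intro hk
        rcases Nat.eq_zero_or_pos k with rfl | hpos
        · exact SimpleGraph.Reachable.refl _
        · obtain ⟨m, rfl⟩ : ∃ m, k = m + 1 := ⟨k - 1, by omega⟩
          have hm : m < n := by omega
          have hlt := (p ⟨m, hm⟩).isLt
          simp only at hlt
          have hr := ih (p ⟨m, hm⟩ : ℕ) (by omega) (by omega)
          refine hr.trans (SimpleGraph.Adj.reachable ?_)
          rw [GR_adj]
          exact Or.inr ⟨⟨m, hm⟩, rfl, rfl⟩
    intro w
    exact key w w.isLt
  rw [SimpleGraph.isTree_iff_connected_and_card]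
  refine ⟨hconn, ?_⟩
  apply le_antisymm
  · have hsurj : Function.Surjective (fun i : Fin n =>
        (⟨s(i.succ, ⟨p i, by have := (p i).isLt; omega⟩), by
          rw [SimpleGraph.mem_edgeSet, GR_adj]
          exact Or.inl ⟨i, by simp, rfl⟩⟩ : (treeOf p).edgeSet)) := by
      rintro ⟨e, he⟩
      induction e using Sym2.ind with
      | _ u v =>
        rw [SimpleGraph.mem_edgeSet, GR_adj] at he
        rcases he with ⟨i, hu, hv⟩ | ⟨i, hv, hu⟩
        · refine ⟨i, Subtype.ext ?_⟩
          rw [Sym2.eq_iff]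
          exact Or.inl ⟨Fin.ext (by rw [hu]; simp), Fin.ext hv.symm⟩
        · refine ⟨i, Subtype.ext ?_⟩
          rw [Sym2.eq_iff]
          exact Or.inr ⟨Fin.ext (by rw [hv]; simp), Fin.ext hu.symm⟩
    have hc := Nat.card_le_card_of_surjective _ hsurj
    rw [Nat.card_fin] at hc
    rw [Nat.card_fin]
    exact Nat.add_le_add_right hc 1
  · exact hconn.card_vert_le_card_edgeSet_add_one

theorem GR_exists (n : ℕ) : ∀ {V : Type} [Fintype V] (G : SimpleGraph V), G.IsTree →
    Fintype.card V = n + 1 →
    ∃ p : (i : Fin n) → Fin (i + 1), Nonempty (G ≃g treeOf p) := by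
  classical
  induction n with
  | zero =>
    intro V _ G hG hV
    refine ⟨fun i => i.elim0, ⟨⟨Fintype.equivFinOfCardEq (by simpa using hV), ?_⟩⟩⟩
    intro a b
    have hab : a = b := Fintype.card_le_one_iff.mp (by omega) a b
    subst hab
    simp
  | succ n ih =>
    intro V _ G hG hV
    have : Nontrivial V := by
      rw [← Fintype.one_lt_card_iff_nontrivial]
      omega
    obtain ⟨v, hv⟩ := hG.exists_vert_degree_one_of_nontrivial
    obtain ⟨u, huv, hu⟩ := SimpleGraph.degree_eq_one_iff_existsUnique_adj.mp hv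
    have hG' : (G.induce ({v}ᶜ : Set V)).IsTree :=
      ⟨hG.connected.induce_compl_singleton_of_degree_eq_one hv, hG.isAcyclic.induce _⟩
    have hcard : Fintype.card ({v}ᶜ : Set V) = n + 1 := by
      rw [Fintype.card_compl_set]
      simp [hV]
    obtain ⟨p', ⟨e⟩⟩ := ih (G.induce ({v}ᶜ : Set V)) hG' hcard
    have hune : u ≠ v := huv.ne'
    set p : (i : Fin (n + 1)) → Fin (i + 1) := fun i =>
      if h : (i : ℕ) < n then ⟨p' ⟨i, h⟩, (p' ⟨i, h⟩).isLt⟩
      else ⟨e ⟨u, hune⟩, by have := (e ⟨u, hune⟩).isLt; omega⟩ with hpdef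
    have hp1 : ∀ (i : Fin (n + 1)) (h : (i : ℕ) < n), ((p i : ℕ)) = p' ⟨i, h⟩ := by
      intro i h
      simp only [hpdef, dif_pos h]
    have hp2 : ∀ (i : Fin (n + 1)), ¬ (i : ℕ) < n → (p i : ℕ) = e ⟨u, hune⟩ := by
      intro i h
      simp only [hpdef, dif_neg h]
    let f : V → Fin (n + 1 + 1) := fun w =>
      if h : w = v then Fin.last _ else (e ⟨w, h⟩).castSucc
    have hfv : f v = Fin.last _ := by simp only [f, dif_pos]
    have hfw : ∀ (w : V) (h : w ≠ v), f w = (e ⟨w, h⟩).castSucc := by
      intro w h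
      simp only [f, dif_neg h]
    have hinj : Function.Injective f := by
      intro a b hab
      by_cases ha : a = v
      · by_cases hb : b = v
        · rw [ha, hb]
        · rw [ha, hfv, hfw b hb] at hab
          exact absurd hab.symm (Fin.castSucc_lt_last _).ne
      · by_cases hb : b = v
        · rw [hb, hfv, hfw a ha] at hab
          exact absurd hab (Fin.castSucc_lt_last _).ne
        · rw [hfw a ha, hfw b hb] at hab
          have h1 := Fin.castSucc_injective _ hab
          have h2 := e.injective h1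
          exact congrArg Subtype.val h2
    have hbij : Function.Bijective f := by
      rw [Fintype.bijective_iff_injective_and_card]
      exact ⟨hinj, by simp [hV]⟩
    -- adjacency to the last vertex
    have hlast : ∀ (x : V) (hx : x ≠ v), G.Adj v x ↔ (treeOf p).Adj (f v) (f x) := by
      intro x hx
      rw [hfv, hfw x hx, GR_adj]
      constructor
      · intro h
        have hxu : x = u := hu x h
        subst hxu
        exact Or.inl ⟨Fin.last n, by simp, by rw [hp2 _ (by simp)]; simp⟩
      · rintro (⟨i, h1, h2⟩ | ⟨i, h1, h2⟩)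
        · have hi : ¬ (i : ℕ) < n := by simp at h1; omega
          rw [hp2 i hi] at h2
          have h3 : e ⟨x, hx⟩ = e ⟨u, hune⟩ := Fin.ext (by simpa using h2)
          have h4 := congrArg Subtype.val (e.injective h3)
          simp only at h4
          rw [h4]
          exact huv
        · have := (p i).isLt
          have := i.isLt
          simp only [Fin.val_last] at h2
          omega
    refine ⟨p, ⟨⟨Equiv.ofBijective f hbij, ?_⟩⟩⟩
    intro a b
    rw [Equiv.ofBijective_apply, Equiv.ofBijective_apply]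
    by_cases ha : a = v
    · by_cases hb : b = v
      · rw [ha, hb]; simp
      · rw [ha]; exact (hlast b hb).symm
    · by_cases hb : b = v
      · rw [hb, G.adj_comm, (treeOf p).adj_comm]
        exact (hlast a ha).symm
      · rw [hfw a ha, hfw b hb]
        have he : (treeOf p').Adj (e ⟨a, ha⟩) (e ⟨b, hb⟩) ↔ G.Adj a b := by
          rw [e.map_adj_iff]
          rfl
        rw [← he, GR_adj, GR_adj]
        have hcc : ∀ (x y : Fin (n + 1)),
            (∃ i : Fin (n + 1), ((x.castSucc : Fin (n + 1 + 1)) : ℕ) = i + 1 ∧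
              ((y.castSucc : Fin (n + 1 + 1)) : ℕ) = p i) ↔
            (∃ i : Fin n, (x : ℕ) = i + 1 ∧ (y : ℕ) = p' i) := by
          intro x y
          constructor
          · rintro ⟨i, h1, h2⟩
            have hx := x.isLt
            simp only [Fin.val_castSucc] at h1 h2
            have hi : (i : ℕ) < n := by omega
            exact ⟨⟨i, hi⟩, h1, by rw [h2, hp1 i hi]⟩
          · rintro ⟨i, h1, h2⟩
            refine ⟨i.castSucc, by simpa using h1, ?_⟩
            rw [hp1 i.castSucc (by simp)]
            simpa using h2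
        rw [hcc, hcc]

/-- Every finite tree is of the form `treeOf p`. -/
theorem exists_treeOf {V : Type} [Fintype V] (G : SimpleGraph V) (hG : G.IsTree) :
    ∃ (n : ℕ) (p : (i : Fin n) → Fin (i + 1)), Nonempty (G ≃g treeOf p) := by
  have := hG.connected.nonempty
  obtain ⟨n, hn⟩ : ∃ n, Fintype.card V = n + 1 :=
    ⟨Fintype.card V - 1, by have := Fintype.card_pos (α := V); omega⟩
  obtain ⟨p, hp⟩ := GR_exists n G hG hn
  exact ⟨n, p, hp⟩

end Pool.Agent.BCP
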