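import Mathlib
import Pool.Agent.BCP.Defs
import Pool.Agent.Lib.PolyTime.PL
import Pool.Agent.BCP.Graph

/-!
# Reading the code of an instance
-/

namespace Pool.Agent.BCP

open Finset Pool.Agent.PolyTime

/-- number of zeros among the first `i` bits -/
def zeros (x : List Bool) (i : ℕ) : ℕ := ((range i).filter (fun j => x.getD j false = false)).card

/-- The `k`-th number of the list coded by `x`. -/
def num (x : List Bool) (k : ℕ) : ℕ :=
  ((range x.length).filter (fun i => x.getD i false = true ∧ zeros x i = k)).card

theorem PA_card_filter_range_succ (P : ℕ → Prop) [DecidablePred P] (n : ℕ) :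
    ((range (n + 1)).filter P).card =
      (if P 0 then 1 else 0) + ((range n).filter (fun i => P (i + 1))).card := by
  rw [Finset.card_filter, Finset.card_filter, Finset.sum_range_succ', add_comm]

theorem PA_zeros_zero (x : List Bool) : zeros x 0 = 0 := by simp [zeros]

theorem PA_zeros_true (x : List Bool) (i : ℕ) : zeros (true :: x) (i + 1) = zeros x i := by
  unfold zeros
  rw [PA_card_filter_range_succ]
  simp

theorem PA_zeros_false (x : List Bool) (i : ℕ) :
    zeros (false :: x) (i + 1) = zeros x i + 1 := by
  unfold zeros
  rw [PA_card_filter_range_succ]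
  simp [add_comm]

theorem PA_num_nil (k : ℕ) : num [] k = 0 := by simp [num]

theorem PA_num_true_zero (x : List Bool) : num (true :: x) 0 = num x 0 + 1 := by
  unfold num
  rw [List.length_cons, PA_card_filter_range_succ]
  simp only [PA_zeros_true, PA_zeros_zero, List.getD_cons_zero, List.getD_cons_succ]
  simp [add_comm]

theorem PA_num_true_succ (x : List Bool) (k : ℕ) : num (true :: x) (k + 1) = num x (k + 1) := by
  unfold num
  rw [List.length_cons, PA_card_filter_range_succ]
  simp only [PA_zeros_true, PA_zeros_zero, List.getD_cons_zero, List.getD_cons_succ]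
  simp

theorem PA_num_false_zero (x : List Bool) : num (false :: x) 0 = 0 := by
  unfold num
  rw [List.length_cons, PA_card_filter_range_succ]
  simp only [PA_zeros_false, List.getD_cons_zero, List.getD_cons_succ]
  simp

theorem PA_num_false_succ (x : List Bool) (k : ℕ) : num (false :: x) (k + 1) = num x k := by
  unfold num
  rw [List.length_cons, PA_card_filter_range_succ]
  simp only [PA_zeros_false, List.getD_cons_zero, List.getD_cons_succ]
  simp

theorem PA_unary_nil : unary [] = [] := rfl

theorem PA_unary_zero (l : List ℕ) : unary (0 :: l) = false :: unary l := rfl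

theorem PA_unary_succ (a : ℕ) (l : List ℕ) : unary ((a + 1) :: l) = true :: unary (a :: l) := by
  simp [unary, List.replicate_succ]

theorem num_unary (l : List ℕ) (k : ℕ) : num (unary l) k = l.getD k 0 := by
  induction l generalizing k with
  | nil => simp [PA_unary_nil, PA_num_nil]
  | cons a l ih =>
    induction a generalizing k with
    | zero =>
      rw [PA_unary_zero]
      cases k with
      | zero => rw [PA_num_false_zero, List.getD_cons_zero]
      | succ k => rw [PA_num_false_succ, List.getD_cons_succ, ih]
    | succ a iha =>
      rw [PA_unary_succ]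
      cases k with
      | zero => rw [PA_num_true_zero, iha, List.getD_cons_zero, List.getD_cons_zero]
      | succ k => rw [PA_num_true_succ, iha, List.getD_cons_succ, List.getD_cons_succ]

theorem zeros_unary (l : List ℕ) : zeros (unary l) (unary l).length = l.length := by
  induction l with
  | nil => simp [PA_unary_nil, PA_zeros_zero]
  | cons a l ih =>
    induction a with
    | zero => rw [PA_unary_zero, List.length_cons, PA_zeros_false, ih, List.length_cons]
    | succ a iha =>
      rw [PA_unary_succ, List.length_cons, PA_zeros_true, iha, List.length_cons, List.length_cons]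

/-- Strings that code lists of numbers. -/
def IsUn (x : List Bool) : Prop := x = [] ∨ x.getD (x.length - 1) true = false

theorem PA_isUn_false {x : List Bool} (h : IsUn (false :: x)) : IsUn x := by
  rcases x with _ | ⟨b, x⟩
  · exact Or.inl rfl
  · rcases h with h | h
    · cases h
    · right
      simpa using h

theorem PA_isUn_true {x : List Bool} (h : IsUn (true :: x)) : x ≠ [] ∧ IsUn x := by
  rcases x with _ | ⟨b, x⟩
  · rcases h with h | h
    · cases h
    · simp at h
  · refine ⟨by simp, ?_⟩
    rcases h with h | h
    · cases h
    · right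
      simpa using h

theorem PA_zeros_pos {x : List Bool} (h0 : x ≠ []) (h : IsUn x) : 0 < zeros x x.length := by
  rcases h with h | h
  · exact absurd h h0
  · unfold zeros
    rw [Finset.card_pos]
    have hl : 0 < x.length := List.length_pos_of_ne_nil h0
    refine ⟨x.length - 1, Finset.mem_filter.mpr ⟨Finset.mem_range.mpr (by omega), ?_⟩⟩
    rw [List.getD_eq_getElem _ _ (by omega)] at h ⊢
    exact h

theorem unary_of_isUn {x : List Bool} (h : IsUn x) :
    x = unary ((List.range (zeros x x.length)).map (num x)) := by
  induction x with
  | nil => simp [PA_zeros_zero, PA_unary_nil]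
  | cons b x ih =>
    cases b with
    | false =>
      have h1 := ih (PA_isUn_false h)
      rw [List.length_cons, PA_zeros_false, List.range_succ_eq_map, List.map_cons,
        PA_num_false_zero, List.map_map, PA_unary_zero]
      have h2 : (num (false :: x)) ∘ Nat.succ = num x := by
        funext k
        exact PA_num_false_succ x k
      rw [h2, ← h1]
    | true =>
      obtain ⟨h0, h'⟩ := PA_isUn_true h
      have h1 := ih h'
      have h2 := PA_zeros_pos h0 h'
      obtain ⟨m, hm⟩ : ∃ m, zeros x x.length = m + 1 := ⟨zeros x x.length - 1, by omega⟩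
      rw [List.length_cons, PA_zeros_true, hm, List.range_succ_eq_map, List.map_cons,
        PA_num_true_zero, List.map_map, PA_unary_succ]
      have h3 : (num (true :: x)) ∘ Nat.succ = (num x) ∘ Nat.succ := by
        funext k
        exact PA_num_true_succ x k
      rw [h3]
      rw [hm, List.range_succ_eq_map, List.map_cons, List.map_map] at h1
      rw [← h1]

theorem PA_isUn_unary (l : List ℕ) : IsUn (unary l) := by
  induction l with
  | nil => exact Or.inl rfl
  | cons a l ih =>
    have h0 : IsUn (unary (0 :: l)) := by
      rw [PA_unary_zero]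
      right
      rcases ih with h | h
      · rw [h]; simp
      · rcases hx : unary l with _ | ⟨b, y⟩
        · simp
        · rw [hx] at h
          simpa using h
    clear ih
    induction a with
    | zero => exact h0
    | succ a iha =>
      rw [PA_unary_succ]
      right
      rcases hx : unary (a :: l) with _ | ⟨b, y⟩
      · exfalso
        have := zeros_unary (a :: l)
        rw [hx] at this
        simp [PA_zeros_zero] at this
      · rcases iha with h | h
        · rw [hx] at h; cases h
        · rw [hx] at h
          simpa using h

/-- number of vertices -/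
def nX (x : List Bool) : ℕ := num x 0 + 1
/-- number of colours -/
def cX (x : List Bool) : ℕ := num x 1
/-- parents -/
def pX (x : List Bool) (i : ℕ) : ℕ := if i = 0 then 0 else num x (i + 1)
/-- budgets -/
def bX (x : List Bool) (j : ℕ) : ℕ := num x (2 + num x 0 + j)

/-- `x` is the code of an instance. -/
def ValidX (x : List Bool) : Prop :=
  IsUn x ∧ zeros x x.length = 2 + num x 0 + num x 1 ∧ 3 ≤ cX x ∧ IsPar (nX x) (pX x)

/-- The list of numbers coded by a valid string. -/
theorem PA_list_eq {n c : ℕ} (f : ℕ → ℕ) (hn : f 0 = n) (hc : f 1 = c) :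
    (List.range (2 + n + c)).map f =
      n :: c :: (List.ofFn (fun i : Fin n => f (i + 2)) ++
        List.ofFn (fun j : Fin c => f (2 + n + j))) := by
  apply List.ext_getElem
  · simp; omega
  · intro k h1 h2
    rw [List.getElem_map, List.getElem_range]
    rcases k with _ | _ | k
    · simpa using hn
    · simpa using hc
    · rw [List.getElem_cons_succ, List.getElem_cons_succ, List.getElem_append]
      split_ifs with h3
      · rw [List.getElem_ofFn]
      · rw [List.getElem_ofFn]
        rw [List.length_ofFn] at h3
        congr 1
        simp only [List.length_ofFn]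
        omega

theorem mem_BCPTree_iff (x : List Bool) :
    x ∈ BCPTree ↔ ValidX x ∧ Feas (nX x) (cX x) (pX x) (bX x) := by
  constructor
  · rintro ⟨n, c, p, b, hc, rfl, h⟩
    have hk : ∀ k, num (encInst p b) k =
        (n :: c :: (List.ofFn (fun i => (p i : ℕ)) ++ List.ofFn b)).getD k 0 := fun k =>
      num_unary _ k
    have h0 : num (encInst p b) 0 = n := by rw [hk]; rfl
    have h1 : num (encInst p b) 1 = c := by rw [hk]; rfl
    have hp : ∀ i : Fin n, num (encInst p b) (i + 2) = p i := by
      intro i
      rw [hk, List.getD_cons_succ, List.getD_cons_succ, List.getD_append _ _ _ _ (by simp),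
        List.getD_eq_getElem _ _ (by simp), List.getElem_ofFn]
    have hb : ∀ j : Fin c, num (encInst p b) (2 + n + j) = b j := by
      intro j
      rw [hk, show 2 + n + (j : ℕ) = (n + j) + 1 + 1 by omega, List.getD_cons_succ,
        List.getD_cons_succ, List.getD_append_right _ _ _ _ (by simp), List.length_ofFn,
        Nat.add_sub_cancel_left, List.getD_eq_getElem _ _ (by simp), List.getElem_ofFn]
    refine ⟨⟨PA_isUn_unary _, ?_, ?_, ?_⟩, ?_⟩
    · rw [h0, h1]
      unfold encInst
      rw [zeros_unary]
      simp
      omega
    · show 3 ≤ num _ 1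
      rw [h1]; exact hc
    · intro i hi hi2
      unfold nX at hi2
      rw [h0] at hi2
      unfold pX
      rw [if_neg (by omega)]
      have h3 := hp ⟨i - 1, by omega⟩
      have h4 := (p ⟨i - 1, by omega⟩).2
      simp only at h3 h4
      rw [show i + 1 = i - 1 + 2 by omega, h3]
      omega
    · have h5 := (budgetColorable_iff p b (pX (encInst p b)) (bX (encInst p b)) (fun i => by
        unfold pX
        rw [if_neg (by omega)]
        exact hp i) (fun j => by
        unfold bX
        rw [h0]
        exact hb j)).mp h
      unfold nX cX
      rw [h0, h1]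
      exact h5
  · rintro ⟨⟨hu, hz, hc, hpar⟩, hf⟩
    have hlt : ∀ i : Fin (num x 0), num x (i + 2) < i + 1 := by
      intro i
      have h1 := hpar (i + 1) (by omega) (by unfold nX; have := i.2; omega)
      unfold pX at h1
      rw [if_neg (by omega)] at h1
      exact h1
    refine ⟨num x 0, num x 1, fun i => ⟨num x (i + 2), hlt i⟩, fun j => num x (2 + num x 0 + j),
      hc, ?_, ?_⟩
    · have h1 := unary_of_isUn hu
      rw [hz, PA_list_eq (num x) rfl rfl] at h1
      exact h1
    · refine (budgetColorable_iff _ _ (pX x) (bX x) (fun i => ?_) (fun j => rfl)).mpr hf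
      unfold pX
      rw [if_neg (by omega)]

theorem PA_sum_num_le (x : List Bool) (S : Finset ℕ) :
    ∑ k ∈ S, num x k ≤ ((range x.length).filter (fun i => x.getD i false = true)).card := by
  unfold num
  rw [← Finset.card_biUnion]
  · apply Finset.card_le_card
    intro i hi
    rw [Finset.mem_biUnion] at hi
    obtain ⟨k, _, hi⟩ := hi
    rw [Finset.mem_filter] at hi ⊢
    exact ⟨hi.1, hi.2.1⟩
  · intro k _ l _ hkl
    rw [Function.onFun, Finset.disjoint_left]
    intro i h1 h2
    rw [Finset.mem_filter] at h1 h2
    exact hkl (h1.2.2.symm.trans h2.2.2)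

theorem PA_sum_num_add_zeros_le (x : List Bool) (S : Finset ℕ) :
    ∑ k ∈ S, num x k + zeros x x.length ≤ x.length := by
  have h1 := PA_sum_num_le x S
  have h2 : ((range x.length).filter (fun i => x.getD i false = true)).card +
      zeros x x.length ≤ x.length := by
    unfold zeros
    rw [← Finset.card_union_of_disjoint]
    · calc _ ≤ (range x.length).card := Finset.card_le_card (by
            intro i hi
            rw [Finset.mem_union, Finset.mem_filter, Finset.mem_filter] at hi
            rcases hi with h | h
            · exact h.1
            · exact h.1)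
        _ = x.length := Finset.card_range _
    · rw [Finset.disjoint_left]
      intro i h1 h2
      rw [Finset.mem_filter] at h1 h2
      rw [h1.2] at h2
      exact absurd h2.2 (by simp)
  omega

/-- The sizes are bounded by the length. -/
theorem nX_le {x : List Bool} (h : ValidX x) : nX x ≤ x.length := by
  have h1 := PA_sum_num_add_zeros_le x {0}
  rw [Finset.sum_singleton] at h1
  have h2 := h.2.1
  unfold nX
  omega

theorem cX_le {x : List Bool} : cX x ≤ x.length := by
  have h1 := PA_sum_num_add_zeros_le x {1}
  rw [Finset.sum_singleton] at h1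
  unfold cX
  omega

theorem sum_bX_le {x : List Bool} : ∑ j ∈ range (cX x), bX x j ≤ x.length := by
  have h1 := PA_sum_num_add_zeros_le x ((range (cX x)).image (fun j => 2 + num x 0 + j))
  rw [Finset.sum_image (by intro a _ b _ h; simpa using h)] at h1
  unfold bX
  omega

theorem PA_pf_zeros {α : Type} [Ctx α] {F : List Bool → α → ℕ} (hF : PF F) :
    PF (fun x a => zeros x (F x a)) := by
  have h : PD (fun (x : List Bool) (p : α × ℕ) => x.getD p.2 false = false) :=
    (PD.bit PF.snd).not.congr fun x p => by simp
  exact PF.count (P := fun (x : List Bool) (p : α × ℕ) => x.getD p.2 false = false) hF h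

theorem pf_num {α : Type} [Ctx α] {F : List Bool → α → ℕ} (hF : PF F) :
    PF (fun x a => num x (F x a)) := by
  exact PF.count (P := fun (x : List Bool) (p : α × ℕ) =>
    x.getD p.2 false = true ∧ zeros x p.2 = F x p.1) PF.len
    ((PD.bit PF.snd).and (PD.eq (PA_pf_zeros PF.snd) hF.fst))

theorem PA_pd_isUn : PD (fun x (_ : Unit) => IsUn x) := by
  have h : PD (fun (x : List Bool) (_ : Unit) => x.length = 0 ∨
      ¬ x.getD (x.length - 1) false = true) :=
    (PD.eq PF.len (PF.const 0)).or (PD.bit (PF.len.sub (PF.const 1))).not
  refine h.congr fun x _ => ?_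
  unfold IsUn
  rcases x with _ | ⟨b, x⟩
  · simp
  · simp [List.getD_eq_getElem?_getD]

theorem pd_valid : PD (fun x (_ : Unit) => ValidX x) := by
  have h0 : PF (fun x (_ : Unit) => num x 0) := pf_num (PF.const 0)
  have h1 : PF (fun x (_ : Unit) => num x 1) := pf_num (PF.const 1)
  have hz : PF (fun x (_ : Unit) => zeros x x.length) := PA_pf_zeros PF.len
  have hp : PD (fun x (p : Unit × ℕ) => ¬ (0 < p.2) ∨ num x (p.2 + 1) < p.2) :=
    (PD.lt (PF.const 0) PF.snd).not.or (PD.lt (pf_num (PF.snd.add (PF.const 1))) PF.snd)
  have h2 : PD (fun x (_ : Unit) => ∀ i < num x 0 + 1, ¬ (0 < i) ∨ num x (i + 1) < i) :=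
    PD.forall_lt (h0.add (PF.const 1)) hp
  have h3 : PD (fun x (_ : Unit) => IsPar (nX x) (pX x)) := by
    refine h2.congr fun x _ => ?_
    unfold IsPar nX pX
    constructor
    · intro h i hi hi2
      rcases h i hi2 with h | h
      · exact absurd hi h
      · rw [if_neg (by omega)]; exact h
    · intro h i hi
      by_cases h0 : 0 < i
      · have := h i h0 hi
        rw [if_neg (by omega)] at this
        exact Or.inr this
      · exact Or.inl h0
  exact PA_pd_isUn.and ((PD.eq hz (((PF.const 2).add h0).add h1)).and
    ((PD.le (PF.const 3) h1).and h3))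

end Pool.Agent.BCP
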