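import Mathlib
import Pool.Agent.BCP.AdjDefs
import Pool.Agent.BCP.Parse
import Pool.Agent.Lib.PolyTime.Iter
import Pool.Agent.Lib.PolyTime.PL

/-!
# From adjacency matrices to parent lists

The vertices are renumbered by transpositions until every vertex has an earlier neighbour.
-/

namespace Pool.Agent.BCP

open Pool.Agent.PolyTime Finset

section BAcomb

open Classical in
/-- The least index below `n` with `P`, or `n`. -/
noncomputable def ba_least (P : ℕ → Prop) (n : ℕ) : ℕ :=
  ((range n).filter (fun i => ∀ j < i + 1, ¬ P j)).card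

theorem ba_least_spec (P : ℕ → Prop) (n : ℕ) :
    ba_least P n ≤ n ∧ (∀ i < ba_least P n, ¬ P i) ∧ (ba_least P n < n → P (ba_least P n)) := by
  classical
  induction n with
  | zero => simp [ba_least]
  | succ n ih =>
    have h0 : ba_least P (n + 1) = ba_least P n + (if ∀ j < n + 1, ¬ P j then 1 else 0) := by
      unfold ba_least
      rw [Finset.range_add_one, Finset.filter_insert]
      by_cases h : ∀ j < n + 1, ¬ P j
      · rw [if_pos h, if_pos h, Finset.card_insert_of_notMem (by simp)]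
      · rw [if_neg h, if_neg h, add_zero]
    by_cases h : ∀ j < n + 1, ¬ P j
    · have h1 : ba_least P n = n := by
        by_contra h2
        exact h _ (by omega) (ih.2.2 (by omega))
      rw [h0, if_pos h, h1]
      exact ⟨le_rfl, h, fun h3 => absurd h3 (lt_irrefl _)⟩
    · rw [h0, if_neg h, add_zero]
      refine ⟨by omega, ih.2.1, fun _ => ?_⟩
      by_cases h2 : ba_least P n < n
      · exact ih.2.2 h2
      · have h1 : ba_least P n = n := by omega
        rw [h1]
        by_contra h3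
        apply h
        intro j hj
        by_cases hjn : j = n
        · rw [hjn]; exact h3
        · exact ih.2.1 j (by omega)

variable (A : ℕ → ℕ → Prop) (n : ℕ)

/-- the first vertex without an earlier neighbour -/
noncomputable def ba_kk : ℕ := ba_least (fun i => i ≠ 0 ∧ ¬ ∃ j < i, A i j) n

/-- the first later vertex with a neighbour before `ba_kk` -/
noncomputable def ba_vv : ℕ := ba_least (fun v => ba_kk A n < v ∧ ∃ w < ba_kk A n, A v w) n

/-- the transposition -/
noncomputable def ba_tau (i : ℕ) : ℕ :=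
  if ba_vv A n < n then
    (if i = ba_kk A n then ba_vv A n else if i = ba_vv A n then ba_kk A n else i)
  else i

/-- every vertex has exactly one earlier neighbour -/
def ba_T : Prop := (∀ r < n, r ≠ 0 → ∃ j < r, A r j) ∧
  ∀ r < n, ∀ j < r, ∀ j' < r, A r j → A r j' → j = j'

variable {A n}

theorem ba_kk_le : ba_kk A n ≤ n := (ba_least_spec _ n).1

theorem ba_kk_lt {i : ℕ} (h : i < ba_kk A n) (h0 : i ≠ 0) : ∃ j < i, A i j := by
  have := (ba_least_spec (fun i => i ≠ 0 ∧ ¬ ∃ j < i, A i j) n).2.1 i h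
  by_contra h1
  exact this ⟨h0, h1⟩

theorem ba_kk_bad (h : ba_kk A n < n) : ba_kk A n ≠ 0 ∧ ¬ ∃ j < ba_kk A n, A (ba_kk A n) j :=
  (ba_least_spec (fun i => i ≠ 0 ∧ ¬ ∃ j < i, A i j) n).2.2 h

theorem ba_vv_spec (h : ba_vv A n < n) :
    ba_kk A n < ba_vv A n ∧ ∃ w < ba_kk A n, A (ba_vv A n) w :=
  (ba_least_spec (fun v => ba_kk A n < v ∧ ∃ w < ba_kk A n, A v w) n).2.2 h

theorem ba_vv_lt {v : ℕ} (hv : v < n) (h : ba_kk A n < v) (h' : ∃ w < ba_kk A n, A v w) :
    ba_vv A n < n := by
  have h1 := ba_least_spec (fun v => ba_kk A n < v ∧ ∃ w < ba_kk A n, A v w) n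
  by_contra h2
  exact h1.2.1 v (lt_of_lt_of_le hv (not_lt.1 h2)) ⟨h, h'⟩

theorem ba_lt_kk {m : ℕ} (hm : m ≤ n) (h : ∀ i < m, i ≠ 0 → ∃ j < i, A i j) :
    m ≤ ba_kk A n := by
  by_contra h1
  have h2 := ba_kk_bad (A := A) (n := n) (by omega)
  exact h2.2 (h _ (by omega) h2.1)

end BAcomb

section BAgraph

variable {n : ℕ}

/-- the matrix of a graph -/
def ba_am (G : SimpleGraph (Fin n)) (i j : ℕ) : Prop :=
  ∃ (hi : i < n) (hj : j < n), G.Adj ⟨i, hi⟩ ⟨j, hj⟩

theorem ba_am_symm {G : SimpleGraph (Fin n)} {i j : ℕ} (h : ba_am G i j) : ba_am G j i := by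
  obtain ⟨hi, hj, h⟩ := h
  exact ⟨hj, hi, h.symm⟩

open Classical in
/-- the transposition as a permutation -/
noncomputable def ba_perm (G : SimpleGraph (Fin n)) : Equiv.Perm (Fin n) :=
  if h : ba_vv (ba_am G) n < n then
    Equiv.swap ⟨ba_kk (ba_am G) n, (ba_vv_spec h).1.trans h⟩ ⟨ba_vv (ba_am G) n, h⟩
  else Equiv.refl _

theorem ba_perm_val (G : SimpleGraph (Fin n)) (i : Fin n) :
    (ba_perm G i : ℕ) = ba_tau (ba_am G) n i := by
  unfold ba_perm ba_tau
  by_cases h : ba_vv (ba_am G) n < n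
  · rw [dif_pos h, if_pos h]
    by_cases h1 : (i : ℕ) = ba_kk (ba_am G) n
    · rw [if_pos h1]
      have h2 : i = ⟨ba_kk (ba_am G) n, (ba_vv_spec h).1.trans h⟩ := Fin.ext h1
      conv_lhs => rw [h2, Equiv.swap_apply_left]
    · rw [if_neg h1]
      by_cases h3 : (i : ℕ) = ba_vv (ba_am G) n
      · rw [if_pos h3]
        have h2 : i = ⟨ba_vv (ba_am G) n, h⟩ := Fin.ext h3
        conv_lhs => rw [h2, Equiv.swap_apply_right]
      · rw [if_neg h3, Equiv.swap_apply_of_ne_of_ne]
        · intro h4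
          exact h1 (congrArg Fin.val h4)
        · intro h4
          exact h3 (congrArg Fin.val h4)
  · rw [dif_neg h, if_neg h]
    rfl

/-- one step -/
noncomputable def ba_step (G : SimpleGraph (Fin n)) : SimpleGraph (Fin n) := G.comap (ba_perm G)

theorem ba_am_step (G : SimpleGraph (Fin n)) {i j : ℕ} (hi : i < n) (hj : j < n) :
    ba_am (ba_step G) i j ↔ ba_am G (ba_tau (ba_am G) n i) (ba_tau (ba_am G) n j) := by
  have h1 := ba_perm_val G ⟨i, hi⟩
  have h2 := ba_perm_val G ⟨j, hj⟩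
  simp only at h1 h2
  rw [← h1, ← h2]
  constructor
  · rintro ⟨_, _, h⟩
    exact ⟨(ba_perm G ⟨i, hi⟩).2, (ba_perm G ⟨j, hj⟩).2, h⟩
  · rintro ⟨_, _, h⟩
    exact ⟨hi, hj, h⟩

theorem ba_iso_step (G : SimpleGraph (Fin n)) : Nonempty (ba_step G ≃g G) :=
  ⟨SimpleGraph.Iso.comap (ba_perm G) G⟩

theorem ba_iso_iter (G : SimpleGraph (Fin n)) (m : ℕ) : Nonempty (ba_step^[m] G ≃g G) := by
  induction m with
  | zero => exact ⟨SimpleGraph.Iso.refl⟩
  | succ m ih =>
    rw [Function.iterate_succ_apply']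
    obtain ⟨e⟩ := ih
    obtain ⟨f⟩ := ba_iso_step (ba_step^[m] G)
    exact ⟨f.trans e⟩

theorem ba_vv_lt_of_conn (G : SimpleGraph (Fin n)) (hG : G.Preconnected)
    (hk : ba_kk (ba_am G) n < n) : ba_vv (ba_am G) n < n := by
  have hbad := ba_kk_bad hk
  obtain ⟨w⟩ := hG ⟨0, by omega⟩ ⟨ba_kk (ba_am G) n, hk⟩
  obtain ⟨d, _, h1, h2⟩ := w.exists_boundary_dart {i | (i : ℕ) < ba_kk (ba_am G) n}
    (show 0 < ba_kk (ba_am G) n by omega)
    (show ¬ (ba_kk (ba_am G) n < ba_kk (ba_am G) n) from lt_irrefl _)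
  have h3 : (d.fst : ℕ) < ba_kk (ba_am G) n := h1
  have h4 : ¬ (d.snd : ℕ) < ba_kk (ba_am G) n := h2
  have h5 : ba_am G d.snd d.fst := ⟨d.snd.2, d.fst.2, d.adj.symm⟩
  have h6 : (d.snd : ℕ) ≠ ba_kk (ba_am G) n := by
    intro h6
    rw [h6] at h5
    exact hbad.2 ⟨_, h3, h5⟩
  exact ba_vv_lt d.snd.2 (by omega) ⟨_, h3, h5⟩

theorem ba_progress (G : SimpleGraph (Fin n)) (hG : G.Preconnected)
    (hk : ba_kk (ba_am G) n < n) : ba_kk (ba_am G) n + 1 ≤ ba_kk (ba_am (ba_step G)) n := by
  have hv := ba_vv_lt_of_conn G hG hk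
  have hbad := ba_kk_bad hk
  obtain ⟨h1, w, hw, hvw⟩ := ba_vv_spec hv
  have hfix : ∀ i < ba_kk (ba_am G) n, ba_tau (ba_am G) n i = i := by
    intro i hi
    unfold ba_tau
    rw [if_pos hv, if_neg (by omega), if_neg (by omega)]
  apply ba_lt_kk (by omega)
  intro i hi h0
  by_cases hik : i = ba_kk (ba_am G) n
  · refine ⟨w, by omega, ?_⟩
    rw [ba_am_step G (by omega) (by omega), hfix w hw]
    unfold ba_tau
    rw [if_pos hv, if_pos hik]
    exact hvw
  · obtain ⟨j, hj, hij⟩ := ba_kk_lt (A := ba_am G) (n := n) (i := i) (by omega) h0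
    refine ⟨j, hj, ?_⟩
    rw [ba_am_step G (by omega) (by omega), hfix i (by omega), hfix j (by omega)]
    exact hij

theorem ba_step_eq (G : SimpleGraph (Fin n)) (hk : ba_kk (ba_am G) n = n) : ba_step G = G := by
  have hv : ¬ ba_vv (ba_am G) n < n := fun h => by
    have := (ba_vv_spec h).1
    omega
  unfold ba_step ba_perm
  rw [dif_neg hv]
  rfl

theorem ba_iter_kk (G : SimpleGraph (Fin n)) (hG : G.Connected) (m : ℕ) :
    min n m ≤ ba_kk (ba_am (ba_step^[m] G)) n := by
  induction m with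
  | zero => simp
  | succ m ih =>
    rw [Function.iterate_succ_apply']
    obtain ⟨e⟩ := ba_iso_iter G m
    have hc : (ba_step^[m] G).Connected := e.connected_iff.2 hG
    by_cases hk : ba_kk (ba_am (ba_step^[m] G)) n = n
    · rw [ba_step_eq _ hk, hk]
      exact min_le_left _ _
    · have h1 := ba_kk_le (A := ba_am (ba_step^[m] G)) (n := n)
      have h2 := ba_progress _ hc.preconnected (lt_of_le_of_ne h1 hk)
      omega

theorem ba_iter_eq (G : SimpleGraph (Fin n)) (hG : G.Connected) {m : ℕ} (hm : n ≤ m) :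
    ba_kk (ba_am (ba_step^[m] G)) n = n := by
  have h1 := ba_iter_kk G hG m
  have h2 := ba_kk_le (A := ba_am (ba_step^[m] G)) (n := n)
  rw [min_eq_left hm] at h1
  omega

/-- the parent -/
noncomputable def ba_pp (A : ℕ → ℕ → Prop) (r : ℕ) : ℕ := ba_least (A r) r

theorem ba_pp_spec {A : ℕ → ℕ → Prop} {r : ℕ} (h : ∃ j < r, A r j) :
    ba_pp A r < r ∧ A r (ba_pp A r) := by
  obtain ⟨j, hj, h⟩ := h
  have h1 := ba_least_spec (A r) r
  have h2 : ba_pp A r < r := by
    by_contra h3
    exact h1.2.1 j (lt_of_lt_of_le hj (not_lt.1 h3)) h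
  exact ⟨h2, h1.2.2 h2⟩

/-- the parents of a graph -/
noncomputable def ba_par {m : ℕ} {A : ℕ → ℕ → Prop}
    (h : ∀ r < m + 1, r ≠ 0 → ∃ j < r, A r j) : (i : Fin m) → Fin (i + 1) :=
  fun i => ⟨ba_pp A (i + 1), (ba_pp_spec (h (i + 1) (by omega) (by omega))).1⟩

theorem ba_treeOf_le {m : ℕ} (G : SimpleGraph (Fin (m + 1)))
    (h : ∀ r < m + 1, r ≠ 0 → ∃ j < r, ba_am G r j) : treeOf (ba_par h) ≤ G := by
  have key : ∀ (i : Fin m) (v : Fin (m + 1)), (v : ℕ) = ba_par h i → G.Adj i.succ v := by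
    intro i v hv
    obtain ⟨_, h2⟩ := ba_pp_spec (h (i + 1) (by omega) (by omega))
    obtain ⟨h3, h4, h5⟩ := h2
    have h6 : v = ⟨ba_pp (ba_am G) (i + 1), h4⟩ := Fin.ext hv
    have h7 : i.succ = ⟨(i : ℕ) + 1, h3⟩ := rfl
    rw [h6, h7]
    exact h5
  intro u v huv
  unfold treeOf at huv
  rw [SimpleGraph.fromRel_adj] at huv
  obtain ⟨_, ⟨i, rfl, h2⟩ | ⟨i, rfl, h2⟩⟩ := huv
  · exact key i v h2
  · exact (key i u h2).symm

theorem ba_treeOf_eq {m : ℕ} (G : SimpleGraph (Fin (m + 1))) (h : ba_T (ba_am G) (m + 1)) :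
    treeOf (ba_par h.1) = G := by
  apply le_antisymm (ba_treeOf_le G h.1)
  have key : ∀ u v : Fin (m + 1), v < u → G.Adj u v → (treeOf (ba_par h.1)).Adj u v := by
    intro u v hvu huv
    have h0 : (u : ℕ) ≠ 0 := by have : (v : ℕ) < u := hvu; omega
    obtain ⟨i, rfl⟩ := Fin.exists_succ_eq.2 (show u ≠ 0 from fun hu => h0 (by rw [hu]; rfl))
    obtain ⟨h1, h2⟩ := ba_pp_spec (h.1 (i + 1) (by omega) (by omega))
    have h3 := h.2 (i + 1) (by omega) v hvu (ba_pp (ba_am G) (i + 1)) h1
      ⟨by omega, v.2, huv⟩ h2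
    unfold treeOf
    rw [SimpleGraph.fromRel_adj]
    exact ⟨huv.ne, Or.inl ⟨i, rfl, h3⟩⟩
  intro u v huv
  rcases lt_trichotomy v u with h1 | h1 | h1
  · exact key u v h1 huv
  · exact absurd h1.symm huv.ne
  · exact (key v u h1 huv.symm).symm

theorem ba_T_of_tree {m : ℕ} (G : SimpleGraph (Fin (m + 1))) (hG : G.IsTree)
    (hk : ba_kk (ba_am G) (m + 1) = m + 1) : ba_T (ba_am G) (m + 1) := by
  have h : ∀ r < m + 1, r ≠ 0 → ∃ j < r, ba_am G r j := fun r hr h0 =>
    ba_kk_lt (n := m + 1) (by omega) h0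
  refine ⟨h, ?_⟩
  have hle := ba_treeOf_le G h
  have hmin := (SimpleGraph.isTree_iff_minimal_connected.1 hG)
  have hge : G ≤ treeOf (ba_par h) := hmin.2 (treeOf_isTree (ba_par h)).connected hle
  have key : ∀ r < m + 1, ∀ j < r, ba_am G r j → j = ba_pp (ba_am G) r := by
    intro r hr j hj hrj
    obtain ⟨h1, h2, h3⟩ := hrj
    have h4 := hge h3
    unfold treeOf at h4
    rw [SimpleGraph.fromRel_adj] at h4
    obtain ⟨_, ⟨i, h5, h6⟩ | ⟨i, h5, h6⟩⟩ := h4
    · have h7 : r = i + 1 := congrArg Fin.val h5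
      rw [h7]
      exact h6
    · exfalso
      have h7 : j = i + 1 := congrArg Fin.val h5
      have h8 : r = ba_par h i := h6
      have h9 := (ba_par h i).2
      omega
  intro r hr j hj j' hj' h1 h2
  rw [key r hr j hj h1, key r hr j' hj' h2]

end BAgraph

section BAenc

theorem ba_num_unary (l : List ℕ) (y : List Bool) (k : ℕ) (hk : k < l.length) :
    num (unary l ++ y) k = l.getD k 0 := by
  induction l generalizing k with
  | nil => simp at hk
  | cons a l ih =>
    induction a generalizing k with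
    | zero =>
      rw [PA_unary_zero, List.cons_append]
      cases k with
      | zero => rw [PA_num_false_zero, List.getD_cons_zero]
      | succ k =>
        rw [PA_num_false_succ, List.getD_cons_succ, ih k (by simpa using hk)]
    | succ a iha =>
      rw [PA_unary_succ, List.cons_append]
      cases k with
      | zero => rw [PA_num_true_zero, iha 0 (by simp), List.getD_cons_zero, List.getD_cons_zero]
      | succ k =>
        rw [PA_num_true_succ, iha (k + 1) (by simpa using hk), List.getD_cons_succ,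
          List.getD_cons_succ]

/-- the unary part -/
def ba_hd (x : List Bool) : List Bool := unary ((List.range (2 + num x 1)).map (num x))

/-- the matrix of a string -/
def ba_AA (x : List Bool) (i j : ℕ) : Prop :=
  i < num x 0 ∧ j < num x 0 ∧ x.getD ((ba_hd x).length + (i * num x 0 + j)) false = true

theorem ba_list_eq (c : ℕ) (f : ℕ → ℕ) :
    (List.range (2 + c)).map f = f 0 :: f 1 :: List.ofFn (fun j : Fin c => f (2 + j)) := by
  apply List.ext_getElem
  · simp; omega
  · intro k h1 h2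
    rw [List.getElem_map, List.getElem_range]
    rcases k with _ | _ | k
    · rfl
    · rfl
    · rw [List.getElem_cons_succ, List.getElem_cons_succ, List.getElem_ofFn]
      congr 1
      simp only
      omega

variable {n c : ℕ} (G : SimpleGraph (Fin n)) (b : Fin c → ℕ)

theorem ba_enc_num (k : ℕ) (hk : k < 2 + c) :
    num (encInstG G b) k = (n :: c :: List.ofFn b).getD k 0 := by
  unfold encInstG
  rw [ba_num_unary]
  simp
  omega

theorem ba_enc_num0 : num (encInstG G b) 0 = n := by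
  rw [ba_enc_num _ _ _ (by omega)]
  rfl

theorem ba_enc_num1 : num (encInstG G b) 1 = c := by
  rw [ba_enc_num _ _ _ (by omega)]
  rfl

theorem ba_enc_numb (j : Fin c) : num (encInstG G b) (2 + j) = b j := by
  rw [ba_enc_num _ _ _ (by omega), show 2 + (j : ℕ) = j + 1 + 1 by omega, List.getD_cons_succ,
    List.getD_cons_succ, List.getD_eq_getElem _ _ (by simp), List.getElem_ofFn]

theorem ba_enc_hd : ba_hd (encInstG G b) = unary (n :: c :: List.ofFn b) := by
  unfold ba_hd
  rw [ba_enc_num1, ba_list_eq, ba_enc_num0, ba_enc_num1]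
  simp only [ba_enc_numb]

theorem ba_adjBits_length : (adjBits G).length = n * n := by
  unfold adjBits
  rw [List.length_ofFn]

theorem ba_adjBits_getD (k : Fin (n * n)) :
    (adjBits G).getD k false = true ↔ G.Adj k.divNat k.modNat := by
  classical
  unfold adjBits
  rw [List.getD_eq_getElem _ _ (by rw [List.length_ofFn]; exact k.2), List.getElem_ofFn]
  simp

theorem ba_enc_length : (encInstG G b).length = (ba_hd (encInstG G b)).length + n * n := by
  rw [ba_enc_hd]
  unfold encInstG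
  rw [List.length_append, ba_adjBits_length]

theorem ba_enc_getD_left {p : ℕ} (hp : p < (ba_hd (encInstG G b)).length) :
    (encInstG G b).getD p false = (ba_hd (encInstG G b)).getD p false := by
  rw [ba_enc_hd] at hp ⊢
  unfold encInstG
  rw [List.getD_append _ _ _ _ hp]

theorem ba_enc_getD_right (k : Fin (n * n)) :
    (encInstG G b).getD ((ba_hd (encInstG G b)).length + k) false = true ↔
      G.Adj k.divNat k.modNat := by
  rw [ba_enc_hd]
  unfold encInstG
  rw [List.getD_append_right _ _ _ _ (by omega), Nat.add_sub_cancel_left]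
  exact ba_adjBits_getD G k

theorem ba_enc_AA : ba_AA (encInstG G b) = ba_am G := by
  funext i j
  unfold ba_AA ba_am
  rw [ba_enc_num0]
  apply propext
  constructor
  · rintro ⟨hi, hj, h⟩
    have hk : i * n + j < n * n := by
      calc i * n + j < i * n + n := by omega
        _ = (i + 1) * n := by ring
        _ ≤ n * n := Nat.mul_le_mul_right _ hi
    have h1 := (ba_enc_getD_right G b ⟨i * n + j, hk⟩).1 h
    refine ⟨hi, hj, ?_⟩
    have h2 : Fin.divNat (⟨i * n + j, hk⟩ : Fin (n * n)) = ⟨i, hi⟩ := by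
      apply Fin.ext
      simp only [Fin.coe_divNat]
      rw [Nat.add_comm, Nat.add_mul_div_right _ _ (by omega), Nat.div_eq_of_lt hj, zero_add]
    have h3 : Fin.modNat (⟨i * n + j, hk⟩ : Fin (n * n)) = ⟨j, hj⟩ := by
      apply Fin.ext
      simp only [Fin.coe_modNat]
      rw [Nat.add_comm, Nat.add_mul_mod_self_right, Nat.mod_eq_of_lt hj]
    rw [h2, h3] at h1
    exact h1
  · rintro ⟨hi, hj, h⟩
    have hk : i * n + j < n * n := by
      calc i * n + j < i * n + n := by omega
        _ = (i + 1) * n := by ring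
        _ ≤ n * n := Nat.mul_le_mul_right _ hi
    refine ⟨hi, hj, (ba_enc_getD_right G b ⟨i * n + j, hk⟩).2 ?_⟩
    have h2 : Fin.divNat (⟨i * n + j, hk⟩ : Fin (n * n)) = ⟨i, hi⟩ := by
      apply Fin.ext
      simp only [Fin.coe_divNat]
      rw [Nat.add_comm, Nat.add_mul_div_right _ _ (by omega), Nat.div_eq_of_lt hj, zero_add]
    have h3 : Fin.modNat (⟨i * n + j, hk⟩ : Fin (n * n)) = ⟨j, hj⟩ := by
      apply Fin.ext
      simp only [Fin.coe_modNat]
      rw [Nat.add_comm, Nat.add_mul_mod_self_right, Nat.mod_eq_of_lt hj]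
    rw [h2, h3]
    exact h

/-- the string is a code of an instance -/
def ba_V (x : List Bool) : Prop :=
  x.length = (ba_hd x).length + num x 0 * num x 0 ∧
  (∀ i < (ba_hd x).length, (x.getD i false = true ↔ (ba_hd x).getD i false = true)) ∧
  ∀ i < num x 0, ∀ j < num x 0, (ba_AA x i j → ba_AA x j i) ∧ ¬ ba_AA x i i

theorem ba_V_enc : ba_V (encInstG G b) := by
  refine ⟨?_, ?_, ?_⟩
  · rw [ba_enc_num0]
    exact ba_enc_length G b
  · intro i hi
    rw [ba_enc_getD_left G b hi]
  · intro i _ j _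
    rw [ba_enc_AA]
    refine ⟨fun h => ba_am_symm h, ?_⟩
    rintro ⟨h1, h2, h3⟩
    exact h3.ne rfl

/-- the graph of a string -/
def ba_gr (x : List Bool) (h : ba_V x) : SimpleGraph (Fin (num x 0)) where
  Adj i j := ba_AA x i j
  symm := ⟨fun i j hij => (h.2.2 i i.2 j j.2).1 hij⟩
  loopless := ⟨fun i => (h.2.2 i i.2 i i.2).2⟩

theorem ba_eq_of_getD {x y : List Bool} (hl : x.length = y.length)
    (h : ∀ i < x.length, (x.getD i false = true ↔ y.getD i false = true)) : x = y := by
  apply List.ext_getElem hl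
  intro i h1 h2
  have h3 := h i h1
  rw [List.getD_eq_getElem _ _ h1, List.getD_eq_getElem _ _ h2] at h3
  exact Bool.eq_iff_iff.2 h3

theorem ba_enc_of_V {x : List Bool} (h : ba_V x) :
    x = encInstG (ba_gr x h) (fun j : Fin (num x 1) => num x (2 + j)) := by
  classical
  have h0 : unary (num x 0 :: num x 1 :: List.ofFn (fun j : Fin (num x 1) => num x (2 + j))) =
      ba_hd x := by
    unfold ba_hd
    rw [ba_list_eq]
  unfold encInstG
  rw [h0]
  apply ba_eq_of_getD
  · rw [List.length_append, ba_adjBits_length]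
    exact h.1
  · intro i hi
    by_cases h1 : i < (ba_hd x).length
    · rw [List.getD_append _ _ _ _ h1]
      exact h.2.1 i h1
    · rw [List.getD_append_right _ _ _ _ (by omega)]
      have hk : i - (ba_hd x).length < num x 0 * num x 0 := by
        have := h.1
        omega
      refine Iff.trans ?_ (ba_adjBits_getD (ba_gr x h) ⟨i - (ba_hd x).length, hk⟩).symm
      show _ ↔ ba_AA x (Fin.divNat (⟨i - (ba_hd x).length, hk⟩ : Fin (num x 0 * num x 0)))
        (Fin.modNat (⟨i - (ba_hd x).length, hk⟩ : Fin (num x 0 * num x 0)))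
      unfold ba_AA
      simp only [Fin.coe_divNat, Fin.coe_modNat]
      have hn : 0 < num x 0 := by
        rcases Nat.eq_zero_or_pos (num x 0) with h2 | h2
        · rw [h2] at hk
          omega
        · exact h2
      have h3 : (i - (ba_hd x).length) / num x 0 < num x 0 := Nat.div_lt_of_lt_mul hk
      have h4 : (i - (ba_hd x).length) % num x 0 < num x 0 := Nat.mod_lt _ hn
      have h5 : (ba_hd x).length + ((i - (ba_hd x).length) / num x 0 * num x 0 +
          (i - (ba_hd x).length) % num x 0) = i := by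
        rw [Nat.div_add_mod']
        omega
      rw [h5]
      exact ⟨fun h6 => ⟨h3, h4, h6⟩, fun h6 => h6.2.2⟩

open Classical in
/-- the bits of the step function -/
noncomputable def ba_Q (x : List Bool) (p : ℕ) : Prop :=
  if ba_V x ∧ (ba_hd x).length ≤ p then
    ba_AA x (ba_tau (ba_AA x) (num x 0) ((p - (ba_hd x).length) / num x 0))
      (ba_tau (ba_AA x) (num x 0) ((p - (ba_hd x).length) % num x 0))
  else x.getD p false = true

open Classical in
/-- the step function -/
noncomputable def ba_ff (x : List Bool) : List Bool :=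
  (List.range x.length).map (fun p => decide (ba_Q x p))

theorem ba_ff_length (x : List Bool) : (ba_ff x).length = x.length := by
  unfold ba_ff
  simp

theorem ba_ff_getD (x : List Bool) {p : ℕ} (hp : p < x.length) :
    (ba_ff x).getD p false = true ↔ ba_Q x p := by
  classical
  rw [List.getD_eq_getElem _ _ (by rw [ba_ff_length]; exact hp)]
  unfold ba_ff
  rw [List.getElem_map, List.getElem_range, decide_eq_true_iff]

theorem ba_ff_of_not {x : List Bool} (h : ¬ ba_V x) : ba_ff x = x := by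
  apply ba_eq_of_getD (ba_ff_length x)
  intro i hi
  rw [ba_ff_length] at hi
  rw [ba_ff_getD x hi]
  unfold ba_Q
  rw [if_neg (fun h1 => h h1.1)]

theorem ba_ff_enc : ba_ff (encInstG G b) = encInstG (ba_step G) b := by
  apply ba_eq_of_getD
  · rw [ba_ff_length, ba_enc_length, ba_enc_length, ba_enc_hd, ba_enc_hd]
  · intro i hi
    rw [ba_ff_length] at hi
    rw [ba_ff_getD _ hi]
    unfold ba_Q
    have hhd : ba_hd (encInstG (ba_step G) b) = ba_hd (encInstG G b) := by
      rw [ba_enc_hd, ba_enc_hd]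
    by_cases h1 : (ba_hd (encInstG G b)).length ≤ i
    · rw [if_pos ⟨ba_V_enc G b, h1⟩, ba_enc_AA, ba_enc_num0]
      rw [ba_enc_length] at hi
      obtain ⟨k, rfl⟩ := Nat.exists_eq_add_of_le h1
      have hk : k < n * n := by omega
      have h2 := ba_enc_getD_right (ba_step G) b ⟨k, hk⟩
      rw [hhd] at h2
      simp only at h2
      rw [h2, Nat.add_sub_cancel_left]
      have hn : 0 < n := by
        rcases Nat.eq_zero_or_pos n with h2 | h2
        · subst h2
          omega
        · exact h2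
      rw [← ba_am_step G (Nat.div_lt_of_lt_mul hk) (Nat.mod_lt _ hn)]
      constructor
      · rintro ⟨_, _, h3⟩
        exact h3
      · intro h3
        exact ⟨_, _, h3⟩
    · rw [if_neg (fun h2 => h1 h2.2), ba_enc_getD_left G b (by omega),
        ba_enc_getD_left (ba_step G) b (by rw [hhd]; omega), hhd]

theorem ba_ff_iter (m : ℕ) : ba_ff^[m] (encInstG G b) = encInstG (ba_step^[m] G) b := by
  induction m with
  | zero => rfl
  | succ m ih => rw [Function.iterate_succ_apply', ih, ba_ff_enc, Function.iterate_succ_apply']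

end BAenc

section BAout

/-- the numbers of the output -/
noncomputable def ba_out (x : List Bool) (k : ℕ) : ℕ :=
  if k = 0 then num x 0 - 1 else if k = 1 then num x 1
  else if k < 2 + (num x 0 - 1) then ba_pp (ba_AA x) (k - 1)
  else num x (2 + (k - (2 + (num x 0 - 1))))

/-- the test before the output -/
def ba_C (x : List Bool) : Prop :=
  ba_V x ∧ 3 ≤ num x 1 ∧ num x 0 ≠ 0 ∧ ba_T (ba_AA x) (num x 0)

open Classical in
/-- the output -/
noncomputable def ba_gg (x : List Bool) : List Bool :=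
  if ba_C x then unary ((List.range (2 + (num x 0 - 1) + num x 1)).map (ba_out x)) else []

theorem ba_gg_enc {m c : ℕ} (G : SimpleGraph (Fin (m + 1))) (b : Fin c → ℕ) (hc : 3 ≤ c)
    (h : ba_T (ba_am G) (m + 1)) : ba_gg (encInstG G b) = encInst (ba_par h.1) b := by
  have hC : ba_C (encInstG G b) := by
    refine ⟨ba_V_enc G b, ?_, ?_, ?_⟩
    · rw [ba_enc_num1]; exact hc
    · rw [ba_enc_num0]; omega
    · rw [ba_enc_num0, ba_enc_AA]; exact h
  unfold ba_gg
  rw [if_pos hC, ba_enc_num0, ba_enc_num1, Nat.add_sub_cancel,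
    PA_list_eq (n := m) (c := c) (ba_out (encInstG G b))
      (by unfold ba_out; rw [if_pos rfl, ba_enc_num0, Nat.add_sub_cancel])
      (by unfold ba_out; rw [if_neg (by omega), if_pos rfl, ba_enc_num1])]
  unfold encInst
  congr 3
  congr 1
  · congr 1
    funext i
    unfold ba_out
    rw [if_neg (by omega), if_neg (by omega), ba_enc_num0, Nat.add_sub_cancel,
      if_pos (by omega), ba_enc_AA]
    rfl
  · congr 1
    funext j
    unfold ba_out
    rw [if_neg (by omega), if_neg (by omega), ba_enc_num0, Nat.add_sub_cancel,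
      if_neg (by omega), Nat.add_sub_cancel_left, ba_enc_numb]

theorem ba_nil_not_mem : ([] : List Bool) ∉ BCPTree := by
  rw [mem_BCPTree_iff]
  rintro ⟨⟨_, _, h, _⟩, _⟩
  unfold cX at h
  rw [PA_num_nil] at h
  omega

theorem ba_mem_enc {n c : ℕ} (p : (i : Fin n) → Fin (i + 1)) (b : Fin c → ℕ)
    (h : encInst p b ∈ BCPTree) : BudgetColorable (treeOf p) b := by
  obtain ⟨_, hf⟩ := (mem_BCPTree_iff _).1 h
  have hk : ∀ k, num (encInst p b) k =
      (n :: c :: (List.ofFn (fun i => (p i : ℕ)) ++ List.ofFn b)).getD k 0 := fun k =>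
    num_unary _ k
  have h0 : num (encInst p b) 0 = n := by rw [hk]; rfl
  have h1 : num (encInst p b) 1 = c := by rw [hk]; rfl
  have hp : ∀ i : Fin n, num (encInst p b) (i + 2) = p i := by
    intro i
    rw [hk, List.getD_cons_succ, List.getD_cons_succ, List.getD_append _ _ _ _ (by simp),
      List.getD_eq_getElem _ _ (by simp), List.getElem_ofFn]
  have hb : ∀ j : Fin c, num (encInst p b) (2 + n + j) = b j := by
    intro j
    rw [hk, show 2 + n + (j : ℕ) = (n + j) + 1 + 1 by omega, List.getD_cons_succ,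
      List.getD_cons_succ, List.getD_append_right _ _ _ _ (by simp), List.length_ofFn,
      Nat.add_sub_cancel_left, List.getD_eq_getElem _ _ (by simp), List.getElem_ofFn]
  unfold nX cX at hf
  rw [h0, h1] at hf
  refine (budgetColorable_iff p b (pX (encInst p b)) (bX (encInst p b)) (fun i => ?_)
    (fun j => ?_)).2 hf
  · unfold pX
    rw [if_neg (by omega)]
    exact hp i
  · unfold bX
    rw [h0]
    exact hb j

theorem ba_col_iso {V W : Type} [Fintype V] [Fintype W] {G : SimpleGraph V} {H : SimpleGraph W}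
    (e : G ≃g H) {c : ℕ} (b : Fin c → ℕ) (h : BudgetColorable G b) : BudgetColorable H b := by
  classical
  obtain ⟨φ, hφ⟩ := h
  refine ⟨φ.comp e.symm.toHom, fun j => ?_⟩
  refine le_trans (le_of_eq ?_) (hφ j)
  refine Finset.card_equiv e.symm.toEquiv ?_
  intro w
  rw [Finset.mem_filter, Finset.mem_filter]
  simp only [Finset.mem_univ, true_and]
  exact Iff.rfl

theorem ba_main (x : List Bool) : ba_gg (ba_ff^[x.length] x) ∈ BCPTree ↔ x ∈ BCPT := by
  by_cases hV : ba_V x
  · constructor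
    · obtain ⟨n, c, G, b, rfl⟩ : ∃ (n c : ℕ) (G : SimpleGraph (Fin n)) (b : Fin c → ℕ),
        x = encInstG G b := ⟨_, _, _, _, ba_enc_of_V hV⟩
      rw [ba_ff_iter]
      obtain ⟨e⟩ := ba_iso_iter G (encInstG G b).length
      generalize ba_step^[(encInstG G b).length] G = G1 at e
      intro h
      by_cases hC : ba_C (encInstG G1 b)
      · obtain ⟨_, hc, hn, hT⟩ := hC
        rw [ba_enc_num1] at hc
        rw [ba_enc_num0] at hn hT
        rw [ba_enc_AA] at hT
        obtain ⟨m, rfl⟩ := Nat.exists_eq_succ_of_ne_zero hn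
        rw [ba_gg_enc G1 b hc hT] at h
        have h1 := ba_mem_enc _ _ h
        have h2 := ba_treeOf_eq G1 hT
        have h3 := treeOf_isTree (ba_par hT.1)
        rw [h2] at h1 h3
        exact ⟨_, c, G, b, e.isTree_iff.1 h3, hc, rfl, ba_col_iso e b h1⟩
      · unfold ba_gg at h
        rw [if_neg hC] at h
        exact absurd h ba_nil_not_mem
    · rintro ⟨n, c, G, b, hG, hc, rfl, hcol⟩
      obtain ⟨m, rfl⟩ : ∃ m, n = m + 1 := by
        obtain ⟨v⟩ := hG.connected.nonempty
        exact ⟨n - 1, by have := v.2; omega⟩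
      rw [ba_ff_iter]
      have hlen : m + 1 ≤ (encInstG G b).length := by
        rw [ba_enc_length]
        nlinarith
      have hk := ba_iter_eq G hG.connected hlen
      obtain ⟨e⟩ := ba_iso_iter G (encInstG G b).length
      generalize ba_step^[(encInstG G b).length] G = G1 at e hk ⊢
      have hT := ba_T_of_tree G1 (e.isTree_iff.2 hG) hk
      rw [ba_gg_enc G1 b hc hT]
      refine ⟨m, c, _, b, hc, rfl, ?_⟩
      rw [ba_treeOf_eq G1 hT]
      exact ba_col_iso e.symm b hcol
  · have h1 : ∀ m, ba_ff^[m] x = x := by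
      intro m
      induction m with
      | zero => rfl
      | succ m ih => rw [Function.iterate_succ_apply', ih, ba_ff_of_not hV]
    rw [h1]
    have h2 : ba_gg x = [] := by
      unfold ba_gg
      rw [if_neg (fun h => hV h.1)]
    rw [h2]
    refine ⟨fun h => absurd h ba_nil_not_mem, ?_⟩
    rintro ⟨n, c, G, b, _, _, rfl, _⟩
    exact absurd (ba_V_enc G b) hV

end BAout

section BApoly

variable {α : Type} [Ctx α]

theorem ba_pl_unary {L : List Bool → α → ℕ} {B : List Bool → α × ℕ → ℕ} (hL : PF L) (hB : PF B) :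
    PL (fun x a => unary ((List.range (L x a)).map (fun i => B x (a, i)))) := by
  refine (PL.flatMap hL ((PL.replicate hB true).append (PL.const_cons false))).congr
    fun x a => ?_
  unfold unary
  rw [List.flatMap_map]

theorem ba_pfbits {f : List Bool → List Bool} (hf : PL (fun x (_ : Unit) => f x)) : PFBits f := by
  obtain ⟨L, P, hL, ⟨F, hF, hPF⟩, h⟩ := hf
  refine ⟨fun x => L x (), fun x i => F x ((), i), hL, hF, fun x => ?_⟩
  refine (h x ()).trans ?_
  apply List.map_congr_left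
  intro i _
  have h1 := hPF x ((), i)
  by_cases h2 : P x ((), i)
  · have h3 := h1.1 h2
    simp [h2, h3]
  · have h3 : ¬ F x ((), i) ≠ 0 := fun h4 => h2 (h1.2 h4)
    simp only [h2, h3]

theorem ba_pl_hd : PL (fun x (_ : α) => ba_hd x) := by
  unfold ba_hd
  exact ba_pl_unary (B := fun x (p : α × ℕ) => num x p.2)
    ((PF.const 2).add (pf_num (PF.const 1))) (pf_num PF.snd)

theorem ba_pd_AA {F G : List Bool → α → ℕ} (hF : PF F) (hG : PF G) :
    PD (fun x a => ba_AA x (F x a) (G x a)) := by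
  unfold ba_AA
  have h0 : PF (fun x (_ : α) => num x 0) := pf_num (PF.const 0)
  exact (PD.lt hF h0).and ((PD.lt hG h0).and
    (PD.bit (PF.add (PL.length ba_pl_hd) ((hF.mul h0).add hG))))

theorem ba_pf_least {B : List Bool → α → ℕ} {P : List Bool → α × ℕ → Prop} (hB : PF B)
    (hP : PD P) : PF (fun x a => ba_least (fun i => P x (a, i)) (B x a)) := by
  classical
  unfold ba_least
  refine (PF.count (P := fun x (p : α × ℕ) => ∀ j < p.2 + 1, ¬ P x (p.1, j)) hB
    (PD.forall_lt (B := fun _ (p : α × ℕ) => p.2 + 1)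
      (P := fun x (q : (α × ℕ) × ℕ) => ¬ P x (q.1.1, q.2)) (PF.snd.add (PF.const 1))
      (PD.sub1 (π := fun q : (α × ℕ) × ℕ => q.1.1) Proj.id.fst.fst PF.snd hP).not)).congr
    fun x a => ?_
  congr!

theorem ba_pf_kk : PF (fun x (_ : α) => ba_kk (ba_AA x) (num x 0)) := by
  unfold ba_kk
  exact ba_pf_least (P := fun x (p : α × ℕ) => p.2 ≠ 0 ∧ ¬ ∃ j < p.2, ba_AA x p.2 j)
    (pf_num (PF.const 0)) ((PF.ne_zero PF.snd).and
      (PD.exists_lt (B := fun _ (p : α × ℕ) => p.2)
        (P := fun x (q : (α × ℕ) × ℕ) => ba_AA x q.1.2 q.2) PF.snd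
        (ba_pd_AA PF.snd.fst PF.snd)).not)

theorem ba_pf_vv : PF (fun x (_ : α) => ba_vv (ba_AA x) (num x 0)) := by
  unfold ba_vv
  exact ba_pf_least (P := fun x (p : α × ℕ) => ba_kk (ba_AA x) (num x 0) < p.2 ∧
      ∃ w < ba_kk (ba_AA x) (num x 0), ba_AA x p.2 w)
    (pf_num (PF.const 0)) ((PD.lt ba_pf_kk PF.snd).and
      (PD.exists_lt (B := fun x (_ : α × ℕ) => ba_kk (ba_AA x) (num x 0))
        (P := fun x (q : (α × ℕ) × ℕ) => ba_AA x q.1.2 q.2) ba_pf_kk
        (ba_pd_AA PF.snd.fst PF.snd)))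

theorem ba_pf_tau {F : List Bool → α → ℕ} (hF : PF F) :
    PF (fun x a => ba_tau (ba_AA x) (num x 0) (F x a)) := by
  unfold ba_tau
  exact PF.ite (PD.lt ba_pf_vv (pf_num (PF.const 0)))
    (PF.ite (PD.eq hF ba_pf_kk) ba_pf_vv (PF.ite (PD.eq hF ba_pf_vv) ba_pf_kk hF)) hF

theorem ba_pd_iff {P Q : List Bool → α → Prop} (hP : PD P) (hQ : PD Q) :
    PD (fun x a => (P x a ↔ Q x a)) :=
  (((hP.and hQ).or (hP.not.and hQ.not))).congr fun x a => by tauto

theorem ba_pd_imp {P Q : List Bool → α → Prop} (hP : PD P) (hQ : PD Q) :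
    PD (fun x a => (P x a → Q x a)) :=
  (hP.not.or hQ).congr fun x a => by tauto

theorem ba_pd_V : PD (fun x (_ : α) => ba_V x) := by
  unfold ba_V
  have h0 : ∀ {β : Type} [Ctx β], PF (fun x (_ : β) => num x 0) := pf_num (PF.const 0)
  refine (PD.eq PF.len ((PL.length ba_pl_hd).add (h0.mul h0))).and (PD.and ?_ ?_)
  · exact PD.forall_lt (B := fun x (_ : α) => (ba_hd x).length)
      (P := fun x (p : α × ℕ) => (x.getD p.2 false = true ↔ (ba_hd x).getD p.2 false = true))
      (PL.length ba_pl_hd) (ba_pd_iff (PD.bit PF.snd) (PL.getD ba_pl_hd))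
  · exact PD.forall_lt (B := fun x (_ : α) => num x 0)
      (P := fun x (p : α × ℕ) => ∀ j < num x 0, (ba_AA x p.2 j → ba_AA x j p.2) ∧
        ¬ ba_AA x p.2 p.2) h0
      (PD.forall_lt (B := fun x (_ : α × ℕ) => num x 0)
        (P := fun x (q : (α × ℕ) × ℕ) => (ba_AA x q.1.2 q.2 → ba_AA x q.2 q.1.2) ∧
        ¬ ba_AA x q.1.2 q.1.2) h0
        ((ba_pd_imp (ba_pd_AA PF.snd.fst PF.snd) (ba_pd_AA PF.snd PF.snd.fst)).and
          (ba_pd_AA PF.snd.fst PF.snd.fst).not))

theorem ba_pd_T : PD (fun x (_ : α) => ba_T (ba_AA x) (num x 0)) := by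
  unfold ba_T
  have h0 : ∀ {β : Type} [Ctx β], PF (fun x (_ : β) => num x 0) := pf_num (PF.const 0)
  refine PD.and ?_ ?_
  · exact PD.forall_lt (B := fun x (_ : α) => num x 0)
      (P := fun x (p : α × ℕ) => p.2 ≠ 0 → ∃ j < p.2, ba_AA x p.2 j) h0
      (ba_pd_imp (PF.ne_zero PF.snd) (PD.exists_lt (B := fun _ (p : α × ℕ) => p.2)
        (P := fun x (q : (α × ℕ) × ℕ) => ba_AA x q.1.2 q.2) PF.snd
        (ba_pd_AA PF.snd.fst PF.snd)))
  · exact PD.forall_lt (B := fun x (_ : α) => num x 0)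
      (P := fun x (p : α × ℕ) => ∀ j < p.2, ∀ j' < p.2, ba_AA x p.2 j → ba_AA x p.2 j' → j = j')
      h0
      (PD.forall_lt (B := fun _ (p : α × ℕ) => p.2)
        (P := fun x (q : (α × ℕ) × ℕ) => ∀ j' < q.1.2, ba_AA x q.1.2 q.2 →
          ba_AA x q.1.2 j' → q.2 = j') PF.snd
        (PD.forall_lt (B := fun _ (q : (α × ℕ) × ℕ) => q.1.2)
          (P := fun x (t : ((α × ℕ) × ℕ) × ℕ) => ba_AA x t.1.1.2 t.1.2 →
            ba_AA x t.1.1.2 t.2 → t.1.2 = t.2) PF.snd.fst
          (ba_pd_imp (ba_pd_AA PF.snd.fst.fst PF.snd.fst)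
            (ba_pd_imp (ba_pd_AA PF.snd.fst.fst PF.snd) (PD.eq PF.snd.fst PF.snd)))))

theorem ba_pf_pp {F : List Bool → α → ℕ} (hF : PF F) : PF (fun x a => ba_pp (ba_AA x) (F x a)) := by
  unfold ba_pp
  exact ba_pf_least (P := fun x (p : α × ℕ) => ba_AA x (F x p.1) p.2) hF
    (ba_pd_AA hF.fst PF.snd)

theorem ba_ff_pfbits : PFBits ba_ff := by
  classical
  apply ba_pfbits
  refine ⟨fun x _ => x.length, fun x p => ba_Q x p.2, PF.len, ?_, fun x a => ?_⟩
  · unfold ba_Q
    have h1 : PD (fun x (p : Unit × ℕ) => ba_V x ∧ (ba_hd x).length ≤ p.2) :=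
      ba_pd_V.and (PD.le (PL.length ba_pl_hd) PF.snd)
    have h2 : PF (fun x (p : Unit × ℕ) => p.2 - (ba_hd x).length) :=
      PF.snd.sub (PL.length ba_pl_hd)
    have h0 : PF (fun x (_ : Unit × ℕ) => num x 0) := pf_num (PF.const 0)
    refine ((h1.and (ba_pd_AA (ba_pf_tau (h2.div h0)) (ba_pf_tau (h2.mod h0)))).or
      (h1.not.and (PD.bit PF.snd))).congr fun x p => ?_
    by_cases h : ba_V x ∧ (ba_hd x).length ≤ p.2
    · rw [if_pos h]
      tauto
    · rw [if_neg h]
      tauto
  · unfold ba_ff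
    apply List.map_congr_left
    intro i _
    congr

theorem ba_gg_pfbits : PFBits ba_gg := by
  classical
  apply ba_pfbits
  have h0 : ∀ {β : Type} [Ctx β], PF (fun x (_ : β) => num x 0) := pf_num (PF.const 0)
  have hC : PD (fun x (_ : Unit) => ba_C x) := by
    unfold ba_C
    exact ba_pd_V.and ((PD.le (PF.const 3) (pf_num (PF.const 1))).and
      ((PF.ne_zero h0).and ba_pd_T))
  have hout : PF (fun x (p : Unit × ℕ) => ba_out x p.2) := by
    unfold ba_out
    exact PF.ite (PD.eq PF.snd (PF.const 0)) (h0.sub (PF.const 1))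
      (PF.ite (PD.eq PF.snd (PF.const 1)) (pf_num (PF.const 1))
        (PF.ite (PD.lt PF.snd ((PF.const 2).add (h0.sub (PF.const 1))))
          (ba_pf_pp (PF.snd.sub (PF.const 1)))
          (pf_num ((PF.const 2).add (PF.snd.sub ((PF.const 2).add (h0.sub (PF.const 1))))))))
  refine (PL.ite hC (ba_pl_unary (B := fun x (p : Unit × ℕ) => ba_out x p.2)
    (((PF.const 2).add (h0.sub (PF.const 1))).add (pf_num (PF.const 1))) hout)
    PL.nil).congr fun x a => ?_
  unfold ba_gg
  congr

/-- From adjacency matrices to parent lists. -/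
theorem exists_toPar : ∃ F : List Bool → List Bool, PC F ∧ ∀ x, F x ∈ BCPTree ↔ x ∈ BCPT := by
  refine ⟨fun x => ba_gg (ba_ff^[x.length] x), ?_, ba_main⟩
  exact PC.comp (PFBits.pc ba_gg_pfbits)
    (PFBits.iterate ba_ff_pfbits (fun x => (ba_ff_length x).le) PF.len)

end BApoly

end Pool.Agent.BCP
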