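import Mathlib
import Pool.Agent.BCP.AdjDefs
import Pool.Agent.BCP.Parse
import Pool.Agent.Lib.PolyTime.Iter

namespace Pool.Agent.BCP

open Pool.Agent.PolyTime Finset

theorem BB_pfBits {f : List Bool → List Bool} (hf : PL (fun x (_ : Unit) => f x)) : PFBits f := by
  obtain ⟨L, P, hL, ⟨B, hB, hPB⟩, h⟩ := hf
  refine ⟨fun x => L x (), fun x i => B x ((), i), hL, hB, fun x => ?_⟩
  refine (h x ()).trans ?_
  apply List.map_congr_left
  intro i _
  simp only [decide_eq_decide]
  exact hPB x ((), i)

/-- Entry of the output list. -/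
def BB_ent (x : List Bool) (i : ℕ) : ℕ :=
  if i = 0 then num x 0 + 1 else if i = 1 then num x 1 else num x (num x 0 + i)

/-- Unary part of the output. -/
def BB_un (x : List Bool) : List Bool :=
  (List.range (2 + num x 1)).flatMap (fun i => List.replicate (BB_ent x i) true ++ [false])

/-- Adjacency. -/
def BB_adj (x : List Bool) (u v : ℕ) : Prop :=
  (0 < u ∧ num x (u + 1) = v ∧ v < u) ∨ (0 < v ∧ num x (v + 1) = u ∧ u < v)

open Classical in
/-- The bits of the matrix. -/
noncomputable def BB_mat (x : List Bool) : List Bool :=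
  (List.range ((num x 0 + 1) * (num x 0 + 1))).map
    (fun k => decide (BB_adj x (k / (num x 0 + 1)) (k % (num x 0 + 1))))

theorem BB_pl_un : PL (fun x (_ : Unit) => BB_un x) := by
  have hent : PF (fun x (p : Unit × ℕ) => BB_ent x p.2) := by
    unfold BB_ent
    refine PF.ite (PD.eq PF.snd (PF.const 0)) ((pf_num (PF.const 0)).add (PF.const 1)) ?_
    exact PF.ite (PD.eq PF.snd (PF.const 1)) (pf_num (PF.const 1))
      (pf_num ((pf_num (PF.const 0)).add PF.snd))
  unfold BB_un
  refine PL.flatMap (C := fun x (_ : Unit) => 2 + num x 1)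
    (G := fun x (p : Unit × ℕ) => List.replicate (BB_ent x p.2) true ++ [false])
    ((PF.const 2).add (pf_num (PF.const 1))) ?_
  exact (PL.replicate hent true).append (PL.const_cons false)

theorem BB_pl_mat : PL (fun x (_ : Unit) => BB_mat x) := by
  have hN : PF (fun x (_ : Unit) => num x 0 + 1) := (pf_num (PF.const 0)).add (PF.const 1)
  have hN' : PF (fun x (_ : Unit × ℕ) => num x 0 + 1) := (pf_num (PF.const 0)).add (PF.const 1)
  have hu : PF (fun x (p : Unit × ℕ) => p.2 / (num x 0 + 1)) := PF.snd.div hN'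
  have hv : PF (fun x (p : Unit × ℕ) => p.2 % (num x 0 + 1)) := PF.snd.mod hN'
  have key : ∀ {A B : List Bool → Unit × ℕ → ℕ}, PF A → PF B →
      PD (fun x p => 0 < A x p ∧ num x (A x p + 1) = B x p ∧ B x p < A x p) := by
    intro A B hA hB
    exact (PD.lt (PF.const 0) hA).and ((PD.eq (pf_num (hA.add (PF.const 1))) hB).and
      (PD.lt hB hA))
  refine ⟨fun x _ => (num x 0 + 1) * (num x 0 + 1),
    fun x p => BB_adj x (p.2 / (num x 0 + 1)) (p.2 % (num x 0 + 1)), hN.mul hN, ?_, ?_⟩
  · unfold BB_adj
    exact (key hu hv).or (key hv hu)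
  · intro x a
    rfl

theorem BB_un_eq {x : List Bool} {n c : ℕ} {b : Fin c → ℕ} (h0 : num x 0 = n) (h1 : num x 1 = c)
    (hb : ∀ j : Fin c, num x (2 + n + j) = b j) :
    BB_un x = unary ((n + 1) :: c :: List.ofFn b) := by
  have h2 : (n + 1) :: c :: List.ofFn b = (List.range (2 + num x 1)).map (BB_ent x) := by
    apply List.ext_getElem
    · simp [h1]; omega
    · intro k k1 k2
      rw [List.getElem_map, List.getElem_range]
      rcases k with _ | _ | k
      · simp [BB_ent, h0]
      · simp [BB_ent, h1]
      · rw [List.getElem_cons_succ, List.getElem_cons_succ, List.getElem_ofFn]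
        unfold BB_ent
        rw [if_neg (by omega), if_neg (by omega), h0, ← hb]
        congr 1
        simp only
        omega
  rw [h2]
  unfold BB_un unary
  rw [List.flatMap_map]

theorem BB_mat_eq {x : List Bool} {n : ℕ} (p : (i : Fin n) → Fin (i + 1)) (h0 : num x 0 = n)
    (hp : ∀ i : Fin n, num x (i + 2) = p i) : BB_mat x = adjBits (treeOf p) := by
  unfold BB_mat adjBits
  rw [h0]
  apply List.ext_getElem
  · rw [List.length_map, List.length_range, List.length_ofFn]
  · intro k k1 k2
    rw [List.getElem_map, List.getElem_range, List.getElem_ofFn]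
    simp only [decide_eq_decide]
    unfold treeOf
    rw [SimpleGraph.fromRel_adj]
    simp only [List.length_map, List.length_range] at k1
    set u : Fin (n + 1) := Fin.divNat ⟨k, by simpa using k1⟩ with hu
    set v : Fin (n + 1) := Fin.modNat ⟨k, by simpa using k1⟩ with hv
    have hu' : (u : ℕ) = k / (n + 1) := rfl
    have hv' : (v : ℕ) = k % (n + 1) := rfl
    rw [← hu', ← hv']
    have key : ∀ a b : Fin (n + 1), (0 < (a : ℕ) ∧ num x (a + 1) = b ∧ (b : ℕ) < a) ↔
        ∃ i : Fin n, a = i.succ ∧ (b : ℕ) = p i := by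
      intro a b
      constructor
      · rintro ⟨ha, hab, _⟩
        have ha2 := a.2
        refine ⟨⟨a - 1, by omega⟩, ?_, ?_⟩
        · apply Fin.ext
          simp only [Fin.val_succ]
          omega
        · rw [← hp, ← hab]
          congr 1
          simp only
          omega
      · rintro ⟨i, rfl, hb⟩
        have h3 := hp i
        have h4 := (p i).2
        simp only [Fin.val_succ]
        refine ⟨by omega, ?_, by omega⟩
        rw [add_assoc, h3, hb]
    have ne_of : ∀ a b : Fin (n + 1), (∃ i : Fin n, a = i.succ ∧ (b : ℕ) = p i) → a ≠ b := by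
      intro a b h hab
      have := (key a b).mpr h
      subst hab
      omega
    unfold BB_adj
    rw [key u v, key v u]
    constructor
    · rintro (h | h)
      · exact ⟨ne_of _ _ h, Or.inl h⟩
      · exact ⟨(ne_of _ _ h).symm, Or.inr h⟩
    · rintro ⟨_, h⟩
      exact h

/-- From parent lists to adjacency matrices. -/
theorem exists_toAdj : ∃ F : List Bool → List Bool, PC F ∧
    ∀ (n c : ℕ) (p : (i : Fin n) → Fin (i + 1)) (b : Fin c → ℕ),
      F (encInst p b) = encInstG (treeOf p) b := by
  have hpl : PL (fun x (_ : Unit) => BB_un x ++ BB_mat x) := PL.append BB_pl_un BB_pl_mat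
  refine ⟨fun x => BB_un x ++ BB_mat x, (BB_pfBits hpl).pc, ?_⟩
  intro n c p b
  have hk : ∀ k, num (encInst p b) k =
      (n :: c :: (List.ofFn (fun i => (p i : ℕ)) ++ List.ofFn b)).getD k 0 := fun k =>
    num_unary _ k
  have h0 : num (encInst p b) 0 = n := by rw [hk]; rfl
  have h1 : num (encInst p b) 1 = c := by rw [hk]; rfl
  have hp : ∀ i : Fin n, num (encInst p b) (i + 2) = p i := by
    intro i
    rw [hk, List.getD_cons_succ, List.getD_cons_succ, List.getD_append _ _ _ _ (by simp),
      List.getD_eq_getElem _ _ (by simp), List.getElem_ofFn]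
  have hb : ∀ j : Fin c, num (encInst p b) (2 + n + j) = b j := by
    intro j
    rw [hk, show 2 + n + (j : ℕ) = (n + j) + 1 + 1 by omega, List.getD_cons_succ,
      List.getD_cons_succ, List.getD_append_right _ _ _ _ (by simp), List.length_ofFn,
      Nat.add_sub_cancel_left, List.getD_eq_getElem _ _ (by simp), List.getElem_ofFn]
  show BB_un _ ++ BB_mat _ = _
  rw [BB_un_eq h0 h1 hb, BB_mat_eq p h0 hp]
  rfl

end Pool.Agent.BCP
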