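import Mathlib
import Pool.Agent.BCP.AdjDefs
import Pool.Agent.BCP.AdjB
import Pool.Agent.BCP.Parse
import Pool.Agent.Lib.PolyTime.Iter
import Pool.Agent.Lib.PolyTime.PB

/-!
# Budgets in binary
-/

namespace Pool.Agent.BCP

open Pool.Agent.PolyTime Finset

/-- Code of an instance: the number of vertices, the number of colours and the numbers of binary
digits of the budgets in unary, then the adjacency matrix, then the binary digits of the budgets
(least significant digit first). -/
noncomputable def encInstB {n c : ℕ} (G : SimpleGraph (Fin n)) (b : Fin c → ℕ) : List Bool :=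
  unary (n :: c :: List.ofFn (fun j => (b j).size)) ++
    (adjBits G ++ (List.ofFn b).flatMap Nat.bits)

/-- The budgeted colouring problem on trees with at least three colours, as a set of bit
strings. -/
def BCPTB : Set (List Bool) :=
  {x | ∃ (n c : ℕ) (G : SimpleGraph (Fin n)) (b : Fin c → ℕ),
    G.IsTree ∧ 3 ≤ c ∧ x = encInstB G b ∧ BudgetColorable G b}

/-! ### Lists with a unary head -/

theorem bn_num_append (l : List ℕ) (r : List Bool) (k : ℕ) (hk : k < l.length) :
    num (unary l ++ r) k = l.getD k 0 := by
  induction l generalizing k with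
  | nil => simp at hk
  | cons a l ih =>
    induction a generalizing k with
    | zero =>
      rw [PA_unary_zero, List.cons_append]
      cases k with
      | zero => rw [PA_num_false_zero, List.getD_cons_zero]
      | succ k => rw [PA_num_false_succ, List.getD_cons_succ, ih k (by simpa using hk)]
    | succ a iha =>
      rw [PA_unary_succ, List.cons_append]
      cases k with
      | zero => rw [PA_num_true_zero, iha 0 hk, List.getD_cons_zero, List.getD_cons_zero]
      | succ k =>
        rw [PA_num_true_succ, iha (k + 1) hk, List.getD_cons_succ, List.getD_cons_succ]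

theorem bn_length_unary (l : List ℕ) : (unary l).length = l.sum + l.length := by
  induction l with
  | nil => rfl
  | cons a l ih =>
    simp only [unary, List.flatMap_cons, List.length_append, List.length_replicate,
      List.length_cons, List.length_nil, List.sum_cons] at ih ⊢
    omega

theorem bn_bit (b : Bool) (inst : Decidable (b = true)) : b = @decide (b = true) inst := by
  cases b <;> simp

theorem bn_getD_append (l r : List Bool) (i : ℕ) (o : ℕ) (ho : l.length = o) :
    (l ++ r).getD (o + i) false = r.getD i false := by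
  subst ho
  rw [List.getD_append_right _ _ _ _ (by omega), Nat.add_sub_cancel_left]

/-! ### Decoding -/

/-- number of digits of the budget `j` -/
def bnL (x : List Bool) (j : ℕ) : ℕ := num x (2 + j)

/-- length of the unary part -/
def bnO (x : List Bool) : ℕ :=
  num x 0 + num x 1 + (∑ j ∈ range (num x 1), bnL x j) + 2 + num x 1

/-- digit `i` of the budget `j` -/
def bnD (x : List Bool) (j i : ℕ) : Bool :=
  x.getD (bnO x + (num x 0 * num x 0 + (∑ k ∈ range j, bnL x k + i))) false

/-- the budget `j` -/
def bnV (x : List Bool) (j : ℕ) : ℕ := Nat.ofBits (fun i : Fin (bnL x j) => bnD x j i)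

/-- the matrix -/
def bnM (x : List Bool) : List Bool :=
  (List.range (num x 0 * num x 0)).map (fun k => x.getD (bnO x + k) false)

/-- the digits -/
def bnB (x : List Bool) : List Bool :=
  (List.range (num x 1)).flatMap (fun j => (List.range (bnL x j)).map (fun i => bnD x j i))

/-- the unary part -/
def bnU (x : List Bool) : List Bool :=
  (List.range (2 + num x 1)).flatMap (fun i => List.replicate (num x i) true ++ [false])

/-- entries of the output -/
def bnE (x : List Bool) (i : ℕ) : ℕ :=
  if i < 2 then num x i else ((range (num x 0)).filter (fun k => k < bnV x (i - 2))).card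

/-- the unary part of the output -/
def bnW (x : List Bool) : List Bool :=
  (List.range (2 + num x 1)).flatMap (fun i => List.replicate (bnE x i) true ++ [false])

/-- `x` has the right format -/
def bnValid (x : List Bool) : Prop :=
  x = bnU x ++ (bnM x ++ bnB x) ∧ ∀ j < num x 1, bnL x j = 0 ∨ bnD x j (bnL x j - 1) = true

/-! ### Decoding is polynomial -/

theorem bn_pf_L : PF (fun x (p : Unit × ℕ) => bnL x p.2) := pf_num ((PF.const 2).add PF.snd)

theorem bn_pf_O : PF (fun x (_ : Unit) => bnO x) := by
  unfold bnO
  have h0 : PF (fun x (_ : Unit) => num x 0) := pf_num (PF.const 0)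
  have h1 : PF (fun x (_ : Unit) => num x 1) := pf_num (PF.const 1)
  exact (((h0.add h1).add (h1.sum bn_pf_L)).add (PF.const 2)).add h1

theorem bn_pd_D : PD (fun x (p : (Unit × ℕ) × ℕ) => bnD x p.1.2 p.2 = true) := by
  unfold bnD
  have h0 : PF (fun x (_ : (Unit × ℕ) × ℕ) => num x 0) := pf_num (PF.const 0)
  have hS : PF (fun x (p : (Unit × ℕ) × ℕ) => ∑ k ∈ range p.1.2, bnL x k) :=
    PF.sum (F := fun x (q : ((Unit × ℕ) × ℕ) × ℕ) => bnL x q.2) PF.snd.fst
      (pf_num ((PF.const 2).add PF.snd))
  exact PD.bit (bn_pf_O.fst.fst.add ((h0.mul h0).add (hS.add PF.snd)))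

theorem bn_pb_V : PB (fun x (p : Unit × ℕ) => bnV x p.2) := by
  refine ⟨fun x p => bnL x p.2, fun x q => q.2 < bnL x q.1.2 ∧ bnD x q.1.2 q.2 = true, bn_pf_L,
    (PD.lt PF.snd bn_pf_L.fst).and bn_pd_D, fun x p => Nat.ofBits_lt_two_pow _, fun x p i => ?_⟩
  unfold bnV
  by_cases h : i < bnL x p.2
  · rw [Nat.testBit_ofBits_lt _ _ h]
    simp [h]
  · rw [Nat.testBit_ofBits_ge _ _ (by omega)]
    simp [h]

theorem bn_pd_ltV : PD (fun x (q : (Unit × ℕ) × ℕ) => q.2 < bnV x q.1.2) := by
  have h1 : PB (fun x (q : (Unit × ℕ) × ℕ) => (q.2 + 1) - bnV x q.1.2) :=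
    PB.sub (PB.ofPF (PF.snd.add (PF.const 1))) (PB.proj Proj.id.fst bn_pb_V)
  have h2 : PD (fun x (q : (Unit × ℕ) × ℕ) => ∀ i < q.2 + 1,
      ¬ ((q.2 + 1) - bnV x q.1.2).testBit i = true) :=
    PD.forall_lt (P := fun x (r : ((Unit × ℕ) × ℕ) × ℕ) =>
      ¬ ((r.1.2 + 1) - bnV x r.1.1.2).testBit r.2 = true) (PF.snd.add (PF.const 1))
      h1.testBit.not
  refine h2.congr fun x q => ?_
  constructor
  · intro h
    have h3 : (q.2 + 1) - bnV x q.1.2 = 0 := by
      apply Nat.eq_of_testBit_eq
      intro i
      rw [Nat.zero_testBit]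
      by_cases hi : i < q.2 + 1
      · simpa using h i hi
      · apply Nat.testBit_eq_false_of_lt
        calc q.2 + 1 - bnV x q.1.2 ≤ q.2 + 1 := Nat.sub_le _ _
          _ < 2 ^ (q.2 + 1) := Nat.lt_two_pow_self
          _ ≤ 2 ^ i := Nat.pow_le_pow_right (by norm_num) (by omega)
    omega
  · intro h i _
    rw [show q.2 + 1 - bnV x q.1.2 = 0 by omega]
    simp

theorem bn_pf_E : PF (fun x (p : Unit × ℕ) => bnE x p.2) := by
  classical
  unfold bnE
  refine PF.ite (PD.lt PF.snd (PF.const 2)) (pf_num PF.snd) ?_
  refine PF.count (P := fun x (q : (Unit × ℕ) × ℕ) => q.2 < bnV x (q.1.2 - 2))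
    (pf_num (PF.const 0)) ?_
  exact PD.sub2 (π := fun _ : (Unit × ℕ) × ℕ => ()) Proj.id.fst.fst
    (PF.snd.fst.sub (PF.const 2)) PF.snd bn_pd_ltV

theorem bn_pl_U : PL (fun x (_ : Unit) => bnU x) := by
  unfold bnU
  refine PL.flatMap (C := fun x (_ : Unit) => 2 + num x 1)
    (G := fun x (p : Unit × ℕ) => List.replicate (num x p.2) true ++ [false])
    ((PF.const 2).add (pf_num (PF.const 1))) ?_
  exact (PL.replicate (pf_num PF.snd) true).append (PL.const_cons false)

theorem bn_pl_W : PL (fun x (_ : Unit) => bnW x) := by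
  unfold bnW
  refine PL.flatMap (C := fun x (_ : Unit) => 2 + num x 1)
    (G := fun x (p : Unit × ℕ) => List.replicate (bnE x p.2) true ++ [false])
    ((PF.const 2).add (pf_num (PF.const 1))) ?_
  exact (PL.replicate bn_pf_E true).append (PL.const_cons false)

theorem bn_pl_M : PL (fun x (_ : Unit) => bnM x) := by
  have h0 : PF (fun x (_ : Unit) => num x 0) := pf_num (PF.const 0)
  refine ⟨fun x _ => num x 0 * num x 0, fun x p => x.getD (bnO x + p.2) false = true,
    h0.mul h0, PD.bit (bn_pf_O.fst.add PF.snd), fun x a => ?_⟩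
  unfold bnM
  apply List.map_congr_left
  intro i _
  exact bn_bit _ _

theorem bn_pl_B : PL (fun x (_ : Unit) => bnB x) := by
  unfold bnB
  refine PL.flatMap (C := fun x (_ : Unit) => num x 1)
    (G := fun x (p : Unit × ℕ) => (List.range (bnL x p.2)).map (fun i => bnD x p.2 i))
    (pf_num (PF.const 1)) ?_
  refine ⟨fun x p => bnL x p.2, fun x q => bnD x q.1.2 q.2 = true, bn_pf_L, bn_pd_D,
    fun x a => ?_⟩
  apply List.map_congr_left
  intro i _
  exact bn_bit _ _

theorem bn_list_eq (x y : List Bool) : (x.length = y.length ∧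
    ∀ i < x.length, (x.getD i false = true ↔ y.getD i false = true)) ↔ x = y := by
  constructor
  · rintro ⟨h1, h2⟩
    apply List.ext_getElem h1
    intro i hi hi'
    have h3 := h2 i hi
    rw [List.getD_eq_getElem _ _ hi, List.getD_eq_getElem _ _ hi'] at h3
    cases h4 : x[i] <;> cases h5 : y[i] <;> simp_all
  · rintro rfl
    exact ⟨rfl, fun _ _ => Iff.rfl⟩

theorem bn_pd_valid : PD (fun x (_ : Unit) => bnValid x) := by
  have hE : PL (fun x (_ : Unit) => bnU x ++ (bnM x ++ bnB x)) :=
    bn_pl_U.append (bn_pl_M.append bn_pl_B)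
  have hiff : ∀ {A B : List Bool → Unit × ℕ → Prop}, PD A → PD B →
      PD (fun x p => (A x p ↔ B x p)) := fun hA hB =>
    ((hA.and hB).or (hA.not.and hB.not)).congr fun x p => by tauto
  have h1 : PD (fun x (_ : Unit) => x.length = (bnU x ++ (bnM x ++ bnB x)).length ∧
      ∀ i < x.length, (x.getD i false = true ↔
        (bnU x ++ (bnM x ++ bnB x)).getD i false = true)) := by
    refine (PD.eq PF.len hE.length).and (PD.forall_lt (P := fun x (p : Unit × ℕ) =>
      (x.getD p.2 false = true ↔ (bnU x ++ (bnM x ++ bnB x)).getD p.2 false = true)) PF.len ?_)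
    exact hiff (PD.bit PF.snd) hE.getD
  have h2 : PD (fun x (_ : Unit) => ∀ j < num x 1, bnL x j = 0 ∨
      bnD x j (bnL x j - 1) = true) := by
    refine PD.forall_lt (P := fun x (p : Unit × ℕ) => bnL x p.2 = 0 ∨
      bnD x p.2 (bnL x p.2 - 1) = true) (pf_num (PF.const 1)) ?_
    exact (PD.eq bn_pf_L (PF.const 0)).or (PD.sub1 (π := fun p : Unit × ℕ => p) Proj.id
      (bn_pf_L.sub (PF.const 1)) bn_pd_D)
  refine (h1.and h2).congr fun x _ => ?_
  unfold bnValid
  rw [bn_list_eq]

open Classical in
/-- The recoding. -/
noncomputable def bnF (x : List Bool) : List Bool := if bnValid x then bnW x ++ bnM x else []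

theorem bn_pc_F : PC bnF := by
  classical
  have h : PL (fun x (_ : Unit) => bnF x) := by
    unfold bnF
    exact PL.ite bn_pd_valid (bn_pl_W.append bn_pl_M) PL.nil
  exact (BB_pfBits h).pc

/-! ### Correctness -/

theorem bn_U_eq (x : List Bool) : bnU x = unary (num x 0 :: num x 1 ::
    List.ofFn (fun j : Fin (num x 1) => bnL x j)) := by
  have h2 : num x 0 :: num x 1 :: List.ofFn (fun j : Fin (num x 1) => bnL x j) =
      (List.range (2 + num x 1)).map (num x) := by
    apply List.ext_getElem
    · simp; omega
    · intro k k1 k2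
      rw [List.getElem_map, List.getElem_range]
      rcases k with _ | _ | k
      · rfl
      · rfl
      · rw [List.getElem_cons_succ, List.getElem_cons_succ, List.getElem_ofFn]
        unfold bnL
        congr 1
        simp only
        omega
  rw [h2]
  unfold bnU unary
  rw [List.flatMap_map]

theorem bn_W_eq (x : List Bool) : bnW x = unary (num x 0 :: num x 1 ::
    List.ofFn (fun j : Fin (num x 1) => min (bnV x j) (num x 0))) := by
  have h2 : num x 0 :: num x 1 :: List.ofFn (fun j : Fin (num x 1) =>
      min (bnV x j) (num x 0)) = (List.range (2 + num x 1)).map (bnE x) := by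
    apply List.ext_getElem
    · simp; omega
    · intro k k1 k2
      rw [List.getElem_map, List.getElem_range]
      rcases k with _ | _ | k
      · rfl
      · rfl
      · rw [List.getElem_cons_succ, List.getElem_cons_succ, List.getElem_ofFn]
        unfold bnE
        rw [if_neg (by omega), show k + 1 + 1 - 2 = k by omega]
        have h3 : (range (num x 0)).filter (fun i => i < bnV x k) =
            range (min (bnV x k) (num x 0)) := by
          ext i
          simp only [mem_filter, mem_range, lt_min_iff]
          tauto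
        rw [h3, card_range]
  rw [h2]
  unfold bnW unary
  rw [List.flatMap_map]

theorem bn_size_ofBits {l : ℕ} (f : ℕ → Bool) (hf : l = 0 ∨ f (l - 1) = true) :
    (Nat.ofBits (fun i : Fin l => f i)).size = l := by
  rcases hf with rfl | hf
  · simp
  · by_cases hl : l = 0
    · subst hl; simp
    · apply le_antisymm
      · exact Nat.size_le.mpr (Nat.ofBits_lt_two_pow _)
      · have h1 : (Nat.ofBits (fun i : Fin l => f i)).testBit (l - 1) = true := by
          rw [Nat.testBit_ofBits_lt _ _ (by omega)]
          exact hf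
        have h2 := Nat.ge_two_pow_of_testBit h1
        have h3 := Nat.lt_size.mpr h2
        omega

theorem bn_bits_ofBits {l : ℕ} (f : ℕ → Bool) (hf : l = 0 ∨ f (l - 1) = true) :
    (Nat.ofBits (fun i : Fin l => f i)).bits = (List.range l).map f := by
  rw [bits_eq, bn_size_ofBits f hf]
  apply List.map_congr_left
  intro i hi
  rw [List.mem_range] at hi
  rw [Nat.testBit_ofBits_lt _ _ hi]

theorem bn_budget {n c : ℕ} (G : SimpleGraph (Fin n)) (b : Fin c → ℕ) :
    BudgetColorable G (fun j => min (b j) n) ↔ BudgetColorable G b := by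
  unfold BudgetColorable
  refine exists_congr fun φ => forall_congr' fun j => ?_
  rw [le_min_iff]
  refine and_iff_left ?_
  exact (card_filter_le _ _).trans (by simp)

section enc

variable {n c : ℕ} (G : SimpleGraph (Fin n)) (b : Fin c → ℕ)

theorem bn_length_adj : (adjBits G).length = n * n := by
  unfold adjBits; rw [List.length_ofFn]

theorem bn_num_enc0 : num (encInstB G b) 0 = n := by
  unfold encInstB
  rw [bn_num_append _ _ _ (by simp)]
  rfl

theorem bn_num_enc1 : num (encInstB G b) 1 = c := by
  unfold encInstB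
  rw [bn_num_append _ _ _ (by simp)]
  rfl

theorem bn_L_enc (j : ℕ) (hj : j < c) : bnL (encInstB G b) j = (b ⟨j, hj⟩).size := by
  unfold bnL encInstB
  rw [bn_num_append _ _ _ (by simp; omega), show 2 + j = j + 1 + 1 by omega,
    List.getD_cons_succ, List.getD_cons_succ, List.getD_eq_getElem _ _ (by simpa using hj),
    List.getElem_ofFn]

theorem bn_O_enc : bnO (encInstB G b) =
    (unary (n :: c :: List.ofFn (fun j => (b j).size))).length := by
  unfold bnO
  rw [bn_num_enc0, bn_num_enc1, bn_length_unary, List.sum_cons, List.sum_cons, List.sum_ofFn,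
    List.length_cons, List.length_cons, List.length_ofFn, Finset.sum_range]
  have : ∑ i : Fin c, bnL (encInstB G b) i = ∑ i, (b i).size :=
    sum_congr rfl fun i _ => bn_L_enc G b i i.2
  rw [this]
  omega

theorem bn_getD_enc (k : ℕ) : (encInstB G b).getD (bnO (encInstB G b) + k) false =
    (adjBits G ++ (List.ofFn b).flatMap Nat.bits).getD k false :=
  bn_getD_append _ _ _ _ (bn_O_enc G b).symm

theorem bn_M_enc : bnM (encInstB G b) = adjBits G := by
  unfold bnM
  rw [bn_num_enc0]
  apply List.ext_getElem
  · simp [bn_length_adj]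
  · intro i h1 h2
    rw [List.getElem_map, List.getElem_range, bn_getD_enc]
    have hi : i < (adjBits G).length := h2
    rw [List.getD_append _ _ _ _ hi, List.getD_eq_getElem _ _ hi]

theorem bn_flat_getD (f : ℕ → List Bool) : ∀ (c j i : ℕ), j < c → i < (f j).length →
    ((List.range c).flatMap f).getD (∑ k ∈ range j, (f k).length + i) false =
      (f j).getD i false
  | 0, j, i, hj, _ => absurd hj (Nat.not_lt_zero _)
  | c + 1, j, i, hj, hi => by
    have hlen : ((List.range c).flatMap f).length = ∑ k ∈ range c, (f k).length := by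
      rw [List.length_flatMap, Finset.sum_range, ← List.sum_ofFn]
      congr 1
      apply List.ext_getElem <;> simp
    rw [List.range_succ, List.flatMap_append, List.flatMap_cons, List.flatMap_nil,
      List.append_nil]
    rcases Nat.lt_succ_iff_lt_or_eq.mp hj with h | h
    · rw [List.getD_append, bn_flat_getD f c j i h hi]
      rw [hlen]
      calc ∑ k ∈ range j, (f k).length + i < ∑ k ∈ range (j + 1), (f k).length := by
            rw [sum_range_succ]; omega
        _ ≤ _ := sum_le_sum_of_subset (range_mono (by omega))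
    · subst h
      rw [List.getD_append_right _ _ _ _ (by rw [hlen]; omega), hlen, Nat.add_sub_cancel_left]

theorem bn_ofFn_flatMap {c : ℕ} (b : Fin c → ℕ) (f : ℕ → List Bool)
    (h : ∀ j : Fin c, f j = (b j).bits) :
    (List.ofFn b).flatMap Nat.bits = (List.range c).flatMap f := by
  have h0 : List.range c = (List.finRange c).map (fun j : Fin c => (j : ℕ)) := by
    apply List.ext_getElem <;> simp
  rw [h0, List.flatMap_map, List.ofFn_eq_map, List.flatMap_map]
  exact congrArg (fun g => (List.finRange c).flatMap g) (funext fun j => (h j).symm)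

theorem bn_D_enc (j i : ℕ) (hj : j < c) (hi : i < (b ⟨j, hj⟩).size) :
    bnD (encInstB G b) j i = (b ⟨j, hj⟩).testBit i := by
  set f : ℕ → List Bool := fun j => if h : j < c then (b ⟨j, h⟩).bits else [] with hf
  have hfj : ∀ k (hk : k < c), f k = (b ⟨k, hk⟩).bits := fun k hk => by
    rw [hf]; simp only [dif_pos hk]
  have hfl : ∀ k (hk : k < c), (f k).length = (b ⟨k, hk⟩).size := fun k hk => by
    rw [hfj k hk, Nat.size_eq_bits_len]
  unfold bnD
  have hS : ∑ k ∈ range j, bnL (encInstB G b) k = ∑ k ∈ range j, (f k).length := by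
    refine sum_congr rfl fun k hk => ?_
    rw [mem_range] at hk
    rw [bn_L_enc G b k (by omega), hfl k (by omega)]
  rw [hS, bn_num_enc0]
  rw [bn_getD_enc, bn_getD_append _ _ _ _ (bn_length_adj G),
    bn_ofFn_flatMap b f (fun j => hfj j j.2),
    bn_flat_getD f c j i hj (by rw [hfl j hj]; exact hi), hfj j hj]
  rw [bits_eq, List.getD_eq_getElem _ _ (by simpa using hi), List.getElem_map,
    List.getElem_range]

theorem bn_V_enc (j : ℕ) (hj : j < c) : bnV (encInstB G b) j = b ⟨j, hj⟩ := by
  apply Nat.eq_of_testBit_eq
  intro i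
  unfold bnV
  by_cases hi : i < (b ⟨j, hj⟩).size
  · rw [Nat.testBit_ofBits_lt _ _ (by rw [bn_L_enc G b j hj]; exact hi)]
    exact bn_D_enc G b j i hj hi
  · rw [Nat.testBit_ofBits_ge _ _ (by rw [bn_L_enc G b j hj]; omega)]
    symm
    apply Nat.testBit_eq_false_of_lt
    exact Nat.size_le.mp (by omega)

theorem bn_valid_enc : bnValid (encInstB G b) := by
  refine ⟨?_, fun j hj => ?_⟩
  · rw [bn_U_eq, bn_M_enc]
    have h1 : bnB (encInstB G b) = (List.ofFn b).flatMap Nat.bits := by
      set f : ℕ → List Bool := fun j => if h : j < c then (b ⟨j, h⟩).bits else [] with hf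
      have hfj : ∀ k (hk : k < c), f k = (b ⟨k, hk⟩).bits := fun k hk => by
        rw [hf]; simp only [dif_pos hk]
      rw [bn_ofFn_flatMap b f (fun j => hfj j j.2)]
      unfold bnB
      rw [bn_num_enc1]
      rw [List.flatMap_def, List.flatMap_def]
      congr 1
      apply List.map_congr_left
      intro j hj
      rw [List.mem_range] at hj
      rw [hfj j hj, bits_eq, bn_L_enc G b j hj]
      apply List.map_congr_left
      intro i hi
      rw [List.mem_range] at hi
      exact bn_D_enc G b j i hj hi
    rw [h1]
    have h2 : num (encInstB G b) 0 :: num (encInstB G b) 1 ::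
        List.ofFn (fun j : Fin (num (encInstB G b) 1) => bnL (encInstB G b) j) =
        n :: c :: List.ofFn (fun j => (b j).size) := by
      rw [bn_num_enc0]
      have h3 : ∀ m (_ : m = c), (m :: List.ofFn (fun j : Fin m => bnL (encInstB G b) j)) =
          c :: List.ofFn (fun j => (b j).size) := by
        rintro m rfl
        congr 1
        congr 1
        funext j
        exact bn_L_enc G b j j.2
      rw [h3 _ (bn_num_enc1 G b)]
    rw [h2]
    rfl
  · rw [bn_num_enc1] at hj
    rw [bn_L_enc G b j hj]
    by_cases h0 : (b ⟨j, hj⟩).size = 0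
    · exact Or.inl h0
    · right
      rw [bn_D_enc G b j _ hj (by omega)]
      have h1 : 2 ^ ((b ⟨j, hj⟩).size - 1) ≤ b ⟨j, hj⟩ := Nat.lt_size.mp (by omega)
      obtain ⟨k, hk, hb⟩ := Nat.exists_ge_and_testBit_of_ge_two_pow h1
      have h2 : 2 ^ k ≤ b ⟨j, hj⟩ := Nat.ge_two_pow_of_testBit hb
      have h3 : k < (b ⟨j, hj⟩).size := Nat.lt_size.mpr h2
      rwa [show (b ⟨j, hj⟩).size - 1 = k by omega]

theorem bn_F_enc : bnF (encInstB G b) = encInstG G (fun j => min (b j) n) := by
  unfold bnF
  rw [if_pos (bn_valid_enc G b), bn_W_eq, bn_M_enc]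
  unfold encInstG
  congr 2
  rw [bn_num_enc0]
  have h3 : ∀ m (_ : m = c), (m :: List.ofFn (fun j : Fin m => min (bnV (encInstB G b) j) n)) =
      c :: List.ofFn (fun j => min (b j) n) := by
    rintro m rfl
    congr 1
    congr 1
    funext j
    rw [bn_V_enc G b j j.2]
  rw [h3 _ (bn_num_enc1 G b)]

end enc

theorem bn_dec {x : List Bool} {n c : ℕ} {G : SimpleGraph (Fin n)} {b' : Fin c → ℕ}
    (h : bnF x = encInstG G b') : ∃ b : Fin c → ℕ, x = encInstB G b ∧ b' = fun j => min (b j) n := by
  have hv : bnValid x := by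
    by_contra hv
    unfold bnF at h
    rw [if_neg hv] at h
    have h2 := congrArg List.length h
    unfold encInstG at h2
    rw [List.length_append, bn_length_unary] at h2
    simp at h2
    omega
  unfold bnF at h
  rw [if_pos hv, bn_W_eq] at h
  unfold encInstG at h
  have hn : num x 0 = n := by
    have h1 := congrArg (fun y => num y 0) h
    beta_reduce at h1
    rw [bn_num_append _ _ _ (by simp), bn_num_append _ _ _ (by simp)] at h1
    exact h1
  have hc : num x 1 = c := by
    have h1 := congrArg (fun y => num y 1) h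
    beta_reduce at h1
    rw [bn_num_append _ _ _ (by simp), bn_num_append _ _ _ (by simp)] at h1
    exact h1
  obtain ⟨hx, hd⟩ := hv
  rw [bn_U_eq] at hx
  have hB : bnB x = (List.range (num x 1)).flatMap
      (fun j => (List.range (bnL x j)).map (fun i => bnD x j i)) := rfl
  have hVl : ∀ j < num x 1, (bnV x j).size = bnL x j := fun j hj =>
    bn_size_ofBits (bnD x j) (hd j hj)
  have hVb : ∀ j < num x 1, (bnV x j).bits = (List.range (bnL x j)).map (fun i => bnD x j i) :=
    fun j hj => bn_bits_ofBits (bnD x j) (hd j hj)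
  subst hn
  subst hc
  have hbj : ∀ j : Fin (num x 1), b' j = min (bnV x j) (num x 0) := by
    intro j
    have h1 := congrArg (fun y => num y (2 + j)) h
    beta_reduce at h1
    rw [bn_num_append _ _ _ (by simp; omega), bn_num_append _ _ _ (by simp; omega),
      show 2 + (j : ℕ) = j + 1 + 1 by omega, List.getD_cons_succ, List.getD_cons_succ,
      List.getD_cons_succ, List.getD_cons_succ, List.getD_eq_getElem _ _ (by simp),
      List.getD_eq_getElem _ _ (by simp), List.getElem_ofFn, List.getElem_ofFn] at h1
    exact h1.symm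
  have hb' : b' = fun j : Fin (num x 1) => min (bnV x j) (num x 0) := funext hbj
  rw [hb'] at h
  have hM : bnM x = adjBits G := List.append_cancel_left h
  refine ⟨fun j => bnV x j, ?_, hb'⟩
  conv_lhs => rw [hx]
  unfold encInstB
  rw [hM]
  have h1 : (fun j : Fin (num x 1) => (bnV x j).size) = fun j : Fin (num x 1) => bnL x j :=
    funext fun j => hVl j j.2
  rw [h1, hB, bn_ofFn_flatMap (fun j : Fin (num x 1) => bnV x j)
    (fun j => (List.range (bnL x j)).map (fun i => bnD x j i)) (fun j => (hVb j j.2).symm)]

/-- Budgets larger than the number of vertices can be replaced by the number of vertices. -/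
theorem exists_cap : ∃ F : List Bool → List Bool, PC F ∧ ∀ x, F x ∈ BCPT ↔ x ∈ BCPTB := by
  refine ⟨bnF, bn_pc_F, fun x => ?_⟩
  constructor
  · rintro ⟨n, c, G, b', hG, hc, h, hb⟩
    obtain ⟨b, rfl, rfl⟩ := bn_dec h
    exact ⟨n, c, G, b, hG, hc, rfl, (bn_budget G b).mp hb⟩
  · rintro ⟨n, c, G, b, hG, hc, rfl, hb⟩
    exact ⟨n, c, G, _, hG, hc, bn_F_enc G b, (bn_budget G b).mpr hb⟩

/-! ### From unary to binary budgets -/

/-- length of the unary part of the code with unary budgets -/
def bnO' (x : List Bool) : ℕ :=
  num x 0 + num x 1 + (∑ j ∈ range (num x 1), num x (2 + j)) + 2 + num x 1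

/-- entries of the unary part -/
def bnS (x : List Bool) (i : ℕ) : ℕ := if i < 2 then num x i else (num x i).size

/-- The recoding. -/
def bnR (x : List Bool) : List Bool :=
  (List.range (2 + num x 1)).flatMap (fun i => List.replicate (bnS x i) true ++ [false]) ++
    ((List.range (num x 0 * num x 0)).map (fun k => x.getD (bnO' x + k) false) ++
      (List.range (num x 1)).flatMap (fun j => (num x (2 + j)).bits))

theorem bn_pf_size {α : Type} [Ctx α] {F : List Bool → α → ℕ} (hF : PF F) :
    PF (fun x a => (F x a).size) := by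
  refine (PL.length (PB.natBits (PB.ofPF hF))).congr fun x a => ?_
  rw [Nat.size_eq_bits_len]

theorem bn_pc_R : PC bnR := by
  have h0 : PF (fun x (_ : Unit) => num x 0) := pf_num (PF.const 0)
  have h1 : PF (fun x (_ : Unit) => num x 1) := pf_num (PF.const 1)
  have hS : PF (fun x (p : Unit × ℕ) => bnS x p.2) := by
    unfold bnS
    exact PF.ite (PD.lt PF.snd (PF.const 2)) (pf_num PF.snd) (bn_pf_size (pf_num PF.snd))
  have hO : PF (fun x (_ : Unit) => bnO' x) := by
    unfold bnO'
    exact (((h0.add h1).add (h1.sum (F := fun x (p : Unit × ℕ) => num x (2 + p.2))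
      (pf_num ((PF.const 2).add PF.snd)))).add (PF.const 2)).add h1
  have hA : PL (fun x (_ : Unit) => (List.range (2 + num x 1)).flatMap
      (fun i => List.replicate (bnS x i) true ++ [false])) :=
    PL.flatMap (C := fun x (_ : Unit) => 2 + num x 1)
      (G := fun x (p : Unit × ℕ) => List.replicate (bnS x p.2) true ++ [false])
      ((PF.const 2).add h1) ((PL.replicate hS true).append (PL.const_cons false))
  have hM : PL (fun x (_ : Unit) => (List.range (num x 0 * num x 0)).map
      (fun k => x.getD (bnO' x + k) false)) := by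
    refine ⟨fun x _ => num x 0 * num x 0, fun x p => x.getD (bnO' x + p.2) false = true,
      h0.mul h0, PD.bit (hO.fst.add PF.snd), fun x a => ?_⟩
    apply List.map_congr_left
    intro i _
    exact bn_bit _ _
  have hB : PL (fun x (_ : Unit) => (List.range (num x 1)).flatMap
      (fun j => (num x (2 + j)).bits)) :=
    PL.flatMap (C := fun x (_ : Unit) => num x 1)
      (G := fun x (p : Unit × ℕ) => (num x (2 + p.2)).bits) h1
      (PB.natBits (PB.ofPF (pf_num ((PF.const 2).add PF.snd))))
  have h : PL (fun x (_ : Unit) => bnR x) := hA.append (hM.append hB)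
  exact (BB_pfBits h).pc

theorem exists_toBin : ∃ F : List Bool → List Bool, PC F ∧
    ∀ (n c : ℕ) (G : SimpleGraph (Fin n)) (b : Fin c → ℕ),
      F (encInstG G b) = encInstB G b := by
  refine ⟨bnR, bn_pc_R, fun n c G b => ?_⟩
  have e0 : num (encInstG G b) 0 = n := by
    unfold encInstG; rw [bn_num_append _ _ _ (by simp)]; rfl
  have e1 : num (encInstG G b) 1 = c := by
    unfold encInstG; rw [bn_num_append _ _ _ (by simp)]; rfl
  have e2 : ∀ j : Fin c, num (encInstG G b) (2 + j) = b j := by
    intro j
    unfold encInstG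
    rw [bn_num_append _ _ _ (by simp; omega), show 2 + (j : ℕ) = j + 1 + 1 by omega,
      List.getD_cons_succ, List.getD_cons_succ, List.getD_eq_getElem _ _ (by simp),
      List.getElem_ofFn]
  have eO : bnO' (encInstG G b) = (unary (n :: c :: List.ofFn b)).length := by
    unfold bnO'
    rw [e0, e1, bn_length_unary, List.sum_cons, List.sum_cons, List.sum_ofFn,
      List.length_cons, List.length_cons, List.length_ofFn, Finset.sum_range]
    have : ∑ i : Fin c, num (encInstG G b) (2 + i) = ∑ i, b i :=
      sum_congr rfl fun i _ => e2 i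
    rw [this]
    omega
  unfold bnR encInstB
  congr 1
  · rw [e1]
    have h2 : n :: c :: List.ofFn (fun j => (b j).size) =
        (List.range (2 + c)).map (bnS (encInstG G b)) := by
      apply List.ext_getElem
      · simp; omega
      · intro k k1 k2
        rw [List.getElem_map, List.getElem_range]
        rcases k with _ | _ | k
        · exact e0.symm
        · exact e1.symm
        · rw [List.getElem_cons_succ, List.getElem_cons_succ, List.getElem_ofFn]
          unfold bnS
          rw [if_neg (by omega), show k + 1 + 1 = 2 + k by omega]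
          rw [← e2 ⟨k, by simpa using k1⟩]
    rw [h2]
    unfold unary
    rw [List.flatMap_map]
  · congr 1
    · rw [e0]
      apply List.ext_getElem
      · simp [bn_length_adj]
      · intro i h1 h2
        rw [List.getElem_map, List.getElem_range]
        unfold encInstG at *
        rw [bn_getD_append _ _ _ _ eO.symm]
        have hi : i < (adjBits G).length := h2
        rw [List.getD_eq_getElem _ _ hi]
    · rw [e1]
      symm
      exact bn_ofFn_flatMap b (fun j => (num (encInstG G b) (2 + j)).bits)
        (fun j => by rw [e2])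

end Pool.Agent.BCP
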