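import Mathlib
import Pool.Agent.BCP.Defs

/-!
# Dynamic programming over the tree
-/

namespace Pool.Agent.BCP

open Finset

/-- Weight of a vertex with label `lab` on the side `σ`; the sum of the weights of all vertices
codes the vector of the class sizes in base `Q`. -/
def wt (Q t lab : ℕ) (σ : Bool) : ℕ := if lab < t then Q ^ lab else if σ then 0 else Q ^ t

/-- `Gk k v lab σ s`: the component of `v` after merging the vertices `n - k, …, n - 1` into their
parents has a valid labelling with label `lab` and side `σ` at `v` and total weight `s`. -/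
def Gk (n t Q : ℕ) (p : ℕ → ℕ) : ℕ → ℕ → ℕ → Bool → ℕ → Prop
  | 0, _, lab, σ, s => s = wt Q t lab σ
  | k + 1, v, lab, σ, s =>
      if n - (k + 1) ≠ 0 ∧ p (n - (k + 1)) = v then
        ∃ s1 ≤ s, ∃ lab' ≤ t, (lab ≠ lab' ∨ lab = t) ∧ Gk n t Q p k v lab σ s1 ∧
          Gk n t Q p k (n - (k + 1)) lab' (!σ) (s - s1)
      else Gk n t Q p k v lab σ s

theorem DP_gk_succ_ne {n t Q : ℕ} {p : ℕ → ℕ} {k v lab : ℕ} {σ : Bool} {s : ℕ}
    (h : p (n - (k + 1)) ≠ v) :
    Gk n t Q p (k + 1) v lab σ s ↔ Gk n t Q p k v lab σ s := by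
  rw [Gk, if_neg (fun h' => h h'.2)]

theorem DP_gk_succ_eq {n t Q : ℕ} {p : ℕ → ℕ} {k v lab : ℕ} {σ : Bool} {s : ℕ}
    (h0 : n - (k + 1) ≠ 0) (h : p (n - (k + 1)) = v) :
    Gk n t Q p (k + 1) v lab σ s ↔
      ∃ s1 ≤ s, ∃ lab' ≤ t, (lab ≠ lab' ∨ lab = t) ∧ Gk n t Q p k v lab σ s1 ∧
          Gk n t Q p k (n - (k + 1)) lab' (!σ) (s - s1) := by
  rw [Gk, if_pos ⟨h0, h⟩]

/-- The partial solutions after `k` merging steps, all components together. -/
theorem DP_claim {n t Q : ℕ} {p : ℕ → ℕ} (hp : IsPar n p) (k : ℕ) (hk : k < n)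
    (L : ℕ → ℕ) (B : ℕ → Bool) (s : ℕ) :
    (∃ S : ℕ → ℕ, ∑ v ∈ range (n - k), S v = s ∧
        ∀ v < n - k, Gk n t Q p k v (L v) (B v) (S v)) ↔
      ∃ (lab : ℕ → ℕ) (σ : ℕ → Bool), (∀ v < n - k, lab v = L v ∧ σ v = B v) ∧
        (∀ i < n, n - k ≤ i → lab i ≤ t ∧ σ i ≠ σ (p i) ∧ (lab i ≠ lab (p i) ∨ lab i = t)) ∧
        ∑ i ∈ range n, wt Q t (lab i) (σ i) = s := by
  induction k generalizing L B with
  | zero =>
    rw [Nat.sub_zero]
    constructor
    · rintro ⟨S, hS, h⟩
      refine ⟨L, B, fun v _ => ⟨rfl, rfl⟩, fun i hi hi' => by omega, ?_⟩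
      rw [← hS]
      refine Finset.sum_congr rfl fun v hv => ?_
      have := h v (Finset.mem_range.mp hv)
      rw [Gk] at this
      exact this.symm
    · rintro ⟨lab, σ, h1, _, h2⟩
      refine ⟨fun v => wt Q t (lab v) (σ v), h2, fun v hv => ?_⟩
      rw [Gk]
      show wt Q t (lab v) (σ v) = _
      rw [(h1 v hv).1, (h1 v hv).2]
  | succ k ih =>
    have hi0 : n - (k + 1) ≠ 0 := by omega
    have hnk : n - k = n - (k + 1) + 1 := by omega
    have hin : n - (k + 1) < n := by omega
    have hpi := hp (n - (k + 1)) (by omega) hin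
    have ih' := ih (by omega)
    rw [hnk] at ih'
    generalize hi : n - (k + 1) = i at *
    have hne : p i ≠ i := by omega
    constructor
    · rintro ⟨S, hS, h⟩
      have hv0 := h (p i) hpi
      rw [DP_gk_succ_eq (by omega) (by rw [hi]), hi] at hv0
      obtain ⟨s1, hs1, lab', hlab', hedge, hG1, hG2⟩ := hv0
      obtain ⟨lab, σ, h1, h2, h3⟩ := (ih' (Function.update L i lab')
        (Function.update B i (!B (p i)))).mp
        ⟨Function.update (Function.update S (p i) s1) i (S (p i) - s1), by
          rw [Finset.sum_range_succ, Function.update_self]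
          have e1 : ∑ x ∈ range i, Function.update (Function.update S (p i) s1) i
              (S (p i) - s1) x = ∑ x ∈ range i, Function.update S (p i) s1 x := by
            refine Finset.sum_congr rfl fun x hx => ?_
            rw [Function.update_of_ne (by have := Finset.mem_range.mp hx; omega)]
          rw [e1, Finset.sum_update_of_mem (Finset.mem_range.mpr hpi)]
          have e2 := Finset.sum_eq_add_sum_sdiff_singleton_of_mem (Finset.mem_range.mpr hpi) S
          rw [hS] at e2
          omega, by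
          intro v hv
          rcases Nat.lt_succ_iff_lt_or_eq.mp hv with hvi | rfl
          · rw [Function.update_of_ne (by omega), Function.update_of_ne (by omega),
              Function.update_of_ne (by omega)]
            by_cases hvp : v = p i
            · subst hvp
              rw [Function.update_self]
              exact hG1
            · rw [Function.update_of_ne hvp]
              exact (DP_gk_succ_ne (by rw [hi]; exact Ne.symm hvp)).mp (h v hvi)
          · rw [Function.update_self, Function.update_self, Function.update_self]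
            exact hG2⟩
      refine ⟨lab, σ, fun v hv => ?_, fun j hj hij => ?_, h3⟩
      · have := h1 v (by omega)
        rw [Function.update_of_ne (by omega), Function.update_of_ne (by omega)] at this
        exact this
      · by_cases hji : j = i
        · subst hji
          have a1 := h1 j (by omega)
          have a2 := h1 (p j) (by omega)
          rw [Function.update_self, Function.update_self] at a1
          rw [Function.update_of_ne hne, Function.update_of_ne hne] at a2
          rw [a1.1, a1.2, a2.1, a2.2]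
          refine ⟨hlab', by simp, ?_⟩
          rcases hedge with h | h
          · exact Or.inl (Ne.symm h)
          · by_cases h' : lab' = L (p j)
            · exact Or.inr (h'.trans h)
            · exact Or.inl h'
        · exact h2 j hj (by omega)
    · rintro ⟨lab, σ, h1, h2, h3⟩
      obtain ⟨S, hS, hG⟩ := (ih' (Function.update L i (lab i)) (Function.update B i (σ i))).mpr
        ⟨lab, σ, by
          intro v hv
          rcases Nat.lt_succ_iff_lt_or_eq.mp hv with hvi | rfl
          · rw [Function.update_of_ne (by omega), Function.update_of_ne (by omega)]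
            exact h1 v hvi
          · rw [Function.update_self, Function.update_self]
            exact ⟨rfl, rfl⟩, fun j hj hij => h2 j hj (by omega), h3⟩
      obtain ⟨c1, c2, c3⟩ := h2 i hin le_rfl
      obtain ⟨d1, d2⟩ := h1 (p i) hpi
      refine ⟨Function.update S (p i) (S (p i) + S i), ?_, fun v hv => ?_⟩
      · rw [Finset.sum_update_of_mem (Finset.mem_range.mpr hpi), ← hS, Finset.sum_range_succ,
          Finset.sum_eq_add_sum_sdiff_singleton_of_mem (Finset.mem_range.mpr hpi) S]
        ring
      · by_cases hvp : v = p i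
        · subst hvp
          rw [Function.update_self, DP_gk_succ_eq (by omega) (by rw [hi]), hi]
          have g1 := hG (p i) (by omega)
          have g2 := hG i (by omega)
          rw [Function.update_of_ne hne, Function.update_of_ne hne] at g1
          rw [Function.update_self, Function.update_self] at g2
          refine ⟨S (p i), by omega, lab i, c1, ?_, g1, ?_⟩
          · rw [d1] at c3
            rcases c3 with h | h
            · exact Or.inl (Ne.symm h)
            · by_cases h' : lab i = L (p i)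
              · exact Or.inr (h'.symm.trans h)
              · exact Or.inl (Ne.symm h')
          · rw [Nat.add_sub_cancel_left]
            have e : (!B (p i)) = σ i := by
              rw [d2] at c2
              cases hB : B (p i) <;> cases hs : σ i <;> simp_all
            rw [e]
            exact g2
        · rw [Function.update_of_ne hvp, DP_gk_succ_ne (by rw [hi]; exact Ne.symm hvp)]
          have g1 := hG v (by omega)
          rw [Function.update_of_ne (by omega), Function.update_of_ne (by omega)] at g1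
          exact g1

/-- Correctness of the dynamic programming. -/
theorem gk_iff {n t Q : ℕ} {p : ℕ → ℕ} (hp : IsPar n p) (hn : 0 < n) (s : ℕ) :
    (∃ lab ≤ t, ∃ σ, Gk n t Q p (n - 1) 0 lab σ s) ↔
      ∃ (lab : ℕ → ℕ) (σ : ℕ → Bool), ValidLab n t p lab σ ∧
        ∑ i ∈ range n, wt Q t (lab i) (σ i) = s := by
  have hc := fun l b => DP_claim (t := t) (Q := Q) hp (n - 1) (by omega) (fun _ => l)
    (fun _ => b) s
  rw [show n - (n - 1) = 1 by omega] at hc
  constructor
  · rintro ⟨l, hl, b, h⟩
    obtain ⟨lab, σ, h1, h2, h3⟩ := (hc l b).mp ⟨fun _ => s, by simp, fun v hv => by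
      rw [show v = 0 by omega]; exact h⟩
    refine ⟨lab, σ, ⟨fun i hi => ?_, fun i hi hi0 => (h2 i hi (by omega)).2⟩, h3⟩
    by_cases h0 : i = 0
    · rw [h0, (h1 0 (by omega)).1]; exact hl
    · exact (h2 i hi (by omega)).1
  · rintro ⟨lab, σ, hv, h3⟩
    obtain ⟨S, hS, hG⟩ := (hc (lab 0) (σ 0)).mpr ⟨lab, σ, fun v hv => by
      rw [show v = 0 by omega]; exact ⟨rfl, rfl⟩, fun i hi hi0 =>
        ⟨hv.1 i hi, hv.2 i hi (by omega)⟩, h3⟩
    refine ⟨lab 0, hv.1 0 hn, σ 0, ?_⟩
    have := hG 0 (by omega)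
    simp only [Finset.sum_range_one] at hS
    rw [hS] at this
    exact this

/-- digit `a` of `s` in base `Q` -/
def dg (Q s a : ℕ) : ℕ := s / Q ^ a % Q

/-- Acceptance condition of the algorithm. -/
def Acc (n c t Q : ℕ) (p b : ℕ → ℕ) : Prop :=
  ∃ Jc < Q ^ t, ∃ θ ≤ ∑ j ∈ range c, b j, ∃ ι ≤ c, ∃ s < Q ^ (t + 1),
    (∃ lab ≤ t, ∃ σ, Gk n t Q p (n - 1) 0 lab σ s) ∧
    (∀ a < t, dg Q s a ≤ cap c (dg Q Jc) b a) ∧
    s / Q ^ t ≤ capA c t (dg Q Jc) b θ ι ∧
    n - (∑ a ∈ range t, dg Q s a) - s / Q ^ t ≤ capB c t (dg Q Jc) b θ ι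

/-! ### Digits -/

theorem AC_lt (Q : ℕ) (N : ℕ → ℕ) : ∀ t : ℕ, (∀ a < t, N a < Q) →
    ∑ a ∈ range t, N a * Q ^ a < Q ^ t
  | 0, _ => by simp
  | t + 1, h => by
      have ih := AC_lt Q N t (fun a ha => h a (by omega))
      rw [sum_range_succ]
      have h1 : N t * Q ^ t + Q ^ t ≤ Q ^ (t + 1) := by
        have h2 : N t + 1 ≤ Q := h t (by omega)
        calc N t * Q ^ t + Q ^ t = (N t + 1) * Q ^ t := by ring
          _ ≤ Q * Q ^ t := Nat.mul_le_mul_right _ h2
          _ = Q ^ (t + 1) := by ring
      omega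

theorem AC_div {Q : ℕ} {N : ℕ → ℕ} {t : ℕ} (h : ∀ a < t, N a < Q) (hQ : 0 < Q) (M : ℕ) :
    (∑ a ∈ range t, N a * Q ^ a + M * Q ^ t) / Q ^ t = M := by
  have h1 := AC_lt Q N t h
  have h2 : 0 < Q ^ t := Nat.pos_of_ne_zero (pow_ne_zero _ (by omega))
  rw [Nat.add_mul_div_right _ _ h2, Nat.div_eq_of_lt h1, zero_add]

theorem AC_dg {Q : ℕ} {N : ℕ → ℕ} (hQ : 0 < Q) : ∀ (t : ℕ), (∀ a < t, N a < Q) →
    ∀ (M a : ℕ), a < t → dg Q (∑ a ∈ range t, N a * Q ^ a + M * Q ^ t) a = N a
  | 0, _ => fun M a ha => absurd ha (Nat.not_lt_zero a)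
  | t + 1, h => fun M a ha => by
      have e : ∑ a ∈ range (t + 1), N a * Q ^ a + M * Q ^ (t + 1) =
          ∑ a ∈ range t, N a * Q ^ a + (N t + M * Q) * Q ^ t := by
        rw [sum_range_succ]; ring
      rw [e]
      by_cases hat : a < t
      · exact AC_dg hQ t (fun a ha => h a (by omega)) _ a hat
      · have hat' : a = t := by omega
        subst hat'
        unfold dg
        rw [AC_div (fun a' ha' => h a' (by omega)) hQ, Nat.add_mul_mod_self_right,
          Nat.mod_eq_of_lt (h a (by omega))]

/-! ### Dependence on the tracked colours -/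

theorem AC_cap {c : ℕ} {J J' b : ℕ → ℕ} {a : ℕ} (h : ∀ a' ≤ a, min (J a') c = min (J' a') c) :
    cap c J b a = cap c J' b a := by
  unfold cap
  have ha := h a le_rfl
  have h1 : (J a < c ∧ ∀ a' < a, J a' ≠ J a) ↔ (J' a < c ∧ ∀ a' < a, J' a' ≠ J' a) := by
    constructor
    · rintro ⟨h2, h3⟩
      refine ⟨by omega, fun a' ha' => ?_⟩
      have h4 := h3 a' ha'
      have h5 := h a' ha'.le
      omega
    · rintro ⟨h2, h3⟩
      refine ⟨by omega, fun a' ha' => ?_⟩
      have h4 := h3 a' ha'
      have h5 := h a' ha'.le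
      omega
  by_cases hc : J a < c ∧ ∀ a' < a, J a' ≠ J a
  · rw [if_pos hc, if_pos (h1.1 hc)]
    have : J a = J' a := by
      have := hc.1
      omega
    rw [this]
  · rw [if_neg hc, if_neg (fun h2 => hc (h1.2 h2))]

theorem AC_inJ {c t : ℕ} {J J' : ℕ → ℕ} (h : ∀ a < t, min (J a) c = min (J' a) c) {j : ℕ}
    (hj : j < c) : InJ t J j ↔ InJ t J' j := by
  constructor
  · rintro ⟨a, ha, rfl⟩
    exact ⟨a, ha, by have := h a ha; omega⟩
  · rintro ⟨a, ha, rfl⟩
    exact ⟨a, ha, by have := h a ha; omega⟩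

theorem AC_capA {c t : ℕ} {J J' b : ℕ → ℕ} (h : ∀ a < t, min (J a) c = min (J' a) c)
    (θ ι : ℕ) : capA c t J b θ ι = capA c t J' b θ ι := by
  classical
  unfold capA
  congr 1
  apply filter_congr
  intro j hj
  rw [AC_inJ h (mem_range.mp hj)]

theorem AC_capB {c t : ℕ} {J J' b : ℕ → ℕ} (h : ∀ a < t, min (J a) c = min (J' a) c)
    (θ ι : ℕ) : capB c t J b θ ι = capB c t J' b θ ι := by
  classical
  unfold capB
  congr 1
  apply filter_congr
  intro j hj
  rw [AC_inJ h (mem_range.mp hj)]

/-! ### The class sizes are the digits of the sum of the weights -/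

theorem AC_wt (Q t lab : ℕ) (σ : Bool) (h : lab ≤ t) :
    wt Q t lab σ = ∑ a ∈ range t, (if lab = a then 1 else 0) * Q ^ a +
      (if lab = t ∧ σ = false then 1 else 0) * Q ^ t := by
  unfold wt
  by_cases h1 : lab < t
  · rw [if_pos h1, if_neg (by omega : ¬ (lab = t ∧ σ = false)), zero_mul, add_zero,
      sum_eq_single lab]
    · simp
    · intro b _ hb
      rw [if_neg (Ne.symm hb), zero_mul]
    · intro h2
      exact absurd (mem_range.mpr h1) h2
  · have h2 : lab = t := by omega
    rw [if_neg h1, sum_eq_zero]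
    · cases σ <;> simp [h2]
    · intro a ha
      rw [mem_range] at ha
      rw [if_neg (by omega), zero_mul]

theorem AC_sum {n t Q : ℕ} {p : ℕ → ℕ} {lab : ℕ → ℕ} {σ : ℕ → Bool} (hv : ValidLab n t p lab σ) :
    ∑ i ∈ range n, wt Q t (lab i) (σ i) =
      ∑ a ∈ range t, ((range n).filter (fun i => lab i = a)).card * Q ^ a +
        ((range n).filter (fun i => lab i = t ∧ σ i = false)).card * Q ^ t := by
  have h1 : ∑ i ∈ range n, wt Q t (lab i) (σ i) = ∑ i ∈ range n,
      (∑ a ∈ range t, (if lab i = a then 1 else 0) * Q ^ a +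
      (if lab i = t ∧ σ i = false then 1 else 0) * Q ^ t) :=
    sum_congr rfl fun i hi => AC_wt Q t (lab i) (σ i) (hv.1 i (mem_range.mp hi))
  rw [h1, sum_add_distrib, sum_comm]
  congr 1
  · refine sum_congr rfl fun a _ => ?_
    rw [← sum_mul, card_filter]
  · rw [← sum_mul, card_filter]

theorem AC_card {n t : ℕ} {p : ℕ → ℕ} {lab : ℕ → ℕ} {σ : ℕ → Bool} (hv : ValidLab n t p lab σ) :
    ∑ a ∈ range t, ((range n).filter (fun i => lab i = a)).card +
      ((range n).filter (fun i => lab i = t ∧ σ i = false)).card +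
      ((range n).filter (fun i => lab i = t ∧ σ i = true)).card = n := by
  simp only [card_filter]
  rw [sum_comm, ← sum_add_distrib, ← sum_add_distrib]
  have h1 : ∀ i ∈ range n, (∑ a ∈ range t, (if lab i = a then 1 else 0)) +
      (if lab i = t ∧ σ i = false then 1 else 0) + (if lab i = t ∧ σ i = true then 1 else 0) =
      1 := by
    intro i hi
    have h := hv.1 i (mem_range.mp hi)
    by_cases h1 : lab i < t
    · rw [if_neg (by omega : ¬ (lab i = t ∧ σ i = false)),
        if_neg (by omega : ¬ (lab i = t ∧ σ i = true)), sum_ite_eq, if_pos (mem_range.mpr h1)]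
    · have h2 : lab i = t := by omega
      rw [sum_ite_eq, if_neg (by rw [mem_range]; omega)]
      cases σ i <;> simp [h2]
  rw [sum_congr rfl h1]
  simp

theorem struct_iff_acc {n c t Q : ℕ} {p b : ℕ → ℕ} (hp : IsPar n p) (hn : 0 < n) (hnQ : n < Q)
    (hcQ : c < Q) : StructFeas n c t p b ↔ Acc n c t Q p b := by
  have hQ : 0 < Q := by omega
  have key : ∀ (lab : ℕ → ℕ) (σ : ℕ → Bool), ValidLab n t p lab σ →
      (∀ a < t, dg Q (∑ i ∈ range n, wt Q t (lab i) (σ i)) a =
        ((range n).filter (fun i => lab i = a)).card) ∧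
      (∑ i ∈ range n, wt Q t (lab i) (σ i)) / Q ^ t =
        ((range n).filter (fun i => lab i = t ∧ σ i = false)).card ∧
      (∑ i ∈ range n, wt Q t (lab i) (σ i)) < Q ^ (t + 1) ∧
      n - (∑ a ∈ range t, dg Q (∑ i ∈ range n, wt Q t (lab i) (σ i)) a) -
        (∑ i ∈ range n, wt Q t (lab i) (σ i)) / Q ^ t =
        ((range n).filter (fun i => lab i = t ∧ σ i = true)).card := by
    intro lab σ hv
    have hN : ∀ a < t, ((range n).filter (fun i => lab i = a)).card < Q := by
      intro a _
      have := card_filter_le (range n) (fun i => lab i = a)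
      rw [card_range] at this
      omega
    have hA : ((range n).filter (fun i => lab i = t ∧ σ i = false)).card < Q := by
      have := card_filter_le (range n) (fun i => lab i = t ∧ σ i = false)
      rw [card_range] at this
      omega
    have h1 : ∀ a < t, dg Q (∑ i ∈ range n, wt Q t (lab i) (σ i)) a =
        ((range n).filter (fun i => lab i = a)).card := by
      intro a ha
      rw [AC_sum hv]
      exact AC_dg hQ t hN _ a ha
    have h2 : (∑ i ∈ range n, wt Q t (lab i) (σ i)) / Q ^ t =
        ((range n).filter (fun i => lab i = t ∧ σ i = false)).card := by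
      rw [AC_sum hv]
      exact AC_div hN hQ _
    refine ⟨h1, h2, ?_, ?_⟩
    · rw [AC_sum hv]
      have h3 := AC_lt Q _ t hN
      have h4 : ((range n).filter (fun i => lab i = t ∧ σ i = false)).card * Q ^ t + Q ^ t ≤
          Q ^ (t + 1) := by
        calc _ = (((range n).filter (fun i => lab i = t ∧ σ i = false)).card + 1) * Q ^ t := by
              ring
          _ ≤ Q * Q ^ t := Nat.mul_le_mul_right _ hA
          _ = Q ^ (t + 1) := by ring
      omega
    · rw [h2, sum_congr rfl (fun a ha => h1 a (mem_range.mp ha))]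
      have := AC_card hv
      omega
  constructor
  · rintro ⟨J, θ, ι, lab, σ, hJ, hθ, hι, hv, hcap, hA, hB⟩
    obtain ⟨k1, k2, k3, k4⟩ := key lab σ hv
    have hJQ : ∀ a < t, J a < Q := fun a ha => lt_of_le_of_lt (hJ a ha) hcQ
    have hJd : ∀ a < t, dg Q (∑ a ∈ range t, J a * Q ^ a) a = J a := by
      intro a ha
      have := AC_dg hQ t hJQ 0 a ha
      rwa [zero_mul, add_zero] at this
    have hJm : ∀ a < t, min (dg Q (∑ a ∈ range t, J a * Q ^ a) a) c = min (J a) c :=
      fun a ha => by rw [hJd a ha]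
    refine ⟨∑ a ∈ range t, J a * Q ^ a, AC_lt Q J t hJQ, θ, hθ, ι, hι,
      ∑ i ∈ range n, wt Q t (lab i) (σ i), k3, (gk_iff hp hn _).2 ⟨lab, σ, hv, rfl⟩, ?_, ?_, ?_⟩
    · intro a ha
      rw [k1 a ha, AC_cap (J' := J) (fun a' ha' => hJm a' (by omega))]
      exact hcap a ha
    · rw [k2, AC_capA hJm]
      exact hA
    · rw [k4, AC_capB hJm]
      exact hB
  · rintro ⟨Jc, hJc, θ, hθ, ι, hι, s, hs, hg, h1, h2, h3⟩
    obtain ⟨lab, σ, hv, rfl⟩ := (gk_iff hp hn s).1 hg
    obtain ⟨k1, k2, k3, k4⟩ := key lab σ hv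
    have hJm : ∀ a < t, min ((fun a => min (dg Q Jc a) c) a) c = min (dg Q Jc a) c :=
      fun a _ => by simp
    refine ⟨fun a => min (dg Q Jc a) c, θ, ι, lab, σ, fun a _ => min_le_right _ _, hθ, hι, hv,
      ?_, ?_, ?_⟩
    · intro a ha
      rw [← k1 a ha, AC_cap (J' := dg Q Jc) (fun a' ha' => hJm a' (by omega))]
      exact h1 a ha
    · rw [← k2, AC_capA hJm]
      exact h2
    · rw [← k4, AC_capB hJm]
      exact h3

end Pool.Agent.BCP
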