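import Mathlib
import Pool.Agent.BCP.Defs

/-!
# The structure lemma for forests
-/

namespace Pool.Agent.BCP

open Finset

open scoped Classical in
/-- Distribution of a set into classes of given sizes. -/
theorem distribute (S : Finset ℕ) (b : ℕ → ℕ) : ∀ (X : Finset ℕ), X.card = ∑ j ∈ S, b j →
    ∃ f : ℕ → ℕ, (∀ x ∈ X, f x ∈ S) ∧ ∀ j ∈ S, (X.filter (fun x => f x = j)).card = b j := by
  induction S using Finset.induction_on with
  | empty =>
    intro X hX
    rw [sum_empty, card_eq_zero] at hX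
    subst hX
    exact ⟨fun _ => 0, by simp, by simp⟩
  | insert a S ha ih =>
    intro X hX
    rw [sum_insert ha] at hX
    obtain ⟨Y, hYX, hY⟩ := exists_subset_card_eq (s := X) (n := b a) (by omega)
    have h1 : (X \ Y).card = ∑ j ∈ S, b j := by
      rw [card_sdiff_of_subset hYX]
      omega
    obtain ⟨f, hf1, hf2⟩ := ih _ h1
    refine ⟨fun x => if x ∈ Y then a else f x, ?_, ?_⟩
    · intro x hx
      show (if x ∈ Y then a else f x) ∈ insert a S
      by_cases hxY : x ∈ Y
      · rw [if_pos hxY]; exact mem_insert_self _ _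
      · rw [if_neg hxY]; exact mem_insert_of_mem (hf1 x (mem_sdiff.mpr ⟨hx, hxY⟩))
    · intro j hj
      rcases mem_insert.mp hj with h | h
      · subst h
        have : X.filter (fun x => (if x ∈ Y then j else f x) = j) = Y := by
          ext x
          simp only [mem_filter]
          constructor
          · rintro ⟨hx, h⟩
            by_contra hxY
            rw [if_neg hxY] at h
            have := hf1 x (mem_sdiff.mpr ⟨hx, hxY⟩)
            rw [h] at this
            exact ha this
          · intro hx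
            exact ⟨hYX hx, if_pos hx⟩
        rw [this, hY]
      · rw [← hf2 j h]
        congr 1
        ext x
        simp only [mem_filter, mem_sdiff]
        constructor
        · rintro ⟨hx, h'⟩
          by_cases hxY : x ∈ Y
          · rw [if_pos hxY] at h'
            subst h'
            exact absurd h ha
          · rw [if_neg hxY] at h'
            exact ⟨⟨hx, hxY⟩, h'⟩
        · rintro ⟨⟨hx, hxY⟩, h'⟩
          refine ⟨hx, ?_⟩
          rw [if_neg hxY]; exact h'

open scoped Classical in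
theorem distribute_le (S : Finset ℕ) (b : ℕ → ℕ) : ∀ (X : Finset ℕ), X.card ≤ ∑ j ∈ S, b j →
    ∃ f : ℕ → ℕ, (∀ x ∈ X, f x ∈ S) ∧ ∀ j ∈ S, (X.filter (fun x => f x = j)).card ≤ b j := by
  induction S using Finset.induction_on with
  | empty =>
    intro X hX
    rw [sum_empty, Nat.le_zero, card_eq_zero] at hX
    subst hX
    exact ⟨fun _ => 0, by simp, by simp⟩
  | insert a S ha ih =>
    intro X hX
    rw [sum_insert ha] at hX
    obtain ⟨Y, hYX, hY⟩ := exists_subset_card_eq (s := X) (n := min (b a) X.card) (by omega)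
    have h1 : (X \ Y).card ≤ ∑ j ∈ S, b j := by
      rw [card_sdiff_of_subset hYX]
      omega
    obtain ⟨f, hf1, hf2⟩ := ih _ h1
    refine ⟨fun x => if x ∈ Y then a else f x, ?_, ?_⟩
    · intro x hx
      show (if x ∈ Y then a else f x) ∈ insert a S
      by_cases hxY : x ∈ Y
      · rw [if_pos hxY]; exact mem_insert_self _ _
      · rw [if_neg hxY]; exact mem_insert_of_mem (hf1 x (mem_sdiff.mpr ⟨hx, hxY⟩))
    · intro j hj
      rcases mem_insert.mp hj with h | h
      · subst h
        have : X.filter (fun x => (if x ∈ Y then j else f x) = j) = Y := by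
          ext x
          simp only [mem_filter]
          constructor
          · rintro ⟨hx, h⟩
            by_contra hxY
            rw [if_neg hxY] at h
            have := hf1 x (mem_sdiff.mpr ⟨hx, hxY⟩)
            rw [h] at this
            exact ha this
          · intro hx
            exact ⟨hYX hx, if_pos hx⟩
        rw [this, hY]
        omega
      · refine le_trans (le_of_eq ?_) (hf2 j h)
        congr 1
        ext x
        simp only [mem_filter, mem_sdiff]
        constructor
        · rintro ⟨hx, h'⟩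
          by_cases hxY : x ∈ Y
          · rw [if_pos hxY] at h'
            subst h'
            exact absurd h ha
          · rw [if_neg hxY] at h'
            exact ⟨⟨hx, hxY⟩, h'⟩
        · rintro ⟨⟨hx, hxY⟩, h'⟩
          refine ⟨hx, ?_⟩
          rw [if_neg hxY]; exact h'

/-- Adjacency in the forest with parents `p`. -/
def Adj (p : ℕ → ℕ) (u v : ℕ) : Prop := (v < u ∧ p u = v) ∨ (u < v ∧ p v = u)

theorem Adj.symm {p : ℕ → ℕ} {u v : ℕ} (h : Adj p u v) : Adj p v u := by
  rcases h with h | h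
  · exact Or.inr h
  · exact Or.inl h

open scoped Classical in
theorem edges_le (p : ℕ → ℕ) (Y A : Finset ℕ) :
    ∑ v ∈ Y, (A.filter (Adj p v)).card ≤ Y.card + A.card := by
  have h1 : ∀ v ∈ Y, (A.filter (Adj p v)).card ≤
      1 + (A.filter (fun w => v < w ∧ p w = v)).card := by
    intro v _
    have : A.filter (Adj p v) ⊆ {p v} ∪ A.filter (fun w => v < w ∧ p w = v) := by
      intro w hw
      rw [mem_filter] at hw
      rw [mem_union, mem_singleton, mem_filter]
      rcases hw.2 with h | h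
      · exact Or.inl h.2.symm
      · exact Or.inr ⟨hw.1, h⟩
    exact (card_le_card this).trans ((card_union_le _ _).trans (by rw [card_singleton]))
  refine (sum_le_sum h1).trans ?_
  rw [sum_add_distrib, sum_const, smul_eq_mul, mul_one]
  refine Nat.add_le_add_left ?_ _
  have h2 : ∑ v ∈ Y, (A.filter (fun w => v < w ∧ p w = v)).card ≤
      ∑ v ∈ Y, (A.filter (fun w => p w = v)).card :=
    sum_le_sum fun v _ => card_le_card (fun w hw => by
      rw [mem_filter] at hw ⊢
      exact ⟨hw.1, hw.2.2⟩)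
  refine h2.trans ?_
  rw [← card_biUnion]
  · exact card_le_card (biUnion_subset.mpr fun v _ => filter_subset _ _)
  · intro u _ v _ huv
    rw [Function.onFun, disjoint_left]
    intro w hw hw'
    rw [mem_filter] at hw hw'
    exact huv (hw.2.symm.trans hw'.2)

theorem common_eq {p : ℕ → ℕ} {u v w w' : ℕ} (huv : u ≠ v) (h1 : Adj p u w) (h2 : Adj p v w)
    (h3 : Adj p u w') (h4 : Adj p v w') : w = w' := by
  unfold Adj at *
  rcases h1 with ⟨a1, b1⟩ | ⟨a1, b1⟩ <;> rcases h2 with ⟨a2, b2⟩ | ⟨a2, b2⟩ <;>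
    rcases h3 with ⟨a3, b3⟩ | ⟨a3, b3⟩ <;> rcases h4 with ⟨a4, b4⟩ | ⟨a4, b4⟩ <;>
    first
    | (exact b1.symm.trans b3)
    | (exact b2.symm.trans b4)
    | (exfalso; omega)

open scoped Classical in
/-- Two vertices have at most one common neighbour, so their degrees sum to at most `|A| + 1`. -/
theorem deg_add_le (p : ℕ → ℕ) (A : Finset ℕ) {u v : ℕ} (huv : u ≠ v) :
    (A.filter (Adj p u)).card + (A.filter (Adj p v)).card ≤ A.card + 1 := by
  have h1 : (A.filter (Adj p u) ∩ A.filter (Adj p v)).card ≤ 1 := by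
    rw [card_le_one]
    intro a ha b hb
    rw [mem_inter, mem_filter, mem_filter] at ha hb
    exact common_eq huv ha.1.2 ha.2.2 hb.1.2 hb.2.2
  have h2 : (A.filter (Adj p u) ∪ A.filter (Adj p v)).card ≤ A.card :=
    card_le_card (union_subset (filter_subset _ _) (filter_subset _ _))
  have h3 := card_union_add_card_inter (A.filter (Adj p u)) (A.filter (Adj p v))
  omega

/-- A subset with small sum. -/
theorem exists_quarter (B : Finset ℕ) (f : ℕ → ℕ) (y : ℕ) (hy : 4 * y ≤ B.card) :
    ∃ Y ⊆ B, Y.card = y ∧ 4 * ∑ v ∈ Y, f v ≤ ∑ v ∈ B, f v := by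
  obtain ⟨Y1, h1, c1⟩ := exists_subset_card_eq (s := B) (n := y) (by omega)
  have d1 : (B \ Y1).card = B.card - y := by rw [card_sdiff_of_subset h1, c1]
  obtain ⟨Y2, h2, c2⟩ := exists_subset_card_eq (s := B \ Y1) (n := y) (by omega)
  have d2 : ((B \ Y1) \ Y2).card = B.card - y - y := by rw [card_sdiff_of_subset h2, d1, c2]
  obtain ⟨Y3, h3, c3⟩ := exists_subset_card_eq (s := (B \ Y1) \ Y2) (n := y) (by omega)
  have d3 : (((B \ Y1) \ Y2) \ Y3).card = B.card - y - y - y := by
    rw [card_sdiff_of_subset h3, d2, c3]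
  obtain ⟨Y4, h4, c4⟩ := exists_subset_card_eq (s := ((B \ Y1) \ Y2) \ Y3) (n := y) (by omega)
  have s1 := sum_sdiff (f := f) h1
  have s2 := sum_sdiff (f := f) h2
  have s3 := sum_sdiff (f := f) h3
  have s4 := sum_le_sum_of_subset (f := f) h4
  have g2 : Y2 ⊆ B := h2.trans sdiff_subset
  have g3 : Y3 ⊆ B := h3.trans (sdiff_subset.trans sdiff_subset)
  have g4 : Y4 ⊆ B := h4.trans (sdiff_subset.trans (sdiff_subset.trans sdiff_subset))
  by_contra hcon
  push Not at hcon
  have e1 := hcon Y1 h1 c1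
  have e2 := hcon Y2 g2 c2
  have e3 := hcon Y3 g3 c3
  have e4 := hcon Y4 g4 c4
  omega

theorem exists_between (f : ℕ → ℕ) (D D' : ℕ) : ∀ Y : Finset ℕ, (∀ v ∈ Y, f v ≤ D) →
    D' ≤ ∑ v ∈ Y, f v → ∃ Y1 ⊆ Y, D' ≤ ∑ v ∈ Y1, f v ∧ ∑ v ∈ Y1, f v ≤ D' + D := by
  intro Y
  induction Y using Finset.induction_on with
  | empty =>
    intro _ h
    exact ⟨∅, Subset.refl _, h, by simp⟩
  | insert a Y ha ih =>
    intro hD h
    by_cases hle : ∑ v ∈ insert a Y, f v ≤ D' + D
    · exact ⟨_, Subset.refl _, h, hle⟩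
    · rw [sum_insert ha] at h hle
      have := hD a (mem_insert_self _ _)
      obtain ⟨Y1, h1, h2⟩ := ih (fun v hv => hD v (mem_insert_of_mem hv)) (by omega)
      exact ⟨Y1, h1.trans (subset_insert _ _), h2⟩

/-- Splitting a set of centres. -/
theorem exists_split (f : ℕ → ℕ) (Y : Finset ℕ) (a β : ℕ) (ha : 8 * β ≤ a)
    (h1 : ∀ v ∈ Y, f v + 2 * β ≤ a) (h2 : ∑ v ∈ Y, f v ≤ a + β) :
    ∃ Y1 ⊆ Y, ∑ v ∈ Y1, f v + 2 * β ≤ a ∧ ∑ v ∈ Y \ Y1, f v + 2 * β ≤ a := by
  by_cases hv : ∃ v ∈ Y, 3 * β < f v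
  · obtain ⟨v, hvY, hv⟩ := hv
    refine ⟨{v}, singleton_subset_iff.mpr hvY, ?_, ?_⟩
    · rw [sum_singleton]; exact h1 v hvY
    · have := sum_sdiff (f := f) (singleton_subset_iff.mpr hvY)
      rw [sum_singleton] at this
      omega
  · push Not at hv
    by_cases hs : ∑ v ∈ Y, f v + 2 * β ≤ a
    · refine ⟨∅, empty_subset _, ?_, ?_⟩
      · rw [sum_empty]; omega
      · rw [sdiff_empty]; exact hs
    · obtain ⟨Y1, hY1, h3, h4⟩ := exists_between f (3 * β) (3 * β) Y hv (by omega)
      refine ⟨Y1, hY1, by omega, ?_⟩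
      have := sum_sdiff (f := f) hY1
      omega

end Pool.Agent.BCP
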