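import Mathlib
import Pool.Agent.BCP.StructAux

/-!
# Structure lemma: almost all classes can be made pure
-/

namespace Pool.Agent.BCP

open Finset

open scoped Classical in
/-- Prefix of the classes, ordered by size. -/
theorem exists_prefix (I : Finset ℕ) (b : ℕ → ℕ) (m : ℕ) (h : m < ∑ i ∈ I, b i) :
    ∃ i0 ∈ I, ∑ j ∈ I.filter (Small b (b i0) i0), b j ≤ m ∧
      ∀ j ∈ I, ¬ Small b (b i0) i0 j → m < ∑ j ∈ I.filter (Small b (b i0) i0), b j + b j := by
  -- order
  set key : ℕ → ℕ ×ₗ ℕ := fun j => toLex (b j, j) with hkey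
  have hsm : ∀ i j, Small b (b i) i j ↔ key j < key i := by
    intro i j
    rw [hkey]
    simp only [Prod.Lex.toLex_lt_toLex]
    rfl
  have hinj : ∀ i j, key i = key j → i = j := by
    intro i j hij
    have := congrArg (fun z => (ofLex z).2) hij
    exact this
  have hI : I.Nonempty := by
    rw [nonempty_iff_ne_empty]
    rintro rfl
    rw [sum_empty] at h
    omega
  -- the set of candidates
  set W := I.filter (fun i => m < ∑ j ∈ I.filter (Small b (b i) i), b j + b i) with hW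
  have hWne : W.Nonempty := by
    obtain ⟨i1, hi1, hmax⟩ := exists_max_image I key hI
    refine ⟨i1, mem_filter.mpr ⟨hi1, ?_⟩⟩
    have : I.filter (Small b (b i1) i1) = I.erase i1 := by
      ext j
      rw [mem_filter, mem_erase, hsm]
      constructor
      · rintro ⟨hj, h'⟩
        exact ⟨fun e => by rw [e] at h'; exact lt_irrefl _ h', hj⟩
      · rintro ⟨hne, hj⟩
        exact ⟨hj, lt_of_le_of_ne (hmax j hj) (fun e => hne (hinj _ _ e))⟩
    rw [this, sum_erase_add _ _ hi1]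
    exact h
  obtain ⟨i0, hi0, hmin⟩ := exists_min_image W key hWne
  rw [hW, mem_filter] at hi0
  refine ⟨i0, hi0.1, ?_, ?_⟩
  · by_cases hP : (I.filter (Small b (b i0) i0)).Nonempty
    · obtain ⟨i1, hi1, hmax⟩ := exists_max_image _ key hP
      have hi1' := mem_filter.mp hi1
      have hnot : i1 ∉ W := by
        intro hc
        have := hmin i1 hc
        have h2 := (hsm i0 i1).mp hi1'.2
        exact absurd h2 (not_lt.mpr this)
      rw [hW, mem_filter, not_and, not_lt] at hnot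
      have h3 := hnot hi1'.1
      have h4 : I.filter (Small b (b i1) i1) = (I.filter (Small b (b i0) i0)).erase i1 := by
        ext j
        rw [mem_filter, mem_erase, mem_filter, hsm, hsm]
        constructor
        · rintro ⟨hj, h'⟩
          exact ⟨fun e => by rw [e] at h'; exact lt_irrefl _ h', hj,
            h'.trans ((hsm i0 i1).mp hi1'.2)⟩
        · rintro ⟨hne, hj, h'⟩
          have := hmax j (mem_filter.mpr ⟨hj, (hsm _ _).mpr h'⟩)
          exact ⟨hj, lt_of_le_of_ne this (fun e => hne (hinj _ _ e))⟩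
      rw [h4, sum_erase_add _ _ hi1] at h3
      exact h3
    · rw [not_nonempty_iff_eq_empty] at hP
      rw [hP, sum_empty]
      exact Nat.zero_le _
  · intro j hj hnj
    have h1 : b i0 ≤ b j := by
      by_contra hc
      exact hnj (Or.inl (by omega))
    have := hi0.2
    omega

/-- The data of a coloured forest. -/
structure Setup where
  p : ℕ → ℕ
  R : Finset ℕ
  I : Finset ℕ
  φ : ℕ → ℕ
  b : ℕ → ℕ
  σ : ℕ → Bool
  hφI : ∀ v ∈ R, φ v ∈ I
  hprop : ∀ u ∈ R, ∀ v ∈ R, Adj p u v → φ u ≠ φ v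
  hσ : ∀ u ∈ R, ∀ v ∈ R, Adj p u v → σ u ≠ σ v
  hb : ∀ i ∈ I, (R.filter (fun v => φ v = i)).card = b i

namespace Setup

variable (D : Setup)

/-- side `false` -/
def A : Finset ℕ := D.R.filter (fun v => D.σ v = false)
/-- side `true` -/
def B : Finset ℕ := D.R.filter (fun v => D.σ v = true)

theorem mem_A {v : ℕ} : v ∈ D.A ↔ v ∈ D.R ∧ D.σ v = false := mem_filter
theorem mem_B {v : ℕ} : v ∈ D.B ↔ v ∈ D.R ∧ D.σ v = true := mem_filter

theorem card_A_add_card_B : D.A.card + D.B.card = D.R.card := by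
  have h := card_filter_add_card_filter_not (s := D.R) (fun v => D.σ v = false)
  have h2 : D.R.filter (fun v => ¬ D.σ v = false) = D.B := by
    unfold B
    ext v
    simp
  rw [h2] at h
  exact h

theorem card_R : D.R.card = ∑ i ∈ D.I, D.b i := by
  rw [card_eq_sum_card_fiberwise (f := D.φ) (t := D.I) (fun v hv => D.hφI v hv)]
  exact sum_congr rfl D.hb

open scoped Classical in
/-- Assembly of the new colouring from the special classes `Cl j`, `j ∈ J`. -/
theorem assemble (L J : Finset ℕ) (hL : L ⊆ D.I) (hJ : J ⊆ D.I) (hJL : Disjoint J L)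
    (Cl : ℕ → Finset ℕ) (h1 : ∀ j ∈ J, Cl j ⊆ D.R) (h2 : ∀ j ∈ J, (Cl j).card = D.b j)
    (h3 : ∀ j ∈ J, ∀ u ∈ Cl j, ∀ v ∈ Cl j, ¬ Adj D.p u v)
    (h4 : ∀ j ∈ J, ∀ k ∈ J, j ≠ k → Disjoint (Cl j) (Cl k))
    (h5 : (D.B \ J.biUnion Cl).card = ∑ i ∈ L, D.b i) :
    ∃ ψ : ℕ → ℕ, (∀ v ∈ D.R, ψ v ∈ D.I) ∧ (∀ u ∈ D.R, ∀ v ∈ D.R, Adj D.p u v → ψ u ≠ ψ v) ∧
      (∀ i ∈ D.I, (D.R.filter (fun v => ψ v = i)).card = D.b i) ∧
      (∀ v ∈ D.R, ψ v ∉ J → (D.σ v = true ↔ ψ v ∈ L)) := by
  set C := J.biUnion Cl with hC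
  have hCR : C ⊆ D.R := biUnion_subset.mpr h1
  have hCc : C.card = ∑ j ∈ J, D.b j := by
    rw [hC, card_biUnion (fun j hj k hk hjk => h4 j hj k hk hjk)]
    exact sum_congr rfl h2
  -- sizes
  set LA := (D.I \ J) \ L with hLA
  have hLJ : L ⊆ D.I \ J := fun i hi => mem_sdiff.mpr ⟨hL hi, fun hc => (disjoint_left.mp hJL) hc hi⟩
  have hsum : ∑ i ∈ LA, D.b i + ∑ i ∈ L, D.b i + ∑ j ∈ J, D.b j = ∑ i ∈ D.I, D.b i := by
    rw [hLA, sum_sdiff hLJ, sum_sdiff hJ]
  have hsplit : (D.A \ C).card + (D.B \ C).card + C.card = D.R.card := by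
    have e1 : (D.A \ C) ∪ (D.B \ C) = D.R \ C := by
      ext v
      rw [mem_union, mem_sdiff, mem_sdiff, mem_sdiff, mem_A, mem_B]
      constructor
      · rintro (⟨⟨h, _⟩, h'⟩ | ⟨⟨h, _⟩, h'⟩) <;> exact ⟨h, h'⟩
      · rintro ⟨h, h'⟩
        cases hs : D.σ v
        · exact Or.inl ⟨⟨h, rfl⟩, h'⟩
        · exact Or.inr ⟨⟨h, rfl⟩, h'⟩
    have e2 : Disjoint (D.A \ C) (D.B \ C) := by
      rw [disjoint_left]
      intro v hv hv'
      rw [mem_sdiff, mem_A] at hv
      rw [mem_sdiff, mem_B] at hv'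
      rw [hv.1.2] at hv'
      exact Bool.noConfusion hv'.1.2
    rw [← card_union_of_disjoint e2, e1, card_sdiff_of_subset hCR]
    have := card_le_card hCR
    omega
  have hAc : (D.A \ C).card = ∑ i ∈ LA, D.b i := by
    have := D.card_R
    omega
  obtain ⟨fA, fA1, fA2⟩ := distribute LA D.b (D.A \ C) hAc
  obtain ⟨fB, fB1, fB2⟩ := distribute L D.b (D.B \ C) h5
  have hch : ∀ v ∈ C, ∃ j ∈ J, v ∈ Cl j := fun v hv => by
    rw [hC, mem_biUnion] at hv
    exact hv
  choose! g g1 g2 using hch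
  set ψ : ℕ → ℕ := fun v => if v ∈ C then g v else if D.σ v = true then fB v else fA v with hψ
  have p1 : ∀ v ∈ C, ψ v = g v := fun v hv => if_pos hv
  have p2 : ∀ v ∈ D.R, v ∉ C → D.σ v = true → ψ v = fB v ∧ ψ v ∈ L := by
    intro v hv hvC hs
    have e : ψ v = fB v := by
      rw [hψ]
      show (if v ∈ C then g v else if D.σ v = true then fB v else fA v) = _
      rw [if_neg hvC, if_pos hs]
    exact ⟨e, e ▸ fB1 v (mem_sdiff.mpr ⟨D.mem_B.mpr ⟨hv, hs⟩, hvC⟩)⟩
  have p3 : ∀ v ∈ D.R, v ∉ C → D.σ v = false → ψ v = fA v ∧ ψ v ∈ LA := by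
    intro v hv hvC hs
    have e : ψ v = fA v := by
      rw [hψ]
      show (if v ∈ C then g v else if D.σ v = true then fB v else fA v) = _
      rw [if_neg hvC, if_neg (by rw [hs]; exact Bool.false_ne_true)]
    exact ⟨e, e ▸ fA1 v (mem_sdiff.mpr ⟨D.mem_A.mpr ⟨hv, hs⟩, hvC⟩)⟩
  have hLnJ : ∀ i ∈ L, i ∉ J := fun i hi hc => (disjoint_left.mp hJL) hc hi
  have hLAnJ : ∀ i ∈ LA, i ∉ J := fun i hi => by
    rw [hLA, mem_sdiff, mem_sdiff] at hi
    exact hi.1.2
  have hLAnL : ∀ i ∈ LA, i ∉ L := fun i hi => by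
    rw [hLA, mem_sdiff] at hi
    exact hi.2
  have uniq : ∀ v ∈ C, ∀ j ∈ J, v ∈ Cl j → g v = j := by
    intro v hv j hj hvj
    by_contra hne
    exact (disjoint_left.mp (h4 _ (g1 v hv) j hj hne)) (g2 v hv) hvj
  refine ⟨ψ, ?_, ?_, ?_, ?_⟩
  · intro v hv
    by_cases hvC : v ∈ C
    · rw [p1 v hvC]; exact hJ (g1 v hvC)
    · cases hs : D.σ v
      · have := (p3 v hv hvC hs).2
        rw [hLA, mem_sdiff, mem_sdiff] at this
        exact this.1.1
      · exact hL (p2 v hv hvC hs).2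
  · intro u hu v hv huv heq
    by_cases huC : u ∈ C
    · by_cases hvC : v ∈ C
      · rw [p1 u huC, p1 v hvC] at heq
        exact h3 _ (g1 u huC) u (g2 u huC) v (by rw [heq]; exact g2 v hvC) huv
      · rw [p1 u huC] at heq
        have hJu := g1 u huC
        cases hs : D.σ v
        · exact hLAnJ _ (p3 v hv hvC hs).2 (heq ▸ hJu)
        · exact hLnJ _ (p2 v hv hvC hs).2 (heq ▸ hJu)
    · by_cases hvC : v ∈ C
      · rw [p1 v hvC] at heq
        have hJv := g1 v hvC
        cases hs : D.σ u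
        · exact hLAnJ _ (p3 u hu huC hs).2 (heq ▸ hJv)
        · exact hLnJ _ (p2 u hu huC hs).2 (heq ▸ hJv)
      · have hne := D.hσ u hu v hv huv
        cases hs : D.σ u <;> cases hs' : D.σ v
        · exact hne (hs.trans hs'.symm)
        · exact hLAnL _ (p3 u hu huC hs).2 (heq ▸ (p2 v hv hvC hs').2)
        · exact hLAnL _ (p3 v hv hvC hs').2 (heq ▸ (p2 u hu huC hs).2)
        · exact hne (hs.trans hs'.symm)
  · intro i hi
    by_cases hiJ : i ∈ J
    · have : D.R.filter (fun v => ψ v = i) = Cl i := by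
        ext v
        rw [mem_filter]
        constructor
        · rintro ⟨hv, he⟩
          by_cases hvC : v ∈ C
          · rw [p1 v hvC] at he
            rw [← he]; exact g2 v hvC
          · exfalso
            cases hs : D.σ v
            · exact hLAnJ _ (p3 v hv hvC hs).2 (he ▸ hiJ)
            · exact hLnJ _ (p2 v hv hvC hs).2 (he ▸ hiJ)
        · intro hv
          have hvC : v ∈ C := by rw [hC, mem_biUnion]; exact ⟨i, hiJ, hv⟩
          exact ⟨hCR hvC, by rw [p1 v hvC]; exact uniq v hvC i hiJ hv⟩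
      rw [this, h2 i hiJ]
    · by_cases hiL : i ∈ L
      · rw [← fB2 i hiL]
        congr 1
        ext v
        rw [mem_filter, mem_filter, mem_sdiff, mem_B]
        constructor
        · rintro ⟨hv, he⟩
          by_cases hvC : v ∈ C
          · exfalso
            rw [p1 v hvC] at he
            exact hiJ (he ▸ g1 v hvC)
          · cases hs : D.σ v
            · exact absurd (he ▸ hiL) (hLAnL _ (p3 v hv hvC hs).2)
            · exact ⟨⟨⟨hv, rfl⟩, hvC⟩, (p2 v hv hvC hs).1 ▸ he⟩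
        · rintro ⟨⟨⟨hv, hs⟩, hvC⟩, he⟩
          exact ⟨hv, (p2 v hv hvC hs).1.trans he⟩
      · have hiLA : i ∈ LA := by
          rw [hLA, mem_sdiff, mem_sdiff]
          exact ⟨⟨hi, hiJ⟩, hiL⟩
        rw [← fA2 i hiLA]
        congr 1
        ext v
        rw [mem_filter, mem_filter, mem_sdiff, mem_A]
        constructor
        · rintro ⟨hv, he⟩
          by_cases hvC : v ∈ C
          · exfalso
            rw [p1 v hvC] at he
            exact hiJ (he ▸ g1 v hvC)
          · cases hs : D.σ v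
            · exact ⟨⟨⟨hv, rfl⟩, hvC⟩, (p3 v hv hvC hs).1 ▸ he⟩
            · exact absurd (he ▸ (p2 v hv hvC hs).2) hiL
        · rintro ⟨⟨⟨hv, hs⟩, hvC⟩, he⟩
          exact ⟨hv, (p3 v hv hvC hs).1.trans he⟩
  · intro v hv hvJ
    by_cases hvC : v ∈ C
    · rw [p1 v hvC] at hvJ
      exact absurd (g1 v hvC) hvJ
    · cases hs : D.σ v
      · have := hLAnL _ (p3 v hv hvC hs).2
        constructor
        · intro h; exact Bool.noConfusion h
        · intro h; exact absurd h this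
      · exact ⟨fun _ => (p2 v hv hvC hs).2, fun _ => rfl⟩

end Setup

end Pool.Agent.BCP
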