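import Mathlib
import Pool.Agent.BCP.LemmaS

/-!
# Structure lemma: the case analysis
-/

namespace Pool.Agent.BCP

open Finset

namespace Setup

variable (D : Setup)

open scoped Classical in
/-- degree of `v` towards the set `A'` -/
noncomputable def deg (A' : Finset ℕ) (v : ℕ) : ℕ := (A'.filter (Adj D.p v)).card

open scoped Classical in
open scoped Classical in
/-- Vertices of `A'` with no neighbour in `Y`. -/
noncomputable def free (A' Y : Finset ℕ) : Finset ℕ :=
  A'.filter (fun w => ∀ u ∈ Y, ¬ Adj D.p u w)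

theorem free_subset (A' Y : Finset ℕ) : D.free A' Y ⊆ A' := by
  classical
  exact filter_subset _ _

theorem not_adj_of_free {A' Y : Finset ℕ} {w u : ℕ} (hw : w ∈ D.free A' Y) (hu : u ∈ Y) :
    ¬ Adj D.p u w := by
  classical
  have := (mem_filter.mp hw).2
  exact this u hu

theorem card_free (A' Y : Finset ℕ) : A'.card ≤ (D.free A' Y).card + ∑ v ∈ Y, D.deg A' v := by
  classical
  have h : A' ⊆ D.free A' Y ∪ Y.biUnion (fun v => A'.filter (Adj D.p v)) := by
    intro w hw
    by_cases hf : ∀ u ∈ Y, ¬ Adj D.p u w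
    · exact mem_union_left _ (mem_filter.mpr ⟨hw, hf⟩)
    · push Not at hf
      obtain ⟨u, hu, huw⟩ := hf
      exact mem_union_right _ (mem_biUnion.mpr ⟨u, hu, mem_filter.mpr ⟨hw, huw⟩⟩)
  refine (card_le_card h).trans ((card_union_le _ _).trans ?_)
  exact Nat.add_le_add_left card_biUnion_le _

theorem A_subset : D.A ⊆ D.R := filter_subset _ _
theorem B_subset : D.B ⊆ D.R := filter_subset _ _

theorem disj : Disjoint D.A D.B := by
  rw [disjoint_left]
  intro v hv hv'
  rw [mem_A] at hv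
  rw [mem_B, hv.2] at hv'
  exact Bool.noConfusion hv'.2

/-- A class made of `Y ⊆ B` and `X ⊆ A` without edges between them is independent. -/
theorem indep {X Y : Finset ℕ} (hX : X ⊆ D.A) (hY : Y ⊆ D.B) (h : ∀ u ∈ Y, ∀ w ∈ X, ¬ Adj D.p u w) :
    ∀ u ∈ Y ∪ X, ∀ v ∈ Y ∪ X, ¬ Adj D.p u v := by
  intro u hu v hv huv
  rcases mem_union.mp hu with hu | hu <;> rcases mem_union.mp hv with hv | hv
  · have a := D.mem_B.mp (hY hu)
    have b := D.mem_B.mp (hY hv)
    exact D.hσ u a.1 v b.1 huv (a.2.trans b.2.symm)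
  · exact h u hu v hv huv
  · exact h v hv u hu huv.symm
  · have a := D.mem_A.mp (hX hu)
    have b := D.mem_A.mp (hX hv)
    exact D.hσ u a.1 v b.1 huv (a.2.trans b.2.symm)

theorem card_YX {X Y : Finset ℕ} (hX : X ⊆ D.A) (hY : Y ⊆ D.B) :
    (Y ∪ X).card = Y.card + X.card := by
  apply card_union_of_disjoint
  exact (D.disj.mono hX hY).symm

/-- Conclusion of the structure lemma, with `L` the set of the pure classes on the side `true`. -/
def Concl (L : Finset ℕ) : Prop :=
  ∃ (J : Finset ℕ) (ψ : ℕ → ℕ), J ⊆ D.I ∧ J.card ≤ 3 ∧ (∀ v ∈ D.R, ψ v ∈ D.I) ∧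
    (∀ u ∈ D.R, ∀ v ∈ D.R, Adj D.p u v → ψ u ≠ ψ v) ∧
    (∀ i ∈ D.I, (D.R.filter (fun v => ψ v = i)).card = D.b i) ∧
    (∀ v ∈ D.R, ψ v ∉ J → (D.σ v = true ↔ ψ v ∈ L))

/-- Case 1: the smaller side is not very small. -/
theorem case1 {L : Finset ℕ} (hL : L ⊆ D.I) {β i : ℕ} (hi : i ∈ D.I) (hiL : i ∉ L)
    (hβ : D.b i ≤ β) (hR : 16 * β ≤ D.R.card) (hbal : D.B.card ≤ D.A.card)
    (h1 : ∑ j ∈ L, D.b j ≤ D.B.card) (h2 : D.B.card < ∑ j ∈ L, D.b j + D.b i)
    (hm : 4 * β ≤ D.B.card) : D.Concl L := by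

  classical
  set y := D.B.card - ∑ j ∈ L, D.b j with hy
  obtain ⟨Y, hY, hYc, hYd⟩ := exists_quarter D.B (D.deg D.A) y (by omega)
  have hE := edges_le D.p D.B D.A
  have hAB := D.card_A_add_card_B
  have hfree := D.card_free D.A Y
  have hd : ∑ v ∈ D.B, D.deg D.A v ≤ D.B.card + D.A.card := hE
  obtain ⟨X, hX, hXc⟩ := exists_subset_card_eq (s := D.free D.A Y) (n := D.b i - y) (by omega)
  have hXA : X ⊆ D.A := hX.trans (D.free_subset _ _)
  obtain ⟨ψ, q1, q2, q3, q4⟩ := D.assemble L {i} hL (singleton_subset_iff.mpr hi)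
    (disjoint_singleton_left.mpr hiL) (fun _ => Y ∪ X)
    (fun j _ => union_subset (hY.trans D.B_subset) (hXA.trans D.A_subset))
    (fun j hj => by
      rw [mem_singleton] at hj
      subst hj
      rw [D.card_YX hXA hY]
      omega)
    (fun j _ => D.indep hXA hY (fun u hu w hw => D.not_adj_of_free (hX hw) hu))
    (fun j hj k hk hjk => by
      rw [mem_singleton] at hj hk
      exact absurd (hj.trans hk.symm) hjk)
    (by
      rw [singleton_biUnion]
      have : D.B \ (Y ∪ X) = D.B \ Y := by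
        ext v
        rw [mem_sdiff, mem_sdiff, mem_union]
        constructor
        · rintro ⟨h, h'⟩; exact ⟨h, fun hc => h' (Or.inl hc)⟩
        · rintro ⟨h, h'⟩
          refine ⟨h, ?_⟩
          rintro (hc | hc)
          · exact h' hc
          · exact (disjoint_left.mp D.disj) (hXA hc) h
      rw [this, card_sdiff_of_subset hY]
      omega)
  exact ⟨{i}, ψ, singleton_subset_iff.mpr hi, by rw [card_singleton]; omega, q1, q2, q3, q4⟩

/-- Two classes from the centres `Y` (no bad centre) and vertices of `A'`. -/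
theorem two_classes {A' Y : Finset ℕ} (hA' : A' ⊆ D.A) (hY : Y ⊆ D.B) {β bi bl : ℕ}
    (hbi : Y.card ≤ bi) (hbl : Y.card ≤ bl) (hiβ : bi ≤ β) (hlβ : bl ≤ β)
    (ha : 8 * β ≤ A'.card) (hgood : ∀ v ∈ Y, D.deg A' v + 2 * β ≤ A'.card) :
    ∃ Y1 X1 Y2 X2 : Finset ℕ, Y1 ∪ Y2 = Y ∧ Disjoint Y1 Y2 ∧ X1 ⊆ A' ∧ X2 ⊆ A' ∧
      Disjoint X1 X2 ∧ (Y1 ∪ X1).card = bi ∧ (Y2 ∪ X2).card = bl ∧
      (∀ u ∈ Y1 ∪ X1, ∀ v ∈ Y1 ∪ X1, ¬ Adj D.p u v) ∧
      (∀ u ∈ Y2 ∪ X2, ∀ v ∈ Y2 ∪ X2, ¬ Adj D.p u v) := by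
  classical
  have hsum : ∑ v ∈ Y, D.deg A' v ≤ A'.card + β := by
    have := edges_le D.p Y A'
    have h2 : ∑ v ∈ Y, D.deg A' v ≤ Y.card + A'.card := this
    omega
  obtain ⟨Y1, hY1, s1, s2⟩ := exists_split (D.deg A') Y A'.card β ha hgood hsum
  have f1 := D.card_free A' Y1
  have f2 := D.card_free A' (Y \ Y1)
  have c1 := card_le_card hY1
  have c2 : (Y \ Y1).card ≤ Y.card := card_le_card sdiff_subset
  obtain ⟨X1, hX1, hX1c⟩ := exists_subset_card_eq (s := D.free A' Y1) (n := bi - Y1.card) (by omega)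
  have c3 : (D.free A' (Y \ Y1) \ X1).card ≥ (D.free A' (Y \ Y1)).card - X1.card :=
    le_card_sdiff _ _
  obtain ⟨X2, hX2, hX2c⟩ := exists_subset_card_eq (s := D.free A' (Y \ Y1) \ X1)
    (n := bl - (Y \ Y1).card) (by omega)
  have hX1' : X1 ⊆ A' := hX1.trans (D.free_subset _ _)
  have hX2' : X2 ⊆ A' := hX2.trans (sdiff_subset.trans (D.free_subset _ _))
  refine ⟨Y1, X1, Y \ Y1, X2, union_sdiff_of_subset hY1, disjoint_sdiff, hX1', hX2', ?_, ?_, ?_,
    ?_, ?_⟩
  · rw [disjoint_left]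
    intro v hv hv'
    exact (mem_sdiff.mp (hX2 hv')).2 hv
  · rw [D.card_YX (hX1'.trans hA') (hY1.trans hY)]
    omega
  · rw [D.card_YX (hX2'.trans hA') (sdiff_subset.trans hY)]
    omega
  · exact D.indep (hX1'.trans hA') (hY1.trans hY) (fun u hu w hw => D.not_adj_of_free (hX1 hw) hu)
  · exact D.indep (hX2'.trans hA') (sdiff_subset.trans hY) (fun u hu w hw =>
      D.not_adj_of_free (mem_sdiff.mp (hX2 hw)).1 hu)

/-- Two distinct classes exist in a set of classes of large total size. -/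
theorem exists_pair {S : Finset ℕ} {b : ℕ → ℕ} {β : ℕ} (h : ∀ i ∈ S, b i ≤ β)
    (hs : β < ∑ i ∈ S, b i) : ∃ i ∈ S, ∃ l ∈ S, i ≠ l := by
  by_contra hc
  push Not at hc
  have h1 : S.card ≤ 1 := by
    rw [card_le_one]
    exact hc
  have h2 : ∑ i ∈ S, b i ≤ S.card * β := by
    have := sum_le_card_nsmul S b β h
    rwa [smul_eq_mul] at this
  have h3 : S.card * β ≤ 1 * β := Nat.mul_le_mul_right _ h1
  omega

/-- Case 2a: good centres `Y` can be chosen. -/
theorem case2a {L : Finset ℕ} (hL : L ⊆ D.I) {β : ℕ} (hβ : ∀ i ∈ D.I, D.b i ≤ β)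
    (h1 : ∑ j ∈ L, D.b j ≤ D.B.card) (h2 : ∀ i ∈ D.I, i ∉ L → D.B.card < ∑ j ∈ L, D.b j + D.b i)
    (hA : 12 * β < D.A.card) {Y : Finset ℕ} (hY : Y ⊆ D.B)
    (hYc : Y.card = D.B.card - ∑ j ∈ L, D.b j)
    (hgood : ∀ v ∈ Y, D.deg D.A v + 2 * β ≤ D.A.card) : D.Concl L := by
  classical
  have hR := D.card_R
  have hAB := D.card_A_add_card_B
  have hIL : ∑ i ∈ D.I \ L, D.b i + ∑ i ∈ L, D.b i = ∑ i ∈ D.I, D.b i := sum_sdiff hL
  obtain ⟨i, hi, l, hl, hil⟩ := exists_pair (S := D.I \ L) (b := D.b) (β := β)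
    (fun i hi => hβ i (mem_sdiff.mp hi).1) (by omega)
  rw [mem_sdiff] at hi hl
  have b1 := h2 i hi.1 hi.2
  have b2 := h2 l hl.1 hl.2
  obtain ⟨Y1, X1, Y2, X2, e1, e2, e3, e4, e5, e6, e7, e8, e9⟩ := D.two_classes
    (Subset.refl D.A) hY (bi := D.b i) (bl := D.b l) (β := β) (by omega) (by omega)
    (hβ i hi.1) (hβ l hl.1) (by omega) hgood
  have hY1 : Y1 ⊆ D.B := (e1 ▸ subset_union_left : Y1 ⊆ Y).trans hY
  have hY2 : Y2 ⊆ D.B := (e1 ▸ subset_union_right : Y2 ⊆ Y).trans hY
  set Cl : ℕ → Finset ℕ := fun j => if j = i then Y1 ∪ X1 else Y2 ∪ X2 with hCl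
  have c1 : Cl i = Y1 ∪ X1 := if_pos rfl
  have c2 : Cl l = Y2 ∪ X2 := if_neg (Ne.symm hil)
  have hdis : Disjoint (Y1 ∪ X1) (Y2 ∪ X2) := by
    rw [disjoint_union_left, disjoint_union_right, disjoint_union_right]
    exact ⟨⟨e2, (D.disj.mono e4 hY1).symm⟩, D.disj.mono e3 hY2, e5⟩
  obtain ⟨ψ, q1, q2, q3, q4⟩ := D.assemble L {i, l} hL
    (by
      intro j hj
      rw [mem_insert, mem_singleton] at hj
      rcases hj with h | h <;> rw [h]
      · exact hi.1
      · exact hl.1)
    (by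
      rw [disjoint_left]
      intro j hj
      rw [mem_insert, mem_singleton] at hj
      rcases hj with h | h <;> rw [h]
      · exact hi.2
      · exact hl.2) Cl
    (fun j hj => by
      rw [mem_insert, mem_singleton] at hj
      rcases hj with h | h <;> rw [h]
      · rw [c1]; exact union_subset (hY1.trans D.B_subset) (e3.trans D.A_subset)
      · rw [c2]; exact union_subset (hY2.trans D.B_subset) (e4.trans D.A_subset))
    (fun j hj => by
      rw [mem_insert, mem_singleton] at hj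
      rcases hj with h | h <;> rw [h]
      · rw [c1]; exact e6
      · rw [c2]; exact e7)
    (fun j hj => by
      rw [mem_insert, mem_singleton] at hj
      rcases hj with h | h <;> rw [h]
      · rw [c1]; exact e8
      · rw [c2]; exact e9)
    (fun j hj k hk hjk => by
      rw [mem_insert, mem_singleton] at hj hk
      rcases hj with h | h <;> rcases hk with h' | h'
      · exact absurd (h.trans h'.symm) hjk
      · rw [h, h', c1, c2]; exact hdis
      · rw [h, h', c1, c2]; exact hdis.symm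
      · exact absurd (h.trans h'.symm) hjk)
    (by
      have : D.B \ ({i, l} : Finset ℕ).biUnion Cl = D.B \ Y := by
        ext v
        rw [mem_sdiff, mem_sdiff, ← e1, mem_union]
        constructor
        · rintro ⟨h, h'⟩
          refine ⟨h, fun hc => h' ?_⟩
          rw [mem_biUnion]
          rcases hc with hc | hc
          · exact ⟨i, mem_insert_self _ _, by rw [c1]; exact mem_union_left _ hc⟩
          · exact ⟨l, mem_insert_of_mem (mem_singleton_self _), by
              rw [c2]; exact mem_union_left _ hc⟩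
        · rintro ⟨h, h'⟩
          refine ⟨h, fun hc => ?_⟩
          rw [mem_biUnion] at hc
          obtain ⟨j, hj, hv⟩ := hc
          rw [mem_insert, mem_singleton] at hj
          rcases hj with hj | hj
          · rw [hj, c1, mem_union] at hv
            rcases hv with hv | hv
            · exact h' (Or.inl hv)
            · exact (disjoint_left.mp D.disj) (e3 hv) h
          · rw [hj, c2, mem_union] at hv
            rcases hv with hv | hv
            · exact h' (Or.inr hv)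
            · exact (disjoint_left.mp D.disj) (e4 hv) h
      rw [this, card_sdiff_of_subset hY]
      omega)
  refine ⟨{i, l}, ψ, ?_, ?_, q1, q2, q3, q4⟩
  · intro j hj
    rw [mem_insert, mem_singleton] at hj
    rcases hj with h | h <;> rw [h]
    · exact hi.1
    · exact hl.1
  · exact (card_le_two).trans (by omega)

/-- Case 2b: a bad vertex and no pure classes on the side `true`. -/
theorem case2b {β : ℕ} (hβ : ∀ i ∈ D.I, 1 ≤ D.b i ∧ D.b i ≤ β)
    (h2 : ∀ i ∈ D.I, D.B.card < D.b i) (hA : 12 * β < D.A.card) {w : ℕ} (hw : w ∈ D.B)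
    (hbad : D.A.card < D.deg D.A w + 2 * β) : D.Concl ∅ := by
  classical
  have hR := D.card_R
  have hAB := D.card_A_add_card_B
  have hwR := D.B_subset hw
  set c := D.φ w with hc
  have hcI : c ∈ D.I := D.hφI w hwR
  set W := D.R.filter (fun v => D.φ v = c) with hW
  have hWc : W.card = D.b c := D.hb c hcI
  have hWR : W ⊆ D.R := filter_subset _ _
  have hwW : w ∈ W := mem_filter.mpr ⟨hwR, rfl⟩
  have hWind : ∀ u ∈ W, ∀ v ∈ W, ¬ Adj D.p u v := by
    intro u hu v hv huv
    rw [hW, mem_filter] at hu hv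
    exact D.hprop u hu.1 v hv.1 huv (hu.2.trans hv.2.symm)
  have hbc := hβ c hcI
  -- the remaining sets
  have hA'c : D.A.card ≤ (D.A \ W).card + β := by
    have := le_card_sdiff W D.A
    omega
  have hYc : (D.B \ W).card < D.B.card := card_lt_card
    ⟨sdiff_subset, fun h => (mem_sdiff.mp (h hw)).2 hwW⟩
  have hmb := h2 c hcI
  have hgood : ∀ v ∈ D.B \ W, D.deg (D.A \ W) v + 2 * β ≤ (D.A \ W).card := by
    intro v hv
    have hvw : v ≠ w := fun e => (mem_sdiff.mp hv).2 (e ▸ hwW)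
    have h3 := deg_add_le D.p D.A hvw
    have h4 : D.deg (D.A \ W) v ≤ D.deg D.A v :=
      card_le_card (filter_subset_filter _ sdiff_subset)
    have h5 : D.deg D.A v + D.deg D.A w ≤ D.A.card + 1 := h3
    omega
  have hsum : ∑ i ∈ D.I.erase c, D.b i + D.b c = ∑ i ∈ D.I, D.b i := sum_erase_add _ _ hcI
  obtain ⟨i, hi, l, hl, hil⟩ := exists_pair (S := D.I.erase c) (b := D.b) (β := β)
    (fun i hi => (hβ i (mem_erase.mp hi).2).2) (by omega)
  rw [mem_erase] at hi hl
  have b1 := h2 i hi.2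
  have b2 := h2 l hl.2
  obtain ⟨Y1, X1, Y2, X2, e1, e2, e3, e4, e5, e6, e7, e8, e9⟩ := D.two_classes
    (A' := D.A \ W) (Y := D.B \ W) sdiff_subset sdiff_subset (bi := D.b i) (bl := D.b l)
    (β := β) (by omega) (by omega) (hβ i hi.2).2 (hβ l hl.2).2 (by omega) hgood
  have hY1 : Y1 ⊆ D.B \ W := e1 ▸ subset_union_left
  have hY2 : Y2 ⊆ D.B \ W := e1 ▸ subset_union_right
  have hY1' : Y1 ⊆ D.B := hY1.trans sdiff_subset
  have hY2' : Y2 ⊆ D.B := hY2.trans sdiff_subset
  have e3' : X1 ⊆ D.A := e3.trans sdiff_subset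
  have e4' : X2 ⊆ D.A := e4.trans sdiff_subset
  set Cl : ℕ → Finset ℕ := fun j => if j = c then W else if j = i then Y1 ∪ X1 else Y2 ∪ X2
    with hCl
  have c0 : Cl c = W := if_pos rfl
  have c1 : Cl i = Y1 ∪ X1 := by
    rw [hCl]; show (if i = c then W else if i = i then Y1 ∪ X1 else Y2 ∪ X2) = _
    rw [if_neg hi.1, if_pos rfl]
  have c2 : Cl l = Y2 ∪ X2 := by
    rw [hCl]; show (if l = c then W else if l = i then Y1 ∪ X1 else Y2 ∪ X2) = _
    rw [if_neg hl.1, if_neg (Ne.symm hil)]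
  have hdis : Disjoint (Y1 ∪ X1) (Y2 ∪ X2) := by
    rw [disjoint_union_left, disjoint_union_right, disjoint_union_right]
    exact ⟨⟨e2, (D.disj.mono e4' hY1').symm⟩, D.disj.mono e3' hY2', e5⟩
  have hdW1 : Disjoint W (Y1 ∪ X1) := by
    rw [disjoint_left]
    intro v hv hv'
    rcases mem_union.mp hv' with h | h
    · exact (mem_sdiff.mp (hY1 h)).2 hv
    · exact (mem_sdiff.mp (e3 h)).2 hv
  have hdW2 : Disjoint W (Y2 ∪ X2) := by
    rw [disjoint_left]
    intro v hv hv'
    rcases mem_union.mp hv' with h | h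
    · exact (mem_sdiff.mp (hY2 h)).2 hv
    · exact (mem_sdiff.mp (e4 h)).2 hv
  have mem3 : ∀ {j : ℕ}, j ∈ ({c, i, l} : Finset ℕ) ↔ j = c ∨ j = i ∨ j = l := by
    intro j; rw [mem_insert, mem_insert, mem_singleton]
  have hJI : ({c, i, l} : Finset ℕ) ⊆ D.I := by
    intro j hj
    rcases mem3.mp hj with h | h | h <;> rw [h]
    · exact hcI
    · exact hi.2
    · exact hl.2
  obtain ⟨ψ, q1, q2, q3, q4⟩ := D.assemble ∅ {c, i, l} (empty_subset _) hJI
    (disjoint_empty_right _) Cl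
    (fun j hj => by
      rcases mem3.mp hj with h | h | h <;> rw [h]
      · rw [c0]; exact hWR
      · rw [c1]; exact union_subset (hY1'.trans D.B_subset) (e3'.trans D.A_subset)
      · rw [c2]; exact union_subset (hY2'.trans D.B_subset) (e4'.trans D.A_subset))
    (fun j hj => by
      rcases mem3.mp hj with h | h | h <;> rw [h]
      · rw [c0]; exact hWc
      · rw [c1]; exact e6
      · rw [c2]; exact e7)
    (fun j hj => by
      rcases mem3.mp hj with h | h | h <;> rw [h]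
      · rw [c0]; exact hWind
      · rw [c1]; exact e8
      · rw [c2]; exact e9)
    (fun j hj k hk hjk => by
      rcases mem3.mp hj with h | h | h <;> rcases mem3.mp hk with h' | h' | h'
      · exact absurd (h.trans h'.symm) hjk
      · rw [h, h', c0, c1]; exact hdW1
      · rw [h, h', c0, c2]; exact hdW2
      · rw [h, h', c0, c1]; exact hdW1.symm
      · exact absurd (h.trans h'.symm) hjk
      · rw [h, h', c1, c2]; exact hdis
      · rw [h, h', c0, c2]; exact hdW2.symm
      · rw [h, h', c1, c2]; exact hdis.symm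
      · exact absurd (h.trans h'.symm) hjk)
    (by
      rw [sum_empty, card_eq_zero, sdiff_eq_empty_iff_subset]
      intro v hv
      rw [mem_biUnion]
      by_cases hvW : v ∈ W
      · exact ⟨c, mem3.mpr (Or.inl rfl), by rw [c0]; exact hvW⟩
      · have : v ∈ Y1 ∪ Y2 := by rw [e1]; exact mem_sdiff.mpr ⟨hv, hvW⟩
        rcases mem_union.mp this with h | h
        · exact ⟨i, mem3.mpr (Or.inr (Or.inl rfl)), by rw [c1]; exact mem_union_left _ h⟩
        · exact ⟨l, mem3.mpr (Or.inr (Or.inr rfl)), by rw [c2]; exact mem_union_left _ h⟩)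
  exact ⟨{c, i, l}, ψ, hJI, card_le_three, q1, q2, q3, q4⟩

open scoped Classical in
/-- The structure lemma. -/
theorem lemmaS {β : ℕ} (hβ : ∀ i ∈ D.I, 1 ≤ D.b i ∧ D.b i ≤ β) (hI : D.I.Nonempty)
    (hR : 16 * β ≤ D.R.card) (hbal : D.B.card ≤ D.A.card) :
    ∃ i0 ∈ D.I, D.Concl (D.I.filter (Small D.b (D.b i0) i0)) := by
  have hcR := D.card_R
  have hAB := D.card_A_add_card_B
  obtain ⟨i1, hi1⟩ := hI
  have hβ1 := hβ i1 hi1
  obtain ⟨i0, hi0, h1, h2⟩ := exists_prefix D.I D.b D.B.card (by omega)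
  refine ⟨i0, hi0, ?_⟩
  set L := D.I.filter (Small D.b (D.b i0) i0) with hL
  have hLI : L ⊆ D.I := filter_subset _ _
  have h2' : ∀ i ∈ D.I, i ∉ L → D.B.card < ∑ j ∈ L, D.b j + D.b i := by
    intro i hi hiL
    exact h2 i hi (fun hc => hiL (mem_filter.mpr ⟨hi, hc⟩))
  have hi0L : i0 ∉ L := by
    intro hc
    have := (mem_filter.mp hc).2
    unfold Small at this
    omega
  by_cases hm : 4 * β ≤ D.B.card
  · exact D.case1 hLI hi0 hi0L (hβ i0 hi0).2 hR hbal h1 (h2' i0 hi0 hi0L) hm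
  · push Not at hm
    have hA : 12 * β < D.A.card := by omega
    by_cases hbad : ∃ w ∈ D.B, D.A.card < D.deg D.A w + 2 * β
    · obtain ⟨w, hw, hwb⟩ := hbad
      by_cases hLe : L = ∅
      · rw [hLe]
        refine D.case2b hβ (fun i hi => ?_) hA hw hwb
        have := h2' i hi (by rw [hLe]; exact notMem_empty _)
        rw [hLe, sum_empty] at this
        omega
      · obtain ⟨j, hj⟩ := nonempty_iff_ne_empty.mpr hLe
        have hs : 1 ≤ ∑ j ∈ L, D.b j :=
          le_trans (hβ j (hLI hj)).1 (single_le_sum (fun _ _ => Nat.zero_le _) hj)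
        have hce : (D.B.erase w).card = D.B.card - 1 := card_erase_of_mem hw
        obtain ⟨Y, hY, hYc⟩ := exists_subset_card_eq (s := D.B.erase w)
          (n := D.B.card - ∑ j ∈ L, D.b j) (by omega)
        refine D.case2a hLI (fun i hi => (hβ i hi).2) h1 h2' hA
          (hY.trans (erase_subset _ _)) hYc (fun v hv => ?_)
        have hvw : v ≠ w := (mem_erase.mp (hY hv)).1
        have h3 : D.deg D.A v + D.deg D.A w ≤ D.A.card + 1 := deg_add_le D.p D.A hvw
        omega
    · push Not at hbad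
      obtain ⟨Y, hY, hYc⟩ := exists_subset_card_eq (s := D.B)
        (n := D.B.card - ∑ j ∈ L, D.b j) (by omega)
      exact D.case2a hLI (fun i hi => (hβ i hi).2) h1 h2' hA hY hYc (fun v hv => hbad v (hY hv))

end Setup

end Pool.Agent.BCP
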