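import Mathlib
import Pool.Agent.BCP.LemmaS2

/-!
# The structure theorem
-/

namespace Pool.Agent.BCP

open Finset

/-- Peeling off the large classes. -/
theorem exists_top (b : ℕ → ℕ) : ∀ (K : ℕ) (I : Finset ℕ), (∀ i ∈ I, 1 ≤ b i) →
    (∑ j ∈ I, b j) * 15 ^ K < 16 ^ K → ∃ Top ⊆ I, Top.card ≤ K ∧
      (I \ Top = ∅ ∨ ∃ β, (∀ i ∈ I \ Top, b i ≤ β) ∧ 16 * β ≤ ∑ j ∈ I \ Top, b j) := by
  intro K
  induction K with
  | zero =>
    intro I h1 h2
    rw [pow_zero, pow_zero, mul_one, Nat.lt_one_iff, sum_eq_zero_iff] at h2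
    refine ⟨∅, empty_subset _, by simp, Or.inl ?_⟩
    rw [sdiff_empty, eq_empty_iff_forall_notMem]
    intro i hi
    have := h1 i hi
    have := h2 i hi
    omega
  | succ K ih =>
    intro I h1 h2
    by_cases hI : I.Nonempty
    · obtain ⟨i, hi, hmax⟩ := exists_max_image I b hI
      by_cases hb : 16 * b i ≤ ∑ j ∈ I, b j
      · refine ⟨∅, empty_subset _, by simp, Or.inr ⟨b i, ?_, ?_⟩⟩
        · rw [sdiff_empty]; exact hmax
        · rw [sdiff_empty]; exact hb
      · push Not at hb
        have hs := sum_erase_add I b hi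
        have h3 : (∑ j ∈ I.erase i, b j) * 15 ^ K < 16 ^ K := by
          have e1 : (∑ j ∈ I.erase i, b j) * 16 ≤ (∑ j ∈ I, b j) * 15 := by omega
          have e2 : (∑ j ∈ I.erase i, b j) * 15 ^ K * 16 ≤ (∑ j ∈ I, b j) * 15 ^ (K + 1) := by
            calc (∑ j ∈ I.erase i, b j) * 15 ^ K * 16 = (∑ j ∈ I.erase i, b j) * 16 * 15 ^ K := by
                  ring
              _ ≤ (∑ j ∈ I, b j) * 15 * 15 ^ K := Nat.mul_le_mul_right _ e1
              _ = (∑ j ∈ I, b j) * 15 ^ (K + 1) := by ring
          rw [pow_succ 16 K] at h2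
          omega
        obtain ⟨Top, t1, t2, t3⟩ := ih (I.erase i) (fun j hj => h1 j (mem_erase.mp hj).2) h3
        have hiT : i ∉ Top := fun hc => (mem_erase.mp (t1 hc)).1 rfl
        have e : I \ insert i Top = I.erase i \ Top := by
          ext j
          rw [mem_sdiff, mem_sdiff, mem_erase, mem_insert]
          tauto
        refine ⟨insert i Top, insert_subset hi (t1.trans (erase_subset _ _)), ?_, ?_⟩
        · rw [card_insert_of_notMem hiT]; omega
        · rw [e]; exact t3
    · rw [not_nonempty_iff_eq_empty] at hI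
      subst hI
      exact ⟨∅, empty_subset _, by simp, Or.inl (by simp)⟩

/-- A proper 2-colouring of the forest. -/
def side (p : ℕ → ℕ) (i : ℕ) : Bool := if _ : p i < i then !(side p (p i)) else false
termination_by i

theorem side_ne {p : ℕ → ℕ} {u v : ℕ} (h : Adj p u v) : side p u ≠ side p v := by
  have key : ∀ w, p w < w → side p w ≠ side p (p w) := by
    intro w hw
    rw [side, dif_pos hw]
    cases side p (p w) <;> simp
  rcases h with ⟨h1, h2⟩ | ⟨h1, h2⟩
  · have := key u (by omega)
    rwa [h2] at this
  · have := key v (by omega)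
    rw [h2] at this
    exact this.symm

/-- Extension to exact class sizes by isolated vertices. -/
theorem exact_extension {n c : ℕ} {p b : ℕ → ℕ} (hp : IsPar n p) (h : Feas n c p b) :
    ∃ (n' : ℕ) (p' φ : ℕ → ℕ), n ≤ n' ∧ (∀ i, 0 < i → i < n → p' i = p i) ∧
      (∀ u v, Adj p' u v → φ u ≠ φ v) ∧
      (∀ i < n', φ i < c) ∧ (∀ j < c, ((range n').filter (fun i => φ i = j)).card = b j) := by
  classical
  obtain ⟨φ, h1, h2, h3⟩ := h
  set cnt : ℕ → ℕ := fun j => ((range n).filter (fun i => φ i = j)).card with hcnt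
  have hn : n = ∑ j ∈ range c, cnt j := by
    have := card_eq_sum_card_fiberwise (s := range n) (t := range c) (f := φ)
      (fun i hi => mem_range.mpr (h1 i (mem_range.mp hi)))
    rwa [card_range] at this
  set B := ∑ j ∈ range c, b j with hB
  have hnB : n ≤ B := by
    rw [hn]
    exact sum_le_sum fun j hj => h3 j (mem_range.mp hj)
  have hX : (Ico n B).card = ∑ j ∈ range c, (b j - cnt j) := by
    rw [Nat.card_Ico]
    have : ∑ j ∈ range c, (b j - cnt j) + ∑ j ∈ range c, cnt j = B := by
      rw [← sum_add_distrib]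
      exact sum_congr rfl fun j hj => Nat.sub_add_cancel (h3 j (mem_range.mp hj))
    omega
  obtain ⟨f, f1, f2⟩ := distribute (range c) (fun j => b j - cnt j) (Ico n B) hX
  refine ⟨B, fun i => if i = 0 then 0 else if i < n then p i else i,
    fun i => if i < n then φ i else f i, hnB, ?_, ?_, ?_, ?_⟩
  · intro i h0 hi
    show (if i = 0 then 0 else if i < n then p i else i) = p i
    rw [if_neg (by omega), if_pos hi]
  · have key : ∀ w v, v < w → (if w = 0 then 0 else if w < n then p w else w) = v →
        (if w < n then φ w else f w) ≠ (if v < n then φ v else f v) := by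
      intro w v hvw he
      rw [if_neg (by omega)] at he
      by_cases hw : w < n
      · rw [if_pos hw] at he
        rw [if_pos hw, if_pos (by omega : v < n), ← he]
        exact h2 w hw (by omega)
      · rw [if_neg hw] at he
        omega
    intro u v huv
    rcases huv with ⟨a, b'⟩ | ⟨a, b'⟩
    · exact key u v a b'
    · exact (key v u a b').symm
  · intro i hi
    show (if i < n then φ i else f i) < c
    by_cases hin : i < n
    · rw [if_pos hin]; exact h1 i hin
    · rw [if_neg hin]; exact mem_range.mp (f1 i (mem_Ico.mpr ⟨by omega, hi⟩))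
  · intro j hj
    have e1 : (range B).filter (fun i => (if i < n then φ i else f i) = j) =
        (range n).filter (fun i => φ i = j) ∪ (Ico n B).filter (fun i => f i = j) := by
      ext i
      rw [mem_union, mem_filter, mem_filter, mem_filter, mem_range, mem_range, mem_Ico]
      by_cases hin : i < n
      · rw [if_pos hin]
        constructor
        · rintro ⟨_, h'⟩; exact Or.inl ⟨hin, h'⟩
        · rintro (⟨_, h'⟩ | ⟨⟨h', _⟩, _⟩)
          · exact ⟨by omega, h'⟩
          · omega
      · rw [if_neg hin]
        constructor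
        · rintro ⟨h', h''⟩; exact Or.inr ⟨⟨by omega, h'⟩, h''⟩
        · rintro (⟨h', _⟩ | ⟨⟨_, h'⟩, h''⟩)
          · exact absurd h' hin
          · exact ⟨h', h''⟩
    have e2 : Disjoint ((range n).filter (fun i => φ i = j))
        ((Ico n B).filter (fun i => f i = j)) := by
      rw [disjoint_left]
      intro i hi hi'
      rw [mem_filter, mem_range] at hi
      rw [mem_filter, mem_Ico] at hi'
      omega
    show ((range B).filter (fun i => (if i < n then φ i else f i) = j)).card = b j
    rw [e1, card_union_of_disjoint e2, f2 j (mem_range.mpr hj)]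
    exact Nat.add_sub_cancel' (h3 j hj)

/-- An abstract structured solution: all colours outside `J` are pure. -/
theorem exists_structured {n c K : ℕ} {p b : ℕ → ℕ} (hp : IsPar n p) (h : Feas n c p b)
    (hK : (∑ j ∈ range c, b j) * 15 ^ K < 16 ^ K) :
    ∃ (J : Finset ℕ) (θ ι : ℕ) (ψ : ℕ → ℕ) (σ : ℕ → Bool), J ⊆ range c ∧ J.card ≤ K + 3 ∧
      θ ≤ ∑ j ∈ range c, b j ∧ ι ≤ c ∧ (∀ i < n, ψ i < c) ∧
      (∀ i < n, 0 < i → σ i ≠ σ (p i) ∧ ψ i ≠ ψ (p i)) ∧
      (∀ j < c, ((range n).filter (fun i => ψ i = j)).card ≤ b j) ∧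
      (∀ i < n, ψ i ∉ J → (σ i = true ↔ Small b θ ι (ψ i))) := by
  classical
  obtain ⟨n', p', φ, hnn, hpp, hprop, hφc, hcls⟩ := exact_extension hp h
  set I0 := (range c).filter (fun j => 1 ≤ b j) with hI0
  have hsum0 : ∑ j ∈ I0, b j = ∑ j ∈ range c, b j := by
    rw [hI0, sum_filter]
    refine sum_congr rfl fun j _ => ?_
    split_ifs with hj
    · rfl
    · omega
  obtain ⟨Top, t1, t2, t3⟩ := exists_top b K I0 (fun i hi => (mem_filter.mp hi).2)
    (by rw [hsum0]; exact hK)
  have hφI0 : ∀ i < n', φ i ∈ I0 := by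
    intro i hi
    rw [hI0, mem_filter, mem_range]
    refine ⟨hφc i hi, ?_⟩
    rw [← hcls (φ i) (hφc i hi)]
    exact card_pos.mpr ⟨i, mem_filter.mpr ⟨mem_range.mpr hi, rfl⟩⟩
  set I := I0 \ Top with hI
  have hI0c : ∀ j ∈ I0, j < c := fun j hj => mem_range.mp (mem_filter.mp hj).1
  have hTopc : Top ⊆ range c := fun j hj => mem_range.mpr (hI0c j (t1 hj))
  -- edges of the tree
  have hadj : ∀ i < n, 0 < i → Adj p' i (p i) := fun i hi h0 =>
    Or.inl ⟨hp i h0 hi, hpp i h0 hi⟩
  have hpn : ∀ i < n, 0 < i → p i < n := fun i hi h0 => lt_trans (hp i h0 hi) hi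
  have hclass : ∀ ψ : ℕ → ℕ, ∀ j, ((range n).filter (fun i => ψ i = j)).card ≤
      ((range n').filter (fun i => ψ i = j)).card := fun ψ j =>
    card_le_card (filter_subset_filter _ (range_subset_range.mpr hnn))
  by_cases hIe : I = ∅
  · -- everything is tracked
    refine ⟨Top, 0, 0, φ, side p', hTopc, by omega, Nat.zero_le _, Nat.zero_le _,
      fun i hi => hφc i (by omega), fun i hi h0 => ⟨side_ne (hadj i hi h0), hprop _ _ (hadj i hi h0)⟩,
      fun j hj => (hclass φ j).trans (le_of_eq (hcls j hj)), fun i hi hiT => ?_⟩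
    exfalso
    have : φ i ∈ I := mem_sdiff.mpr ⟨hφI0 i (by omega), hiT⟩
    rw [hIe] at this
    exact notMem_empty _ this
  · obtain ⟨β, hβ1, hβ2⟩ := t3.resolve_left hIe
    set R := (range n').filter (fun v => φ v ∈ I) with hR
    have hRmem : ∀ v, v ∈ R ↔ v < n' ∧ φ v ∈ I := fun v => by rw [hR, mem_filter, mem_range]
    -- choose the side
    obtain ⟨σ, hσ, hbal⟩ : ∃ σ : ℕ → Bool, (∀ u v, Adj p' u v → σ u ≠ σ v) ∧
        (R.filter (fun v => σ v = true)).card ≤ (R.filter (fun v => σ v = false)).card := by
      by_cases hc : (R.filter (fun v => side p' v = true)).card ≤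
          (R.filter (fun v => side p' v = false)).card
      · exact ⟨side p', fun u v h => side_ne h, hc⟩
      · refine ⟨fun v => !(side p' v), fun u v h => ?_, ?_⟩
        · intro he
          exact side_ne h (Bool.not_inj he)
        · have e1 : R.filter (fun v => (!(side p' v)) = true) =
              R.filter (fun v => side p' v = false) := by
            ext v; simp
          have e2 : R.filter (fun v => (!(side p' v)) = false) =
              R.filter (fun v => side p' v = true) := by
            ext v; simp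
          rw [e1, e2]
          omega
    have hcard : ∀ i ∈ I, (R.filter (fun v => φ v = i)).card = b i := by
      intro i hi
      rw [← hcls i (hI0c i (mem_sdiff.mp hi).1)]
      congr 1
      ext v
      rw [mem_filter, hRmem, mem_filter, mem_range]
      constructor
      · rintro ⟨⟨h1, _⟩, h3⟩; exact ⟨h1, h3⟩
      · rintro ⟨h1, h3⟩; exact ⟨⟨h1, h3 ▸ hi⟩, h3⟩
    let D : Setup :=
      { p := p', R := R, I := I, φ := φ, b := b, σ := σ
        hφI := fun v hv => ((hRmem v).mp hv).2
        hprop := fun u _ v _ huv => hprop u v huv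
        hσ := fun u _ v _ huv => hσ u v huv
        hb := hcard }
    have hRc : D.R.card = ∑ i ∈ I, b i := D.card_R
    obtain ⟨i0, hi0, J', ψ, j1, j2, j3, j4, j5, j6⟩ := D.lemmaS (β := β)
      (fun i hi => ⟨(mem_filter.mp (mem_sdiff.mp hi).1).2, hβ1 i hi⟩)
      (nonempty_iff_ne_empty.mpr hIe) (by rw [hRc]; exact hβ2) hbal
    change i0 ∈ I at hi0
    change J' ⊆ I at j1
    change ∀ v ∈ R, ψ v ∈ I at j3
    change ∀ u ∈ R, ∀ v ∈ R, Adj p' u v → ψ u ≠ ψ v at j4
    change ∀ i ∈ I, (R.filter (fun v => ψ v = i)).card = b i at j5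
    change ∀ v ∈ R, ψ v ∉ J' → (σ v = true ↔ ψ v ∈ I.filter (Small b (b i0) i0)) at j6
    have hi0c := hI0c i0 (mem_sdiff.mp hi0).1
    set χ : ℕ → ℕ := fun v => if φ v ∈ Top then φ v else ψ v with hχ
    have c1 : ∀ v, φ v ∈ Top → χ v = φ v := fun v hv => if_pos hv
    have c2 : ∀ v, φ v ∉ Top → χ v = ψ v := fun v hv => if_neg hv
    have c3 : ∀ v < n', φ v ∉ Top → v ∈ R := fun v hv hT =>
      (hRmem v).mpr ⟨hv, mem_sdiff.mpr ⟨hφI0 v hv, hT⟩⟩
    have c4 : ∀ v ∈ R, φ v ∉ Top := fun v hv => (mem_sdiff.mp ((hRmem v).mp hv).2).2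
    have hχI0 : ∀ v < n', χ v ∈ I0 := by
      intro v hv
      by_cases hT : φ v ∈ Top
      · rw [c1 v hT]; exact t1 hT
      · rw [c2 v hT]; exact (mem_sdiff.mp (j3 v (c3 v hv hT))).1
    have hχprop : ∀ u < n', ∀ v < n', Adj p' u v → χ u ≠ χ v := by
      intro u hu v hv huv
      by_cases hTu : φ u ∈ Top <;> by_cases hTv : φ v ∈ Top
      · rw [c1 u hTu, c1 v hTv]; exact hprop u v huv
      · rw [c1 u hTu, c2 v hTv]
        intro he
        exact (mem_sdiff.mp (j3 v (c3 v hv hTv))).2 (he ▸ hTu)
      · rw [c2 u hTu, c1 v hTv]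
        intro he
        exact (mem_sdiff.mp (j3 u (c3 u hu hTu))).2 (he ▸ hTv)
      · rw [c2 u hTu, c2 v hTv]
        exact j4 u (c3 u hu hTu) v (c3 v hv hTv) huv
    have hχcls : ∀ j < c, ((range n').filter (fun i => χ i = j)).card ≤ b j := by
      intro j hj
      by_cases hjT : j ∈ Top
      · rw [← hcls j hj]
        refine card_le_card fun v hv => ?_
        rw [mem_filter, mem_range] at hv ⊢
        refine ⟨hv.1, ?_⟩
        by_cases hT : φ v ∈ Top
        · rw [← c1 v hT]; exact hv.2
        · exfalso
          rw [c2 v hT] at hv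
          exact (mem_sdiff.mp (j3 v (c3 v hv.1 hT))).2 (hv.2 ▸ hjT)
      · by_cases hjI : j ∈ I
        · rw [← j5 j hjI]
          refine card_le_card fun v hv => ?_
          rw [mem_filter, mem_range] at hv
          rw [mem_filter]
          by_cases hT : φ v ∈ Top
          · exfalso
            rw [c1 v hT] at hv
            exact hjT (hv.2 ▸ hT)
          · rw [c2 v hT] at hv
            exact ⟨c3 v hv.1 hT, hv.2⟩
        · have : (range n').filter (fun i => χ i = j) = ∅ := by
            rw [eq_empty_iff_forall_notMem]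
            intro v hv
            rw [mem_filter, mem_range] at hv
            have := hχI0 v hv.1
            rw [hv.2] at this
            exact hjI (mem_sdiff.mpr ⟨this, hjT⟩)
          rw [this, card_empty]
          exact Nat.zero_le _
    refine ⟨Top ∪ J', b i0, i0, χ, σ, ?_, ?_, ?_, by omega, fun i hi => ?_, fun i hi h0 => ?_,
      fun j hj => (hclass χ j).trans (hχcls j hj), fun i hi hiJ => ?_⟩
    · refine union_subset hTopc fun j hj => mem_range.mpr (hI0c j (mem_sdiff.mp (j1 hj)).1)
    · exact (card_union_le _ _).trans (by omega)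
    · exact single_le_sum (f := b) (fun _ _ => Nat.zero_le _) (mem_range.mpr hi0c)
    · exact hI0c _ (hχI0 i (by omega))
    · exact ⟨hσ _ _ (hadj i hi h0), hχprop i (by omega) (p i) (by have := hpn i hi h0; omega)
        (hadj i hi h0)⟩
    · rw [mem_union, not_or] at hiJ
      have hT : φ i ∉ Top := by
        intro hT
        rw [c1 i hT] at hiJ
        exact hiJ.1 hT
      rw [c2 i hT] at hiJ ⊢
      have hiR := c3 i (by omega) hT
      rw [j6 i hiR hiJ.2, mem_filter]
      exact ⟨fun h => h.2, fun h => ⟨j3 i hiR, h⟩⟩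

/-- The structure theorem. -/
theorem feas_iff_struct {n c K : ℕ} {p b : ℕ → ℕ} (hp : IsPar n p)
    (hK : (∑ j ∈ range c, b j) * 15 ^ K < 16 ^ K) :
    Feas n c p b ↔ StructFeas n c (K + 3) p b := by
  classical
  constructor
  · intro h
    obtain ⟨J, θ, ι, ψ, σ, h1, h2, h3, h4, h5, h6, h7, h8⟩ := exists_structured hp h hK
    set l := J.toList with hl
    have hlen : l.length = J.card := J.length_toList
    have hnd : l.Nodup := J.nodup_toList
    have hmem : ∀ j, j ∈ l ↔ j ∈ J := fun j => J.mem_toList
    set Jf : ℕ → ℕ := fun a => l.getD a c with hJf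
    have g1 : ∀ a (h : a < l.length), Jf a = l[a] := fun a h => List.getD_eq_getElem _ _ h
    have g2 : ∀ a, l.length ≤ a → Jf a = c := fun a h => by
      rw [hJf]; show l.getD a c = c
      rw [List.getD_eq_getElem?_getD, List.getElem?_eq_none h]
      rfl
    have g3 : ∀ j ∈ J, l.idxOf j < l.length ∧ Jf (l.idxOf j) = j := by
      intro j hj
      have h' := List.idxOf_lt_length_of_mem ((hmem j).mpr hj)
      refine ⟨h', ?_⟩
      rw [g1 _ h']
      exact List.getElem_idxOf h'
    have g4 : ∀ a < l.length, Jf a ∈ J := fun a ha => by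
      rw [g1 a ha, ← hmem]
      exact List.getElem_mem ha
    have g5 : ∀ a < l.length, ∀ a' < l.length, Jf a = Jf a' → a = a' := by
      intro a ha a' ha' he
      rw [g1 a ha, g1 a' ha'] at he
      exact (List.Nodup.getElem_inj_iff hnd).mp he
    have hInJ : ∀ j < c, (InJ (K + 3) Jf j ↔ j ∈ J) := by
      intro j hj
      constructor
      · rintro ⟨a, _, rfl⟩
        by_cases ha : a < l.length
        · exact g4 a ha
        · rw [g2 a (by omega)] at hj
          exact absurd hj (lt_irrefl _)
      · intro h
        obtain ⟨h', h''⟩ := g3 j h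
        exact ⟨_, by omega, h''⟩
    set lab : ℕ → ℕ := fun i => if ψ i ∈ J then l.idxOf (ψ i) else K + 3 with hlab
    have l1 : ∀ i, ψ i ∈ J → lab i = l.idxOf (ψ i) := fun i hi => if_pos hi
    have l2 : ∀ i, ψ i ∉ J → lab i = K + 3 := fun i hi => if_neg hi
    have l3 : ∀ i, lab i < K + 3 → ψ i ∈ J := by
      intro i hi
      by_contra hc
      rw [l2 i hc] at hi
      exact lt_irrefl _ hi
    have l4 : ∀ i, ψ i ∈ J → Jf (lab i) = ψ i ∧ lab i < l.length := fun i hi => by
      rw [l1 i hi]; exact ⟨(g3 _ hi).2, (g3 _ hi).1⟩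
    refine ⟨Jf, θ, ι, lab, σ, ?_, h3, h4, ⟨?_, ?_⟩, ?_, ?_, ?_⟩
    · intro a _
      by_cases ha : a < l.length
      · exact le_of_lt (mem_range.mp (h1 (g4 a ha)))
      · rw [g2 a (by omega)]
    · intro i hi
      by_cases hiJ : ψ i ∈ J
      · have := (l4 i hiJ).2
        omega
      · rw [l2 i hiJ]
    · intro i hi h0
      refine ⟨(h6 i hi h0).1, ?_⟩
      by_cases hiJ : ψ i ∈ J
      · left
        intro he
        have e1 := (l4 i hiJ)
        have : ψ (p i) ∈ J := l3 _ (by rw [← he]; omega)
        have e2 := (l4 _ this).1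
        rw [← he, e1.1] at e2
        exact (h6 i hi h0).2 e2
      · exact Or.inr (l2 i hiJ)
    · intro a ha
      by_cases hal : a < l.length
      · have hcap : cap c Jf b a = b (Jf a) := by
          unfold cap
          rw [if_pos]
          refine ⟨mem_range.mp (h1 (g4 a hal)), fun a' ha' he => ?_⟩
          have := g5 a' (by omega) a hal he
          omega
        rw [hcap]
        refine le_trans (card_le_card fun i hi => ?_) (h7 (Jf a) (mem_range.mp (h1 (g4 a hal))))
        rw [mem_filter] at hi ⊢
        refine ⟨hi.1, ?_⟩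
        have hiJ := l3 i (by rw [hi.2]; omega)
        rw [← (l4 i hiJ).1, hi.2]
      · have : (range n).filter (fun i => lab i = a) = ∅ := by
          rw [eq_empty_iff_forall_notMem]
          intro i hi
          rw [mem_filter] at hi
          have hiJ := l3 i (by rw [hi.2]; omega)
          have := (l4 i hiJ).2
          omega
        rw [this, card_empty]
        exact Nat.zero_le _
    · unfold capA
      rw [card_eq_sum_card_fiberwise (f := ψ)
        (t := (range c).filter (fun j => ¬ InJ (K + 3) Jf j ∧ ¬ Small b θ ι j))]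
      · refine sum_le_sum fun j hj => ?_
        refine le_trans (card_le_card fun i hi => ?_) (h7 j (mem_range.mp (mem_filter.mp hj).1))
        rw [mem_filter, mem_filter] at hi
        rw [mem_filter]
        exact ⟨hi.1.1, hi.2⟩
      · intro i hi
        rw [mem_coe, mem_filter, mem_range] at hi
        have hiJ : ψ i ∉ J := by
          intro hc
          have := (l4 i hc).2
          omega
        rw [mem_coe, mem_filter, mem_range]
        refine ⟨h5 i hi.1, ?_, ?_⟩
        · rw [hInJ _ (h5 i hi.1)]; exact hiJ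
        · intro hs
          have := (h8 i hi.1 hiJ).mpr hs
          rw [hi.2.2] at this
          exact Bool.false_ne_true this
    · unfold capB
      rw [card_eq_sum_card_fiberwise (f := ψ)
        (t := (range c).filter (fun j => ¬ InJ (K + 3) Jf j ∧ Small b θ ι j))]
      · refine sum_le_sum fun j hj => ?_
        refine le_trans (card_le_card fun i hi => ?_) (h7 j (mem_range.mp (mem_filter.mp hj).1))
        rw [mem_filter, mem_filter] at hi
        rw [mem_filter]
        exact ⟨hi.1.1, hi.2⟩
      · intro i hi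
        rw [mem_coe, mem_filter, mem_range] at hi
        have hiJ : ψ i ∉ J := by
          intro hc
          have := (l4 i hc).2
          omega
        rw [mem_coe, mem_filter, mem_range]
        refine ⟨h5 i hi.1, ?_, ?_⟩
        · rw [hInJ _ (h5 i hi.1)]; exact hiJ
        · exact (h8 i hi.1 hiJ).mp hi.2.2
  · rintro ⟨J, θ, ι, lab, σ, h1, _, _, ⟨h2, h3⟩, h4, h5, h6⟩
    obtain ⟨fA, a1, a2⟩ := distribute_le _ b _ h5
    obtain ⟨fB, b1, b2⟩ := distribute_le _ b _ h6
    set φ : ℕ → ℕ := fun i => if lab i < K + 3 then J (lab i) else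
      if σ i = true then fB i else fA i with hφ
    have e1 : ∀ i, lab i < K + 3 → φ i = J (lab i) := fun i hi => if_pos hi
    have e2 : ∀ i < n, ¬ lab i < K + 3 → σ i = true → φ i = fB i ∧
        i ∈ (range n).filter (fun i => lab i = K + 3 ∧ σ i = true) := by
      intro i hi hl hs
      refine ⟨?_, mem_filter.mpr ⟨mem_range.mpr hi, ?_, hs⟩⟩
      · show (if lab i < K + 3 then J (lab i) else if σ i = true then fB i else fA i) = fB i
        rw [if_neg hl, if_pos hs]
      · have := h2 i hi
        omega
    have e3 : ∀ i < n, ¬ lab i < K + 3 → σ i = false → φ i = fA i ∧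
        i ∈ (range n).filter (fun i => lab i = K + 3 ∧ σ i = false) := by
      intro i hi hl hs
      refine ⟨?_, mem_filter.mpr ⟨mem_range.mpr hi, ?_, hs⟩⟩
      · show (if lab i < K + 3 then J (lab i) else if σ i = true then fB i else fA i) = fA i
        rw [if_neg hl, if_neg (by rw [hs]; exact Bool.false_ne_true)]
      · have := h2 i hi
        omega
    -- tracked labels that occur have a colour, for the first time
    have e4 : ∀ i < n, lab i < K + 3 → J (lab i) < c ∧ (∀ a' < lab i, J a' ≠ J (lab i)) ∧
        ((range n).filter (fun j => lab j = lab i)).card ≤ b (J (lab i)) := by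
      intro i hi hl
      have hc := h4 (lab i) hl
      have hpos : 0 < ((range n).filter (fun j => lab j = lab i)).card :=
        card_pos.mpr ⟨i, mem_filter.mpr ⟨mem_range.mpr hi, rfl⟩⟩
      unfold cap at hc
      by_cases hcond : J (lab i) < c ∧ ∀ a' < lab i, J a' ≠ J (lab i)
      · rw [if_pos hcond] at hc
        exact ⟨hcond.1, hcond.2, hc⟩
      · rw [if_neg hcond] at hc
        omega
    have e5 : ∀ i < n, ∀ i' < n, lab i < K + 3 → lab i' < K + 3 → J (lab i) = J (lab i') →
        lab i = lab i' := by
      intro i hi i' hi' hl hl' he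
      rcases lt_trichotomy (lab i) (lab i') with hlt | heq | hlt
      · exact absurd he ((e4 i' hi' hl').2.1 _ hlt)
      · exact heq
      · exact absurd he.symm ((e4 i hi hl).2.1 _ hlt)
    have kA : ∀ i < n, ¬ lab i < K + 3 → σ i = false →
        φ i < c ∧ ¬ InJ (K + 3) J (φ i) ∧ ¬ Small b θ ι (φ i) := by
      intro i hi hl hs
      obtain ⟨q1, q2⟩ := e3 i hi hl hs
      have := a1 i q2
      rw [mem_filter, mem_range] at this
      rw [q1]
      exact ⟨this.1, this.2.1, this.2.2⟩
    have kB : ∀ i < n, ¬ lab i < K + 3 → σ i = true →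
        φ i < c ∧ ¬ InJ (K + 3) J (φ i) ∧ Small b θ ι (φ i) := by
      intro i hi hl hs
      obtain ⟨q1, q2⟩ := e2 i hi hl hs
      have := b1 i q2
      rw [mem_filter, mem_range] at this
      rw [q1]
      exact ⟨this.1, this.2.1, this.2.2⟩
    have kn : ∀ i < n, ¬ lab i < K + 3 → ¬ InJ (K + 3) J (φ i) := by
      intro i hi hl
      cases hs : σ i
      · exact (kA i hi hl hs).2.1
      · exact (kB i hi hl hs).2.1
    have kJ : ∀ i, lab i < K + 3 → InJ (K + 3) J (φ i) := fun i hl => ⟨lab i, hl, (e1 i hl).symm⟩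
    refine ⟨φ, ?_, ?_, ?_⟩
    · intro i hi
      by_cases hl : lab i < K + 3
      · rw [e1 i hl]; exact (e4 i hi hl).1
      · cases hs : σ i
        · exact (kA i hi hl hs).1
        · exact (kB i hi hl hs).1
    · intro i hi h0 he
      have hpi : p i < n := lt_trans (hp i h0 hi) hi
      obtain ⟨s1, s2⟩ := h3 i hi h0
      by_cases hl : lab i < K + 3 <;> by_cases hl' : lab (p i) < K + 3
      · rw [e1 i hl, e1 _ hl'] at he
        rcases s2 with s2 | s2
        · exact s2 (e5 i hi _ hpi hl hl' he)
        · omega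
      · exact kn _ hpi hl' (he ▸ kJ i hl)
      · exact kn _ hi hl (he ▸ kJ _ hl')
      · cases hs : σ i <;> cases hs' : σ (p i)
        · exact s1 (hs.trans hs'.symm)
        · have x1 := kA i hi hl hs
          have x2 := kB _ hpi hl' hs'
          rw [← he] at x2
          exact x1.2.2 x2.2.2
        · have x1 := kB i hi hl hs
          have x2 := kA _ hpi hl' hs'
          rw [← he] at x2
          exact x2.2.2 x1.2.2
        · exact s1 (hs.trans hs'.symm)
    · intro j hj
      by_cases hjJ : InJ (K + 3) J j
      · -- all vertices of colour `j` have the same label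
        by_cases hex : ∃ i < n, φ i = j
        · obtain ⟨i, hi, hij⟩ := hex
          have hl : lab i < K + 3 := by
            by_contra hc
            exact kn i hi hc (hij ▸ hjJ)
          refine le_trans (card_le_card fun i' hi' => ?_) ((e4 i hi hl).2.2.trans
            (le_of_eq (by rw [← e1 i hl, hij])))
          rw [mem_filter, mem_range] at hi' ⊢
          refine ⟨hi'.1, ?_⟩
          have hl' : lab i' < K + 3 := by
            by_contra hc
            exact kn i' hi'.1 hc (hi'.2 ▸ hjJ)
          refine e5 i' hi'.1 i hi hl' hl ?_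
          rw [← e1 i hl, ← e1 i' hl', hij, hi'.2]
        · have : (range n).filter (fun i => φ i = j) = ∅ := by
            rw [eq_empty_iff_forall_notMem]
            intro i hi
            rw [mem_filter, mem_range] at hi
            exact hex ⟨i, hi⟩
          rw [this, card_empty]
          exact Nat.zero_le _
      · by_cases hs : Small b θ ι j
        · refine le_trans (card_le_card fun i hi => ?_) (b2 j (mem_filter.mpr
            ⟨mem_range.mpr hj, hjJ, hs⟩))
          rw [mem_filter, mem_range] at hi
          have hl : ¬ lab i < K + 3 := by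
            intro hc
            exact hjJ (hi.2 ▸ kJ i hc)
          have hσi : σ i = true := by
            cases hs' : σ i
            · exfalso
              have := (kA i hi.1 hl hs').2.2
              rw [hi.2] at this
              exact this hs
            · rfl
          obtain ⟨q1, q2⟩ := e2 i hi.1 hl hσi
          exact mem_filter.mpr ⟨q2, by rw [← q1]; exact hi.2⟩
        · refine le_trans (card_le_card fun i hi => ?_) (a2 j (mem_filter.mpr
            ⟨mem_range.mpr hj, hjJ, hs⟩))
          rw [mem_filter, mem_range] at hi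
          have hl : ¬ lab i < K + 3 := by
            intro hc
            exact hjJ (hi.2 ▸ kJ i hc)
          have hσi : σ i = false := by
            cases hs' : σ i
            · rfl
            · exfalso
              have := (kB i hi.1 hl hs').2.2
              rw [hi.2] at this
              exact hs this
          obtain ⟨q1, q2⟩ := e3 i hi.1 hl hσi
          exact mem_filter.mpr ⟨q2, by rw [← q1]; exact hi.2⟩

end Pool.Agent.BCP
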