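import Mathlib
import Pool.Agent.BCP.DPSem
import Pool.Agent.BCP.Parse
import Pool.Agent.BCP.Struct
import Pool.Agent.Lib.PolyTime.Iter
import Pool.Agent.Lib.PolyTime.PB

/-!
# The algorithm on padded inputs
-/

namespace Pool.Agent.BCP

open Finset Pool.Agent.PolyTime

/-- `2 ^ LX x` is more than the length of `x`. -/
def LX (x : List Bool) : ℕ := Nat.log 2 x.length + 1
/-- number of tracked classes -/
def tX (x : List Bool) : ℕ := 11 * LX x + 3
/-- base -/
def QX (x : List Bool) : ℕ := 2 ^ LX x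

theorem de_len_lt (x : List Bool) : x.length < 2 ^ LX x := by
  unfold LX
  exact Nat.lt_pow_succ_log_self (by norm_num) _

theorem feas_iff_acc {x : List Bool} (h : ValidX x) :
    Feas (nX x) (cX x) (pX x) (bX x) ↔ Acc (nX x) (cX x) (tX x) (QX x) (pX x) (bX x) := by
  have hlen := de_len_lt x
  have hp := h.2.2.2
  have hK : (∑ j ∈ range (cX x), bX x j) * 15 ^ (11 * LX x) < 16 ^ (11 * LX x) := by
    have h1 : ∑ j ∈ range (cX x), bX x j < 2 ^ LX x := lt_of_le_of_lt sum_bX_le hlen
    calc (∑ j ∈ range (cX x), bX x j) * 15 ^ (11 * LX x)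
        < 2 ^ LX x * 15 ^ (11 * LX x) := Nat.mul_lt_mul_of_pos_right h1 (by positivity)
      _ = (2 * 15 ^ 11) ^ LX x := by rw [mul_pow, ← pow_mul]
      _ ≤ (16 ^ 11) ^ LX x := Nat.pow_le_pow_left (by norm_num) _
      _ = 16 ^ (11 * LX x) := by rw [← pow_mul]
  rw [feas_iff_struct hp hK]
  show StructFeas (nX x) (cX x) (tX x) (pX x) (bX x) ↔ _
  refine struct_iff_acc hp ?_ ?_ ?_
  · unfold nX; omega
  · exact lt_of_le_of_lt (nX_le h) hlen
  · exact lt_of_le_of_lt cX_le hlen

/-- size of the table -/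
def tabX (x : List Bool) : ℕ := (nX x + 1) * nX x * (tX x + 1) * 2 * QX x ^ (tX x + 1)

theorem de_num_le (x : List Bool) (k : ℕ) : num x k ≤ x.length := by
  unfold num
  refine (card_filter_le _ _).trans ?_
  rw [card_range]

theorem tabX_le (x : List Bool) : tabX x ≤ 2 ^ (40 * (LX x) ^ 2) := by
  have hlen := de_len_lt x
  have h0 := de_num_le x 0
  have hL : 1 ≤ LX x := by unfold LX; omega
  have hn : nX x ≤ 2 ^ LX x := by unfold nX; omega
  have hLL : LX x < 2 ^ LX x := Nat.lt_two_pow_self
  unfold tabX tX QX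
  generalize LX x = L at *
  generalize nX x = n at *
  have e1 : n + 1 ≤ 2 ^ (L + 1) := by
    rw [pow_succ]
    have : 1 ≤ 2 ^ L := Nat.one_le_two_pow
    omega
  have e2 : 11 * L + 3 + 1 ≤ 2 ^ (L + 4) := by
    rw [pow_add]
    omega
  calc (n + 1) * n * (11 * L + 3 + 1) * 2 * (2 ^ L) ^ (11 * L + 3 + 1)
      ≤ 2 ^ (L + 1) * 2 ^ L * 2 ^ (L + 4) * 2 * (2 ^ L) ^ (11 * L + 3 + 1) := by gcongr
    _ = 2 ^ ((L + 1) + L + (L + 4) + 1 + L * (11 * L + 3 + 1)) := by
        rw [pow_add 2 (L + 1 + L + (L + 4) + 1), pow_add 2 (L + 1 + L + (L + 4)),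
          pow_add 2 (L + 1 + L), pow_add 2 (L + 1) L, pow_mul, pow_one]
    _ ≤ 2 ^ (40 * L ^ 2) := by
        apply Nat.pow_le_pow_right (by norm_num)
        nlinarith [Nat.mul_le_mul hL hL]


/-! ### Powers -/

/-- `2 ^ e` if this is at most `N`, and `0` otherwise -/
def dePw (N e : ℕ) : ℕ := ∑ P ∈ range (N + 1), if P = 2 ^ e then P else 0

theorem dePw_of_le {N e : ℕ} (h : 2 ^ e ≤ N) : dePw N e = 2 ^ e := by
  unfold dePw
  rw [Finset.sum_ite_eq', if_pos (by rw [mem_range]; omega)]

theorem dePw_of_lt {N e : ℕ} (h : N < 2 ^ e) : dePw N e = 0 := by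
  unfold dePw
  rw [Finset.sum_ite_eq', if_neg (by rw [mem_range]; omega)]

theorem de_div_pw {N s e : ℕ} (hs : s ≤ N) : s / dePw N e = s / 2 ^ e := by
  by_cases h : 2 ^ e ≤ N
  · rw [dePw_of_le h]
  · rw [dePw_of_lt (by omega), Nat.div_zero, Nat.div_eq_of_lt (by omega)]

section calculus

variable {α : Type} [Ctx α]

theorem pf_dePw {N e : List Bool → α → ℕ} (hN : PF N) (he : PF e) :
    PF (fun z a => dePw (N z a) (e z a)) := by
  unfold dePw
  exact PF.sum (hN.add (PF.const 1))
    (F := fun z (p : α × ℕ) => if p.2 = 2 ^ e z p.1 then p.2 else 0)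
    (PF.ite (PD.eq_pow PF.snd he.fst) PF.snd (PF.const 0))

/-! ### Lists -/

theorem de_self (x : List Bool) :
    x = (List.range x.length).map (fun i => x.getD i false) := by
  apply List.ext_getElem
  · simp
  · intro i h1 h2
    rw [List.getElem_map, List.getElem_range, List.getD_eq_getElem _ _ h1]

theorem de_self' (x : List Bool) :
    x = (List.range x.length).map
      (fun i => @decide (x.getD i false = true) (Classical.propDecidable _)) := by
  conv_lhs => rw [de_self x]
  apply List.map_congr_left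
  intro i _
  by_cases h : x.getD i false = true
  · rw [h]; simp
  · rw [Bool.not_eq_true] at h
    rw [h]; simp

theorem pl_id : PL (fun (x : List Bool) (_ : α) => x) :=
  ⟨fun x _ => x.length, fun x p => x.getD p.2 false = true, PF.len, PD.bit PF.snd,
    fun x _ => de_self' x⟩

theorem pfBits_of_pl {f : List Bool → List Bool} (h : PL (fun x (_ : Unit) => f x)) :
    PFBits f := by
  obtain ⟨L, P, hL, ⟨F, hF, hPF⟩, hf⟩ := h
  refine ⟨fun x => L x (), fun x i => F x ((), i), hL, hF, fun x => ?_⟩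
  refine (hf x ()).trans ?_
  apply List.map_congr_left
  intro i _
  have := hPF x ((), i)
  by_cases h : P x ((), i)
  · simp [h, this.mp h]
  · have h' : F x ((), i) = 0 := by
      by_contra h0
      exact h (this.mpr h0)
    simp [h, h']

/-! ### Cutting off the padding -/

open Classical in
/-- the position of the last zero in the first half -/
noncomputable def dePos (z : List Bool) : ℕ :=
  ((range (z.length / 2)).filter
    (fun i => ∃ j < z.length / 2, i < j ∧ ¬ z.getD j false = true)).card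

/-- the input -/
noncomputable def deX (z : List Bool) : List Bool :=
  (List.range (dePos z)).map (fun i => decide ((z.getD i false).toNat ≠ 0))

theorem pf_half : PF (fun (z : List Bool) (_ : α) => z.length / 2) := PF.len.div (PF.const 2)

theorem pfBits_deX : PFBits deX := by
  refine ⟨dePos, fun z i => (z.getD i false).toNat, ?_, PF.snd.inp, fun z => rfl⟩
  unfold dePos
  refine PF.congr (@PF.count Unit _ (fun z _ => z.length / 2)
    (fun z (p : Unit × ℕ) => ∃ j < z.length / 2, p.2 < j ∧ ¬ z.getD j false = true)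
    (fun _ _ _ => Classical.propDecidable _) pf_half ?_) (fun x a => by congr)
  exact PD.exists_lt pf_half (P := fun z (q : (Unit × ℕ) × ℕ) => q.1.2 < q.2 ∧
    ¬ z.getD q.2 false = true) ((PD.lt PF.snd.fst PF.snd).and (PD.bit PF.snd).not)

theorem de_y_getD (x : List Bool) (m j : ℕ) (hj : j < x.length + 1 + m) :
    (x ++ false :: List.replicate m true).getD j false =
      if j < x.length then x.getD j false else decide (x.length < j) := by
  split_ifs with h
  · rw [List.getD_append _ _ _ _ h]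
  · rw [List.getD_append_right _ _ _ _ (by omega)]
    rcases Nat.eq_or_lt_of_le (Nat.le_of_not_lt h) with h1 | h1
    · subst h1; simp
    · obtain ⟨k, hk⟩ : ∃ k, j - x.length = k + 1 := ⟨j - x.length - 1, by omega⟩
      rw [hk, List.getD_cons_succ, List.getD_eq_getElem _ _ (by simp; omega)]
      simp [h1]

theorem de_y_length (x : List Bool) (m : ℕ) :
    (x ++ false :: List.replicate m true).length = x.length + 1 + m := by
  simp; omega

theorem deX_spec (x T : List Bool) (m : ℕ) (hT : T.length = x.length + 1 + m) :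
    deX ((x ++ false :: List.replicate m true) ++ T) = x := by
  classical
  set y := x ++ false :: List.replicate m true with hy
  have hyl : y.length = x.length + 1 + m := de_y_length x m
  have hhalf : (y ++ T).length / 2 = x.length + 1 + m := by
    rw [List.length_append, hyl, hT]; omega
  have hget : ∀ j < x.length + 1 + m, (y ++ T).getD j false =
      if j < x.length then x.getD j false else decide (x.length < j) := by
    intro j hj
    rw [List.getD_append _ _ _ _ (by omega)]
    exact de_y_getD x m j hj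
  have hpos : dePos (y ++ T) = x.length := by
    unfold dePos
    rw [hhalf]
    have : (range (x.length + 1 + m)).filter
        (fun i => ∃ j < x.length + 1 + m, i < j ∧ ¬ (y ++ T).getD j false = true) =
        range x.length := by
      ext i
      rw [mem_filter, mem_range, mem_range]
      constructor
      · rintro ⟨_, j, hj, hij, h⟩
        by_contra hlt
        apply h
        rw [hget j hj, if_neg (by omega)]
        simp; omega
      · intro h
        refine ⟨by omega, x.length, by omega, h, ?_⟩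
        rw [hget _ (by omega), if_neg (by omega)]
        simp
    rw [this, card_range]
  unfold deX
  rw [hpos]
  conv_rhs => rw [de_self x]
  apply List.map_congr_left
  intro i hi
  rw [List.mem_range] at hi
  rw [hget i (by omega), if_pos hi]
  cases x.getD i false <;> simp

/-! ### The data of the instance -/

theorem pf_numX {F : List Bool → α → ℕ} (hF : PF F) : PF (fun z a => num (deX z) (F z a)) := by
  have h1 : PF (fun x (p : α × ℕ) => num x p.2) := pf_num PF.snd
  exact PF.subst hF (h1.comp pfBits_deX)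

theorem pf_nX : PF (fun (z : List Bool) (_ : α) => nX (deX z)) := by
  unfold nX
  exact (pf_numX (PF.const 0)).add (PF.const 1)

theorem pf_cX : PF (fun (z : List Bool) (_ : α) => cX (deX z)) := by
  unfold cX
  exact pf_numX (PF.const 1)

theorem pf_pX {F : List Bool → α → ℕ} (hF : PF F) : PF (fun z a => pX (deX z) (F z a)) := by
  unfold pX
  exact PF.ite (PD.eq hF (PF.const 0)) (PF.const 0) (pf_numX (hF.add (PF.const 1)))

theorem pf_bX {F : List Bool → α → ℕ} (hF : PF F) : PF (fun z a => bX (deX z) (F z a)) := by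
  unfold bX
  exact pf_numX (((PF.const 2).add (pf_numX (PF.const 0))).add hF)

theorem de_LX_eq (x : List Bool) : LX x =
    ((range (x.length + 1)).filter (fun P => isP2 P)).card + if x.length = 0 then 1 else 0 := by
  unfold LX
  generalize x.length = l
  by_cases hl : l = 0
  · subst hl
    have : (range (0 + 1)).filter (fun P => isP2 P) = ∅ := by
      rw [Finset.filter_eq_empty_iff]
      intro P hP
      rw [mem_range] at hP
      have : P = 0 := by omega
      subst this
      intro h
      exact h.1 rfl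
    rw [this]
    simp
  · rw [if_neg hl, add_zero]
    have : (range (l + 1)).filter (fun P => isP2 P) =
        (range (Nat.log 2 l + 1)).image (fun j => 2 ^ j) := by
      ext P
      rw [mem_filter, mem_range, isP2_iff, mem_image]
      constructor
      · rintro ⟨h1, i, rfl⟩
        refine ⟨i, ?_, rfl⟩
        rw [mem_range]
        have : i ≤ Nat.log 2 l := Nat.le_log_of_pow_le (by norm_num) (by omega)
        omega
      · rintro ⟨i, h1, rfl⟩
        rw [mem_range] at h1
        have : 2 ^ i ≤ l := Nat.pow_le_of_le_log hl (by omega)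
        exact ⟨by omega, i, rfl⟩
    rw [this, card_image_of_injective _ (Nat.pow_right_injective le_rfl), card_range]

theorem pf_LX : PF (fun (z : List Bool) (_ : α) => LX (deX z)) := by
  have h : PF (fun (x : List Bool) (_ : α) => LX x) := by
    refine (PF.add (PF.count (P := fun (_ : List Bool) (p : α × ℕ) => isP2 p.2)
      (PF.len.add (PF.const 1)) (PD.isP2 PF.snd))
      (PF.ite (PD.eq PF.len (PF.const 0)) (PF.const 1) (PF.const 0))).congr fun x a => ?_
    rw [de_LX_eq x]
  exact h.comp pfBits_deX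

theorem pf_tX : PF (fun (z : List Bool) (_ : α) => tX (deX z)) := by
  unfold tX
  exact ((PF.const 11).mul pf_LX).add (PF.const 3)

end calculus

/-! ### The round -/

/-- index in the table -/
def deIdx (n t S i v lab sg s : ℕ) : ℕ := (((i * n + v) * (t + 1) + lab) * 2 + sg) * S + s

/-- weights -/
def deW (N L t lab sg : ℕ) : ℕ :=
  if lab < t then dePw N (L * lab) else if sg = 1 then 0 else dePw N (L * t)

/-- the new entry `(i, v, lab, sg, s)` computed from the old table `T` -/
def deRule (N L n t S : ℕ) (p : ℕ → ℕ) (T : ℕ → Prop) (i v lab sg s : ℕ) : Prop :=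
  (n ≤ i ∧ s = deW N L t lab sg) ∨
  (i < n ∧ (i ≠ 0 ∧ p i = v) ∧ ∃ s1 < s + 1, ∃ l < t + 1, (lab ≠ l ∨ lab = t) ∧
    T (deIdx n t S (i + 1) v lab sg s1) ∧ T (deIdx n t S (i + 1) i l (1 - sg) (s - s1))) ∨
  (i < n ∧ ¬ (i ≠ 0 ∧ p i = v) ∧ T (deIdx n t S (i + 1) v lab sg s))

/-- digits -/
def deDg (N L s a : ℕ) : ℕ := s / dePw N (L * a) % dePw N L

/-- the conditions on the guessed data -/
def deBody (N L n c t S : ℕ) (b : ℕ → ℕ) (T : ℕ → Prop) (Jc θ ι s : ℕ) : Prop :=
  (∃ lab < t + 1, ∃ sg < 2, T (deIdx n t S 1 0 lab sg s)) ∧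
    (∀ a < t, deDg N L s a ≤ cap c (deDg N L Jc) b a) ∧
    s / dePw N (L * t) ≤ capA c t (deDg N L Jc) b θ ι ∧
    n - (∑ a ∈ range t, deDg N L s a) - s / dePw N (L * t) ≤ capB c t (deDg N L Jc) b θ ι

/-- acceptance -/
def deAcc (N L n c t S : ℕ) (b : ℕ → ℕ) (T : ℕ → Prop) : Prop :=
  ∃ Jc < dePw N (L * t), ∃ θ < (∑ j ∈ range c, b j) + 1, ∃ ι < c + 1, ∃ s < S,
    deBody N L n c t S b T Jc θ ι s

section calculus2

variable {α : Type} [Ctx α] {N L n c t S i v lab sg s Jc A θ ι : List Bool → α → ℕ}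
  {p b : List Bool → ℕ → ℕ} {T : List Bool → ℕ → Prop}

theorem pf_deIdx (hn : PF n) (ht : PF t) (hS : PF S) (hi : PF i) (hv : PF v) (hlab : PF lab)
    (hsg : PF sg) (hs : PF s) :
    PF (fun z a => deIdx (n z a) (t z a) (S z a) (i z a) (v z a) (lab z a) (sg z a) (s z a)) := by
  unfold deIdx
  exact (((((((hi.mul hn).add hv).mul (ht.add (PF.const 1))).add hlab).mul (PF.const 2)).add
    hsg).mul hS).add hs

theorem pf_deW (hN : PF N) (hL : PF L) (ht : PF t) (hlab : PF lab) (hsg : PF sg) :
    PF (fun z a => deW (N z a) (L z a) (t z a) (lab z a) (sg z a)) := by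
  unfold deW
  exact PF.ite (PD.lt hlab ht) (pf_dePw hN (hL.mul hlab))
    (PF.ite (PD.eq hsg (PF.const 1)) (PF.const 0) (pf_dePw hN (hL.mul ht)))

theorem pd_deRule (hN : PF N) (hL : PF L) (hn : PF n) (ht : PF t) (hS : PF S) (hi : PF i)
    (hv : PF v) (hlab : PF lab) (hsg : PF sg) (hs : PF s)
    (hp : ∀ (β : Type) [Ctx β] (F : List Bool → β → ℕ), PF F → PF (fun z b => p z (F z b)))
    (hT : ∀ (β : Type) [Ctx β] (F : List Bool → β → ℕ), PF F → PD (fun z b => T z (F z b))) :
    PD (fun z a => deRule (N z a) (L z a) (n z a) (t z a) (S z a) (p z) (T z) (i z a) (v z a)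
      (lab z a) (sg z a) (s z a)) := by
  unfold deRule
  have hc : PD (fun z a => i z a ≠ 0 ∧ p z (i z a) = v z a) :=
    (PD.eq hi (PF.const 0)).not.and (PD.eq (hp _ _ hi) hv)
  refine ((PD.le hn hi).and (PD.eq hs (pf_deW hN hL ht hlab hsg))).or
    (((PD.lt hi hn).and (hc.and ?_)).or ((PD.lt hi hn).and (hc.not.and ?_)))
  · refine PD.exists_lt (hs.add (PF.const 1)) (P := fun z (q : α × ℕ) => ∃ l < t z q.1 + 1,
      (lab z q.1 ≠ l ∨ lab z q.1 = t z q.1) ∧
      T z (deIdx (n z q.1) (t z q.1) (S z q.1) (i z q.1 + 1) (v z q.1) (lab z q.1) (sg z q.1)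
        q.2) ∧
      T z (deIdx (n z q.1) (t z q.1) (S z q.1) (i z q.1 + 1) (i z q.1) l (1 - sg z q.1)
        (s z q.1 - q.2))) ?_
    refine PD.exists_lt (ht.fst.add (PF.const 1)) (P := fun z (r : (α × ℕ) × ℕ) =>
      (lab z r.1.1 ≠ r.2 ∨ lab z r.1.1 = t z r.1.1) ∧
      T z (deIdx (n z r.1.1) (t z r.1.1) (S z r.1.1) (i z r.1.1 + 1) (v z r.1.1) (lab z r.1.1)
        (sg z r.1.1) r.1.2) ∧
      T z (deIdx (n z r.1.1) (t z r.1.1) (S z r.1.1) (i z r.1.1 + 1) (i z r.1.1) r.2
        (1 - sg z r.1.1) (s z r.1.1 - r.1.2))) ?_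
    exact ((PD.eq hlab.fst.fst PF.snd).not.or (PD.eq hlab.fst.fst ht.fst.fst)).and
      ((hT _ _ (pf_deIdx hn.fst.fst ht.fst.fst hS.fst.fst (hi.fst.fst.add (PF.const 1))
        hv.fst.fst hlab.fst.fst hsg.fst.fst PF.snd.fst)).and
      (hT _ _ (pf_deIdx hn.fst.fst ht.fst.fst hS.fst.fst (hi.fst.fst.add (PF.const 1))
        hi.fst.fst PF.snd ((PF.const 1).sub hsg.fst.fst) (hs.fst.fst.sub PF.snd.fst))))
  · exact hT _ _ (pf_deIdx hn ht hS (hi.add (PF.const 1)) hv hlab hsg hs)

theorem pf_deDg (hN : PF N) (hL : PF L) (hs : PF s) (hA : PF A) :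
    PF (fun z a => deDg (N z a) (L z a) (s z a) (A z a)) := by
  unfold deDg
  exact (hs.div (pf_dePw hN (hL.mul hA))).mod (pf_dePw hN hL)

theorem pf_cap (hN : PF N) (hL : PF L) (hc : PF c) (hJ : PF Jc) (hA : PF A)
    (hb : ∀ (β : Type) [Ctx β] (F : List Bool → β → ℕ), PF F → PF (fun z b' => b z (F z b'))) :
    PF (fun z a => cap (c z a) (deDg (N z a) (L z a) (Jc z a)) (b z) (A z a)) := by
  unfold cap
  refine PF.congr (@PF.ite α _ (fun z a => deDg (N z a) (L z a) (Jc z a) (A z a) < c z a ∧
    ∀ a' < A z a, deDg (N z a) (L z a) (Jc z a) a' ≠ deDg (N z a) (L z a) (Jc z a) (A z a))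
    (fun _ _ => Classical.propDecidable _)
    (fun z a => b z (deDg (N z a) (L z a) (Jc z a) (A z a))) (fun _ _ => 0) ?_ ?_
    (PF.const 0)) (fun z a => by congr)
  · refine (PD.lt (pf_deDg hN hL hJ hA) hc).and (PD.forall_lt hA (P := fun z (q : α × ℕ) =>
      deDg (N z q.1) (L z q.1) (Jc z q.1) q.2 ≠ deDg (N z q.1) (L z q.1) (Jc z q.1) (A z q.1)) ?_)
    exact (PD.eq (pf_deDg hN.fst hL.fst hJ.fst PF.snd) (pf_deDg hN hL hJ hA).fst).not
  · exact hb _ _ (pf_deDg hN hL hJ hA)

theorem pd_inJ (hN : PF N) (hL : PF L) (ht : PF t) (hJ : PF Jc) (hA : PF A) :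
    PD (fun z a => InJ (t z a) (deDg (N z a) (L z a) (Jc z a)) (A z a)) := by
  unfold InJ
  exact PD.exists_lt ht (P := fun z (q : α × ℕ) =>
    deDg (N z q.1) (L z q.1) (Jc z q.1) q.2 = A z q.1)
    (PD.eq (pf_deDg hN.fst hL.fst hJ.fst PF.snd) hA.fst)

theorem pd_small (hθ : PF θ) (hι : PF ι) (hA : PF A)
    (hb : ∀ (β : Type) [Ctx β] (F : List Bool → β → ℕ), PF F → PF (fun z b' => b z (F z b'))) :
    PD (fun z a => Small (b z) (θ z a) (ι z a) (A z a)) := by
  unfold Small
  exact (PD.lt (hb _ _ hA) hθ).or ((PD.eq (hb _ _ hA) hθ).and (PD.lt hA hι))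

theorem pf_capA (hN : PF N) (hL : PF L) (hc : PF c) (ht : PF t) (hJ : PF Jc) (hθ : PF θ)
    (hι : PF ι)
    (hb : ∀ (β : Type) [Ctx β] (F : List Bool → β → ℕ), PF F → PF (fun z b' => b z (F z b'))) :
    PF (fun z a => capA (c z a) (t z a) (deDg (N z a) (L z a) (Jc z a)) (b z) (θ z a)
      (ι z a)) := by
  classical
  have h1 : PF (fun z a => ∑ j ∈ range (c z a),
      if ¬ InJ (t z a) (deDg (N z a) (L z a) (Jc z a)) j ∧ ¬ Small (b z) (θ z a) (ι z a) j
      then b z j else 0) := by
    refine PF.sum hc (F := fun z (q : α × ℕ) =>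
      if ¬ InJ (t z q.1) (deDg (N z q.1) (L z q.1) (Jc z q.1)) q.2 ∧
        ¬ Small (b z) (θ z q.1) (ι z q.1) q.2 then b z q.2 else 0) ?_
    exact PF.ite ((pd_inJ hN.fst hL.fst ht.fst hJ.fst PF.snd).not.and
      (pd_small hθ.fst hι.fst PF.snd hb).not) (hb _ _ PF.snd) (PF.const 0)
  refine h1.congr fun z a => ?_
  unfold capA
  rw [Finset.sum_filter]

theorem pf_capB (hN : PF N) (hL : PF L) (hc : PF c) (ht : PF t) (hJ : PF Jc) (hθ : PF θ)
    (hι : PF ι)
    (hb : ∀ (β : Type) [Ctx β] (F : List Bool → β → ℕ), PF F → PF (fun z b' => b z (F z b'))) :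
    PF (fun z a => capB (c z a) (t z a) (deDg (N z a) (L z a) (Jc z a)) (b z) (θ z a)
      (ι z a)) := by
  classical
  have h1 : PF (fun z a => ∑ j ∈ range (c z a),
      if ¬ InJ (t z a) (deDg (N z a) (L z a) (Jc z a)) j ∧ Small (b z) (θ z a) (ι z a) j
      then b z j else 0) := by
    refine PF.sum hc (F := fun z (q : α × ℕ) =>
      if ¬ InJ (t z q.1) (deDg (N z q.1) (L z q.1) (Jc z q.1)) q.2 ∧
        Small (b z) (θ z q.1) (ι z q.1) q.2 then b z q.2 else 0) ?_
    exact PF.ite ((pd_inJ hN.fst hL.fst ht.fst hJ.fst PF.snd).not.and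
      (pd_small hθ.fst hι.fst PF.snd hb)) (hb _ _ PF.snd) (PF.const 0)
  refine h1.congr fun z a => ?_
  unfold capB
  rw [Finset.sum_filter]

theorem pd_deBody (hN : PF N) (hL : PF L) (hn : PF n) (hc : PF c) (ht : PF t) (hS : PF S)
    (hb : ∀ (β : Type) [Ctx β] (F : List Bool → β → ℕ), PF F → PF (fun z b' => b z (F z b')))
    (hT : ∀ (β : Type) [Ctx β] (F : List Bool → β → ℕ), PF F → PD (fun z b => T z (F z b)))
    (hJ : PF Jc) (hθ : PF θ) (hι : PF ι) (hs : PF s) :
    PD (fun z a => deBody (N z a) (L z a) (n z a) (c z a) (t z a) (S z a) (b z) (T z) (Jc z a)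
      (θ z a) (ι z a) (s z a)) := by
  unfold deBody
  refine PD.and ?_ (PD.and ?_ (PD.and ?_ ?_))
  · refine PD.exists_lt (ht.add (PF.const 1)) (P := fun z (q : α × ℕ) => ∃ sg < 2,
      T z (deIdx (n z q.1) (t z q.1) (S z q.1) 1 0 q.2 sg (s z q.1))) ?_
    refine PD.exists_lt (PF.const 2) (P := fun z (q : (α × ℕ) × ℕ) =>
      T z (deIdx (n z q.1.1) (t z q.1.1) (S z q.1.1) 1 0 q.1.2 q.2 (s z q.1.1))) ?_
    exact hT _ _ (pf_deIdx hn.fst.fst ht.fst.fst hS.fst.fst (PF.const 1) (PF.const 0)
      PF.snd.fst PF.snd hs.fst.fst)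
  · refine PD.forall_lt ht (P := fun z (q : α × ℕ) => deDg (N z q.1) (L z q.1) (s z q.1) q.2 ≤
      cap (c z q.1) (deDg (N z q.1) (L z q.1) (Jc z q.1)) (b z) q.2) ?_
    exact PD.le (pf_deDg hN.fst hL.fst hs.fst PF.snd)
      (pf_cap hN.fst hL.fst hc.fst hJ.fst PF.snd hb)
  · exact PD.le (hs.div (pf_dePw hN (hL.mul ht))) (pf_capA hN hL hc ht hJ hθ hι hb)
  · have hsum : PF (fun z a => ∑ a' ∈ range (t z a), deDg (N z a) (L z a) (s z a) a') :=
      PF.sum ht (F := fun z (q : α × ℕ) => deDg (N z q.1) (L z q.1) (s z q.1) q.2)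
        (pf_deDg hN.fst hL.fst hs.fst PF.snd)
    exact PD.le ((hn.sub hsum).sub (hs.div (pf_dePw hN (hL.mul ht))))
      (pf_capB hN hL hc ht hJ hθ hι hb)

theorem pd_deAcc (hN : PF N) (hL : PF L) (hn : PF n) (hc : PF c) (ht : PF t) (hS : PF S)
    (hb : ∀ (β : Type) [Ctx β] (F : List Bool → β → ℕ), PF F → PF (fun z b' => b z (F z b')))
    (hT : ∀ (β : Type) [Ctx β] (F : List Bool → β → ℕ), PF F → PD (fun z b => T z (F z b))) :
    PD (fun z a => deAcc (N z a) (L z a) (n z a) (c z a) (t z a) (S z a) (b z) (T z)) := by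
  have hsb : PF (fun z a => ∑ j ∈ range (c z a), b z j) :=
    PF.sum hc (F := fun z (q : α × ℕ) => b z q.2) (hb _ _ PF.snd)
  have body := pd_deBody (α := (((α × ℕ) × ℕ) × ℕ) × ℕ) hN.fst.fst.fst.fst hL.fst.fst.fst.fst
    hn.fst.fst.fst.fst hc.fst.fst.fst.fst ht.fst.fst.fst.fst hS.fst.fst.fst.fst hb hT
    PF.snd.fst.fst.fst PF.snd.fst.fst PF.snd.fst PF.snd
  exact PD.exists_lt (pf_dePw hN (hL.mul ht)) (P := fun z (q : α × ℕ) =>
    ∃ θ < (∑ j ∈ range (c z q.1), b z j) + 1, ∃ ι < c z q.1 + 1, ∃ s < S z q.1,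
      deBody (N z q.1) (L z q.1) (n z q.1) (c z q.1) (t z q.1) (S z q.1) (b z) (T z) q.2 θ ι s)
    (PD.exists_lt (hsb.fst.add (PF.const 1)) (P := fun z (q : (α × ℕ) × ℕ) =>
      ∃ ι < c z q.1.1 + 1, ∃ s < S z q.1.1,
        deBody (N z q.1.1) (L z q.1.1) (n z q.1.1) (c z q.1.1) (t z q.1.1) (S z q.1.1) (b z)
          (T z) q.1.2 q.2 ι s)
      (PD.exists_lt (hc.fst.fst.add (PF.const 1)) (P := fun z (q : ((α × ℕ) × ℕ) × ℕ) =>
        ∃ s < S z q.1.1.1,
          deBody (N z q.1.1.1) (L z q.1.1.1) (n z q.1.1.1) (c z q.1.1.1) (t z q.1.1.1)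
            (S z q.1.1.1) (b z) (T z) q.1.1.2 q.1.2 q.2 s)
        (PD.exists_lt hS.fst.fst.fst (P := fun z (q : (((α × ℕ) × ℕ) × ℕ) × ℕ) =>
          deBody (N z q.1.1.1.1) (L z q.1.1.1.1) (n z q.1.1.1.1) (c z q.1.1.1.1)
            (t z q.1.1.1.1) (S z q.1.1.1.1) (b z) (T z) q.1.1.1.2 q.1.1.2 q.1.2 q.2)
          body)))

end calculus2

/-! ### The algorithm -/

/-- number of weights -/
noncomputable def deS (z : List Bool) : ℕ := dePw z.length (LX (deX z) * (tX (deX z) + 1))

/-- reading the table -/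
def deT (z : List Bool) (k : ℕ) : Prop := z.getD (z.length / 2 + k) false = true

/-- new bit of the table -/
def deNB (z : List Bool) (j : ℕ) : Prop :=
  deRule z.length (LX (deX z)) (nX (deX z)) (tX (deX z)) (deS z) (pX (deX z)) (deT z)
    (j / deS z / 2 / (tX (deX z) + 1) / nX (deX z))
    (j / deS z / 2 / (tX (deX z) + 1) % nX (deX z))
    (j / deS z / 2 % (tX (deX z) + 1))
    (j / deS z % 2)
    (j % deS z)

open Classical in
/-- one round -/
noncomputable def deF (z : List Bool) : List Bool :=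
  (List.range (z.length / 2)).map (fun i => decide (z.getD i false = true)) ++
    (List.range (z.length / 2)).map (fun j => decide (deNB z j))

theorem pf_deS {α : Type} [Ctx α] : PF (fun (z : List Bool) (_ : α) => deS z) := by
  unfold deS
  exact pf_dePw PF.len (pf_LX.mul (pf_tX.add (PF.const 1)))

theorem pd_deT (β : Type) [Ctx β] (F : List Bool → β → ℕ) (hF : PF F) :
    PD (fun z b => deT z (F z b)) := by
  unfold deT
  exact PD.bit ((PF.len.div (PF.const 2)).add hF)

theorem pd_deNB {α : Type} [Ctx α] {J : List Bool → α → ℕ} (hJ : PF J) :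
    PD (fun z a => deNB z (J z a)) := by
  unfold deNB
  have h1 : PF (fun z a => J z a / deS z) := hJ.div pf_deS
  have h2 : PF (fun z a => J z a / deS z / 2) := h1.div (PF.const 2)
  have h3 : PF (fun z a => J z a / deS z / 2 / (tX (deX z) + 1)) :=
    h2.div (pf_tX.add (PF.const 1))
  exact pd_deRule PF.len pf_LX pf_nX pf_tX pf_deS (h3.div pf_nX) (h3.mod pf_nX)
    (h2.mod (pf_tX.add (PF.const 1))) (h1.mod (PF.const 2)) (hJ.mod pf_deS)
    (fun β _ F hF => pf_pX hF) pd_deT

theorem pfBits_deF : PFBits deF := by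
  refine pfBits_of_pl ?_
  unfold deF
  refine PL.append ?_ ?_
  · exact ⟨fun z _ => z.length / 2, fun z p => z.getD p.2 false = true, pf_half, PD.bit PF.snd,
      fun z _ => by
        apply List.map_congr_left
        intro i _
        congr⟩
  · exact ⟨fun z _ => z.length / 2, fun z p => deNB z p.2, pf_half, pd_deNB PF.snd,
      fun z _ => rfl⟩

theorem deF_length_le (z : List Bool) : (deF z).length ≤ z.length := by
  unfold deF
  simp only [List.length_append, List.length_map, List.length_range]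
  omega

open Classical in
/-- the final answer -/
noncomputable def deE (z : List Bool) : List Bool :=
  [decide (ValidX (deX z) ∧ deAcc z.length (LX (deX z)) (nX (deX z)) (cX (deX z)) (tX (deX z))
    (deS z) (bX (deX z)) (deT z))]

theorem pfBits_deE : PFBits deE := by
  refine pfBits_of_pl ?_
  unfold deE
  refine PL.congr (@PL.single Unit _ (fun z _ => ValidX (deX z) ∧ deAcc z.length (LX (deX z))
    (nX (deX z)) (cX (deX z)) (tX (deX z)) (deS z) (bX (deX z)) (deT z))
    (fun _ _ => Classical.propDecidable _) ?_) (fun z a => by congr)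
  exact (PD.comp pfBits_deX pd_valid).and (pd_deAcc PF.len pf_LX pf_nX pf_cX pf_tX pf_deS
    (fun β _ F hF => pf_bX hF) pd_deT)

/-- The algorithm. -/
noncomputable def deD (y : List Bool) : List Bool := deE (deF^[(y ++ y).length] (y ++ y))

theorem pc_deD : PC deD := by
  have h0 : PL (fun (y : List Bool) (_ : Unit) => y ++ y) := PL.append pl_id pl_id
  have h1 : PC (fun y : List Bool => y ++ y) :=
    (pfBits_of_pl (f := fun y => y ++ y) h0).pc
  have h2 : PC (fun z : List Bool => deF^[z.length] z) :=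
    pfBits_deF.iterate deF_length_le PF.len
  exact pfBits_deE.pc.comp (h2.comp h1)

/-! ### Correctness -/

theorem deF_append {y T : List Bool} (h : T.length = y.length) :
    deF (y ++ T) = y ++ (List.range y.length).map
      (fun j => @decide (deNB (y ++ T) j) (Classical.propDecidable _)) := by
  unfold deF
  have hh : (y ++ T).length / 2 = y.length := by rw [List.length_append, h]; omega
  rw [hh]
  congr 1
  conv_rhs => rw [de_self y]
  apply List.map_congr_left
  intro i hi
  rw [List.mem_range] at hi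
  rw [List.getD_append _ _ _ _ hi]
  cases y.getD i false <;> simp

theorem deT_append {y T : List Bool} (h : T.length = y.length) (k : ℕ) :
    deT (y ++ T) k ↔ T.getD k false = true := by
  unfold deT
  have hh : (y ++ T).length / 2 = y.length := by rw [List.length_append, h]; omega
  rw [hh, List.getD_append_right _ _ _ _ (by omega), Nat.add_sub_cancel_left]

theorem de_div {a S s : ℕ} (hs : s < S) : (a * S + s) / S = a := by
  rw [Nat.add_comm, Nat.add_mul_div_right _ _ (by omega), Nat.div_eq_of_lt hs, Nat.zero_add]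

theorem de_mod {a S s : ℕ} (hs : s < S) : (a * S + s) % S = s := by
  rw [Nat.add_comm, Nat.add_mul_mod_self_right, Nat.mod_eq_of_lt hs]

theorem deIdx_lt {n t S i v lab sg s : ℕ} (hi : i ≤ n) (hv : v < n) (hlab : lab ≤ t)
    (hsg : sg < 2) (hs : s < S) : deIdx n t S i v lab sg s < (n + 1) * n * (t + 1) * 2 * S := by
  unfold deIdx
  have h1 : i * n + v < (n + 1) * n := by
    have := Nat.mul_le_mul_right n hi
    rw [Nat.add_mul]
    omega
  have step : ∀ {a A b B : ℕ}, a < A → b < B → a * B + b < A * B := by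
    intro a A b B ha hb
    have := Nat.mul_le_mul_right B (Nat.succ_le_of_lt ha)
    rw [Nat.succ_mul] at this
    omega
  exact step (step (step h1 (by omega)) hsg) hs

section correct

variable {x : List Bool} {m : ℕ} {T : List Bool}

/-- the padded input -/
def deY (x : List Bool) (m : ℕ) : List Bool := x ++ false :: List.replicate m true

theorem deY_length (x : List Bool) (m : ℕ) : (deY x m).length = x.length + 1 + m :=
  de_y_length x m

/-- the levels `i` with `n + 1 ≤ i + r` of the table are right -/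
def deCor (x : List Bool) (r : ℕ) (T : List Bool) : Prop :=
  ∀ i v lab sg s, nX x + 1 ≤ i + r → i ≤ nX x → v < nX x → lab ≤ tX x → sg < 2 →
    s < QX x ^ (tX x + 1) →
    (T.getD (deIdx (nX x) (tX x) (QX x ^ (tX x + 1)) i v lab sg s) false = true ↔
      Gk (nX x) (tX x) (QX x) (pX x) (nX x - i) v lab (decide (sg = 1)) s)

theorem de_tab_ge (x : List Bool) : QX x ^ (tX x + 1) ≤ tabX x ∧ nX x + 1 ≤ tabX x := by
  unfold tabX
  have h1 : 0 < nX x := by unfold nX; omega
  have h2 : 0 < QX x ^ (tX x + 1) := by unfold QX; positivity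
  constructor
  · exact Nat.le_mul_of_pos_left _ (by positivity)
  · calc nX x + 1 = (nX x + 1) * 1 * 1 * 1 * 1 := by ring
      _ ≤ (nX x + 1) * nX x * (tX x + 1) * 2 * QX x ^ (tX x + 1) := by
        gcongr
        · omega
        · omega
        · omega
        · omega

theorem de_deX (hT : T.length = (deY x m).length) : deX (deY x m ++ T) = x := by
  rw [deY_length] at hT
  exact deX_spec x T m hT

theorem de_pow (x : List Bool) (a : ℕ) : 2 ^ (LX x * a) = QX x ^ a := by
  unfold QX
  rw [pow_mul]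

theorem de_deS (hm : tabX x ≤ m) (hT : T.length = (deY x m).length) :
    deS (deY x m ++ T) = QX x ^ (tX x + 1) := by
  unfold deS
  rw [de_deX hT, dePw_of_le, de_pow]
  rw [de_pow, List.length_append, deY_length]
  have := (de_tab_ge x).1
  omega

theorem de_W {N lab sg : ℕ} (x : List Bool) (hN : QX x ^ (tX x + 1) ≤ N) :
    deW N (LX x) (tX x) lab sg = wt (QX x) (tX x) lab (decide (sg = 1)) := by
  have hQ : 0 < QX x := by unfold QX; positivity
  unfold deW wt
  by_cases h1 : lab < tX x
  · rw [if_pos h1, if_pos h1, dePw_of_le, de_pow]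
    rw [de_pow]
    exact (Nat.pow_le_pow_right hQ (by omega)).trans hN
  · rw [if_neg h1, if_neg h1]
    by_cases h2 : sg = 1
    · simp [h2]
    · simp only [h2, if_false, decide_false, Bool.false_eq_true]
      rw [dePw_of_le, de_pow]
      rw [de_pow]
      exact (Nat.pow_le_pow_right hQ (by omega)).trans hN

theorem de_round (hm : tabX x ≤ m) (hT : T.length = (deY x m).length) {r : ℕ}
    (hr : deCor x r T) : deCor x (r + 1) ((List.range (deY x m).length).map
      (fun j => @decide (deNB (deY x m ++ T) j) (Classical.propDecidable _))) := by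
  intro i v lab sg s hir hi hv hlab hsg hs
  have hlt := deIdx_lt hi hv hlab hsg hs
  have htab : deIdx (nX x) (tX x) (QX x ^ (tX x + 1)) i v lab sg s < tabX x := hlt
  have hjl : deIdx (nX x) (tX x) (QX x ^ (tX x + 1)) i v lab sg s < (deY x m).length := by
    rw [deY_length]; omega
  have hN : QX x ^ (tX x + 1) ≤ (deY x m ++ T).length := by
    rw [List.length_append, deY_length]
    have := (de_tab_ge x).1
    omega
  rw [List.getD_eq_getElem?_getD, List.getElem?_map, List.getElem?_range hjl]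
  simp only [Option.map_some, Option.getD_some, decide_eq_true_eq]
  unfold deNB
  rw [de_deX hT, de_deS hm hT]
  have e1 : deIdx (nX x) (tX x) (QX x ^ (tX x + 1)) i v lab sg s % QX x ^ (tX x + 1) = s :=
    de_mod hs
  have e2 : deIdx (nX x) (tX x) (QX x ^ (tX x + 1)) i v lab sg s / QX x ^ (tX x + 1) =
      ((i * nX x + v) * (tX x + 1) + lab) * 2 + sg := de_div hs
  rw [e1, e2, de_mod hsg, de_div hsg, de_mod (Nat.lt_succ_of_le hlab),
    de_div (Nat.lt_succ_of_le hlab), de_mod hv, de_div hv]
  unfold deRule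
  simp only [deT_append hT]
  rw [de_W x hN]
  rcases Nat.eq_or_lt_of_le hi with hin | hin
  · subst hin
    have h0 : ¬ nX x < nX x := by omega
    simp only [h0, false_and, or_false, le_refl, true_and, Nat.sub_self]
    rfl
  · have hni : ¬ nX x ≤ i := by omega
    obtain ⟨k, hk⟩ : ∃ k, nX x - i = k + 1 := ⟨nX x - i - 1, by omega⟩
    have hk' : nX x - (i + 1) = k := by omega
    have hik : nX x - (k + 1) = i := by omega
    rw [hk]
    simp only [hni, hin, false_and, true_and, false_or]
    unfold Gk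
    rw [hik]
    have IH := fun (v' lab' sg' s' : ℕ) (h1 : v' < nX x) (h2 : lab' ≤ tX x) (h3 : sg' < 2)
      (h4 : s' < QX x ^ (tX x + 1)) => hr (i + 1) v' lab' sg' s' (by omega) (by omega) h1 h2 h3 h4
    rw [hk'] at IH
    by_cases hc : i ≠ 0 ∧ pX x i = v
    · rw [if_pos hc]
      simp only [hc, not_true, false_and, or_false, true_and, ne_eq, not_false_eq_true,
        and_self]
      constructor
      · rintro ⟨s1, hs1, l, hl, h1, h2, h3⟩
        refine ⟨s1, by omega, l, by omega, h1, ?_, ?_⟩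
        · exact (IH v lab sg s1 hv hlab hsg (by omega)).mp h2
        · have := (IH i l (1 - sg) (s - s1) hin (by omega) (by omega) (by omega)).mp h3
          have hb : decide (1 - sg = 1) = !decide (sg = 1) := by
            rcases (show sg = 0 ∨ sg = 1 by omega) with h | h <;> subst h <;> rfl
          rwa [hb] at this
      · rintro ⟨s1, hs1, l, hl, h1, h2, h3⟩
        refine ⟨s1, by omega, l, by omega, h1, ?_, ?_⟩
        · exact (IH v lab sg s1 hv hlab hsg (by omega)).mpr h2
        · have hb : decide (1 - sg = 1) = !decide (sg = 1) := by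
            rcases (show sg = 0 ∨ sg = 1 by omega) with h | h <;> subst h <;> rfl
          rw [← hb] at h3
          exact (IH i l (1 - sg) (s - s1) hin (by omega) (by omega) (by omega)).mpr h3
    · rw [if_neg hc]
      simp only [hc, not_false_eq_true, true_and, false_and, false_or]
      exact IH v lab sg s hv hlab hsg hs

theorem de_iter (hm : tabX x ≤ m) : ∀ r, ∃ T : List Bool, T.length = (deY x m).length ∧
    deF^[r] (deY x m ++ deY x m) = deY x m ++ T ∧ deCor x r T := by
  intro r
  induction r with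
  | zero =>
    refine ⟨deY x m, rfl, rfl, ?_⟩
    intro i v lab sg s h1 h2
    omega
  | succ r ih =>
    obtain ⟨T, hT, h1, h2⟩ := ih
    refine ⟨_, ?_, ?_, de_round hm hT h2⟩
    · simp
    · rw [Function.iterate_succ_apply', h1, deF_append hT]

theorem de_dg {x : List Bool} {N s : ℕ} (hs : s ≤ N) (hQ : QX x ≤ N) :
    deDg N (LX x) s = dg (QX x) s := by
  funext a
  unfold deDg dg
  rw [de_div_pw hs, de_pow, dePw_of_le hQ]
  rfl

theorem de_acc_iff (hm : tabX x ≤ m) (hT : T.length = (deY x m).length) {r : ℕ}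
    (hr : nX x ≤ r) (hcor : deCor x r T) :
    deAcc (deY x m ++ T).length (LX x) (nX x) (cX x) (tX x) (deS (deY x m ++ T)) (bX x)
      (deT (deY x m ++ T)) ↔ Acc (nX x) (cX x) (tX x) (QX x) (pX x) (bX x) := by
  have hQpos : 0 < QX x := by unfold QX; positivity
  have hN : QX x ^ (tX x + 1) ≤ (deY x m ++ T).length := by
    rw [List.length_append, deY_length]
    have := (de_tab_ge x).1
    omega
  have hn1 : 1 ≤ nX x := by unfold nX; omega
  rw [de_deS hm hT]
  generalize (deY x m ++ T).length = N at *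
  have hNt : QX x ^ tX x ≤ N := (Nat.pow_le_pow_right hQpos (by omega)).trans hN
  have hNQ : QX x ≤ N := by
    have : QX x ^ 1 ≤ QX x ^ (tX x + 1) := Nat.pow_le_pow_right hQpos (by omega)
    rw [pow_one] at this
    omega
  have hpw : dePw N (LX x * tX x) = QX x ^ tX x := by
    rw [dePw_of_le, de_pow]
    rwa [de_pow]
  unfold deAcc Acc deBody
  simp only [deT_append hT]
  rw [hpw]
  refine exists_congr fun Jc => and_congr_right fun hJ => ?_
  refine exists_congr fun θ => ?_
  rw [Nat.lt_succ_iff]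
  refine and_congr_right fun hθ => ?_
  refine exists_congr fun ι => ?_
  rw [Nat.lt_succ_iff]
  refine and_congr_right fun hι => ?_
  refine exists_congr fun s => and_congr_right fun hs => ?_
  rw [de_dg (x := x) (s := s) (by omega) hNQ, de_dg (x := x) (s := Jc) (by omega) hNQ]
  refine and_congr ?_ Iff.rfl
  constructor
  · rintro ⟨lab, hlab, sg, hsg, h⟩
    exact ⟨lab, by omega, _, (hcor 1 0 lab sg s (by omega) hn1 (by omega) (by omega) hsg hs).mp h⟩
  · rintro ⟨lab, hlab, σ, h⟩
    refine ⟨lab, by omega, if σ then 1 else 0, by split_ifs <;> omega, ?_⟩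
    refine (hcor 1 0 lab _ s (by omega) hn1 (by omega) (by omega) (by split_ifs <;> omega)
      hs).mpr ?_
    cases σ
    · exact h
    · exact h

end correct

/-- The algorithm on padded inputs, in polynomial time in the padded length. -/
theorem exists_decider : ∃ D : List Bool → List Bool, PC D ∧ ∀ (x : List Bool) (m : ℕ),
    tabX x ≤ m → (D (x ++ false :: List.replicate m true) = [true] ↔ x ∈ BCPTree) ∧
      (D (x ++ false :: List.replicate m true)).length = 1 := by
  refine ⟨deD, pc_deD, fun x m hm => ⟨?_, rfl⟩⟩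
  change deD (deY x m) = [true] ↔ _
  obtain ⟨T, hT, h1, h2⟩ := de_iter (x := x) (m := m) hm (deY x m ++ deY x m).length
  unfold deD
  rw [h1]
  unfold deE
  simp only [List.cons.injEq, and_true, decide_eq_true_eq]
  rw [de_deX hT, mem_BCPTree_iff]
  refine and_congr_right fun hv => ?_
  rw [feas_iff_acc hv]
  refine de_acc_iff hm hT ?_ h2
  rw [List.length_append, deY_length]
  have := (de_tab_ge x).2
  omega

end Pool.Agent.BCP
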