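import Mathlib
import Pool.Agent.BCP.Defs

/-!
# The trees of the reduction from 3-SAT (definitions only)

All quantities are functions of the number `N` of variables, the number `M` of clauses and the
literals `lit k` (`k < 3 M`; the literal `r` of clause `j` is `lit (3 j + r)`; the value `2 v` is
(variable `v` is false), the value `2 v + 1` is (variable `v` is true)).

Colours are `1, …, hc`.  The vertices are: the core vertices `0, …, U - 1` and, for each core
vertex `u` and each slot `s < Sl`, a block of `Z` vertices.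
-/

namespace Pool.Agent.BCP

open Finset

/-- Number of digits. -/
def dK (N M : ℕ) : ℕ := N + M

/-- Number of digits in a group; the number of groups is at most `g`. -/
def gg (N M : ℕ) : ℕ := Nat.sqrt (dK N M) + 1

/-- Number of colours. -/
def hc (N M : ℕ) : ℕ := gg N M + 3

/-- `2 ^ hh` is more than `hc + 1`. -/
def hh (N M : ℕ) : ℕ := Nat.log 2 (hc N M + 1) + 1

/-- Base of the numbering of the enforcers. -/
def qq (N M : ℕ) : ℕ := 2 ^ hh N M

/-- Bound for the numbers `8 ^ (D % g)`. -/
def YY (N M : ℕ) : ℕ := 2 ^ (3 * gg N M)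

/-- Size of the blocks. -/
def ZZ (N M : ℕ) : ℕ := 2 ^ (hh N M * hc N M)

/-- Number of leaf positions of a hub. -/
def Lam (N M : ℕ) : ℕ := 3 * dK N M * YY N M * (hc N M + 1) + 2

/-- Number of core vertices (the number of hubs is `2 (N + M)`). -/
def UU (N M : ℕ) : ℕ := 1 + 2 * dK N M * (Lam N M + 1)

/-- Number of copies of the enforcers at core vertices. -/
def HH (N M : ℕ) : ℕ := hc N M * UU N M

/-- Number of slots of a core vertex. -/
def Sl (N M : ℕ) : ℕ := HH N M * (hc N M + 1)

/-- Number of vertices. -/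
def hn (N M : ℕ) : ℕ := UU N M + UU N M * Sl N M * ZZ N M

/-- The colour (coordinate) of the digit `D`. -/
def bet (N M D : ℕ) : ℕ := 4 + D / gg N M

/-- The unit `r` of the digit `D` of the item `i` is present. -/
def act (N : ℕ) (lit : ℕ → ℕ) (i D r : ℕ) : Prop :=
  (D < N ∧ r = 0 ∧ i < 2 * N ∧ i / 2 = D) ∨
    (N ≤ D ∧ ((i < 2 * N ∧ lit (3 * (D - N) + r) = i) ∨
      (2 * N ≤ i ∧ r = 0 ∧ (i - 2 * N) / 2 = D - N)))

/-- Digit of a leaf position. -/
def lD (N M l : ℕ) : ℕ := l / (hc N M + 1) / YY N M / 3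
/-- Unit of a leaf position. -/
def lR (N M l : ℕ) : ℕ := l / (hc N M + 1) / YY N M % 3
/-- Number of a leaf position in its unit. -/
def lY (N M l : ℕ) : ℕ := l / (hc N M + 1) % YY N M
/-- Last coordinate of a leaf position. -/
def lE (N M l : ℕ) : ℕ := l % (hc N M + 1)

/-- The leaf position `l` of the hub `i` is occupied. -/
def leafOn (N M : ℕ) (lit : ℕ → ℕ) (i l : ℕ) : Prop :=
  (l + 2 < Lam N M ∧ act N lit i (lD N M l) (lR N M l) ∧
    lY N M l < 2 ^ (3 * (lD N M l % gg N M)) ∧ lE N M l < bet N M (lD N M l)) ∨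
  l + 2 = Lam N M ∨ l + 1 = Lam N M

/-- Type of the leaf position `l`: `β` for the leaves with list `{1, β}`, and `0` for the leaves
with list `{2, 3}`. -/
def leafT (N M l : ℕ) : ℕ :=
  if l + 1 = Lam N M then 0 else if l + 2 = Lam N M then 3 else
    if lE N M l = 0 then bet N M (lD N M l) else 0

/-- Item of a core vertex `u > 0`. -/
def uI (N M u : ℕ) : ℕ := (u - 1) / (Lam N M + 1)
/-- Position of a core vertex `u > 0`: `0` for the hub, `l + 1` for the leaf position `l`. -/
def uL (N M u : ℕ) : ℕ := (u - 1) % (Lam N M + 1)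

/-- The colour `j` is blocked at the core vertex `u`. -/
def blk (N M : ℕ) (lit : ℕ → ℕ) (u j : ℕ) : Prop :=
  if u = 0 then 1 ≤ j ∧ j ≤ 2
  else if uL N M u = 0 then 3 ≤ j ∧ j ≤ hc N M
  else leafOn N M lit (uI N M u) (uL N M u - 1) ∧
    (if leafT N M (uL N M u - 1) = 0 then j = 1
      else 2 ≤ j ∧ j < leafT N M (uL N M u - 1))

/-- `y` has exactly `vq q C y` powers `q, …, q ^ C` as divisors. -/
def vq (q C y : ℕ) : ℕ := ((range C).filter (fun e => q ^ (e + 1) ∣ y)).card

/-- Label of the vertex `y` of the enforcer with label `j`. -/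
def lb (q C j y : ℕ) : ℕ := if y = 0 then j else 1 + vq q C y

/-- Parent of the vertex `y > 0` in an enforcer. -/
def parq (q C y : ℕ) : ℕ := y - y % q ^ (vq q C y + 1)

/-- Coordinates of the vertex `v ≥ U`: core vertex, slot, number in the block. -/
def vU (N M v : ℕ) : ℕ := (v - UU N M) / ZZ N M / Sl N M
/-- slot -/
def vS (N M v : ℕ) : ℕ := (v - UU N M) / ZZ N M % Sl N M
/-- label of the slot -/
def vJ (N M v : ℕ) : ℕ := vS N M v % (hc N M + 1)
/-- number in the block -/
def vX (N M v : ℕ) : ℕ := (v - UU N M) % ZZ N M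

/-- The vertex `v ≥ U` belongs to an enforcer. -/
def real (N M : ℕ) (lit : ℕ → ℕ) (v : ℕ) : Prop :=
  blk N M lit (vU N M v) (vJ N M v) ∧ vX N M v < qq N M ^ (vJ N M v - 1)

open Classical in
/-- The parents. -/
noncomputable def hp (N M : ℕ) (lit : ℕ → ℕ) (v : ℕ) : ℕ :=
  if v < UU N M then
    if v = 0 ∨ uL N M v = 0 then 0
    else if leafOn N M lit (uI N M v) (uL N M v - 1) then v - uL N M v else 0
  else if real N M lit v then
    if vX N M v = 0 then vU N M v
    else v - vX N M v + parq (qq N M) (hc N M) (vX N M v)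
  else 0

open Classical in
/-- The colouring of minimal cost in which all hubs have the colour `2`. -/
noncomputable def ideal (N M : ℕ) (lit : ℕ → ℕ) (v : ℕ) : ℕ :=
  if v < UU N M then
    if v = 0 then 3
    else if uL N M v = 0 then 2
    else if leafOn N M lit (uI N M v) (uL N M v - 1) then
      (if leafT N M (uL N M v - 1) = 0 then 3 else 1)
    else 1
  else if real N M lit v then lb (qq N M) (hc N M) (vJ N M v) (vX N M v)
  else 1

/-- Target digit. -/
def tau (N D : ℕ) : ℕ := if D < N then 1 else 3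

/-- Target of the coordinate `β`. -/
def TT (N M β : ℕ) : ℕ :=
  ∑ D ∈ (range (dK N M)).filter (fun D => bet N M D = β), tau N D * 8 ^ (D % gg N M)

/-- sum of the targets -/
def T1 (N M : ℕ) : ℕ := ∑ β ∈ range (hc N M + 1), TT N M β
/-- weighted sum of the targets -/
def T2 (N M : ℕ) : ℕ := ∑ β ∈ range (hc N M + 1), (β - 1) * TT N M β

/-- Size of the class of the colour `j` in the colouring `ideal`. -/
noncomputable def P0 (N M : ℕ) (lit : ℕ → ℕ) (j : ℕ) : ℕ :=
  ((range (hn N M)).filter (fun v => ideal N M lit v = j)).card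

/-- The budget of the colour `j`, `1 ≤ j ≤ hc`. -/
noncomputable def bud (N M : ℕ) (lit : ℕ → ℕ) (j : ℕ) : ℕ :=
  if j = 1 then P0 N M lit 1 - T1 N M
  else if j = 2 then P0 N M lit 2 + T2 N M
  else if j = 3 then P0 N M lit 3 - T2 N M
  else P0 N M lit j + TT N M j

open Classical in
/-- Coordinate `β` of the vector of the item `i`. -/
noncomputable def aa (N M : ℕ) (lit : ℕ → ℕ) (i β : ℕ) : ℕ :=
  ∑ D ∈ (range (dK N M)).filter (fun D => bet N M D = β),
    ((range 3).filter (fun r => act N lit i D r)).card * 8 ^ (D % gg N M)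

/-- Satisfiability of the formula. -/
def SatN (M : ℕ) (lit : ℕ → ℕ) : Prop :=
  ∃ a : ℕ → ℕ, ∀ j < M, ∃ r < 3, lit (3 * j + r) % 2 = a (lit (3 * j + r) / 2)

end Pool.Agent.BCP
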