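import Mathlib
import Pool.Agent.BCP.HardDefs

/-!
# A hub and its leaves
-/

namespace Pool.Agent.BCP

open Finset

/-- Cost of the colour `i` at a leaf of type `β` (`β = 0`: the colour `1` is blocked, `β ≥ 3`: the
colours `2, …, β - 1` are blocked). -/
def lcost (H β i : ℕ) : ℕ := i + if (if β = 0 then i = 1 else 2 ≤ i ∧ i < β) then H else 0

/-- Cost of the colour `x` at a hub. -/
def hcost (H x : ℕ) : ℕ := x + if 3 ≤ x then H else 0

variable {c H x : ℕ} {X : Finset ℕ} {T ψ : ℕ → ℕ}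

/-- Lower bound for a leaf when the hub has the colour `1`. -/
theorem H2_leaf_one {β i : ℕ} (hβ : β = 0 ∨ (3 ≤ β ∧ β ≤ c)) (hHc : c ≤ H) (hi : 1 ≤ i)
    (hi1 : i ≠ 1) :
    (if β = 0 then 2 else β) ≤ lcost H β i ∧
      ((if β = 0 then 2 else β) = lcost H β i → i = if β = 0 then 2 else β) := by
  unfold lcost
  rcases hβ with rfl | ⟨h3, hc⟩
  · simp only [if_true, if_neg hi1]
    omega
  · have h0 : β ≠ 0 := by omega
    simp only [if_neg h0]
    split_ifs <;> omega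

/-- Lower bound for a leaf when the hub has the colour `2`. -/
theorem H2_leaf_two {β i : ℕ} (hc : 4 ≤ c) (hβ : β = 0 ∨ (3 ≤ β ∧ β ≤ c)) (hHc : c ≤ H)
    (hi : 1 ≤ i) (hi1 : i ≠ 2) :
    (if β = 0 then 3 else 1) ≤ lcost H β i ∧
      ((if β = 0 then 3 else 1) = lcost H β i → i = if β = 0 then 3 else 1) := by
  unfold lcost
  rcases hβ with rfl | ⟨h3, hc⟩
  · simp only [if_true]
    split_ifs <;> omega
  · have h0 : β ≠ 0 := by omega
    simp only [if_neg h0]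
    split_ifs <;> omega

/-- The two colourings of a hub group have the same cost. -/
theorem H2_balance (hT : ∀ l ∈ X, T l = 0 ∨ (3 ≤ T l ∧ T l ≤ c))
    (hbal : (X.filter (fun l => T l = 0)).card + 1 =
      ∑ l ∈ X.filter (fun l => T l ≠ 0), (T l - 1)) :
    2 + ∑ l ∈ X, (if T l = 0 then 3 else 1) = 1 + ∑ l ∈ X, (if T l = 0 then 2 else T l) := by
  have h1 : ∑ l ∈ X, (if T l = 0 then 3 else 1) =
      3 * (X.filter (fun l => T l = 0)).card + (X.filter (fun l => T l ≠ 0)).card := by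
    rw [Finset.sum_ite, Finset.sum_const, Finset.sum_const]
    simp [mul_comm]
  have h2 : ∑ l ∈ X, (if T l = 0 then 2 else T l) =
      2 * (X.filter (fun l => T l = 0)).card + ∑ l ∈ X.filter (fun l => T l ≠ 0), T l := by
    rw [Finset.sum_ite, Finset.sum_const]
    simp [mul_comm]
  have h3 : ∑ l ∈ X.filter (fun l => T l ≠ 0), T l =
      ∑ l ∈ X.filter (fun l => T l ≠ 0), (T l - 1) + (X.filter (fun l => T l ≠ 0)).card := by
    rw [Finset.card_eq_sum_ones, ← Finset.sum_add_distrib]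
    refine Finset.sum_congr rfl fun l hl => ?_
    have := (Finset.mem_filter.mp hl).2
    omega
  omega

/-- A hub of colour at least `3` is too expensive. -/
theorem H2_big (hc : 4 ≤ c) (hH : c * X.card ≤ H) (hx : 3 ≤ x)
    (hψ : ∀ l ∈ X, 1 ≤ ψ l ∧ ψ l ≤ c ∧ ψ l ≠ x) :
    2 + ∑ l ∈ X, (if T l = 0 then 3 else 1) < hcost H x + ∑ l ∈ X, lcost H (T l) (ψ l) := by
  have h1 : ∑ l ∈ X, (if T l = 0 then 3 else 1) ≤ 3 * X.card := by
    rw [mul_comm, ← smul_eq_mul, ← Finset.sum_const]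
    refine Finset.sum_le_sum fun l _ => ?_
    split_ifs <;> omega
  have h2 : 3 * X.card ≤ c * X.card := Nat.mul_le_mul_right _ (by omega)
  have h3 : hcost H x = x + H := by
    unfold hcost
    rw [if_pos hx]
  omega

theorem hub_lower (hc : 4 ≤ c) (hT : ∀ l ∈ X, T l = 0 ∨ (3 ≤ T l ∧ T l ≤ c))
    (hbal : (X.filter (fun l => T l = 0)).card + 1 =
      ∑ l ∈ X.filter (fun l => T l ≠ 0), (T l - 1))
    (hH : c * X.card ≤ H) (hHc : c ≤ H) (hx : 1 ≤ x ∧ x ≤ c)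
    (hψ : ∀ l ∈ X, 1 ≤ ψ l ∧ ψ l ≤ c ∧ ψ l ≠ x) :
    2 + ∑ l ∈ X, (if T l = 0 then 3 else 1) ≤ hcost H x + ∑ l ∈ X, lcost H (T l) (ψ l) := by
  rcases Nat.lt_or_ge x 3 with h3 | h3
  · have hh : hcost H x = x := by
      unfold hcost
      rw [if_neg (by omega)]
      rfl
    rw [hh]
    obtain rfl | rfl : x = 1 ∨ x = 2 := by omega
    · rw [H2_balance hT hbal]
      refine Nat.add_le_add_left (Finset.sum_le_sum fun l hl => ?_) _
      exact (H2_leaf_one (hT l hl) hHc (hψ l hl).1 (hψ l hl).2.2).1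
    · refine Nat.add_le_add_left (Finset.sum_le_sum fun l hl => ?_) _
      exact (H2_leaf_two hc (hT l hl) hHc (hψ l hl).1 (hψ l hl).2.2).1
  · exact (H2_big hc hH h3 hψ).le

theorem hub_eq (hc : 4 ≤ c) (hT : ∀ l ∈ X, T l = 0 ∨ (3 ≤ T l ∧ T l ≤ c))
    (hbal : (X.filter (fun l => T l = 0)).card + 1 =
      ∑ l ∈ X.filter (fun l => T l ≠ 0), (T l - 1))
    (hH : c * X.card ≤ H) (hHc : c ≤ H) (hx : 1 ≤ x ∧ x ≤ c)
    (hψ : ∀ l ∈ X, 1 ≤ ψ l ∧ ψ l ≤ c ∧ ψ l ≠ x)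
    (heq : hcost H x + ∑ l ∈ X, lcost H (T l) (ψ l) = 2 + ∑ l ∈ X, (if T l = 0 then 3 else 1)) :
    (x = 1 ∧ ∀ l ∈ X, ψ l = if T l = 0 then 2 else T l) ∨
      (x = 2 ∧ ∀ l ∈ X, ψ l = if T l = 0 then 3 else 1) := by
  rcases Nat.lt_or_ge x 3 with h3 | h3
  · have hh : hcost H x = x := by
      unfold hcost
      rw [if_neg (by omega)]
      rfl
    rw [hh] at heq
    obtain rfl | rfl : x = 1 ∨ x = 2 := by omega
    · left
      refine ⟨rfl, ?_⟩
      rw [H2_balance hT hbal] at heq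
      have hs : ∑ l ∈ X, (if T l = 0 then 2 else T l) = ∑ l ∈ X, lcost H (T l) (ψ l) := by
        omega
      have hle : ∀ l ∈ X, (if T l = 0 then 2 else T l) ≤ lcost H (T l) (ψ l) := fun l hl =>
        (H2_leaf_one (hT l hl) hHc (hψ l hl).1 (hψ l hl).2.2).1
      intro l hl
      exact (H2_leaf_one (hT l hl) hHc (hψ l hl).1 (hψ l hl).2.2).2
        ((Finset.sum_eq_sum_iff_of_le hle).mp hs l hl)
    · right
      refine ⟨rfl, ?_⟩
      have hs : ∑ l ∈ X, (if T l = 0 then 3 else 1) = ∑ l ∈ X, lcost H (T l) (ψ l) := by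
        omega
      have hle : ∀ l ∈ X, (if T l = 0 then 3 else 1) ≤ lcost H (T l) (ψ l) := fun l hl =>
        (H2_leaf_two hc (hT l hl) hHc (hψ l hl).1 (hψ l hl).2.2).1
      intro l hl
      exact (H2_leaf_two hc (hT l hl) hHc (hψ l hl).1 (hψ l hl).2.2).2
        ((Finset.sum_eq_sum_iff_of_le hle).mp hs l hl)
  · have := H2_big (T := T) hc hH h3 hψ
    omega

end Pool.Agent.BCP
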