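import Mathlib
import Pool.Agent.BCP.HardDefs

/-!
# Enforcers
-/

namespace Pool.Agent.BCP

open Finset

theorem H1_vq_eq {q C y v : ℕ} (hv : v ≤ C) (h1 : q ^ v ∣ y) (h2 : ¬ q ^ (v + 1) ∣ y) :
    vq q C y = v := by
  unfold vq
  have : (range C).filter (fun e => q ^ (e + 1) ∣ y) = range v := by
    ext e
    simp only [mem_filter, mem_range]
    constructor
    · rintro ⟨_, he⟩
      by_contra hlt
      exact h2 ((pow_dvd_pow q (by omega)).trans he)
    · intro he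
      exact ⟨by omega, (pow_dvd_pow q (by omega)).trans h1⟩
  rw [this, card_range]

theorem H1_exists {q y : ℕ} (hq : 2 ≤ q) (hy : y ≠ 0) : ∃ v, q ^ v ∣ y ∧ ¬ q ^ (v + 1) ∣ y := by
  have hex : ∃ e, ¬ q ^ e ∣ y := by
    refine ⟨y, fun h => ?_⟩
    have h1 := Nat.le_of_dvd (by omega) h
    have h2 : y < q ^ y := Nat.lt_pow_self (by omega)
    omega
  have h0 : Nat.find hex ≠ 0 := by
    intro h
    have := Nat.find_spec hex
    rw [h] at this
    simp at this
  obtain ⟨v, hv⟩ := Nat.exists_eq_succ_of_ne_zero h0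
  refine ⟨v, not_not.mp (Nat.find_min hex (by omega)), ?_⟩
  have := Nat.find_spec hex
  rwa [hv] at this

theorem H1_spec {q C e y : ℕ} (hq : 2 ≤ q) (hy : y ≠ 0) (hye : y < q ^ e) (heC : e ≤ C) :
    vq q C y < e ∧ q ^ (vq q C y) ∣ y ∧ ¬ q ^ (vq q C y + 1) ∣ y := by
  obtain ⟨v, h1, h2⟩ := H1_exists hq hy
  have hv : v < e := by
    by_contra h
    have h3 := Nat.le_of_dvd (by omega) h1
    have h4 := Nat.pow_le_pow_right (by omega : 0 < q) (by omega : e ≤ v)
    omega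
  rw [H1_vq_eq (by omega : v ≤ C) h1 h2]
  exact ⟨hv, h1, h2⟩

theorem H1_vq_shift {q C e y a : ℕ} (hq : 2 ≤ q) (hy : y ≠ 0) (hye : y < q ^ e) (heC : e ≤ C) :
    vq q C (a * q ^ e + y) = vq q C y := by
  obtain ⟨h1, h2, h3⟩ := H1_spec hq hy hye heC
  apply H1_vq_eq (by omega)
  · exact (Nat.dvd_add_right (Dvd.dvd.mul_left (pow_dvd_pow q h1.le) a)).mpr h2
  · intro h
    exact h3 ((Nat.dvd_add_right (Dvd.dvd.mul_left (pow_dvd_pow q h1) a)).mp h)

theorem H1_vq_root {q C e a : ℕ} (hq : 2 ≤ q) (ha : 0 < a) (haq : a < q) (heC : e ≤ C) :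
    vq q C (a * q ^ e) = e := by
  apply H1_vq_eq heC (dvd_mul_left _ _)
  intro h
  rw [pow_succ, mul_comm a] at h
  have h1 := Nat.dvd_of_mul_dvd_mul_left (by positivity) h
  have h2 := Nat.le_of_dvd ha h1
  omega

theorem H1_parq_shift {q C e y a : ℕ} (hq : 2 ≤ q) (hy : y ≠ 0) (hye : y < q ^ e) (heC : e ≤ C) :
    parq q C (a * q ^ e + y) = a * q ^ e + parq q C y := by
  unfold parq
  rw [H1_vq_shift hq hy hye heC]
  obtain ⟨h1, _, _⟩ := H1_spec hq hy hye heC
  obtain ⟨k, hk⟩ : q ^ (vq q C y + 1) ∣ a * q ^ e := Dvd.dvd.mul_left (pow_dvd_pow q h1) a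
  have hm : (a * q ^ e + y) % q ^ (vq q C y + 1) = y % q ^ (vq q C y + 1) := by
    rw [hk, Nat.mul_add_mod]
  have hle : y % q ^ (vq q C y + 1) ≤ y := Nat.mod_le _ _
  rw [hm]
  omega

theorem H1_parq_root {q C e a : ℕ} (hq : 2 ≤ q) (ha : 0 < a) (haq : a < q) (heC : e ≤ C) :
    parq q C (a * q ^ e) = 0 := by
  unfold parq
  rw [H1_vq_root hq ha haq heC, Nat.mod_eq_of_lt, Nat.sub_self]
  rw [pow_succ, mul_comm]
  exact Nat.mul_lt_mul_of_pos_left haq (by positivity)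

theorem parq_lt {q C y : ℕ} (hq : 2 ≤ q) (hy : y ≠ 0) (hyC : y < q ^ C) : parq q C y < y := by
  obtain ⟨_, _, h3⟩ := H1_spec hq hy hyC le_rfl
  unfold parq
  have h4 : y % q ^ (vq q C y + 1) ≠ 0 := fun h => h3 (Nat.dvd_of_mod_eq_zero h)
  omega

theorem lb_bounds {q C j y : ℕ} (hq : 2 ≤ q) (hj : 1 ≤ j) (hjC : j ≤ C) (hy : y < q ^ (j - 1)) :
    1 ≤ lb q C j y ∧ lb q C j y ≤ C := by
  unfold lb
  split_ifs with h
  · exact ⟨hj, hjC⟩
  · have := (H1_spec hq h hy (by omega : j - 1 ≤ C)).1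
    omega

/-- The labels are a proper colouring. -/
theorem lb_proper {q C j y : ℕ} (hq : 2 ≤ q) (hj : 1 ≤ j) (hjC : j ≤ C) (hy : y < q ^ (j - 1))
    (hy0 : y ≠ 0) : lb q C j y ≠ lb q C j (parq q C y) := by
  obtain ⟨h1, h2, h3⟩ := H1_spec hq hy0 hy (by omega : j - 1 ≤ C)
  unfold lb
  rw [if_neg hy0]
  split_ifs with h
  · omega
  · have hd : q ^ (vq q C y + 1) ∣ parq q C y := by
      unfold parq
      exact Nat.dvd_sub_mod y
    have hlt : parq q C y < q ^ (j - 1) := lt_of_le_of_lt (Nat.sub_le _ _) hy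
    obtain ⟨k1, k2, k3⟩ := H1_spec hq h hlt (by omega : j - 1 ≤ C)
    have : vq q C y < vq q C (parq q C y) := by
      by_contra hle
      exact k3 ((pow_dvd_pow q (by omega)).trans hd)
    omega

theorem H1_sum_succ (F : ℕ → ℕ) {q n : ℕ} (hq : 1 ≤ q) (hn : 1 ≤ n) :
    ∑ y ∈ Ico 1 (q * n), F y =
      ∑ y ∈ Ico 1 n, F y + ∑ a ∈ Ico 1 q, (F (a * n) + ∑ y ∈ Ico 1 n, F (a * n + y)) := by
  induction q, hq using Nat.le_induction with
  | base => simp
  | succ q hq ih =>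
    have h1 : q * n ≤ (q + 1) * n := Nat.mul_le_mul_right _ (by omega)
    have h2 : 1 ≤ q * n := Nat.one_le_iff_ne_zero.mpr (by positivity)
    rw [← Finset.sum_Ico_consecutive F h2 h1, ih, Finset.sum_Ico_succ_top hq, add_assoc]
    congr 2
    rw [Finset.sum_Ico_eq_sum_range, show (q + 1) * n - q * n = n by rw [add_mul]; omega,
      Finset.range_eq_Ico, Finset.sum_eq_sum_Ico_succ_bot (by omega)]
    rfl

theorem H1_main {q C : ℕ} (hq : C < q) : ∀ e, e < C → ∀ ψ : ℕ → ℕ,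
    (∀ y < q ^ e, 1 ≤ ψ y ∧ ψ y ≤ C) → (∀ y < q ^ e, y ≠ 0 → ψ y ≠ ψ (parq q C y)) →
    ((∑ y ∈ Ico 1 (q ^ e), (1 + vq q C y)) + (if ψ 0 ≤ e then q - 1 else 0) ≤
      ∑ y ∈ Ico 1 (q ^ e), ψ y) ∧
    (∑ y ∈ Ico 1 (q ^ e), ψ y = ∑ y ∈ Ico 1 (q ^ e), (1 + vq q C y) →
      ∀ y ∈ Ico 1 (q ^ e), ψ y = 1 + vq q C y) := by
  intro e
  induction e with
  | zero =>
    intro he ψ hb hp
    have := (hb 0 (by simp)).1
    simp only [pow_zero, Ico_self, sum_empty, zero_add]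
    rw [if_neg (by omega)]
    simp
  | succ e ih =>
    intro he ψ hb hp
    have hq2 : 2 ≤ q := by omega
    have hpos : 1 ≤ q ^ e := Nat.one_le_iff_ne_zero.mpr (by positivity)
    have hpow : q ^ (e + 1) = q * q ^ e := by rw [pow_succ, mul_comm]
    have hin : ∀ a < q, ∀ y < q ^ e, a * q ^ e + y < q ^ (e + 1) := by
      intro a ha y hy
      have : (a + 1) * q ^ e ≤ q * q ^ e := Nat.mul_le_mul_right _ (by omega)
      rw [hpow]
      have h2 : (a + 1) * q ^ e = a * q ^ e + q ^ e := by ring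
      omega
    have hblock : ∀ a, 1 ≤ a → a < q →
        ((∑ y ∈ Ico 1 (q ^ e), (1 + vq q C y)) + (if ψ (a * q ^ e) ≤ e then q - 1 else 0) ≤
          ∑ y ∈ Ico 1 (q ^ e), ψ (a * q ^ e + y)) ∧
        (∑ y ∈ Ico 1 (q ^ e), ψ (a * q ^ e + y) = ∑ y ∈ Ico 1 (q ^ e), (1 + vq q C y) →
          ∀ y ∈ Ico 1 (q ^ e), ψ (a * q ^ e + y) = 1 + vq q C y) := by
      intro a _ ha
      have := ih (by omega) (fun y => ψ (a * q ^ e + y)) (fun y hy => hb _ (hin a ha y hy))
        (fun y hy hy0 => by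
          have h := hp (a * q ^ e + y) (hin a ha y hy) (by omega)
          rwa [H1_parq_shift hq2 hy0 hy (by omega)] at h)
      simpa using this
    have hfirst := ih (by omega) ψ (fun y hy => hb y (by
        have := hin 0 (by omega) y hy
        omega)) (fun y hy => hp y (by
        have := hin 0 (by omega) y hy
        omega))
    have hroot : ∀ a, 1 ≤ a → a < q → 1 ≤ ψ (a * q ^ e) ∧ ψ (a * q ^ e) ≠ ψ 0 := by
      intro a ha1 ha
      have h0 : a * q ^ e < q ^ (e + 1) := by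
        have := hin a ha 0 (by omega)
        omega
      have h1 : a * q ^ e ≠ 0 := by positivity
      have := hp (a * q ^ e) h0 h1
      rw [H1_parq_root hq2 (by omega) ha (by omega)] at this
      exact ⟨(hb _ h0).1, this⟩
    have hstep : ∀ a ∈ Ico 1 q,
        ((1 + e) + ∑ y ∈ Ico 1 (q ^ e), (1 + vq q C y)) +
          (if ψ (a * q ^ e) = e + 1 then 0 else 1) ≤
        ψ (a * q ^ e) + ∑ y ∈ Ico 1 (q ^ e), ψ (a * q ^ e + y) := by
      intro a ha
      rw [mem_Ico] at ha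
      have h1 := (hblock a ha.1 ha.2).1
      have h2 := (hroot a ha.1 ha.2).1
      split_ifs with hc
      · split_ifs at h1 <;> omega
      · split_ifs at h1 <;> omega
    have hlb : ∑ y ∈ Ico 1 (q ^ (e + 1)), (1 + vq q C y) =
        ∑ y ∈ Ico 1 (q ^ e), (1 + vq q C y) +
          ∑ a ∈ Ico 1 q, ((1 + e) + ∑ y ∈ Ico 1 (q ^ e), (1 + vq q C y)) := by
      rw [hpow, H1_sum_succ (fun y => 1 + vq q C y) (by omega) hpos]
      congr 1
      refine Finset.sum_congr rfl fun a ha => ?_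
      rw [mem_Ico] at ha
      rw [H1_vq_root hq2 (by omega) ha.2 (by omega)]
      congr 1
      refine Finset.sum_congr rfl fun y hy => ?_
      rw [mem_Ico] at hy
      rw [H1_vq_shift hq2 (by omega) hy.2 (by omega)]
    have hψ : ∑ y ∈ Ico 1 (q ^ (e + 1)), ψ y = ∑ y ∈ Ico 1 (q ^ e), ψ y +
        ∑ a ∈ Ico 1 q, (ψ (a * q ^ e) + ∑ y ∈ Ico 1 (q ^ e), ψ (a * q ^ e + y)) := by
      rw [hpow, H1_sum_succ ψ (by omega) hpos]
    have hsum := Finset.sum_le_sum hstep
    rw [Finset.sum_add_distrib] at hsum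
    constructor
    · rw [hlb, hψ]
      by_cases h0 : ψ 0 ≤ e
      · rw [if_pos (by omega)]
        have := hfirst.1
        rw [if_pos h0] at this
        omega
      · by_cases h1 : ψ 0 = e + 1
        · rw [if_pos (by omega)]
          have h2 : ∑ a ∈ Ico 1 q, (if ψ (a * q ^ e) = e + 1 then 0 else 1) = q - 1 := by
            rw [Finset.sum_congr rfl (g := fun _ => 1), Finset.sum_const, Nat.card_Ico]
            · simp
            · intro a ha
              rw [mem_Ico] at ha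
              rw [if_neg]
              rw [← h1]
              exact (hroot a ha.1 ha.2).2
          have := hfirst.1
          omega
        · rw [if_neg (by omega)]
          have := hfirst.1
          omega
    · intro heq
      rw [hlb, hψ] at heq
      have hf := hfirst.1
      have hle : ∀ a ∈ Ico 1 q, ((1 + e) + ∑ y ∈ Ico 1 (q ^ e), (1 + vq q C y)) ≤
          ψ (a * q ^ e) + ∑ y ∈ Ico 1 (q ^ e), ψ (a * q ^ e + y) := fun a ha =>
        le_trans (Nat.le_add_right _ _) (hstep a ha)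
      have hle' := Finset.sum_le_sum hle
      have hA : ∑ y ∈ Ico 1 (q ^ e), ψ y = ∑ y ∈ Ico 1 (q ^ e), (1 + vq q C y) := by omega
      have hB := (Finset.sum_eq_sum_iff_of_le hle).mp (by omega)
      intro y hy
      rw [mem_Ico] at hy
      by_cases hyl : y < q ^ e
      · exact hfirst.2 hA y (mem_Ico.mpr ⟨hy.1, hyl⟩)
      · have hdm := Nat.div_add_mod' y (q ^ e)
        have hr : y % q ^ e < q ^ e := Nat.mod_lt _ (by omega)
        have ha1 : 1 ≤ y / q ^ e := Nat.div_pos (by omega) (by omega)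
        have ha2 : y / q ^ e < q := by
          rw [Nat.div_lt_iff_lt_mul (by omega)]
          rw [← hpow]
          exact hy.2
        generalize y / q ^ e = a at hdm ha1 ha2
        generalize y % q ^ e = r at hdm hr
        have h1 := hB a (mem_Ico.mpr ⟨ha1, ha2⟩)
        have h2 := hstep a (mem_Ico.mpr ⟨ha1, ha2⟩)
        have h3 : ψ (a * q ^ e) = e + 1 := by
          by_contra hne
          rw [if_neg hne] at h2
          omega
        by_cases hr0 : r = 0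
        · rw [hr0, add_zero] at hdm
          rw [← hdm, h3, H1_vq_root hq2 (by omega) ha2 (by omega)]
          omega
        · have h4 := (hblock a ha1 ha2).2 (by omega) r (mem_Ico.mpr ⟨by omega, hr⟩)
          rw [← hdm, h4, H1_vq_shift hq2 hr0 hr (by omega)]

theorem H1_sum_range (F : ℕ → ℕ) {n : ℕ} (hn : 1 ≤ n) :
    ∑ y ∈ range n, F y = F 0 + ∑ y ∈ Ico 1 n, F y := by
  rw [Finset.range_eq_Ico, Finset.sum_eq_sum_Ico_succ_bot (by omega)]

theorem H1_sum_lb {q C j n : ℕ} (hn : 1 ≤ n) :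
    ∑ y ∈ range n, lb q C j y = j + ∑ y ∈ Ico 1 n, (1 + vq q C y) := by
  rw [H1_sum_range _ hn]
  congr 1
  refine Finset.sum_congr rfl fun y hy => ?_
  rw [mem_Ico] at hy
  unfold lb
  rw [if_neg (by omega)]

/-- The labels have minimal sum, with a gap for the colourings with another colour at the root. -/
theorem enforcer_lower {q C j : ℕ} (hq : C < q) (hj : 1 ≤ j) (hjC : j ≤ C) (ψ : ℕ → ℕ)
    (hψ : ∀ y < q ^ (j - 1), 1 ≤ ψ y ∧ ψ y ≤ C)
    (hprop : ∀ y < q ^ (j - 1), y ≠ 0 → ψ y ≠ ψ (parq q C y)) :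
    ∑ y ∈ range (q ^ (j - 1)), lb q C j y + (if ψ 0 = j then 0 else 1) ≤
      ∑ y ∈ range (q ^ (j - 1)), ψ y := by
  have hpos : 1 ≤ q ^ (j - 1) := Nat.one_le_iff_ne_zero.mpr (pow_ne_zero _ (by omega))
  have h := (H1_main hq (j - 1) (by omega) ψ hψ hprop).1
  have h0 := (hψ 0 (by omega)).1
  rw [H1_sum_range ψ hpos, H1_sum_lb hpos]
  split_ifs at h ⊢ <;> omega

/-- The labels are the only colouring with minimal sum. -/
theorem enforcer_eq {q C j : ℕ} (hq : C < q) (hj : 1 ≤ j) (hjC : j ≤ C) (ψ : ℕ → ℕ)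
    (hψ : ∀ y < q ^ (j - 1), 1 ≤ ψ y ∧ ψ y ≤ C)
    (hprop : ∀ y < q ^ (j - 1), y ≠ 0 → ψ y ≠ ψ (parq q C y))
    (heq : ∑ y ∈ range (q ^ (j - 1)), ψ y = ∑ y ∈ range (q ^ (j - 1)), lb q C j y) :
    ∀ y < q ^ (j - 1), ψ y = lb q C j y := by
  have hpos : 1 ≤ q ^ (j - 1) := Nat.one_le_iff_ne_zero.mpr (pow_ne_zero _ (by omega))
  have h1 := enforcer_lower hq hj hjC ψ hψ hprop
  have h2 : ψ 0 = j := by
    by_contra hne
    rw [if_neg hne] at h1
    omega
  rw [H1_sum_range ψ hpos, H1_sum_lb hpos] at heq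
  have h3 := (H1_main hq (j - 1) (by omega) ψ hψ hprop).2 (by omega)
  intro y hy
  unfold lb
  split_ifs with hy0
  · rw [hy0, h2]
  · exact h3 y (mem_Ico.mpr ⟨by omega, hy⟩)

end Pool.Agent.BCP
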