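import Mathlib
import Pool.Agent.BCP.HardDefs

/-!
# Counting the leaves of a hub
-/

namespace Pool.Agent.BCP

open Finset

theorem H3b_sum (a b : ℕ) (F : ℕ → ℕ) :
    ∑ l ∈ range (a * b), F l = ∑ q ∈ range a, ∑ r ∈ range b, F (q * b + r) := by
  induction a with
  | zero => simp
  | succ a ih =>
    rw [Nat.succ_mul, Finset.sum_range_add, ih, Finset.sum_range_succ]

variable (N M : ℕ) (lit : ℕ → ℕ)

/-- The leaf position with the coordinates `D`, `r`, `y`, `e`. -/
def H3b_pos (D r y e : ℕ) : ℕ := ((D * 3 + r) * YY N M + y) * (hc N M + 1) + e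

theorem H3b_YY_pos : 0 < YY N M := by
  unfold YY; positivity

theorem H3b_lE (D r y : ℕ) {e : ℕ} (he : e < hc N M + 1) : lE N M (H3b_pos N M D r y e) = e := by
  unfold lE H3b_pos
  rw [Nat.mul_comm, Nat.mul_add_mod, Nat.mod_eq_of_lt he]

theorem H3b_div (D r y : ℕ) {e : ℕ} (he : e < hc N M + 1) :
    H3b_pos N M D r y e / (hc N M + 1) = (D * 3 + r) * YY N M + y := by
  unfold H3b_pos
  rw [Nat.mul_comm, Nat.mul_add_div (by omega), Nat.div_eq_of_lt he, Nat.add_zero]

theorem H3b_lY (D r : ℕ) {y e : ℕ} (hy : y < YY N M) (he : e < hc N M + 1) :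
    lY N M (H3b_pos N M D r y e) = y := by
  unfold lY
  rw [H3b_div N M D r y he, Nat.mul_comm, Nat.mul_add_mod, Nat.mod_eq_of_lt hy]

theorem H3b_div2 (D r : ℕ) {y e : ℕ} (hy : y < YY N M) (he : e < hc N M + 1) :
    H3b_pos N M D r y e / (hc N M + 1) / YY N M = D * 3 + r := by
  rw [H3b_div N M D r y he, Nat.mul_comm, Nat.mul_add_div (H3b_YY_pos N M), Nat.div_eq_of_lt hy,
    Nat.add_zero]

theorem H3b_lD (D : ℕ) {r y e : ℕ} (hr : r < 3) (hy : y < YY N M) (he : e < hc N M + 1) :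
    lD N M (H3b_pos N M D r y e) = D := by
  unfold lD
  rw [H3b_div2 N M D r hy he]; omega

theorem H3b_lR (D : ℕ) {r y e : ℕ} (hr : r < 3) (hy : y < YY N M) (he : e < hc N M + 1) :
    lR N M (H3b_pos N M D r y e) = r := by
  unfold lR
  rw [H3b_div2 N M D r hy he]; omega

theorem H3b_Lam : Lam N M = dK N M * 3 * YY N M * (hc N M + 1) + 2 := by
  unfold Lam; ring

theorem H3b_pos_lt {D r y e : ℕ} (hD : D < dK N M) (hr : r < 3) (hy : y < YY N M)
    (he : e < hc N M + 1) : H3b_pos N M D r y e + 2 < Lam N M := by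
  rw [H3b_Lam]
  have h1 : D * 3 + r + 1 ≤ dK N M * 3 := by omega
  have h2 : (D * 3 + r) * YY N M + y + 1 ≤ dK N M * 3 * YY N M := by
    calc (D * 3 + r) * YY N M + y + 1 ≤ (D * 3 + r) * YY N M + YY N M := by omega
      _ = (D * 3 + r + 1) * YY N M := by ring
      _ ≤ _ := Nat.mul_le_mul_right _ h1
  have h3 : H3b_pos N M D r y e + 1 ≤ dK N M * 3 * YY N M * (hc N M + 1) := by
    unfold H3b_pos
    calc ((D * 3 + r) * YY N M + y) * (hc N M + 1) + e + 1
        ≤ ((D * 3 + r) * YY N M + y) * (hc N M + 1) + (hc N M + 1) := by omega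
      _ = ((D * 3 + r) * YY N M + y + 1) * (hc N M + 1) := by ring
      _ ≤ _ := Nat.mul_le_mul_right _ h2
  omega

/-- Sums over the leaf positions. -/
theorem H3b_sum_pos (F : ℕ → ℕ) : ∑ l ∈ range (Lam N M), F l =
    ∑ D ∈ range (dK N M), ∑ r ∈ range 3, ∑ y ∈ range (YY N M), ∑ e ∈ range (hc N M + 1),
      F (H3b_pos N M D r y e) + F (Lam N M - 2) + F (Lam N M - 1) := by
  have h : Lam N M = dK N M * 3 * YY N M * (hc N M + 1) + 1 + 1 := by rw [H3b_Lam]
  rw [h, Finset.sum_range_succ, Finset.sum_range_succ, H3b_sum, H3b_sum, H3b_sum]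
  rfl

theorem H3b_bet_lt {D : ℕ} (hD : D < dK N M) : bet N M D ≤ hc N M := by
  unfold bet hc
  have h : D / gg N M < gg N M := by
    apply Nat.div_lt_of_lt_mul
    have := Nat.lt_succ_sqrt (dK N M)
    have h2 : gg N M = (Nat.sqrt (dK N M)).succ := rfl
    rw [h2]; omega
  omega

theorem H3b_pow_le (D : ℕ) : 8 ^ (D % gg N M) ≤ YY N M := by
  unfold YY
  rw [pow_mul]
  norm_num
  apply Nat.pow_le_pow_right (by norm_num)
  exact (Nat.mod_lt _ (by unfold gg; omega)).le

theorem H3b_bet_ge (D : ℕ) : 4 ≤ bet N M D := by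
  unfold bet; exact Nat.le_add_right 4 _

theorem H3b_Lam_two : 2 ≤ Lam N M := by rw [H3b_Lam]; omega

theorem H3b_leafT_pos {D r y e : ℕ} (hD : D < dK N M) (hr : r < 3) (hy : y < YY N M)
    (he : e < hc N M + 1) :
    leafT N M (H3b_pos N M D r y e) = if e = 0 then bet N M D else 0 := by
  have h := H3b_pos_lt N M hD hr hy he
  unfold leafT
  rw [if_neg (by omega), if_neg (by omega), H3b_lE N M D r y he, H3b_lD N M D hr hy he]

theorem H3b_leafT_two : leafT N M (Lam N M - 2) = 3 := by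
  have := H3b_Lam_two N M
  unfold leafT
  rw [if_neg (by omega), if_pos (by omega)]

theorem H3b_leafT_one : leafT N M (Lam N M - 1) = 0 := by
  have := H3b_Lam_two N M
  unfold leafT
  rw [if_pos (by omega)]

theorem H3b_leafOn_pos {i D r y e : ℕ} (hD : D < dK N M) (hr : r < 3) (hy : y < YY N M)
    (he : e < hc N M + 1) :
    leafOn N M lit i (H3b_pos N M D r y e) ↔
      act N lit i D r ∧ y < 8 ^ (D % gg N M) ∧ e < bet N M D := by
  have h := H3b_pos_lt N M hD hr hy he
  have h8 : 2 ^ (3 * (D % gg N M)) = 8 ^ (D % gg N M) := by rw [pow_mul]; norm_num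
  unfold leafOn
  rw [H3b_lE N M D r y he, H3b_lD N M D hr hy he, H3b_lR N M D hr hy he, H3b_lY N M D r hy he, h8]
  constructor
  · rintro (⟨_, h⟩ | h | h)
    · exact h
    · omega
    · omega
  · intro h'
    exact Or.inl ⟨h, h'⟩

theorem H3b_leafOn_two (i : ℕ) : leafOn N M lit i (Lam N M - 2) := by
  have := H3b_Lam_two N M
  exact Or.inr (Or.inl (by omega))

theorem H3b_leafOn_one (i : ℕ) : leafOn N M lit i (Lam N M - 1) := by
  have := H3b_Lam_two N M
  exact Or.inr (Or.inr (by omega))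

theorem H3b_cases {l : ℕ} (hl : l < Lam N M) :
    (∃ D r y e, D < dK N M ∧ r < 3 ∧ y < YY N M ∧ e < hc N M + 1 ∧ l = H3b_pos N M D r y e) ∨
      l = Lam N M - 2 ∨ l = Lam N M - 1 := by
  by_cases h2 : l + 2 < Lam N M
  · left
    refine ⟨lD N M l, lR N M l, lY N M l, lE N M l, ?_, ?_, ?_, ?_, ?_⟩
    · unfold lD
      apply Nat.div_lt_of_lt_mul
      apply Nat.div_lt_of_lt_mul
      apply Nat.div_lt_of_lt_mul
      have := H3b_Lam N M
      have h3 : (hc N M + 1) * (YY N M * (3 * dK N M)) = dK N M * 3 * YY N M * (hc N M + 1) := by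
        ring
      omega
    · exact Nat.mod_lt _ (by norm_num)
    · exact Nat.mod_lt _ (H3b_YY_pos N M)
    · exact Nat.mod_lt _ (by omega)
    · unfold H3b_pos lD lR lY lE
      have e1 : l / (hc N M + 1) / YY N M / 3 * 3 + l / (hc N M + 1) / YY N M % 3 =
          l / (hc N M + 1) / YY N M := Nat.div_add_mod' _ _
      rw [e1, Nat.div_add_mod', Nat.div_add_mod']
  · right
    omega

open Classical in
/-- Summation over `y` and `r`. -/
theorem H3b_ry (i D : ℕ) (Q : ℕ → Prop) [DecidablePred Q] :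
    ∑ r ∈ range 3, ∑ y ∈ range (YY N M), ∑ e ∈ range (hc N M + 1),
      (if act N lit i D r ∧ y < 8 ^ (D % gg N M) ∧ e < bet N M D ∧ Q e then 1 else 0) =
    ((range 3).filter (fun r => act N lit i D r)).card * 8 ^ (D % gg N M) *
      ((range (hc N M + 1)).filter (fun e => e < bet N M D ∧ Q e)).card := by
  have h1 : ∀ r y, ∑ e ∈ range (hc N M + 1),
      (if act N lit i D r ∧ y < 8 ^ (D % gg N M) ∧ e < bet N M D ∧ Q e then 1 else 0) =
      (if act N lit i D r then 1 else 0) * (if y < 8 ^ (D % gg N M) then 1 else 0) *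
        ((range (hc N M + 1)).filter (fun e => e < bet N M D ∧ Q e)).card := by
    intro r y
    rw [card_filter]
    by_cases ha : act N lit i D r
    · by_cases hy : y < 8 ^ (D % gg N M)
      · simp [ha, hy]
      · simp [hy]
    · simp [ha]
  simp only [h1]
  rw [card_filter (fun r => act N lit i D r), sum_mul, sum_mul]
  apply sum_congr rfl
  intro r _
  rw [← sum_mul, ← mul_sum]
  congr 1
  congr 1
  rw [← card_filter]
  have h2 : (range (YY N M)).filter (fun y => y < 8 ^ (D % gg N M)) =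
      range (8 ^ (D % gg N M)) := by
    ext y
    simp only [mem_filter, mem_range]
    have := H3b_pow_le N M D
    omega
  rw [h2, card_range]

end Pool.Agent.BCP
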