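import Mathlib
import Pool.Agent.BCP.H1
import Pool.Agent.BCP.H3bAux

/-!
# Coordinates of the vertices
-/

namespace Pool.Agent.BCP

open Finset

variable (N M : ℕ) (lit : ℕ → ℕ)

/-- Number of the hub `i`. -/
def hubN (i : ℕ) : ℕ := 1 + i * (Lam N M + 1)

/-- Number of the vertex `x` of the slot `s` of the core vertex `u`. -/
def blkN (u s x : ℕ) : ℕ := UU N M + (u * Sl N M + s) * ZZ N M + x

theorem H3a_sum_mul (a b : ℕ) (G : ℕ → ℕ) :
    ∑ v ∈ range (a * b), G v = ∑ i ∈ range a, ∑ l ∈ range b, G (i * b + l) := by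
  induction a with
  | zero => simp
  | succ a ih =>
    rw [Nat.succ_mul, Finset.sum_range_add, ih, Finset.sum_range_succ]

theorem sum_core (F : ℕ → ℕ) : ∑ u ∈ range (UU N M), F u =
    F 0 + ∑ i ∈ range (2 * dK N M), (F (hubN N M i) +
      ∑ l ∈ range (Lam N M), F (hubN N M i + 1 + l)) := by
  have h1 : ∑ u ∈ range (UU N M), F u = ∑ u ∈ range 1, F u +
      ∑ i ∈ range (2 * dK N M), ∑ l ∈ range (Lam N M + 1), F (1 + (i * (Lam N M + 1) + l)) := by
    unfold UU
    rw [Finset.sum_range_add, H3a_sum_mul]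
  rw [h1, Finset.sum_range_one]
  have h2 : ∀ i, ∑ l ∈ range (Lam N M + 1), F (1 + (i * (Lam N M + 1) + l)) =
      F (hubN N M i) + ∑ l ∈ range (Lam N M), F (hubN N M i + 1 + l) := by
    intro i
    have h3 : ∀ l, 1 + (i * (Lam N M + 1) + l) = hubN N M i + l := by
      intro l
      unfold hubN
      rw [add_assoc]
    rw [Finset.sum_congr rfl (fun l _ => congrArg F (h3 l)), Finset.sum_range_succ', add_comm,
      Nat.add_zero]
    have h4 : ∀ l, hubN N M i + (l + 1) = hubN N M i + 1 + l := by
      intro l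
      omega
    rw [Finset.sum_congr rfl (fun l _ => congrArg F (h4 l))]
  rw [Finset.sum_congr rfl (fun i _ => h2 i)]

theorem sum_all (F : ℕ → ℕ) : ∑ v ∈ range (hn N M), F v = ∑ u ∈ range (UU N M), F u +
    ∑ u ∈ range (UU N M), ∑ s ∈ range (Sl N M), ∑ x ∈ range (ZZ N M), F (blkN N M u s x) := by
  have h : ∀ u s x, UU N M + ((u * Sl N M + s) * ZZ N M + x) = blkN N M u s x := by
    intro u s x
    unfold blkN
    rw [add_assoc]
  unfold hn
  rw [Finset.sum_range_add, H3a_sum_mul, H3a_sum_mul]
  simp only [h]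

theorem H3a_sub (u s x : ℕ) : blkN N M u s x - UU N M = x + ZZ N M * (s + Sl N M * u) := by
  unfold blkN
  rw [add_assoc, Nat.add_sub_cancel_left]
  ring

theorem H3a_ZZ_pos : 0 < ZZ N M := by
  unfold ZZ
  positivity

theorem H3a_vX {u s x : ℕ} (hx : x < ZZ N M) :
    (blkN N M u s x - UU N M) % ZZ N M = x := by
  rw [H3a_sub, Nat.add_mul_mod_self_left, Nat.mod_eq_of_lt hx]

theorem H3a_div {u s x : ℕ} (hx : x < ZZ N M) :
    (blkN N M u s x - UU N M) / ZZ N M = s + Sl N M * u := by
  rw [H3a_sub, Nat.add_mul_div_left _ _ (H3a_ZZ_pos N M), Nat.div_eq_of_lt hx, zero_add]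

theorem vU_blkN {u s x : ℕ} (hs : s < Sl N M) (hx : x < ZZ N M) :
    vU N M (blkN N M u s x) = u := by
  unfold vU
  rw [H3a_div N M hx, Nat.add_mul_div_left _ _ (by omega), Nat.div_eq_of_lt hs, zero_add]

theorem vJ_blkN {u s x : ℕ} (hs : s < Sl N M) (hx : x < ZZ N M) :
    vJ N M (blkN N M u s x) = s % (hc N M + 1) := by
  unfold vJ vS
  rw [H3a_div N M hx, Nat.add_mul_mod_self_left, Nat.mod_eq_of_lt hs]

theorem vX_blkN {u s x : ℕ} (hx : x < ZZ N M) :
    vX N M (blkN N M u s x) = x := by
  unfold vX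
  exact H3a_vX N M hx

theorem H3a_hub_sub (i l : ℕ) : hubN N M i + l - 1 = l + (Lam N M + 1) * i := by
  unfold hubN
  rw [add_assoc, Nat.add_sub_cancel_left]
  ring

theorem uI_hub (i l : ℕ) (hl : l ≤ Lam N M) : uI N M (hubN N M i + l) = i := by
  unfold uI
  rw [H3a_hub_sub, Nat.add_mul_div_left _ _ (by omega), Nat.div_eq_of_lt (by omega), zero_add]

theorem uL_hub (i l : ℕ) (hl : l ≤ Lam N M) : uL N M (hubN N M i + l) = l := by
  unfold uL
  rw [H3a_hub_sub, Nat.add_mul_mod_self_left, Nat.mod_eq_of_lt (by omega)]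

theorem H3a_bet_le {D : ℕ} (hD : D < dK N M) : bet N M D ≤ hc N M := by
  unfold bet hc
  have h1 : dK N M < gg N M * gg N M := by
    unfold gg
    exact Nat.lt_succ_sqrt _
  have h2 : D / gg N M < gg N M := Nat.div_lt_of_lt_mul (hD.trans h1)
  omega

theorem H3a_lD_lt {l : ℕ} (hl : l + 2 < Lam N M) : lD N M l < dK N M := by
  unfold lD
  unfold Lam at hl
  have h1 : l < 3 * dK N M * YY N M * (hc N M + 1) := by omega
  have h2 : l / (hc N M + 1) < 3 * dK N M * YY N M := by
    apply Nat.div_lt_of_lt_mul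
    rw [mul_comm]
    exact h1
  have h3 : l / (hc N M + 1) / YY N M < 3 * dK N M := by
    apply Nat.div_lt_of_lt_mul
    rw [mul_comm]
    exact h2
  omega

theorem H3a_hc : 4 ≤ hc N M := by
  unfold hc gg
  omega

theorem H3a_leafT_le {i l : ℕ} (h : leafOn N M lit i l) : leafT N M l ≤ hc N M := by
  unfold leafT
  have h4 := H3a_hc N M
  split_ifs with h1 h2 h3
  · omega
  · omega
  · rcases h with h | h | h
    · exact H3a_bet_le N M (H3a_lD_lt N M h.1)
    · exact absurd h h2
    · exact absurd h h1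
  · omega

/-- Blocked colours are between `1` and `hc`. -/
theorem blk_bounds {u j : ℕ} (h : blk N M lit u j) : 1 ≤ j ∧ j ≤ hc N M := by
  unfold blk at h
  have h4 := H3a_hc N M
  split_ifs at h with h1 h2 h3
  · omega
  · omega
  · omega
  · have := H3a_leafT_le N M lit h.1
    omega

theorem hc_lt_qq : hc N M + 1 < qq N M := by
  unfold qq hh
  exact Nat.lt_pow_succ_log_self (by norm_num) _

theorem ZZ_eq : ZZ N M = qq N M ^ hc N M := by
  unfold ZZ qq
  rw [pow_mul]

theorem H3a_qq : 2 ≤ qq N M := by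
  have := hc_lt_qq N M
  have := H3a_hc N M
  omega

theorem isPar_hp : IsPar (hn N M) (hp N M lit) := by
  intro v hv0 hv
  unfold hp
  split_ifs with h1 h2 h3 h4 h5
  · exact hv0
  · have : 0 < uL N M v := by
      rw [not_or] at h2
      omega
    omega
  · exact hv0
  · have h6 : vU N M v < UU N M := by
      unfold vU
      unfold hn at hv
      apply Nat.div_lt_of_lt_mul
      apply Nat.div_lt_of_lt_mul
      have : ZZ N M * (Sl N M * UU N M) = UU N M * Sl N M * ZZ N M := by ring
      rw [this]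
      omega
    omega
  · have h6 : vX N M v < ZZ N M := by
      unfold vX
      exact Nat.mod_lt _ (H3a_ZZ_pos N M)
    have h7 : vX N M v ≤ v := by
      unfold vX
      exact (Nat.mod_le _ _).trans (Nat.sub_le _ _)
    have h8 := parq_lt (H3a_qq N M) h5 (by rw [← ZZ_eq]; exact h6)
    omega
  · exact hv0

theorem H3a_real {u s x : ℕ} (hs : s < Sl N M)
    (hb : blk N M lit u (s % (hc N M + 1))) (hx : x < qq N M ^ (s % (hc N M + 1) - 1)) :
    x < ZZ N M ∧ real N M lit (blkN N M u s x) := by
  have hxZ : x < ZZ N M := by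
    rw [ZZ_eq]
    refine hx.trans_le (Nat.pow_le_pow_right (by have := H3a_qq N M; omega) ?_)
    have := blk_bounds N M lit hb
    omega
  refine ⟨hxZ, ?_⟩
  unfold real
  rw [vU_blkN N M hs hxZ, vJ_blkN N M hs hxZ, vX_blkN N M hxZ]
  exact ⟨hb, hx⟩

theorem H3a_not_lt (u s x : ℕ) : ¬ blkN N M u s x < UU N M := by
  unfold blkN
  omega

/-- Parents in an enforcer. -/
theorem hp_block {u s x : ℕ} (hu : u < UU N M) (hs : s < Sl N M)
    (hb : blk N M lit u (s % (hc N M + 1))) (hx : x < qq N M ^ (s % (hc N M + 1) - 1))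
    (hx0 : x ≠ 0) : hp N M lit (blkN N M u s x) = blkN N M u s (parq (qq N M) (hc N M) x) := by
  obtain ⟨hxZ, hr⟩ := H3a_real N M lit hs hb hx
  unfold hp
  rw [if_neg (H3a_not_lt N M u s x), if_pos hr, vX_blkN N M hxZ, if_neg hx0]
  unfold blkN
  omega

/-- Parent of the root of an enforcer. -/
theorem hp_root {u s : ℕ} (hu : u < UU N M) (hs : s < Sl N M)
    (hb : blk N M lit u (s % (hc N M + 1))) : hp N M lit (blkN N M u s 0) = u := by
  obtain ⟨hxZ, hr⟩ := H3a_real N M lit hs hb (x := 0)
    (pow_pos (by have := H3a_qq N M; omega) _)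
  unfold hp
  rw [if_neg (H3a_not_lt N M u s 0), if_pos hr, vX_blkN N M hxZ, if_pos rfl,
    vU_blkN N M hs hxZ]

/-- Positions of the leaves of the hub `i`. -/
noncomputable def leaves (i : ℕ) : Finset ℕ :=
  open Classical in (range (Lam N M)).filter (fun l => leafOn N M lit i l)

theorem leafT_bounds {i l : ℕ} (hl : l ∈ leaves N M lit i) :
    leafT N M l = 0 ∨ (3 ≤ leafT N M l ∧ leafT N M l ≤ hc N M) := by
  classical
  unfold leaves at hl
  rw [mem_filter, mem_range] at hl
  rcases H3b_cases N M hl.1 with ⟨D, r, y, e, hD, hr, hy, he, rfl⟩ | h | h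
  · rw [H3b_leafT_pos N M hD hr hy he]
    by_cases h0 : e = 0
    · rw [if_pos h0]
      right
      exact ⟨by have := H3b_bet_ge N M D; omega, H3b_bet_lt N M hD⟩
    · rw [if_neg h0]; left; rfl
  · rw [h, H3b_leafT_two]
    right
    unfold hc; omega
  · rw [h, H3b_leafT_one]
    left; rfl

open Classical in
theorem H3b_card (i : ℕ) (P : ℕ → Prop) [DecidablePred P] :
    ((leaves N M lit i).filter (fun l => P (leafT N M l))).card =
    ∑ D ∈ range (dK N M), ∑ r ∈ range 3, ∑ y ∈ range (YY N M), ∑ e ∈ range (hc N M + 1),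
      (if act N lit i D r ∧ y < 8 ^ (D % gg N M) ∧ e < bet N M D ∧
        P (if e = 0 then bet N M D else 0) then 1 else 0) +
      (if P 3 then 1 else 0) + (if P 0 then 1 else 0) := by
  unfold leaves
  rw [filter_filter, card_filter, H3b_sum_pos]
  congr 1
  · congr 1
    · apply sum_congr rfl
      intro D hD
      apply sum_congr rfl
      intro r hr
      apply sum_congr rfl
      intro y hy
      apply sum_congr rfl
      intro e he
      rw [mem_range] at hD hr hy he
      apply if_congr _ rfl rfl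
      rw [H3b_leafOn_pos N M lit hD hr hy he, H3b_leafT_pos N M hD hr hy he]
      tauto
    · apply if_congr _ rfl rfl
      rw [H3b_leafT_two]
      exact ⟨fun h => h.2, fun h => ⟨H3b_leafOn_two N M lit i, h⟩⟩
  · apply if_congr _ rfl rfl
    rw [H3b_leafT_one]
    exact ⟨fun h => h.2, fun h => ⟨H3b_leafOn_one N M lit i, h⟩⟩

/-- The number of leaves of type `β`. -/
theorem card_leaves {i β : ℕ} (hβ : 4 ≤ β) :
    ((leaves N M lit i).filter (fun l => leafT N M l = β)).card = aa N M lit i β := by
  classical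
  have key := H3b_card N M lit i (fun t => t = β)
  rw [key, if_neg (by omega), if_neg (by omega), Nat.add_zero, Nat.add_zero]
  unfold aa
  rw [sum_filter]
  apply sum_congr rfl
  intro D hD
  rw [mem_range] at hD
  have hb := H3b_bet_lt N M hD
  have hb4 := H3b_bet_ge N M D
  rw [H3b_ry N M lit i D (fun e => (if e = 0 then bet N M D else 0) = β)]
  by_cases hD : bet N M D = β
  · rw [if_pos hD]
    have h2 : (range (hc N M + 1)).filter
        (fun e => e < bet N M D ∧ (if e = 0 then bet N M D else 0) = β) = {0} := by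
      ext e
      simp only [mem_filter, mem_range, mem_singleton]
      constructor
      · rintro ⟨_, _, h⟩
        by_contra h0
        rw [if_neg h0] at h
        omega
      · rintro rfl
        refine ⟨by omega, by omega, ?_⟩
        rw [if_pos rfl]; exact hD
    rw [h2, card_singleton, mul_one]
  · rw [if_neg hD]
    have h2 : (range (hc N M + 1)).filter
        (fun e => e < bet N M D ∧ (if e = 0 then bet N M D else 0) = β) = ∅ := by
      rw [filter_eq_empty_iff]
      rintro e _ ⟨_, h⟩
      split_ifs at h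
      · exact hD h
      · omega
    rw [h2, card_empty, mul_zero]

theorem card_leaves_three {i : ℕ} :
    ((leaves N M lit i).filter (fun l => leafT N M l = 3)).card = 1 := by
  classical
  have key := H3b_card N M lit i (fun t => t = 3)
  rw [key, if_pos rfl, if_neg (by omega), Nat.add_zero]
  rw [sum_eq_zero, Nat.zero_add]
  intro D hD
  rw [mem_range] at hD
  have hb4 := H3b_bet_ge N M D
  rw [H3b_ry N M lit i D (fun e => (if e = 0 then bet N M D else 0) = 3)]
  have h2 : (range (hc N M + 1)).filter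
      (fun e => e < bet N M D ∧ (if e = 0 then bet N M D else 0) = 3) = ∅ := by
    rw [filter_eq_empty_iff]
    rintro e _ ⟨_, h⟩
    split_ifs at h
    · omega
  rw [h2, card_empty, mul_zero]

/-- The number of leaves of type `0`. -/
theorem card_leaves_zero {i : ℕ} : ((leaves N M lit i).filter (fun l => leafT N M l = 0)).card =
    1 + ∑ β ∈ Icc 4 (hc N M), (β - 1) * aa N M lit i β := by
  classical
  have key := H3b_card N M lit i (fun t => t = 0)
  rw [key, if_neg (by omega), if_pos rfl, Nat.add_zero, Nat.add_comm]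
  congr 1
  have h3 : ∀ β ∈ Icc 4 (hc N M), (β - 1) * aa N M lit i β =
      ∑ D ∈ range (dK N M), if bet N M D = β then (bet N M D - 1) *
        (((range 3).filter (fun r => act N lit i D r)).card * 8 ^ (D % gg N M)) else 0 := by
    intro β _
    unfold aa
    rw [mul_sum, sum_filter]
    apply sum_congr rfl
    intro D _
    by_cases hD : bet N M D = β
    · rw [if_pos hD, if_pos hD, hD]
    · rw [if_neg hD, if_neg hD]
  rw [sum_congr rfl h3]
  conv_rhs => rw [sum_comm]
  apply sum_congr rfl
  intro D hD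
  rw [mem_range] at hD
  have hb := H3b_bet_lt N M hD
  have hb4 := H3b_bet_ge N M D
  rw [H3b_ry N M lit i D (fun e => (if e = 0 then bet N M D else 0) = 0)]
  have h2 : (range (hc N M + 1)).filter
      (fun e => e < bet N M D ∧ (if e = 0 then bet N M D else 0) = 0) = Ico 1 (bet N M D) := by
    ext e
    simp only [mem_filter, mem_range, mem_Ico]
    constructor
    · rintro ⟨_, h1, h⟩
      refine ⟨?_, h1⟩
      by_contra h0
      rw [if_pos (by omega)] at h
      omega
    · rintro ⟨h1, h2⟩
      refine ⟨by omega, h2, ?_⟩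
      rw [if_neg (by omega)]
  rw [h2, Nat.card_Ico, sum_ite_eq, if_pos (by rw [mem_Icc]; exact ⟨hb4, hb⟩), Nat.mul_comm]

end Pool.Agent.BCP
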