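import Mathlib
import Pool.Agent.BCP.H2
import Pool.Agent.BCP.H3

/-!
# Lemmas for the forward direction
-/

namespace Pool.Agent.BCP

open Finset

variable {N M : ℕ} {lit : ℕ → ℕ}

theorem H4b_blk_lt {u s x : ℕ} (hu : u < UU N M) (hs : s < Sl N M) (hx : x < ZZ N M) :
    blkN N M u s x < hn N M := by
  unfold blkN hn
  have h1 : u * Sl N M + s + 1 ≤ UU N M * Sl N M := by
    calc u * Sl N M + s + 1 ≤ u * Sl N M + Sl N M := by omega
      _ = (u + 1) * Sl N M := by ring
      _ ≤ UU N M * Sl N M := Nat.mul_le_mul_right _ hu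
  have h2 : (u * Sl N M + s) * ZZ N M + x < (u * Sl N M + s + 1) * ZZ N M := by
    rw [Nat.add_mul _ 1, Nat.one_mul]; omega
  have h3 := Nat.mul_le_mul_right (ZZ N M) h1
  omega

theorem H4b_UU_le : UU N M ≤ hn N M := by
  unfold hn; exact Nat.le_add_right _ _

theorem H4b_UU_pos : 1 ≤ UU N M := by
  unfold UU; exact Nat.le_add_right _ _

theorem H4b_hc_ge : 4 ≤ hc N M := by
  unfold hc gg; omega

theorem H4b_hub_lt {i l : ℕ} (hi : i < 2 * dK N M) (hl : l ≤ Lam N M) :
    hubN N M i + l < UU N M := by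
  unfold hubN UU
  have h := Nat.mul_le_mul_right (Lam N M + 1) (show i + 1 ≤ 2 * dK N M from hi)
  rw [Nat.add_mul, Nat.one_mul] at h
  omega

theorem H4b_hub_pos (i l : ℕ) : hubN N M i + l ≠ 0 := by
  unfold hubN; omega

theorem H4b_Lam_lt {i : ℕ} (hi : i < 2 * dK N M) : Lam N M < UU N M := by
  have := H4b_hub_lt (N := N) (M := M) (l := Lam N M) hi le_rfl
  unfold hubN at this
  omega

open Classical in
theorem H4b_ideal_blk {u s x : ℕ} (hs : s < Sl N M) (hx : x < ZZ N M) :
    ideal N M lit (blkN N M u s x) =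
      if blk N M lit u (s % (hc N M + 1)) ∧ x < qq N M ^ (s % (hc N M + 1) - 1) then
        lb (qq N M) (hc N M) (s % (hc N M + 1)) x else 1 := by
  have hge : ¬ blkN N M u s x < UU N M := by unfold blkN; omega
  unfold ideal
  rw [if_neg hge]
  unfold real
  rw [vU_blkN N M hs hx, vJ_blkN N M hs hx, vX_blkN N M hx]
  split_ifs <;> rfl

theorem H4b_pow_le (j : ℕ) (hj : j ≤ hc N M) : qq N M ^ (j - 1) ≤ ZZ N M := by
  rw [ZZ_eq]
  apply Nat.pow_le_pow_right
  · have := hc_lt_qq N M
    omega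
  · omega

/-- The values in a block in terms of an enforcer. -/
theorem H4b_block_split (u s : ℕ)
    (hb : blk N M lit u (s % (hc N M + 1))) (F : ℕ → ℕ) :
    ∃ r, ZZ N M = qq N M ^ (s % (hc N M + 1) - 1) + r ∧
      ∑ x ∈ range (ZZ N M), F x =
        ∑ x ∈ range (qq N M ^ (s % (hc N M + 1) - 1)), F x +
        ∑ x ∈ range r, F (qq N M ^ (s % (hc N M + 1) - 1) + x) := by
  have hb' := blk_bounds N M lit hb
  obtain ⟨r, hr⟩ := Nat.exists_eq_add_of_le (H4b_pow_le (N := N) (M := M) _ hb'.2)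
  exact ⟨r, hr, by rw [hr, Finset.sum_range_add]⟩

section Col

variable (ψ : ℕ → ℕ) (hψ : ∀ v < hn N M, 1 ≤ ψ v ∧ ψ v ≤ hc N M)
  (hprop : ∀ v < hn N M, 0 < v → ψ v ≠ ψ (hp N M lit v))

include hψ hprop

theorem H4b_enf_hyps {u s : ℕ} (hu : u < UU N M) (hs : s < Sl N M)
    (hb : blk N M lit u (s % (hc N M + 1))) :
    (∀ y < qq N M ^ (s % (hc N M + 1) - 1), 1 ≤ ψ (blkN N M u s y) ∧
      ψ (blkN N M u s y) ≤ hc N M) ∧
    (∀ y < qq N M ^ (s % (hc N M + 1) - 1), y ≠ 0 → ψ (blkN N M u s y) ≠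
      ψ (blkN N M u s (parq (qq N M) (hc N M) y))) := by
  have hb' := blk_bounds N M lit hb
  have hle := H4b_pow_le (N := N) (M := M) _ hb'.2
  refine ⟨fun y hy => hψ _ (H4b_blk_lt hu hs (lt_of_lt_of_le hy hle)), fun y hy hy0 => ?_⟩
  rw [← hp_block N M lit hu hs hb hy hy0]
  apply hprop _ (H4b_blk_lt hu hs (lt_of_lt_of_le hy hle))
  unfold blkN
  have := H4b_UU_pos (N := N) (M := M)
  omega

open Classical in
theorem H4b_block_le {u s : ℕ} (hu : u < UU N M) (hs : s < Sl N M) :
    ∑ x ∈ range (ZZ N M), ideal N M lit (blkN N M u s x) +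
      (if blk N M lit u (ψ u) ∧ s % (hc N M + 1) = ψ u then 1 else 0) ≤
      ∑ x ∈ range (ZZ N M), ψ (blkN N M u s x) := by
  by_cases hb : blk N M lit u (s % (hc N M + 1))
  · have hb' := blk_bounds N M lit hb
    obtain ⟨r, hr, h1⟩ := H4b_block_split u s hb (fun x => ideal N M lit (blkN N M u s x))
    obtain ⟨r', hr', h2⟩ := H4b_block_split u s hb (fun x => ψ (blkN N M u s x))
    obtain rfl : r = r' := by omega
    rw [h1, h2]
    obtain ⟨e1, e2⟩ := H4b_enf_hyps ψ hψ hprop hu hs hb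
    have hlow := enforcer_lower (q := qq N M) (C := hc N M) (j := s % (hc N M + 1))
      (by have := hc_lt_qq N M; omega) hb'.1 hb'.2 (fun y => ψ (blkN N M u s y)) e1 e2
    have h3 : ∑ x ∈ range (qq N M ^ (s % (hc N M + 1) - 1)), ideal N M lit (blkN N M u s x) =
        ∑ x ∈ range (qq N M ^ (s % (hc N M + 1) - 1)),
          lb (qq N M) (hc N M) (s % (hc N M + 1)) x := by
      apply Finset.sum_congr rfl
      intro x hx
      rw [mem_range] at hx
      rw [H4b_ideal_blk hs (by omega), if_pos ⟨hb, hx⟩]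
    have h4 : ∑ x ∈ range r,
          ideal N M lit (blkN N M u s (qq N M ^ (s % (hc N M + 1) - 1) + x)) ≤
        ∑ x ∈ range r, ψ (blkN N M u s (qq N M ^ (s % (hc N M + 1) - 1) + x)) := by
      apply Finset.sum_le_sum
      intro x hx
      rw [mem_range] at hx
      rw [H4b_ideal_blk hs (by omega), if_neg (by omega)]
      exact (hψ _ (H4b_blk_lt hu hs (by omega))).1
    have h5 : (if blk N M lit u (ψ u) ∧ s % (hc N M + 1) = ψ u then 1 else 0) ≤
        (if ψ (blkN N M u s 0) = s % (hc N M + 1) then 0 else 1) := by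
      split_ifs with g1 g2
      · exfalso
        have hne := hprop (blkN N M u s 0) (H4b_blk_lt hu hs (by
          rw [hr]
          have : 0 < qq N M ^ (s % (hc N M + 1) - 1) := by
            apply Nat.pow_pos
            have := hc_lt_qq N M
            omega
          omega)) (by
          unfold blkN
          have := H4b_UU_pos (N := N) (M := M)
          omega)
        rw [hp_root N M lit hu hs hb] at hne
        exact hne (g2.trans g1.2)
      all_goals omega
    rw [h3]
    omega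
  · have h5 : (if blk N M lit u (ψ u) ∧ s % (hc N M + 1) = ψ u then 1 else 0) = 0 := by
      rw [if_neg]
      rintro ⟨g1, g2⟩
      rw [← g2] at g1
      exact hb g1
    rw [h5, Nat.add_zero]
    apply Finset.sum_le_sum
    intro x hx
    rw [mem_range] at hx
    rw [H4b_ideal_blk hs hx, if_neg (fun h => hb h.1)]
    exact (hψ _ (H4b_blk_lt hu hs hx)).1

theorem H4b_block_eq {u s : ℕ} (hu : u < UU N M) (hs : s < Sl N M)
    (heq : ∑ x ∈ range (ZZ N M), ψ (blkN N M u s x) =
      ∑ x ∈ range (ZZ N M), ideal N M lit (blkN N M u s x)) :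
    ∀ x < ZZ N M, ψ (blkN N M u s x) = ideal N M lit (blkN N M u s x) := by
  by_cases hb : blk N M lit u (s % (hc N M + 1))
  · have hb' := blk_bounds N M lit hb
    obtain ⟨r, hr, h1⟩ := H4b_block_split u s hb (fun x => ideal N M lit (blkN N M u s x))
    obtain ⟨r', hr', h2⟩ := H4b_block_split u s hb (fun x => ψ (blkN N M u s x))
    obtain rfl : r = r' := by omega
    rw [h1, h2] at heq
    obtain ⟨e1, e2⟩ := H4b_enf_hyps ψ hψ hprop hu hs hb
    have hlow := enforcer_lower (q := qq N M) (C := hc N M) (j := s % (hc N M + 1))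
      (by have := hc_lt_qq N M; omega) hb'.1 hb'.2 (fun y => ψ (blkN N M u s y)) e1 e2
    have h3 : ∑ x ∈ range (qq N M ^ (s % (hc N M + 1) - 1)), ideal N M lit (blkN N M u s x) =
        ∑ x ∈ range (qq N M ^ (s % (hc N M + 1) - 1)),
          lb (qq N M) (hc N M) (s % (hc N M + 1)) x := by
      apply Finset.sum_congr rfl
      intro x hx
      rw [mem_range] at hx
      rw [H4b_ideal_blk hs (by omega), if_pos ⟨hb, hx⟩]
    have h4' : ∀ x ∈ range r,
          ideal N M lit (blkN N M u s (qq N M ^ (s % (hc N M + 1) - 1) + x)) ≤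
        ψ (blkN N M u s (qq N M ^ (s % (hc N M + 1) - 1) + x)) := by
      intro x hx
      rw [mem_range] at hx
      rw [H4b_ideal_blk hs (by omega), if_neg (by omega)]
      exact (hψ _ (H4b_blk_lt hu hs (by omega))).1
    have h4 := Finset.sum_le_sum h4'
    rw [h3] at heq
    have h6 := enforcer_eq (q := qq N M) (C := hc N M) (j := s % (hc N M + 1))
      (by have := hc_lt_qq N M; omega) hb'.1 hb'.2 (fun y => ψ (blkN N M u s y)) e1 e2
      (by omega)
    have h7 : ∑ x ∈ range r,
          ideal N M lit (blkN N M u s (qq N M ^ (s % (hc N M + 1) - 1) + x)) =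
        ∑ x ∈ range r, ψ (blkN N M u s (qq N M ^ (s % (hc N M + 1) - 1) + x)) := by
      omega
    have h8 := (Finset.sum_eq_sum_iff_of_le h4').1 h7
    intro x hx
    by_cases hx' : x < qq N M ^ (s % (hc N M + 1) - 1)
    · rw [H4b_ideal_blk hs hx, if_pos ⟨hb, hx'⟩]
      exact h6 x hx'
    · obtain ⟨y, hy⟩ := Nat.exists_eq_add_of_le (not_lt.1 hx')
      rw [hy]
      exact (h8 y (by rw [mem_range]; omega)).symm
  · have h4' : ∀ x ∈ range (ZZ N M),
          ideal N M lit (blkN N M u s x) ≤ ψ (blkN N M u s x) := by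
      intro x hx
      rw [mem_range] at hx
      rw [H4b_ideal_blk hs hx, if_neg (fun h => hb h.1)]
      exact (hψ _ (H4b_blk_lt hu hs hx)).1
    intro x hx
    exact ((Finset.sum_eq_sum_iff_of_le h4').1 heq.symm x (by rwa [mem_range])).symm

end Col

theorem H4b_count_mod (a b j : ℕ) (hj : j < b) :
    ∑ s ∈ range (a * b), (if s % b = j then 1 else 0) = a := by
  induction a with
  | zero => simp
  | succ a ih =>
    rw [Nat.add_mul, Nat.one_mul, Finset.sum_range_add, ih]
    congr 1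
    rw [Finset.sum_eq_single j]
    · rw [if_pos]
      rw [Nat.mul_comm, Nat.mul_add_mod, Nat.mod_eq_of_lt hj]
    · intro x hx hxj
      rw [mem_range] at hx
      rw [if_neg]
      rw [Nat.mul_comm, Nat.mul_add_mod, Nat.mod_eq_of_lt hx]
      exact hxj
    · intro h
      exact absurd (mem_range.2 hj) h

open Classical in
/-- The excess of the enforcers at a core vertex. -/
theorem H4b_excess (ψ : ℕ → ℕ) (u : ℕ) (hu : ψ u ≤ hc N M) :
    ∑ s ∈ range (Sl N M), (if blk N M lit u (ψ u) ∧ s % (hc N M + 1) = ψ u then 1 else 0) =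
      if blk N M lit u (ψ u) then HH N M else 0 := by
  by_cases h : blk N M lit u (ψ u)
  · rw [if_pos h]
    have : ∀ s, (if blk N M lit u (ψ u) ∧ s % (hc N M + 1) = ψ u then 1 else 0) =
        (if s % (hc N M + 1) = ψ u then 1 else 0) := by
      intro s
      simp only [h, true_and]
    simp only [this]
    unfold Sl
    exact H4b_count_mod _ _ _ (by omega)
  · rw [if_neg h]
    apply Finset.sum_eq_zero
    intro s _
    rw [if_neg (fun h' => h h'.1)]

theorem H4b_blk_hub {i j : ℕ} : blk N M lit (hubN N M i) j ↔ 3 ≤ j ∧ j ≤ hc N M := by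
  have h0 : hubN N M i ≠ 0 := H4b_hub_pos i 0
  have h1 := uL_hub N M i 0 (Nat.zero_le _)
  rw [Nat.add_zero] at h1
  unfold blk
  rw [if_neg h0, h1, if_pos rfl]

theorem H4b_blk_leaf {i l j : ℕ} (hl : l < Lam N M) :
    blk N M lit (hubN N M i + 1 + l) j ↔ leafOn N M lit i l ∧
      (if leafT N M l = 0 then j = 1 else 2 ≤ j ∧ j < leafT N M l) := by
  have h0 : hubN N M i + 1 + l ≠ 0 := by omega
  have h1 := uL_hub N M i (l + 1) hl
  have h2 := uI_hub N M i (l + 1) hl
  rw [show hubN N M i + (l + 1) = hubN N M i + 1 + l by ring] at h1 h2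
  unfold blk
  rw [if_neg h0, h1, h2, if_neg (Nat.succ_ne_zero l), Nat.add_sub_cancel]

theorem H4b_ideal_hub {i : ℕ} (hi : i < 2 * dK N M) : ideal N M lit (hubN N M i) = 2 := by
  have hlt : hubN N M i < UU N M := H4b_hub_lt (l := 0) hi (Nat.zero_le _)
  have h0 : hubN N M i ≠ 0 := H4b_hub_pos i 0
  have h1 := uL_hub N M i 0 (Nat.zero_le _)
  rw [Nat.add_zero] at h1
  unfold ideal
  rw [if_pos hlt, if_neg h0, h1, if_pos rfl]

open Classical in
theorem H4b_ideal_leaf {i l : ℕ} (hi : i < 2 * dK N M) (hl : l < Lam N M) :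
    ideal N M lit (hubN N M i + 1 + l) =
      if leafOn N M lit i l then (if leafT N M l = 0 then 3 else 1) else 1 := by
  have hlt : hubN N M i + (l + 1) < UU N M := H4b_hub_lt hi hl
  have h1 := uL_hub N M i (l + 1) hl
  have h2 := uI_hub N M i (l + 1) hl
  rw [show hubN N M i + (l + 1) = hubN N M i + 1 + l by ring] at h1 h2 hlt
  have h0 : hubN N M i + 1 + l ≠ 0 := by omega
  unfold ideal
  rw [if_pos hlt, if_neg h0, h1, h2, if_neg (Nat.succ_ne_zero l), Nat.add_sub_cancel]

theorem H4b_hp_leaf {i l : ℕ} (hi : i < 2 * dK N M) (hl : l < Lam N M)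
    (hon : leafOn N M lit i l) : hp N M lit (hubN N M i + 1 + l) = hubN N M i := by
  have hlt : hubN N M i + (l + 1) < UU N M := H4b_hub_lt hi hl
  have h1 := uL_hub N M i (l + 1) hl
  have h2 := uI_hub N M i (l + 1) hl
  rw [show hubN N M i + (l + 1) = hubN N M i + 1 + l by ring] at h1 h2 hlt
  have h0 : hubN N M i + 1 + l ≠ 0 := by omega
  unfold hp
  rw [if_pos hlt, h1, h2, if_neg (by omega), Nat.add_sub_cancel, if_pos hon]
  omega

theorem H4b_ideal_zero : ideal N M lit 0 = 3 := by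
  unfold ideal
  rw [if_pos (show 0 < UU N M from H4b_UU_pos), if_pos rfl]

theorem H4b_ideal_core_le {u : ℕ} (hu : u < UU N M) : ideal N M lit u ≤ 3 := by
  unfold ideal
  rw [if_pos hu]
  split_ifs <;> omega

open Classical in
theorem H4b_leaves_split (i : ℕ) (F : ℕ → ℕ) : ∑ l ∈ range (Lam N M), F l =
    ∑ l ∈ leaves N M lit i, F l +
      ∑ l ∈ (range (Lam N M)).filter (fun l => ¬ leafOn N M lit i l), F l := by
  unfold leaves
  rw [Finset.sum_filter_add_sum_filter_not]

theorem H4b_mem_leaves {i l : ℕ} :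
    l ∈ leaves N M lit i ↔ l < Lam N M ∧ leafOn N M lit i l := by
  classical
  unfold leaves
  rw [mem_filter, mem_range]

/-- Balance of the leaves of a hub. -/
theorem H4b_bal (i : ℕ) : ((leaves N M lit i).filter (fun l => leafT N M l = 0)).card + 1 =
      ∑ l ∈ (leaves N M lit i).filter (fun l => leafT N M l ≠ 0), (leafT N M l - 1) := by
  rw [card_leaves_zero]
  have hmap : ∀ l ∈ (leaves N M lit i).filter (fun l => leafT N M l ≠ 0),
      leafT N M l ∈ Icc 3 (hc N M) := by
    intro l hl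
    rw [mem_filter] at hl
    have := leafT_bounds N M lit hl.1
    rw [mem_Icc]
    omega
  rw [← Finset.sum_fiberwise_of_maps_to hmap]
  have h3 : Icc 3 (hc N M) = insert 3 (Icc 4 (hc N M)) := by
    have := H4b_hc_ge (N := N) (M := M)
    ext x
    rw [mem_insert, mem_Icc, mem_Icc]
    omega
  rw [h3, Finset.sum_insert (by rw [mem_Icc]; omega)]
  have hin : ∀ β, 3 ≤ β → ∑ l ∈ ((leaves N M lit i).filter (fun l => leafT N M l ≠ 0)).filter
      (fun l => leafT N M l = β), (leafT N M l - 1) =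
      (β - 1) * ((leaves N M lit i).filter (fun l => leafT N M l = β)).card := by
    intro β hβ
    have hE : ((leaves N M lit i).filter (fun l => leafT N M l ≠ 0)).filter
      (fun l => leafT N M l = β) = (leaves N M lit i).filter (fun l => leafT N M l = β) := by
      ext l
      simp only [mem_filter]
      constructor
      · rintro ⟨⟨h1, _⟩, h2⟩
        exact ⟨h1, h2⟩
      · rintro ⟨h1, h2⟩
        exact ⟨⟨h1, by omega⟩, h2⟩
    rw [hE, Finset.sum_congr rfl (g := fun _ => β - 1)]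
    · rw [Finset.sum_const, smul_eq_mul, Nat.mul_comm]
    · intro l hl
      rw [mem_filter] at hl
      rw [hl.2]
  rw [hin 3 le_rfl, card_leaves_three]
  have : ∑ β ∈ Icc 4 (hc N M), ∑ l ∈ ((leaves N M lit i).filter
      (fun l => leafT N M l ≠ 0)).filter (fun l => leafT N M l = β), (leafT N M l - 1) =
      ∑ β ∈ Icc 4 (hc N M), (β - 1) * aa N M lit i β := by
    apply Finset.sum_congr rfl
    intro β hβ
    rw [mem_Icc] at hβ
    rw [hin β (by omega), card_leaves N M lit hβ.1]
  rw [this]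
  omega

section Col2

variable (ψ : ℕ → ℕ) (hψ : ∀ v < hn N M, 1 ≤ ψ v ∧ ψ v ≤ hc N M)
  (hprop : ∀ v < hn N M, 0 < v → ψ v ≠ ψ (hp N M lit v))

open Classical in
/-- Cost of a core vertex. -/
noncomputable def H4b_cost (N M : ℕ) (lit ψ : ℕ → ℕ) (u : ℕ) : ℕ :=
  ψ u + if blk N M lit u (ψ u) then HH N M else 0

include hψ hprop

theorem H4b_hub_hyps {i : ℕ} (hi : i < 2 * dK N M) :
    hc N M * (leaves N M lit i).card ≤ HH N M ∧ hc N M ≤ HH N M ∧
    (1 ≤ ψ (hubN N M i) ∧ ψ (hubN N M i) ≤ hc N M) ∧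
    ∀ l ∈ leaves N M lit i, 1 ≤ ψ (hubN N M i + 1 + l) ∧ ψ (hubN N M i + 1 + l) ≤ hc N M ∧
      ψ (hubN N M i + 1 + l) ≠ ψ (hubN N M i) := by
  have hU := H4b_UU_le (N := N) (M := M)
  refine ⟨?_, ?_, ?_, ?_⟩
  · unfold HH
    apply Nat.mul_le_mul_left
    calc (leaves N M lit i).card ≤ (range (Lam N M)).card := by
          apply Finset.card_le_card
          intro l hl
          rw [H4b_mem_leaves] at hl
          exact mem_range.2 hl.1
      _ = Lam N M := card_range _
      _ ≤ UU N M := (H4b_Lam_lt hi).le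
  · unfold HH
    exact Nat.le_mul_of_pos_right _ H4b_UU_pos
  · exact hψ _ (lt_of_lt_of_le (H4b_hub_lt (l := 0) hi (Nat.zero_le _)) hU)
  · intro l hl
    rw [H4b_mem_leaves] at hl
    have hlt : hubN N M i + (l + 1) < UU N M := H4b_hub_lt hi hl.1
    have h3 : hubN N M i + 1 + l < hn N M := by omega
    refine ⟨(hψ _ h3).1, (hψ _ h3).2, ?_⟩
    have := hprop _ h3 (by omega)
    rwa [H4b_hp_leaf hi hl.1 hl.2] at this

omit hprop in
theorem H4b_cost_hub {i : ℕ} (hi : i < 2 * dK N M) :
    H4b_cost N M lit ψ (hubN N M i) = hcost (HH N M) (ψ (hubN N M i)) := by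
  have hU := H4b_UU_le (N := N) (M := M)
  have := hψ _ (lt_of_lt_of_le (H4b_hub_lt (l := 0) hi (Nat.zero_le _)) hU)
  rw [Nat.add_zero] at this
  unfold H4b_cost hcost
  simp only [H4b_blk_hub, this.2, and_true]

omit hψ hprop in
theorem H4b_cost_leaf {i l : ℕ} (hl : l < Lam N M) (hon : leafOn N M lit i l) :
    H4b_cost N M lit ψ (hubN N M i + 1 + l) =
      lcost (HH N M) (leafT N M l) (ψ (hubN N M i + 1 + l)) := by
  unfold H4b_cost lcost
  simp only [H4b_blk_leaf hl, hon, true_and]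

omit hψ hprop in
theorem H4b_cost_off {i l : ℕ} (hl : l < Lam N M) (hon : ¬ leafOn N M lit i l) :
    H4b_cost N M lit ψ (hubN N M i + 1 + l) = ψ (hubN N M i + 1 + l) := by
  unfold H4b_cost
  simp only [H4b_blk_leaf hl, hon, false_and, if_false, Nat.add_zero]

theorem H4b_group_le {i : ℕ} (hi : i < 2 * dK N M) :
    ideal N M lit (hubN N M i) + ∑ l ∈ range (Lam N M), ideal N M lit (hubN N M i + 1 + l) ≤
      H4b_cost N M lit ψ (hubN N M i) +
        ∑ l ∈ range (Lam N M), H4b_cost N M lit ψ (hubN N M i + 1 + l) := by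
  classical
  have hU := H4b_UU_le (N := N) (M := M)
  obtain ⟨h1, h2, h3, h4⟩ := H4b_hub_hyps ψ hψ hprop hi
  have hlow := hub_lower (X := leaves N M lit i) (T := leafT N M)
    (ψ := fun l => ψ (hubN N M i + 1 + l)) H4b_hc_ge (fun l hl => leafT_bounds N M lit hl)
    (H4b_bal i) h1 h2 h3 h4
  rw [H4b_leaves_split (lit := lit) i (fun l => ideal N M lit (hubN N M i + 1 + l)),
    H4b_leaves_split (lit := lit) i (fun l => H4b_cost N M lit ψ (hubN N M i + 1 + l)),
    H4b_ideal_hub hi, H4b_cost_hub ψ hψ hi]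
  have e1 : ∑ l ∈ leaves N M lit i, ideal N M lit (hubN N M i + 1 + l) =
      ∑ l ∈ leaves N M lit i, (if leafT N M l = 0 then 3 else 1) := by
    apply Finset.sum_congr rfl
    intro l hl
    rw [H4b_mem_leaves] at hl
    rw [H4b_ideal_leaf hi hl.1, if_pos hl.2]
  have e2 : ∑ l ∈ leaves N M lit i, H4b_cost N M lit ψ (hubN N M i + 1 + l) =
      ∑ l ∈ leaves N M lit i, lcost (HH N M) (leafT N M l) (ψ (hubN N M i + 1 + l)) := by
    apply Finset.sum_congr rfl
    intro l hl
    rw [H4b_mem_leaves] at hl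
    exact H4b_cost_leaf ψ hl.1 hl.2
  have e3 : ∑ l ∈ (range (Lam N M)).filter (fun l => ¬ leafOn N M lit i l),
        ideal N M lit (hubN N M i + 1 + l) ≤
      ∑ l ∈ (range (Lam N M)).filter (fun l => ¬ leafOn N M lit i l),
        H4b_cost N M lit ψ (hubN N M i + 1 + l) := by
    apply Finset.sum_le_sum
    intro l hl
    rw [mem_filter, mem_range] at hl
    rw [H4b_ideal_leaf hi hl.1, if_neg hl.2, H4b_cost_off ψ hl.1 hl.2]
    have hlt : hubN N M i + (l + 1) < UU N M := H4b_hub_lt hi hl.1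
    exact (hψ _ (by omega)).1
  rw [e1, e2]
  omega

theorem H4b_group_eq {i : ℕ} (hi : i < 2 * dK N M)
    (heq : H4b_cost N M lit ψ (hubN N M i) +
        ∑ l ∈ range (Lam N M), H4b_cost N M lit ψ (hubN N M i + 1 + l) =
      ideal N M lit (hubN N M i) +
        ∑ l ∈ range (Lam N M), ideal N M lit (hubN N M i + 1 + l)) :
    (∀ l < Lam N M, ¬ leafOn N M lit i l → ψ (hubN N M i + 1 + l) = 1) ∧
    ((ψ (hubN N M i) = 1 ∧ ∀ l ∈ leaves N M lit i, ψ (hubN N M i + 1 + l) =
        if leafT N M l = 0 then 2 else leafT N M l) ∨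
      (ψ (hubN N M i) = 2 ∧ ∀ l ∈ leaves N M lit i, ψ (hubN N M i + 1 + l) =
        if leafT N M l = 0 then 3 else 1)) := by
  classical
  have hU := H4b_UU_le (N := N) (M := M)
  obtain ⟨h1, h2, h3, h4⟩ := H4b_hub_hyps ψ hψ hprop hi
  have hlow := hub_lower (X := leaves N M lit i) (T := leafT N M)
    (ψ := fun l => ψ (hubN N M i + 1 + l)) H4b_hc_ge (fun l hl => leafT_bounds N M lit hl)
    (H4b_bal i) h1 h2 h3 h4
  rw [H4b_leaves_split (lit := lit) i (fun l => ideal N M lit (hubN N M i + 1 + l)),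
    H4b_leaves_split (lit := lit) i (fun l => H4b_cost N M lit ψ (hubN N M i + 1 + l)),
    H4b_ideal_hub hi, H4b_cost_hub ψ hψ hi] at heq
  have e1 : ∑ l ∈ leaves N M lit i, ideal N M lit (hubN N M i + 1 + l) =
      ∑ l ∈ leaves N M lit i, (if leafT N M l = 0 then 3 else 1) := by
    apply Finset.sum_congr rfl
    intro l hl
    rw [H4b_mem_leaves] at hl
    rw [H4b_ideal_leaf hi hl.1, if_pos hl.2]
  have e2 : ∑ l ∈ leaves N M lit i, H4b_cost N M lit ψ (hubN N M i + 1 + l) =
      ∑ l ∈ leaves N M lit i, lcost (HH N M) (leafT N M l) (ψ (hubN N M i + 1 + l)) := by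
    apply Finset.sum_congr rfl
    intro l hl
    rw [H4b_mem_leaves] at hl
    exact H4b_cost_leaf ψ hl.1 hl.2
  have e3' : ∀ l ∈ (range (Lam N M)).filter (fun l => ¬ leafOn N M lit i l),
      ideal N M lit (hubN N M i + 1 + l) ≤ H4b_cost N M lit ψ (hubN N M i + 1 + l) := by
    intro l hl
    rw [mem_filter, mem_range] at hl
    rw [H4b_ideal_leaf hi hl.1, if_neg hl.2, H4b_cost_off ψ hl.1 hl.2]
    have hlt : hubN N M i + (l + 1) < UU N M := H4b_hub_lt hi hl.1
    exact (hψ _ (by omega)).1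
  have e3 := Finset.sum_le_sum e3'
  rw [e1, e2] at heq
  have heq' := hub_eq (X := leaves N M lit i) (T := leafT N M)
    (ψ := fun l => ψ (hubN N M i + 1 + l)) H4b_hc_ge (fun l hl => leafT_bounds N M lit hl)
    (H4b_bal i) h1 h2 h3 h4 (by omega)
  refine ⟨?_, heq'⟩
  intro l hl hon
  have e4 := (Finset.sum_eq_sum_iff_of_le e3').1 (by omega) l
    (by rw [mem_filter, mem_range]; exact ⟨hl, hon⟩)
  rw [H4b_ideal_leaf hi hl, if_neg hon, H4b_cost_off ψ hl hon] at e4
  exact e4.symm

omit hprop in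
theorem H4b_root_le : ideal N M lit 0 ≤ H4b_cost N M lit ψ 0 := by
  rw [H4b_ideal_zero]
  unfold H4b_cost
  have hU := H4b_UU_le (N := N) (M := M)
  have hU1 := H4b_UU_pos (N := N) (M := M)
  have h1 := hψ 0 (by omega)
  have hH : 4 ≤ HH N M := by
    unfold HH
    calc 4 ≤ hc N M := H4b_hc_ge
      _ ≤ hc N M * UU N M := Nat.le_mul_of_pos_right _ hU1
  have hb : blk N M lit 0 (ψ 0) ↔ 1 ≤ ψ 0 ∧ ψ 0 ≤ 2 := by
    unfold blk
    rw [if_pos rfl]
  simp only [hb]
  split_ifs <;> omega

theorem H4b_core_le : ∑ u ∈ range (UU N M), ideal N M lit u ≤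
    ∑ u ∈ range (UU N M), H4b_cost N M lit ψ u := by
  rw [sum_core, sum_core]
  apply Nat.add_le_add (H4b_root_le ψ hψ)
  apply Finset.sum_le_sum
  intro i hi
  rw [mem_range] at hi
  exact H4b_group_le ψ hψ hprop hi

/-- All inequalities are equalities. -/
theorem H4b_all_eq (heq : ∑ v ∈ range (hn N M), ψ v = ∑ v ∈ range (hn N M), ideal N M lit v) :
    (∀ u < UU N M, ¬ blk N M lit u (ψ u)) ∧
    (∀ u < UU N M, ∀ s < Sl N M, ∀ x < ZZ N M,
      ψ (blkN N M u s x) = ideal N M lit (blkN N M u s x)) ∧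
    (∀ i < 2 * dK N M, H4b_cost N M lit ψ (hubN N M i) +
        ∑ l ∈ range (Lam N M), H4b_cost N M lit ψ (hubN N M i + 1 + l) =
      ideal N M lit (hubN N M i) +
        ∑ l ∈ range (Lam N M), ideal N M lit (hubN N M i + 1 + l)) ∧
    H4b_cost N M lit ψ 0 = ideal N M lit 0 := by
  classical
  have hU := H4b_UU_le (N := N) (M := M)
  have hU1 := H4b_UU_pos (N := N) (M := M)
  rw [sum_all, sum_all] at heq
  have hcore := H4b_core_le ψ hψ hprop
  -- the blocks
  have hblk : ∀ u ∈ range (UU N M), ∑ s ∈ range (Sl N M),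
      ∑ x ∈ range (ZZ N M), ideal N M lit (blkN N M u s x) +
      (if blk N M lit u (ψ u) then HH N M else 0) ≤
      ∑ s ∈ range (Sl N M), ∑ x ∈ range (ZZ N M), ψ (blkN N M u s x) := by
    intro u hu
    rw [mem_range] at hu
    rw [← H4b_excess ψ u (hψ u (by omega)).2, ← Finset.sum_add_distrib]
    apply Finset.sum_le_sum
    intro s hs
    rw [mem_range] at hs
    exact H4b_block_le ψ hψ hprop hu hs
  have hsum := Finset.sum_le_sum hblk
  rw [Finset.sum_add_distrib] at hsum
  have hcost : ∑ u ∈ range (UU N M), H4b_cost N M lit ψ u =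
      ∑ u ∈ range (UU N M), ψ u +
        ∑ u ∈ range (UU N M), (if blk N M lit u (ψ u) then HH N M else 0) := by
    unfold H4b_cost
    rw [Finset.sum_add_distrib]
  have k1 : ∑ u ∈ range (UU N M), H4b_cost N M lit ψ u =
      ∑ u ∈ range (UU N M), ideal N M lit u := by omega
  have hI3 : ∑ u ∈ range (UU N M), ideal N M lit u ≤ UU N M * 3 := by
    calc ∑ u ∈ range (UU N M), ideal N M lit u ≤ ∑ u ∈ range (UU N M), 3 := by
          apply Finset.sum_le_sum
          intro u hu
          rw [mem_range] at hu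
          exact H4b_ideal_core_le hu
      _ = UU N M * 3 := by rw [Finset.sum_const, card_range, smul_eq_mul]
  have hnb : ∀ u < UU N M, ¬ blk N M lit u (ψ u) := by
    intro u hu hb
    have h1 : H4b_cost N M lit ψ u ≤ ∑ u ∈ range (UU N M), H4b_cost N M lit ψ u :=
      Finset.single_le_sum (f := fun u => H4b_cost N M lit ψ u)
        (fun _ _ => Nat.zero_le _) (mem_range.2 hu)
    have h2 : HH N M < H4b_cost N M lit ψ u := by
      unfold H4b_cost
      rw [if_pos hb]
      have := hψ u (by omega)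
      omega
    have h3 : UU N M * 3 ≤ HH N M := by
      unfold HH
      rw [Nat.mul_comm]
      exact Nat.mul_le_mul_right _ (by have := H4b_hc_ge (N := N) (M := M); omega)
    omega
  have hz : ∀ u ∈ range (UU N M), (if blk N M lit u (ψ u) then HH N M else 0) = 0 := by
    intro u hu
    rw [mem_range] at hu
    rw [if_neg (hnb u hu)]
  have hzs := Finset.sum_eq_zero hz
  have hblk' : ∀ u ∈ range (UU N M), ∑ s ∈ range (Sl N M),
      ∑ x ∈ range (ZZ N M), ideal N M lit (blkN N M u s x) ≤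
      ∑ s ∈ range (Sl N M), ∑ x ∈ range (ZZ N M), ψ (blkN N M u s x) := by
    intro u hu
    have := hblk u hu
    rw [hz u hu, Nat.add_zero] at this
    exact this
  have k2 := (Finset.sum_eq_sum_iff_of_le hblk').1 (by omega)
  refine ⟨hnb, ?_, ?_, ?_⟩
  · intro u hu s hs
    have k3 := k2 u (mem_range.2 hu)
    have hle : ∀ s ∈ range (Sl N M), ∑ x ∈ range (ZZ N M), ideal N M lit (blkN N M u s x) ≤
        ∑ x ∈ range (ZZ N M), ψ (blkN N M u s x) := by
      intro s hs
      rw [mem_range] at hs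
      have := H4b_block_le ψ hψ hprop hu hs
      rw [if_neg (fun h => hnb u hu h.1), Nat.add_zero] at this
      exact this
    have k4 := (Finset.sum_eq_sum_iff_of_le hle).1 k3 s (mem_range.2 hs)
    exact H4b_block_eq ψ hψ hprop hu hs k4.symm
  · rw [sum_core, sum_core] at k1
    have hr := H4b_root_le (lit := lit) ψ hψ
    have hg : ∀ i ∈ range (2 * dK N M), ideal N M lit (hubN N M i) +
        ∑ l ∈ range (Lam N M), ideal N M lit (hubN N M i + 1 + l) ≤
      H4b_cost N M lit ψ (hubN N M i) +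
        ∑ l ∈ range (Lam N M), H4b_cost N M lit ψ (hubN N M i + 1 + l) := by
      intro i hi
      rw [mem_range] at hi
      exact H4b_group_le ψ hψ hprop hi
    have hgs := Finset.sum_le_sum hg
    intro i hi
    exact ((Finset.sum_eq_sum_iff_of_le hg).1 (by omega) i (mem_range.2 hi)).symm
  · rw [sum_core, sum_core] at k1
    have hr := H4b_root_le (lit := lit) ψ hψ
    have hg : ∀ i ∈ range (2 * dK N M), ideal N M lit (hubN N M i) +
        ∑ l ∈ range (Lam N M), ideal N M lit (hubN N M i + 1 + l) ≤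
      H4b_cost N M lit ψ (hubN N M i) +
        ∑ l ∈ range (Lam N M), H4b_cost N M lit ψ (hubN N M i + 1 + l) := by
      intro i hi
      rw [mem_range] at hi
      exact H4b_group_le ψ hψ hprop hi
    have hgs := Finset.sum_le_sum hg
    omega

/-- Sizes of the classes of the colours `β ≥ 4`. -/
theorem H4b_count (heq : ∑ v ∈ range (hn N M), ψ v = ∑ v ∈ range (hn N M), ideal N M lit v)
    {β : ℕ} (hβ : 4 ≤ β) :
    ((range (hn N M)).filter (fun v => ψ v = β)).card = P0 N M lit β +
      ∑ i ∈ (range (2 * dK N M)).filter (fun i => ψ (hubN N M i) = 1), aa N M lit i β := by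
  classical
  obtain ⟨hnb, hblk, hgrp, hroot⟩ := H4b_all_eq ψ hψ hprop heq
  have hU1 := H4b_UU_pos (N := N) (M := M)
  unfold P0
  rw [Finset.card_filter, Finset.card_filter, sum_all, sum_all,
    sum_core N M (fun u => if ψ u = β then 1 else 0),
    sum_core N M (fun u => if ideal N M lit u = β then 1 else 0)]
  have e1 : ∑ u ∈ range (UU N M), ∑ s ∈ range (Sl N M), ∑ x ∈ range (ZZ N M),
      (if ψ (blkN N M u s x) = β then 1 else 0) =
      ∑ u ∈ range (UU N M), ∑ s ∈ range (Sl N M), ∑ x ∈ range (ZZ N M),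
      (if ideal N M lit (blkN N M u s x) = β then 1 else 0) := by
    apply Finset.sum_congr rfl
    intro u hu
    apply Finset.sum_congr rfl
    intro s hs
    apply Finset.sum_congr rfl
    intro x hx
    rw [mem_range] at hu hs hx
    rw [hblk u hu s hs x hx]
  have e2 : ψ 0 = ideal N M lit 0 := by
    unfold H4b_cost at hroot
    rw [if_neg (hnb 0 hU1), Nat.add_zero] at hroot
    exact hroot
  have e3 : ∑ i ∈ range (2 * dK N M), ((if ideal N M lit (hubN N M i) = β then 1 else 0) +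
      ∑ l ∈ range (Lam N M), if ideal N M lit (hubN N M i + 1 + l) = β then 1 else 0) = 0 := by
    apply Finset.sum_eq_zero
    intro i hi
    rw [mem_range] at hi
    rw [H4b_ideal_hub hi, if_neg (by omega), Nat.zero_add]
    apply Finset.sum_eq_zero
    intro l hl
    rw [mem_range] at hl
    rw [H4b_ideal_leaf hi hl, if_neg]
    split_ifs <;> omega
  have e4 : ∑ i ∈ range (2 * dK N M), ((if ψ (hubN N M i) = β then 1 else 0) +
      ∑ l ∈ range (Lam N M), if ψ (hubN N M i + 1 + l) = β then 1 else 0) =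
      ∑ i ∈ (range (2 * dK N M)).filter (fun i => ψ (hubN N M i) = 1), aa N M lit i β := by
    rw [Finset.sum_filter]
    apply Finset.sum_congr rfl
    intro i hi
    rw [mem_range] at hi
    obtain ⟨h1, h2⟩ := H4b_group_eq ψ hψ hprop hi (hgrp i hi)
    rw [H4b_leaves_split (lit := lit) i
      (fun l => if ψ (hubN N M i + 1 + l) = β then 1 else 0)]
    have h3 : ∑ l ∈ (range (Lam N M)).filter (fun l => ¬ leafOn N M lit i l),
        (if ψ (hubN N M i + 1 + l) = β then 1 else 0) = 0 := by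
      apply Finset.sum_eq_zero
      intro l hl
      rw [mem_filter, mem_range] at hl
      rw [h1 l hl.1 hl.2, if_neg (by omega)]
    rw [h3, Nat.add_zero]
    rcases h2 with ⟨h4, h5⟩ | ⟨h4, h5⟩
    · rw [h4, if_pos rfl, if_neg (by omega), Nat.zero_add, ← card_leaves N M lit hβ,
        Finset.card_filter]
      apply Finset.sum_congr rfl
      intro l hl
      rw [h5 l hl]
      by_cases hT : leafT N M l = 0
      · rw [if_pos hT, if_neg (by omega), if_neg (by omega)]
      · rw [if_neg hT]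
    · rw [h4, if_neg (show ¬ (2 = 1) by omega), if_neg (by omega), Nat.zero_add]
      apply Finset.sum_eq_zero
      intro l hl
      rw [h5 l hl, if_neg]
      split_ifs <;> omega
  rw [e1, e2, e3, e4]
  omega

end Col2

end Pool.Agent.BCP
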