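import Mathlib
import Pool.Agent.BCP.H2
import Pool.Agent.BCP.H3

namespace Pool.Agent.BCP

open Finset

variable {N M : ℕ} {lit : ℕ → ℕ}

open Classical in
/-- The colouring belonging to the set `S` of items. -/
noncomputable def h4cCol (N M : ℕ) (lit : ℕ → ℕ) (S : Finset ℕ) (v : ℕ) : ℕ :=
  if v < UU N M then
    if v = 0 then 3
    else if uL N M v = 0 then (if uI N M v ∈ S then 1 else 2)
    else if leafOn N M lit (uI N M v) (uL N M v - 1) then
      (if uI N M v ∈ S then
        (if leafT N M (uL N M v - 1) = 0 then 2 else leafT N M (uL N M v - 1))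
      else (if leafT N M (uL N M v - 1) = 0 then 3 else 1))
    else 1
  else if real N M lit v then lb (qq N M) (hc N M) (vJ N M v) (vX N M v)
  else 1

theorem h4c_hc : 4 ≤ hc N M := by unfold hc gg; omega

theorem h4c_core {v : ℕ} (h0 : v ≠ 0) :
    v = hubN N M (uI N M v) + uL N M v ∧ uL N M v ≤ Lam N M := by
  have h1 := Nat.div_add_mod (v - 1) (Lam N M + 1)
  have h2 := Nat.mod_lt (v - 1) (Nat.succ_pos (Lam N M))
  refine ⟨?_, ?_⟩
  · unfold hubN uI uL
    have h3 : (v - 1) / (Lam N M + 1) * (Lam N M + 1) =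
      (Lam N M + 1) * ((v - 1) / (Lam N M + 1)) := Nat.mul_comm _ _
    omega
  · unfold uL
    exact Nat.lt_succ_iff.1 h2

theorem h4c_hub_lt {i l : ℕ} (hi : i < 2 * dK N M) (hl : l ≤ Lam N M) :
    hubN N M i + l < UU N M := by
  unfold hubN UU
  have h1 : (i + 1) * (Lam N M + 1) ≤ 2 * dK N M * (Lam N M + 1) :=
    Nat.mul_le_mul_right _ hi
  have h2 : (i + 1) * (Lam N M + 1) = i * (Lam N M + 1) + (Lam N M + 1) := by ring
  omega

theorem h4c_uI_lt {v : ℕ} (h0 : v ≠ 0) (hv : v < UU N M) : uI N M v < 2 * dK N M := by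
  unfold uI
  rw [Nat.div_lt_iff_lt_mul (Nat.succ_pos _)]
  unfold UU at hv
  show v - 1 < 2 * dK N M * (Lam N M + 1)
  omega

/-- the values at the hubs -/
theorem h4c_hub {S : Finset ℕ} {i : ℕ} (hi : i < 2 * dK N M) :
    h4cCol N M lit S (hubN N M i) = if i ∈ S then 1 else 2 := by
  have h1 : hubN N M i < UU N M := by
    have := h4c_hub_lt (N := N) (M := M) hi (Nat.zero_le _)
    simpa using this
  have h2 : hubN N M i ≠ 0 := by unfold hubN; omega
  have h3 : uL N M (hubN N M i) = 0 := by
    have := uL_hub N M i 0 (Nat.zero_le _)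
    simpa using this
  have h4 : uI N M (hubN N M i) = i := by
    have := uI_hub N M i 0 (Nat.zero_le _)
    simpa using this
  unfold h4cCol
  rw [if_pos h1, if_neg h2, if_pos h3, h4]

/-- the values at the leaf positions -/
theorem h4c_leaf {S : Finset ℕ} {i l : ℕ} (hi : i < 2 * dK N M) (hl : l < Lam N M) :
    h4cCol N M lit S (hubN N M i + 1 + l) =
      open Classical in
      if leafOn N M lit i l then
        (if i ∈ S then (if leafT N M l = 0 then 2 else leafT N M l)
          else (if leafT N M l = 0 then 3 else 1))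
      else 1 := by
  have e : hubN N M i + 1 + l = hubN N M i + (l + 1) := by ring
  have h1 : hubN N M i + 1 + l < UU N M := by
    rw [e]; exact h4c_hub_lt hi hl
  have h2 : hubN N M i + 1 + l ≠ 0 := by omega
  have h3 : uL N M (hubN N M i + 1 + l) = l + 1 := by rw [e]; exact uL_hub N M i (l + 1) hl
  have h4 : uI N M (hubN N M i + 1 + l) = i := by rw [e]; exact uI_hub N M i (l + 1) hl
  unfold h4cCol
  rw [if_pos h1, if_neg h2, h3, if_neg (Nat.succ_ne_zero l), h4, Nat.add_sub_cancel]

theorem h4c_ideal {v : ℕ} : ideal N M lit v = h4cCol N M lit ∅ v := by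
  unfold ideal h4cCol
  simp

theorem h4c_zero {S : Finset ℕ} : h4cCol N M lit S 0 = 3 := by
  unfold h4cCol
  rw [if_pos (by unfold UU; omega), if_pos rfl]

theorem h4c_blocks {S : Finset ℕ} {v : ℕ} (hv : ¬ v < UU N M) :
    h4cCol N M lit S v = h4cCol N M lit ∅ v := by
  unfold h4cCol
  rw [if_neg hv, if_neg hv]

/-- every vertex outside the core has coordinates -/
theorem h4c_coord {v : ℕ} (hv : UU N M ≤ v) (hv2 : v < hn N M) :
    ∃ u s x, u < UU N M ∧ s < Sl N M ∧ x < ZZ N M ∧ v = blkN N M u s x := by
  have hz : 0 < ZZ N M := by unfold ZZ; positivity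
  have hw : v - UU N M < UU N M * Sl N M * ZZ N M := by unfold hn at hv2; omega
  have hsl : 0 < Sl N M := by
    rcases Nat.eq_zero_or_pos (Sl N M) with h | h
    · rw [h] at hw; simp at hw
    · exact h
  refine ⟨(v - UU N M) / ZZ N M / Sl N M, (v - UU N M) / ZZ N M % Sl N M,
    (v - UU N M) % ZZ N M, ?_, Nat.mod_lt _ hsl, Nat.mod_lt _ hz, ?_⟩
  · rw [Nat.div_lt_iff_lt_mul hsl, Nat.div_lt_iff_lt_mul hz]
    exact hw
  · unfold blkN
    have h1 := Nat.div_add_mod ((v - UU N M) / ZZ N M) (Sl N M)
    have h2 := Nat.div_add_mod (v - UU N M) (ZZ N M)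
    have h3 : (v - UU N M) / ZZ N M / Sl N M * Sl N M + (v - UU N M) / ZZ N M % Sl N M =
        (v - UU N M) / ZZ N M := by
      rw [Nat.mul_comm]; exact h1
    rw [h3]
    have h4 : (v - UU N M) / ZZ N M * ZZ N M + (v - UU N M) % ZZ N M = v - UU N M := by
      rw [Nat.mul_comm]; exact h2
    omega

/-- the colour at a core vertex is not blocked there -/
theorem h4c_blk {S : Finset ℕ} {u j : ℕ} (hu : u < UU N M) (hb : blk N M lit u j) :
    j ≠ h4cCol N M lit S u := by
  unfold blk at hb
  unfold h4cCol
  rw [if_pos hu]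
  by_cases h0 : u = 0
  · rw [if_pos h0] at hb
    rw [if_pos h0]; omega
  · rw [if_neg h0] at hb
    rw [if_neg h0]
    by_cases h1 : uL N M u = 0
    · rw [if_pos h1] at hb
      rw [if_pos h1]
      split_ifs <;> omega
    · rw [if_neg h1] at hb
      rw [if_neg h1, if_pos hb.1]
      have h2 := hb.2
      split_ifs at h2 ⊢ <;> omega

theorem h4c_mem_leaves {i l : ℕ} (hl : l < Lam N M) (h : leafOn N M lit i l) :
    l ∈ leaves N M lit i := by
  classical
  unfold leaves
  rw [mem_filter, mem_range]
  exact ⟨hl, h⟩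

/-- the colours are between `1` and `hc` -/
theorem h4c_bounds {S : Finset ℕ} {v : ℕ} (hv : v < hn N M) :
    1 ≤ h4cCol N M lit S v ∧ h4cCol N M lit S v ≤ hc N M := by
  have hc4 : 4 ≤ hc N M := h4c_hc
  by_cases hcore : v < UU N M
  · unfold h4cCol
    rw [if_pos hcore]
    by_cases h0 : v = 0
    · rw [if_pos h0]; omega
    · rw [if_neg h0]
      by_cases h1 : uL N M v = 0
      · rw [if_pos h1]; split_ifs <;> omega
      · rw [if_neg h1]
        by_cases h2 : leafOn N M lit (uI N M v) (uL N M v - 1)
        · rw [if_pos h2]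
          have hle : uL N M v ≤ Lam N M := (h4c_core h0).2
          have hmem : uL N M v - 1 ∈ leaves N M lit (uI N M v) :=
            h4c_mem_leaves (by omega) h2
          have h3 := leafT_bounds N M lit hmem
          split_ifs <;> omega
        · rw [if_neg h2]; omega
  · obtain ⟨u, s, x, hu, hs, hx, rfl⟩ := h4c_coord (not_lt.1 hcore) hv
    unfold h4cCol
    rw [if_neg hcore]
    by_cases hr : real N M lit (blkN N M u s x)
    · rw [if_pos hr]
      unfold real at hr
      rw [vU_blkN N M hs hx, vJ_blkN N M hs hx, vX_blkN N M hx] at hr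
      rw [vJ_blkN N M hs hx, vX_blkN N M hx]
      have hb := blk_bounds N M lit hr.1
      have hq := hc_lt_qq N M
      exact lb_bounds (by omega) hb.1 hb.2 hr.2
    · rw [if_neg hr]; omega

/-- the colouring is proper -/
theorem h4c_proper {S : Finset ℕ} {v : ℕ} (hv : v < hn N M) (hv0 : 0 < v) :
    h4cCol N M lit S v ≠ h4cCol N M lit S (hp N M lit v) := by
  have hq := hc_lt_qq N M
  by_cases hcore : v < UU N M
  · by_cases h1 : uL N M v = 0
    · have hp0 : hp N M lit v = 0 := by
        unfold hp
        rw [if_pos hcore, if_pos (Or.inr h1)]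
      rw [hp0, h4c_zero]
      unfold h4cCol
      rw [if_pos hcore, if_neg hv0.ne', if_pos h1]
      split_ifs <;> omega
    · by_cases h2 : leafOn N M lit (uI N M v) (uL N M v - 1)
      · have hco := h4c_core (N := N) (M := M) hv0.ne'
        have hpv : hp N M lit v = hubN N M (uI N M v) := by
          unfold hp
          rw [if_pos hcore, if_neg (by push Not; exact ⟨hv0.ne', h1⟩), if_pos h2]
          omega
        rw [hpv, h4c_hub (h4c_uI_lt hv0.ne' hcore)]
        have hmem : uL N M v - 1 ∈ leaves N M lit (uI N M v) :=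
          h4c_mem_leaves (by omega) h2
        have h3 := leafT_bounds N M lit hmem
        unfold h4cCol
        rw [if_pos hcore, if_neg hv0.ne', if_neg h1, if_pos h2]
        split_ifs <;> omega
      · have hp0 : hp N M lit v = 0 := by
          unfold hp
          rw [if_pos hcore, if_neg (by push Not; exact ⟨hv0.ne', h1⟩), if_neg h2]
        rw [hp0, h4c_zero]
        unfold h4cCol
        rw [if_pos hcore, if_neg hv0.ne', if_neg h1, if_neg h2]
        omega
  · obtain ⟨u, s, x, hu, hs, hx, rfl⟩ := h4c_coord (not_lt.1 hcore) hv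
    by_cases hr : real N M lit (blkN N M u s x)
    · have hr' := hr
      unfold real at hr
      rw [vU_blkN N M hs hx, vJ_blkN N M hs hx, vX_blkN N M hx] at hr
      have hb := blk_bounds N M lit hr.1
      have e1 : h4cCol N M lit S (blkN N M u s x) =
          lb (qq N M) (hc N M) (s % (hc N M + 1)) x := by
        unfold h4cCol
        rw [if_neg hcore, if_pos hr', vJ_blkN N M hs hx, vX_blkN N M hx]
      rw [e1]
      by_cases hx0 : x = 0
      · subst hx0
        rw [hp_root N M lit hu hs hr.1]
        have : lb (qq N M) (hc N M) (s % (hc N M + 1)) 0 = s % (hc N M + 1) := by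
          unfold lb; rw [if_pos rfl]
        rw [this]
        exact h4c_blk hu hr.1
      · rw [hp_block N M lit hu hs hr.1 hr.2 hx0]
        have hxC : x < qq N M ^ hc N M := by rw [← ZZ_eq]; exact hx
        have hlt := parq_lt (q := qq N M) (C := hc N M) (by omega) hx0 hxC
        have e2 : h4cCol N M lit S (blkN N M u s (parq (qq N M) (hc N M) x)) =
            lb (qq N M) (hc N M) (s % (hc N M + 1)) (parq (qq N M) (hc N M) x) := by
          have hx' : parq (qq N M) (hc N M) x < ZZ N M := by omega
          have hr2 : real N M lit (blkN N M u s (parq (qq N M) (hc N M) x)) := by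
            unfold real
            rw [vU_blkN N M hs hx', vJ_blkN N M hs hx', vX_blkN N M hx']
            exact ⟨hr.1, by omega⟩
          have hc2 : ¬ blkN N M u s (parq (qq N M) (hc N M) x) < UU N M := by
            unfold blkN; omega
          unfold h4cCol
          rw [if_neg hc2, if_pos hr2, vJ_blkN N M hs hx', vX_blkN N M hx']
        rw [e2]
        exact lb_proper (by omega) hb.1 hb.2 hr.2 hx0
    · have hp0 : hp N M lit (blkN N M u s x) = 0 := by
        unfold hp
        rw [if_neg hcore, if_neg hr]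
      rw [hp0, h4c_zero]
      unfold h4cCol
      rw [if_neg hcore, if_neg hr]
      omega

/-- number of vertices of the colour `j` in the group of the item `i` -/
noncomputable def h4cCnt (N M : ℕ) (lit : ℕ → ℕ) (S : Finset ℕ) (i j : ℕ) : ℕ :=
  (if h4cCol N M lit S (hubN N M i) = j then 1 else 0) +
    ∑ l ∈ range (Lam N M), (if h4cCol N M lit S (hubN N M i + 1 + l) = j then 1 else 0)

/-- number of vertices of the colour `j` outside of the hub groups -/
noncomputable def h4cRest (N M : ℕ) (lit : ℕ → ℕ) (j : ℕ) : ℕ :=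
  (if h4cCol N M lit ∅ 0 = j then 1 else 0) +
    ∑ u ∈ range (UU N M), ∑ s ∈ range (Sl N M), ∑ x ∈ range (ZZ N M),
      (if h4cCol N M lit ∅ (blkN N M u s x) = j then 1 else 0)

theorem h4c_total (S : Finset ℕ) (j : ℕ) :
    ((range (hn N M)).filter (fun v => h4cCol N M lit S v = j)).card =
      ∑ i ∈ range (2 * dK N M), h4cCnt N M lit S i j + h4cRest N M lit j := by
  rw [card_filter, sum_all, sum_core]
  unfold h4cCnt h4cRest
  rw [h4c_zero, h4c_zero]
  have : ∑ u ∈ range (UU N M), ∑ s ∈ range (Sl N M), ∑ x ∈ range (ZZ N M),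
      (if h4cCol N M lit S (blkN N M u s x) = j then 1 else 0) =
      ∑ u ∈ range (UU N M), ∑ s ∈ range (Sl N M), ∑ x ∈ range (ZZ N M),
      (if h4cCol N M lit ∅ (blkN N M u s x) = j then 1 else 0) := by
    refine sum_congr rfl fun u _ => sum_congr rfl fun s _ => sum_congr rfl fun x _ => ?_
    rw [h4c_blocks (S := S) (by unfold blkN; omega)]
  rw [this]
  ring

/-- number of unoccupied leaf positions -/
noncomputable def h4cOff (N M : ℕ) (lit : ℕ → ℕ) (i : ℕ) : ℕ :=
  open Classical in ((range (Lam N M)).filter (fun l => ¬ leafOn N M lit i l)).card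

theorem h4c_leafsum {S : Finset ℕ} {i : ℕ} (hi : i < 2 * dK N M) (j : ℕ) (g : ℕ → ℕ)
    (hg : ∀ l, g l = if i ∈ S then (if leafT N M l = 0 then 2 else leafT N M l)
          else (if leafT N M l = 0 then 3 else 1)) :
    ∑ l ∈ range (Lam N M), (if h4cCol N M lit S (hubN N M i + 1 + l) = j then 1 else 0) =
      ((leaves N M lit i).filter (fun l => g l = j)).card +
        (if 1 = j then h4cOff N M lit i else 0) := by
  classical
  have h1 : ∀ l ∈ range (Lam N M),
      (if h4cCol N M lit S (hubN N M i + 1 + l) = j then 1 else 0) =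
      (if leafOn N M lit i l then (if g l = j then 1 else 0) else 0) +
        (if ¬ leafOn N M lit i l then (if 1 = j then 1 else 0) else 0) := by
    intro l hl
    rw [h4c_leaf hi (mem_range.1 hl), ← hg]
    by_cases h : leafOn N M lit i l
    · simp [h]
    · simp [h]
  have hA : ∑ l ∈ range (Lam N M), (if leafOn N M lit i l then (if g l = j then 1 else 0) else 0) =
      ((leaves N M lit i).filter (fun l => g l = j)).card := by
    rw [card_filter]
    unfold leaves
    rw [sum_filter]
  have hB : ∑ l ∈ range (Lam N M), (if ¬ leafOn N M lit i l then (if 1 = j then 1 else 0) else 0) =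
      (if 1 = j then h4cOff N M lit i else 0) := by
    unfold h4cOff
    split_ifs with hj
    · rw [card_filter]
    · simp
  rw [sum_congr rfl h1, sum_add_distrib, hA, hB]

theorem h4c_cnt_in {S : Finset ℕ} {i : ℕ} (hi : i < 2 * dK N M) (hS : i ∈ S) (j : ℕ) :
    h4cCnt N M lit S i j = (if 1 = j then 1 else 0) +
      (((leaves N M lit i).filter
        (fun l => (if leafT N M l = 0 then 2 else leafT N M l) = j)).card +
        (if 1 = j then h4cOff N M lit i else 0)) := by
  unfold h4cCnt
  rw [h4c_hub hi, if_pos hS,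
    h4c_leafsum hi j (fun l => if leafT N M l = 0 then 2 else leafT N M l)
      (fun l => by rw [if_pos hS])]

theorem h4c_cnt_out {S : Finset ℕ} {i : ℕ} (hi : i < 2 * dK N M) (hS : i ∉ S) (j : ℕ) :
    h4cCnt N M lit S i j = (if 2 = j then 1 else 0) +
      (((leaves N M lit i).filter
        (fun l => (if leafT N M l = 0 then 3 else 1) = j)).card +
        (if 1 = j then h4cOff N M lit i else 0)) := by
  unfold h4cCnt
  rw [h4c_hub hi, if_neg hS,
    h4c_leafsum hi j (fun l => if leafT N M l = 0 then 3 else 1)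
      (fun l => by rw [if_neg hS])]

theorem h4c_nonzero (i : ℕ) :
    ((leaves N M lit i).filter (fun l => leafT N M l ≠ 0)).card =
      1 + ∑ β ∈ Icc 4 (hc N M), aa N M lit i β := by
  have hc4 : 4 ≤ hc N M := h4c_hc
  have h1 : ((leaves N M lit i).filter (fun l => leafT N M l ≠ 0)).card =
      ∑ β ∈ Icc 3 (hc N M), ((leaves N M lit i).filter (fun l => leafT N M l = β)).card := by
    rw [card_eq_sum_card_fiberwise (f := fun l => leafT N M l) (t := Icc 3 (hc N M))]
    · refine sum_congr rfl fun β hβ => ?_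
      rw [mem_Icc] at hβ
      congr 1
      ext l
      simp only [mem_filter]
      constructor
      · rintro ⟨⟨h2, _⟩, h3⟩; exact ⟨h2, h3⟩
      · rintro ⟨h2, h3⟩; exact ⟨⟨h2, by omega⟩, h3⟩
    · intro l hl
      rw [mem_coe, mem_filter] at hl
      rw [mem_coe, mem_Icc]
      rcases leafT_bounds N M lit hl.1 with h | h
      · exact absurd h hl.2
      · exact h
  have h2 : Icc 3 (hc N M) = insert 3 (Icc 4 (hc N M)) := by
    ext x; simp only [mem_Icc, mem_insert]; omega
  rw [h1, h2, sum_insert (by simp), card_leaves_three]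
  congr 1
  refine sum_congr rfl fun β hβ => ?_
  rw [mem_Icc] at hβ
  exact card_leaves N M lit hβ.1

theorem h4c_item {S : Finset ℕ} {i : ℕ} (hi : i < 2 * dK N M) (hS : i ∈ S) :
    h4cCnt N M lit S i 1 + ∑ β ∈ Icc 4 (hc N M), aa N M lit i β = h4cCnt N M lit ∅ i 1 ∧
    h4cCnt N M lit S i 2 =
      h4cCnt N M lit ∅ i 2 + ∑ β ∈ Icc 4 (hc N M), (β - 1) * aa N M lit i β ∧
    h4cCnt N M lit S i 3 + ∑ β ∈ Icc 4 (hc N M), (β - 1) * aa N M lit i β =
      h4cCnt N M lit ∅ i 3 ∧
    ∀ j, 4 ≤ j → h4cCnt N M lit S i j = h4cCnt N M lit ∅ i j + aa N M lit i j := by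
  have hn : i ∉ (∅ : Finset ℕ) := by simp
  have hz := card_leaves_zero N M lit (i := i)
  have hnz := h4c_nonzero (N := N) (M := M) (lit := lit) i
  have h3 := card_leaves_three N M lit (i := i)
  refine ⟨?_, ?_, ?_, ?_⟩
  · rw [h4c_cnt_in hi hS, h4c_cnt_out hi hn]
    have e1 : ((leaves N M lit i).filter
        (fun l => (if leafT N M l = 0 then 2 else leafT N M l) = 1)).card = 0 := by
      rw [card_eq_zero, filter_eq_empty_iff]
      intro l hl
      rcases leafT_bounds N M lit hl with h | h
      · rw [if_pos h]; omega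
      · rw [if_neg (by omega)]; omega
    have e2 : ((leaves N M lit i).filter
        (fun l => (if leafT N M l = 0 then 3 else 1) = 1)).card =
        ((leaves N M lit i).filter (fun l => leafT N M l ≠ 0)).card := by
      congr 1
      refine filter_congr fun l _ => ?_
      split_ifs with h <;> simp [h]
    rw [e1, e2, hnz]
    simp
    ring
  · rw [h4c_cnt_in hi hS, h4c_cnt_out hi hn]
    have e1 : ((leaves N M lit i).filter
        (fun l => (if leafT N M l = 0 then 2 else leafT N M l) = 2)).card =
        ((leaves N M lit i).filter (fun l => leafT N M l = 0)).card := by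
      congr 1
      refine filter_congr fun l hl => ?_
      rcases leafT_bounds N M lit hl with h | h
      · simp [h]
      · rw [if_neg (by omega)]; omega
    have e2 : ((leaves N M lit i).filter
        (fun l => (if leafT N M l = 0 then 3 else 1) = 2)).card = 0 := by
      rw [card_eq_zero, filter_eq_empty_iff]
      intro l _
      split_ifs <;> omega
    rw [e1, e2, hz]
    simp
  · rw [h4c_cnt_in hi hS, h4c_cnt_out hi hn]
    have e1 : ((leaves N M lit i).filter
        (fun l => (if leafT N M l = 0 then 2 else leafT N M l) = 3)).card =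
        ((leaves N M lit i).filter (fun l => leafT N M l = 3)).card := by
      congr 1
      refine filter_congr fun l hl => ?_
      rcases leafT_bounds N M lit hl with h | h
      · rw [if_pos h]; omega
      · rw [if_neg (by omega)]
    have e2 : ((leaves N M lit i).filter
        (fun l => (if leafT N M l = 0 then 3 else 1) = 3)).card =
        ((leaves N M lit i).filter (fun l => leafT N M l = 0)).card := by
      congr 1
      refine filter_congr fun l _ => ?_
      split_ifs with h <;> simp [h]
    rw [e1, e2, hz, h3]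
    simp
  · intro j hj
    rw [h4c_cnt_in hi hS, h4c_cnt_out hi hn]
    have e1 : ((leaves N M lit i).filter
        (fun l => (if leafT N M l = 0 then 2 else leafT N M l) = j)).card =
        ((leaves N M lit i).filter (fun l => leafT N M l = j)).card := by
      congr 1
      refine filter_congr fun l hl => ?_
      rcases leafT_bounds N M lit hl with h | h
      · rw [if_pos h]; omega
      · rw [if_neg (by omega)]
    have e2 : ((leaves N M lit i).filter
        (fun l => (if leafT N M l = 0 then 3 else 1) = j)).card = 0 := by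
      rw [card_eq_zero, filter_eq_empty_iff]
      intro l _
      split_ifs <;> omega
    rw [e1, e2, card_leaves N M lit hj, if_neg (by omega), if_neg (by omega), if_neg (by omega)]
    simp

theorem h4c_same {S : Finset ℕ} {i : ℕ} (hi : i < 2 * dK N M) (hS : i ∉ S) (j : ℕ) :
    h4cCnt N M lit S i j = h4cCnt N M lit ∅ i j := by
  rw [h4c_cnt_out hi hS, h4c_cnt_out hi (by simp)]

/-- summation over the items -/
theorem h4c_sum {S : Finset ℕ} (hS : S ⊆ range (2 * dK N M)) (j : ℕ) (f : ℕ → ℕ) :
    ((∀ i, i < 2 * dK N M → i ∈ S →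
      h4cCnt N M lit S i j = h4cCnt N M lit ∅ i j + f i) →
      ∑ i ∈ range (2 * dK N M), h4cCnt N M lit S i j =
        ∑ i ∈ range (2 * dK N M), h4cCnt N M lit ∅ i j + ∑ i ∈ S, f i) ∧
    ((∀ i, i < 2 * dK N M → i ∈ S →
      h4cCnt N M lit S i j + f i = h4cCnt N M lit ∅ i j) →
      ∑ i ∈ range (2 * dK N M), h4cCnt N M lit S i j + ∑ i ∈ S, f i =
        ∑ i ∈ range (2 * dK N M), h4cCnt N M lit ∅ i j) := by
  have e : ∑ i ∈ S, f i = ∑ i ∈ range (2 * dK N M), if i ∈ S then f i else 0 := by
    rw [sum_ite_mem, inter_eq_right.2 hS]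
  constructor
  · intro h
    rw [e, ← sum_add_distrib]
    refine sum_congr rfl fun i hi => ?_
    by_cases hiS : i ∈ S
    · rw [if_pos hiS]; exact h i (mem_range.1 hi) hiS
    · rw [if_neg hiS, h4c_same (mem_range.1 hi) hiS]; rfl
  · intro h
    rw [e, ← sum_add_distrib]
    refine sum_congr rfl fun i hi => ?_
    by_cases hiS : i ∈ S
    · rw [if_pos hiS]; exact h i (mem_range.1 hi) hiS
    · rw [if_neg hiS, h4c_same (mem_range.1 hi) hiS]; rfl

theorem h4c_TT_zero {β : ℕ} (hβ : β < 4) : TT N M β = 0 := by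
  unfold TT
  rw [filter_false_of_mem, sum_empty]
  intro D _
  unfold bet
  generalize D / gg N M = a
  omega

theorem h4c_T (f : ℕ → ℕ) : ∑ β ∈ range (hc N M + 1), f β * TT N M β =
    ∑ β ∈ Icc 4 (hc N M), f β * TT N M β := by
  symm
  refine sum_subset ?_ ?_
  · intro x hx
    rw [mem_Icc] at hx
    rw [mem_range]; omega
  · intro x hx hx2
    rw [mem_range] at hx
    rw [mem_Icc] at hx2
    rw [h4c_TT_zero (by omega), mul_zero]

theorem h4c_shift (S : Finset ℕ) (j : ℕ) :
    ((range (hn N M)).filter (fun v => h4cCol N M lit S v - 1 = j)).card =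
      ((range (hn N M)).filter (fun v => h4cCol N M lit S v = j + 1)).card := by
  refine congrArg card (filter_congr fun v hv => ?_)
  have h1 := h4c_bounds (lit := lit) (S := S) (mem_range.1 hv)
  constructor <;> intro h <;> omega

theorem backward (hlit : ∀ k < 3 * M, lit k < 2 * N)
    (h : ∃ S ⊆ range (2 * dK N M), ∀ β ∈ Icc 4 (hc N M), ∑ i ∈ S, aa N M lit i β = TT N M β) :
    Feas (hn N M) (hc N M) (hp N M lit) (fun j => bud N M lit (j + 1)) := by
  obtain ⟨S, hS, hsum⟩ := h
  have hT1 : T1 N M = ∑ i ∈ S, ∑ β ∈ Icc 4 (hc N M), aa N M lit i β := by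
    have h1 := h4c_T (N := N) (M := M) (fun _ => 1)
    simp only [one_mul] at h1
    unfold T1
    rw [h1, sum_comm]
    exact sum_congr rfl fun β hβ => (hsum β hβ).symm
  have hT2 : T2 N M = ∑ i ∈ S, ∑ β ∈ Icc 4 (hc N M), (β - 1) * aa N M lit i β := by
    have h1 := h4c_T (N := N) (M := M) (fun β => β - 1)
    unfold T2
    rw [h1, sum_comm]
    refine sum_congr rfl fun β hβ => ?_
    rw [← mul_sum, hsum β hβ]
  have hP0 : ∀ j, P0 N M lit j = ∑ i ∈ range (2 * dK N M), h4cCnt N M lit ∅ i j +
      h4cRest N M lit j := by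
    intro j
    unfold P0
    rw [← h4c_total]
    simp only [h4c_ideal]
  refine ⟨fun v => h4cCol N M lit S v - 1, ?_, ?_, ?_⟩
  · intro v hv
    have := h4c_bounds (lit := lit) (S := S) hv
    show h4cCol N M lit S v - 1 < hc N M
    omega
  · intro v hv hv0
    have h1 := h4c_bounds (lit := lit) (S := S) hv
    have h2 := h4c_bounds (lit := lit) (S := S)
      (lt_trans (isPar_hp N M lit v hv0 hv) hv)
    have h3 := h4c_proper (lit := lit) (S := S) hv hv0
    show h4cCol N M lit S v - 1 ≠ h4cCol N M lit S (hp N M lit v) - 1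
    omega
  · intro j hj
    refine (h4c_shift (lit := lit) S j).trans_le ?_
    rw [h4c_total]
    unfold bud
    beta_reduce
    by_cases hj1 : j + 1 = 1
    · rw [if_pos hj1, hP0, hj1, hT1]
      have h1 := (h4c_sum (lit := lit) hS 1 (fun i => ∑ β ∈ Icc 4 (hc N M), aa N M lit i β)).2
        (fun i hi hiS => (h4c_item hi hiS).1)
      omega
    · rw [if_neg hj1]
      by_cases hj2 : j + 1 = 2
      · rw [if_pos hj2, hP0, hj2, hT2]
        have h1 := (h4c_sum (lit := lit) hS 2
          (fun i => ∑ β ∈ Icc 4 (hc N M), (β - 1) * aa N M lit i β)).1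
          (fun i hi hiS => (h4c_item hi hiS).2.1)
        omega
      · rw [if_neg hj2]
        by_cases hj3 : j + 1 = 3
        · rw [if_pos hj3, hP0, hj3, hT2]
          have h1 := (h4c_sum (lit := lit) hS 3
            (fun i => ∑ β ∈ Icc 4 (hc N M), (β - 1) * aa N M lit i β)).2
            (fun i hi hiS => (h4c_item hi hiS).2.2.1)
          omega
        · rw [if_neg hj3, hP0, ← hsum (j + 1) (by rw [mem_Icc]; omega)]
          have h1 := (h4c_sum (lit := lit) hS (j + 1) (fun i => aa N M lit i (j + 1))).1
            (fun i hi hiS => (h4c_item hi hiS).2.2.2 (j + 1) (by omega))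
          omega

end Pool.Agent.BCP
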