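import Mathlib
import Pool.Agent.BCP.H2
import Pool.Agent.BCP.H3
import Pool.Agent.BCP.H4bAux
import Pool.Agent.BCP.H4c

/-!
# Colourings and subsets of the items
-/

namespace Pool.Agent.BCP

open Finset

variable {N M : ℕ} {lit : ℕ → ℕ}

theorem H4a_bet_ge (N M D : ℕ) : 4 ≤ bet N M D := Nat.le_add_right _ _

theorem H4a_bet_le {D : ℕ} (hD : D < dK N M) : bet N M D ≤ hc N M := by
  unfold bet hc
  have h1 : D / gg N M < gg N M := by
    rw [Nat.div_lt_iff_lt_mul (by unfold gg; omega)]
    have := Nat.lt_succ_sqrt (dK N M)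
    unfold gg
    calc D < dK N M := hD
      _ < _ := this
  omega

theorem H4a_TT_zero {β : ℕ} (hβ : β < 4) : TT N M β = 0 := by
  unfold TT
  apply Finset.sum_eq_zero
  intro D hD
  rw [mem_filter] at hD
  have := H4a_bet_ge N M D
  omega

/-- The targets are at most the sums of all vectors. -/
theorem TT_le (hlit : ∀ k < 3 * M, lit k < 2 * N) {β : ℕ} (hβ : 4 ≤ β) :
    TT N M β ≤ ∑ i ∈ range (2 * dK N M), aa N M lit i β := by
  classical
  unfold TT aa
  rw [Finset.sum_comm]
  apply Finset.sum_le_sum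
  intro D hD
  rw [← Finset.sum_mul]
  apply Nat.mul_le_mul_right
  rw [mem_filter, mem_range] at hD
  obtain ⟨hD, -⟩ := hD
  have hsw : ∑ i ∈ range (2 * dK N M), ((range 3).filter (fun r => act N lit i D r)).card =
      ∑ r ∈ range 3, ((range (2 * dK N M)).filter (fun i => act N lit i D r)).card := by
    simp only [Finset.card_filter]
    rw [Finset.sum_comm]
  have hsw' : tau N D ≤ ∑ r ∈ range 3,
      ((range (2 * dK N M)).filter (fun i => act N lit i D r)).card := by
    unfold tau
    unfold dK at hD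
    split_ifs with h
    · have h0 : 1 ≤ ((range (2 * dK N M)).filter (fun i => act N lit i D 0)).card := by
        apply Finset.card_pos.mpr
        refine ⟨2 * D, ?_⟩
        rw [mem_filter, mem_range]
        refine ⟨by unfold dK; omega, Or.inl ⟨h, rfl, by omega, by omega⟩⟩
      calc 1 ≤ _ := h0
        _ ≤ _ := Finset.single_le_sum
          (f := fun r => ((range (2 * dK N M)).filter (fun i => act N lit i D r)).card)
          (fun _ _ => Nat.zero_le _) (mem_range.mpr (by norm_num : 0 < 3))
    · have h0 : ∀ r ∈ range 3, 1 ≤ ((range (2 * dK N M)).filter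
          (fun i => act N lit i D r)).card := by
        intro r hr
        rw [mem_range] at hr
        apply Finset.card_pos.mpr
        have hl := hlit (3 * (D - N) + r) (by omega)
        refine ⟨lit (3 * (D - N) + r), ?_⟩
        rw [mem_filter, mem_range]
        refine ⟨by unfold dK; omega, Or.inr ⟨by omega, Or.inl ⟨hl, rfl⟩⟩⟩
      calc 3 = ∑ r ∈ range 3, 1 := by simp
        _ ≤ _ := Finset.sum_le_sum h0
  exact hsw'.trans_eq hsw.symm

theorem H4a_sum_Icc {f : ℕ → ℕ} (hf : ∀ β < 4, f β = 0) :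
    ∑ β ∈ range (hc N M + 1), f β = ∑ β ∈ Icc 4 (hc N M), f β := by
  symm
  apply Finset.sum_subset
  · intro β hβ
    rw [mem_Icc] at hβ
    rw [mem_range]; omega
  · intro β hβ h
    rw [mem_range] at hβ
    rw [mem_Icc] at h
    apply hf; omega

theorem H4a_hc_ge : 4 ≤ hc N M := by unfold hc gg; omega

theorem H4a_hub_lt {i l : ℕ} (hi : i < 2 * dK N M) (hl : l < Lam N M) :
    hubN N M i + (l + 1) < UU N M := by
  unfold hubN UU
  have h1 : (i + 1) * (Lam N M + 1) ≤ 2 * dK N M * (Lam N M + 1) :=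
    Nat.mul_le_mul_right _ hi
  have h2 : (i + 1) * (Lam N M + 1) = i * (Lam N M + 1) + (Lam N M + 1) := by ring
  omega

theorem H4a_ideal_leaf {i l : ℕ} (hi : i < 2 * dK N M) (hl : l ∈ leaves N M lit i) :
    ideal N M lit (hubN N M i + 1 + l) = if leafT N M l = 0 then 3 else 1 := by
  classical
  unfold leaves at hl
  rw [mem_filter, mem_range] at hl
  obtain ⟨hl, hon⟩ := hl
  have e : hubN N M i + 1 + l = hubN N M i + (l + 1) := by ring
  rw [e]
  have hlt := H4a_hub_lt hi hl
  have hI := uI_hub N M i (l + 1) (by omega)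
  have hL := uL_hub N M i (l + 1) (by omega)
  unfold ideal
  rw [if_pos hlt, if_neg (by omega), hL, hI, if_neg (by omega), Nat.add_sub_cancel, if_pos hon]

theorem H4a_P0_ge (j : ℕ) : ∑ i ∈ range (2 * dK N M),
    ((leaves N M lit i).filter (fun l => (if leafT N M l = 0 then 3 else 1) = j)).card ≤
      P0 N M lit j := by
  classical
  have h1 : P0 N M lit j = ∑ v ∈ range (hn N M), if ideal N M lit v = j then 1 else 0 := by
    unfold P0
    rw [Finset.card_filter]
  rw [h1, sum_all, sum_core]
  have h2 : ∀ i ∈ range (2 * dK N M),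
      ((leaves N M lit i).filter (fun l => (if leafT N M l = 0 then 3 else 1) = j)).card ≤
      (if ideal N M lit (hubN N M i) = j then 1 else 0) +
        ∑ l ∈ range (Lam N M), if ideal N M lit (hubN N M i + 1 + l) = j then 1 else 0 := by
    intro i hi
    rw [mem_range] at hi
    have h3 : ((leaves N M lit i).filter (fun l => (if leafT N M l = 0 then 3 else 1) = j)).card
        = ∑ l ∈ leaves N M lit i, if ideal N M lit (hubN N M i + 1 + l) = j then 1 else 0 := by
      rw [Finset.card_filter]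
      apply Finset.sum_congr rfl
      intro l hl
      rw [H4a_ideal_leaf hi hl]
    rw [h3]
    have h4 : ∑ l ∈ leaves N M lit i, (if ideal N M lit (hubN N M i + 1 + l) = j then 1 else 0)
        ≤ ∑ l ∈ range (Lam N M), if ideal N M lit (hubN N M i + 1 + l) = j then 1 else 0 := by
      apply Finset.sum_le_sum_of_subset
      unfold leaves
      exact Finset.filter_subset _ _
    omega
  have h5 := Finset.sum_le_sum h2
  omega

theorem T1_le (hlit : ∀ k < 3 * M, lit k < 2 * N) : T1 N M ≤ P0 N M lit 1 := by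
  classical
  unfold T1
  rw [H4a_sum_Icc (fun β hβ => H4a_TT_zero hβ)]
  calc ∑ β ∈ Icc 4 (hc N M), TT N M β
      ≤ ∑ β ∈ Icc 4 (hc N M), ∑ i ∈ range (2 * dK N M), aa N M lit i β := by
        apply Finset.sum_le_sum
        intro β hβ
        exact TT_le hlit (mem_Icc.mp hβ).1
    _ = ∑ i ∈ range (2 * dK N M), ∑ β ∈ Icc 4 (hc N M), aa N M lit i β := Finset.sum_comm
    _ ≤ ∑ i ∈ range (2 * dK N M), ((leaves N M lit i).filter
          (fun l => (if leafT N M l = 0 then 3 else 1) = 1)).card := by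
        apply Finset.sum_le_sum
        intro i _
        have h1 : ∑ β ∈ Icc 4 (hc N M), aa N M lit i β = ∑ β ∈ Icc 4 (hc N M),
            ((leaves N M lit i).filter (fun l => leafT N M l = β)).card :=
          Finset.sum_congr rfl (fun β hβ => (card_leaves N M lit (mem_Icc.mp hβ).1).symm)
        rw [h1, ← Finset.card_biUnion]
        · apply Finset.card_le_card
          intro l hl
          rw [mem_biUnion] at hl
          obtain ⟨β, hβ, hl⟩ := hl
          rw [mem_filter] at hl ⊢
          rw [mem_Icc] at hβ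
          refine ⟨hl.1, ?_⟩
          rw [if_neg (by omega)]
        · intro β _ β' _ hne
          rw [Function.onFun, Finset.disjoint_left]
          intro l hl hl'
          rw [mem_filter] at hl hl'
          exact hne (hl.2.symm.trans hl'.2)
    _ ≤ P0 N M lit 1 := H4a_P0_ge 1

theorem T2_le (hlit : ∀ k < 3 * M, lit k < 2 * N) : T2 N M ≤ P0 N M lit 3 := by
  classical
  unfold T2
  rw [H4a_sum_Icc (fun β hβ => by rw [H4a_TT_zero hβ, Nat.mul_zero])]
  calc ∑ β ∈ Icc 4 (hc N M), (β - 1) * TT N M β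
      ≤ ∑ β ∈ Icc 4 (hc N M), ∑ i ∈ range (2 * dK N M), (β - 1) * aa N M lit i β := by
        apply Finset.sum_le_sum
        intro β hβ
        rw [← Finset.mul_sum]
        exact Nat.mul_le_mul_left _ (TT_le hlit (mem_Icc.mp hβ).1)
    _ = ∑ i ∈ range (2 * dK N M), ∑ β ∈ Icc 4 (hc N M), (β - 1) * aa N M lit i β :=
        Finset.sum_comm
    _ ≤ ∑ i ∈ range (2 * dK N M), ((leaves N M lit i).filter
          (fun l => (if leafT N M l = 0 then 3 else 1) = 3)).card := by
        apply Finset.sum_le_sum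
        intro i _
        have h1 := card_leaves_zero N M lit (i := i)
        have h2 : (leaves N M lit i).filter (fun l => leafT N M l = 0) =
            (leaves N M lit i).filter (fun l => (if leafT N M l = 0 then 3 else 1) = 3) := by
          apply Finset.filter_congr
          intro l _
          split_ifs with h <;> simp [h]
        rw [← h2, h1]
        omega
    _ ≤ P0 N M lit 3 := H4a_P0_ge 3

theorem H4a_vq_le {q C y J : ℕ} (hq : 2 ≤ q) (hy : y ≠ 0) (h : y < q ^ (J - 1)) :
    1 + vq q C y ≤ J - 1 := by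
  have hJ : 1 ≤ J - 1 := by
    by_contra hcon
    have : J - 1 = 0 := by omega
    rw [this, pow_zero] at h
    omega
  have h1 : (range C).filter (fun e => q ^ (e + 1) ∣ y) ⊆ range (J - 1 - 1) := by
    intro e he
    rw [mem_filter] at he
    rw [mem_range]
    have h2 := Nat.le_of_dvd (Nat.pos_of_ne_zero hy) he.2
    have h3 : q ^ (e + 1) < q ^ (J - 1) := lt_of_le_of_lt h2 h
    have h4 := (Nat.pow_lt_pow_iff_right (by omega : 1 < q)).mp h3
    omega
  have h5 := Finset.card_le_card h1
  rw [card_range] at h5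
  unfold vq
  omega

theorem H4a_ideal_bounds (v : ℕ) : 1 ≤ ideal N M lit v ∧ ideal N M lit v ≤ hc N M := by
  have hc4 := H4a_hc_ge (N := N) (M := M)
  unfold ideal
  split_ifs with h1 h2 h3 h4 h5 h6
  · omega
  · omega
  · omega
  · omega
  · omega
  · unfold real at h6
    obtain ⟨hb, hx⟩ := h6
    have hJ := blk_bounds N M lit hb
    unfold lb
    split_ifs with h7
    · omega
    · have hq : 2 ≤ qq N M := by
        have := hc_lt_qq N M
        omega
      have := H4a_vq_le (C := hc N M) hq h7 hx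
      omega
  · omega

theorem H4a_sum_range {f : ℕ → ℕ} : ∑ j ∈ range (hc N M), f (j + 1) =
    f 1 + f 2 + f 3 + ∑ β ∈ Icc 4 (hc N M), f β := by
  have hc4 := H4a_hc_ge (N := N) (M := M)
  obtain ⟨m, hm⟩ := Nat.exists_eq_add_of_le hc4
  rw [hm]
  have h1 : ∑ β ∈ Icc 4 (4 + m), f β = ∑ j ∈ range (m + 1), f (4 + j) := by
    have h0 : Icc 4 (4 + m) = Ico 4 (4 + m + 1) := by
      ext x; simp only [mem_Icc, mem_Ico]; omega
    rw [h0, Finset.sum_Ico_eq_sum_range]
    congr 2
    omega
  rw [h1]
  have h2 : range (4 + m) = range (3 + (m + 1)) := by congr 1; ring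
  rw [h2, Finset.sum_range_add]
  congr 1
  · simp [Finset.sum_range_succ]
  · apply Finset.sum_congr rfl
    intro j _
    congr 1
    ring

theorem H4a_sum_P0 (g : ℕ → ℕ) : ∑ j ∈ range (hc N M), g (j + 1) * P0 N M lit (j + 1) =
    ∑ v ∈ range (hn N M), g (ideal N M lit v) := by
  classical
  have h1 : ∀ j ∈ range (hc N M), g (j + 1) * P0 N M lit (j + 1) =
      ∑ v ∈ range (hn N M), if ideal N M lit v = j + 1 then g (ideal N M lit v) else 0 := by
    intro j _
    unfold P0
    rw [← Finset.sum_filter, Finset.sum_congr rfl (g := fun _ => g (j + 1))]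
    · rw [Finset.sum_const, smul_eq_mul, mul_comm]
    · intro v hv
      rw [mem_filter] at hv
      rw [hv.2]
  rw [Finset.sum_congr rfl h1, Finset.sum_comm]
  apply Finset.sum_congr rfl
  intro v _
  have hb := H4a_ideal_bounds (N := N) (M := M) (lit := lit) v
  rw [Finset.sum_eq_single (ideal N M lit v - 1)]
  · rw [if_pos (by omega)]
  · intro j _ hj
    rw [if_neg (by omega)]
  · intro h
    exfalso
    apply h
    rw [mem_range]; omega

theorem sum_bud (hlit : ∀ k < 3 * M, lit k < 2 * N) :
    ∑ j ∈ range (hc N M), bud N M lit (j + 1) = hn N M := by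
  have h1 := H4a_sum_P0 (N := N) (M := M) (lit := lit) (fun _ => 1)
  simp only [one_mul, Finset.sum_const, card_range, smul_eq_mul, mul_one] at h1
  rw [H4a_sum_range (f := fun j => P0 N M lit j)] at h1
  rw [H4a_sum_range (f := fun j => bud N M lit j)]
  have hb1 : bud N M lit 1 = P0 N M lit 1 - T1 N M := by simp [bud]
  have hb2 : bud N M lit 2 = P0 N M lit 2 + T2 N M := by simp [bud]
  have hb3 : bud N M lit 3 = P0 N M lit 3 - T2 N M := by simp [bud]
  have hb4 : ∑ β ∈ Icc 4 (hc N M), bud N M lit β =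
      ∑ β ∈ Icc 4 (hc N M), P0 N M lit β + ∑ β ∈ Icc 4 (hc N M), TT N M β := by
    rw [← Finset.sum_add_distrib]
    apply Finset.sum_congr rfl
    intro β hβ
    rw [mem_Icc] at hβ
    unfold bud
    rw [if_neg (by omega), if_neg (by omega), if_neg (by omega)]
  have hT1 : T1 N M = ∑ β ∈ Icc 4 (hc N M), TT N M β := by
    unfold T1
    rw [H4a_sum_Icc (fun β hβ => H4a_TT_zero hβ)]
  have e1 := T1_le hlit
  have e2 := T2_le hlit
  rw [hb1, hb2, hb3, hb4]
  omega

theorem sum_weighted_bud (hlit : ∀ k < 3 * M, lit k < 2 * N) :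
    ∑ j ∈ range (hc N M), (j + 1) * bud N M lit (j + 1) =
      ∑ v ∈ range (hn N M), ideal N M lit v := by
  have h1 := H4a_sum_P0 (N := N) (M := M) (lit := lit) (fun j => j)
  rw [← h1]
  rw [H4a_sum_range (f := fun j => j * P0 N M lit j)]
  rw [H4a_sum_range (f := fun j => j * bud N M lit j)]
  have hb1 : bud N M lit 1 = P0 N M lit 1 - T1 N M := by simp [bud]
  have hb2 : bud N M lit 2 = P0 N M lit 2 + T2 N M := by simp [bud]
  have hb3 : bud N M lit 3 = P0 N M lit 3 - T2 N M := by simp [bud]
  have hb4 : ∑ β ∈ Icc 4 (hc N M), β * bud N M lit β =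
      ∑ β ∈ Icc 4 (hc N M), β * P0 N M lit β + ∑ β ∈ Icc 4 (hc N M), β * TT N M β := by
    rw [← Finset.sum_add_distrib]
    apply Finset.sum_congr rfl
    intro β hβ
    rw [mem_Icc] at hβ
    unfold bud
    rw [if_neg (by omega), if_neg (by omega), if_neg (by omega)]
    ring
  have hT1 : T1 N M = ∑ β ∈ Icc 4 (hc N M), TT N M β := by
    unfold T1
    rw [H4a_sum_Icc (fun β hβ => H4a_TT_zero hβ)]
  have hT2 : T2 N M = ∑ β ∈ Icc 4 (hc N M), (β - 1) * TT N M β := by
    unfold T2
    rw [H4a_sum_Icc (fun β hβ => by rw [H4a_TT_zero hβ, Nat.mul_zero])]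
  have hT12 : T1 N M + T2 N M = ∑ β ∈ Icc 4 (hc N M), β * TT N M β := by
    rw [hT1, hT2, ← Finset.sum_add_distrib]
    apply Finset.sum_congr rfl
    intro β hβ
    rw [mem_Icc] at hβ
    obtain ⟨m, rfl⟩ := Nat.exists_eq_add_of_le hβ.1
    have : 4 + m - 1 = 3 + m := by omega
    rw [this]; ring
  have e1 := T1_le hlit
  have e2 := T2_le hlit
  rw [hb1, hb2, hb3, hb4, ← hT12]
  omega

theorem forward (hlit : ∀ k < 3 * M, lit k < 2 * N)
    (h : Feas (hn N M) (hc N M) (hp N M lit) (fun j => bud N M lit (j + 1))) :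
    ∃ S ⊆ range (2 * dK N M), ∀ β ∈ Icc 4 (hc N M), ∑ i ∈ S, aa N M lit i β = TT N M β := by
  obtain ⟨φ, h1, h2, h3⟩ := h
  have hmap : ∀ v ∈ range (hn N M), φ v ∈ range (hc N M) := by
    intro v hv
    rw [mem_range] at hv ⊢
    exact h1 v hv
  have hcard : ∑ j ∈ range (hc N M), ((range (hn N M)).filter (fun i => φ i = j)).card =
      hn N M := by
    rw [← Finset.card_eq_sum_card_fiberwise hmap, card_range]
  have e := (Finset.sum_eq_sum_iff_of_le (fun j hj => h3 j (mem_range.1 hj))).1
    (by rw [hcard]; exact (sum_bud hlit).symm)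
  have hs : ∑ v ∈ range (hn N M), (φ v + 1) = ∑ v ∈ range (hn N M), ideal N M lit v := by
    rw [← sum_weighted_bud hlit, ← Finset.sum_fiberwise_of_maps_to hmap]
    apply Finset.sum_congr rfl
    intro j hj
    rw [← e j hj, Finset.sum_congr rfl (g := fun _ => j + 1), Finset.sum_const, smul_eq_mul,
      Nat.mul_comm]
    intro v hv
    rw [mem_filter] at hv
    rw [hv.2]
  have hψ : ∀ v < hn N M, 1 ≤ φ v + 1 ∧ φ v + 1 ≤ hc N M := by
    intro v hv
    have := h1 v hv
    omega
  have hprop : ∀ v < hn N M, 0 < v → φ v + 1 ≠ φ (hp N M lit v) + 1 := by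
    intro v hv h0
    have := h2 v hv h0
    omega
  refine ⟨(range (2 * dK N M)).filter (fun i => φ (hubN N M i) + 1 = 1),
    Finset.filter_subset _ _, ?_⟩
  intro β hβ
  rw [mem_Icc] at hβ
  have hc := H4b_count (fun v => φ v + 1) hψ hprop hs hβ.1
  have hb := e (β - 1) (by rw [mem_range]; omega)
  have hE : (range (hn N M)).filter (fun v => φ v = β - 1) =
      (range (hn N M)).filter (fun v => φ v + 1 = β) := by
    apply Finset.filter_congr
    intro v _
    omega
  rw [hE, hc, Nat.sub_add_cancel (by omega : 1 ≤ β)] at hb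
  unfold bud at hb
  rw [if_neg (by omega), if_neg (by omega), if_neg (by omega)] at hb
  omega

end Pool.Agent.BCP
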