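import Mathlib
import Pool.Agent.BCP.HardDefs

/-!
# Digits
-/

namespace Pool.Agent.BCP

open Finset

variable {N M : ℕ} {lit : ℕ → ℕ}

/-- uniqueness of base 8 digits -/
theorem H6_digits_unique : ∀ (n : ℕ) (f g : ℕ → ℕ), (∀ i < n, f i < 8) → (∀ i < n, g i < 8) →
    ∑ i ∈ range n, f i * 8 ^ i = ∑ i ∈ range n, g i * 8 ^ i → ∀ i < n, f i = g i := by
  intro n
  induction n with
  | zero => intro f g _ _ _ i hi; omega
  | succ n ih =>
    intro f g hf hg h i hi
    have key : ∀ u : ℕ → ℕ, ∑ i ∈ range (n + 1), u i * 8 ^ i =
        8 * ∑ i ∈ range n, u (i + 1) * 8 ^ i + u 0 := by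
      intro u
      rw [Finset.sum_range_succ', Finset.mul_sum]
      simp only [pow_zero, mul_one, add_left_inj]
      refine Finset.sum_congr rfl fun i _ => ?_
      rw [pow_succ]
      ring
    rw [key, key] at h
    have h0f := hf 0 (by omega)
    have h0g := hg 0 (by omega)
    have h0 : f 0 = g 0 := by omega
    have h1 : ∑ i ∈ range n, f (i + 1) * 8 ^ i = ∑ i ∈ range n, g (i + 1) * 8 ^ i := by omega
    cases i with
    | zero => exact h0
    | succ i =>
      exact ih (fun i => f (i + 1)) (fun i => g (i + 1)) (fun i hi => hf _ (by omega))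
        (fun i hi => hg _ (by omega)) h1 i (by omega)

/-- The sum over the digits of one coordinate as a sum over a range. -/
theorem H6_sum_block (K b : ℕ) (f : ℕ → ℕ) :
    ∑ D ∈ (range K).filter (fun D => bet N M D = 4 + b), f D * 8 ^ (D % gg N M) =
      ∑ x ∈ range (gg N M), (if gg N M * b + x < K then f (gg N M * b + x) else 0) * 8 ^ x := by
  have hg : 0 < gg N M := by unfold gg; omega
  symm
  have h1 : ∑ x ∈ range (gg N M), (if gg N M * b + x < K then f (gg N M * b + x) else 0) * 8 ^ x =
      ∑ x ∈ (range (gg N M)).filter (fun x => gg N M * b + x < K),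
        f (gg N M * b + x) * 8 ^ x := by
    rw [Finset.sum_filter]
    refine Finset.sum_congr rfl fun x _ => ?_
    split_ifs <;> simp
  rw [h1]
  refine Finset.sum_bij' (fun x _ => gg N M * b + x) (fun D _ => D % gg N M) ?_ ?_ ?_ ?_ ?_
  · intro x hx
    simp only [mem_filter, mem_range] at hx ⊢
    refine ⟨hx.2, ?_⟩
    unfold bet
    rw [Nat.mul_add_div hg, Nat.div_eq_of_lt hx.1]
    omega
  · intro D hD
    simp only [mem_filter, mem_range] at hD ⊢
    unfold bet at hD
    have : D / gg N M = b := by omega
    refine ⟨Nat.mod_lt _ hg, ?_⟩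
    rw [← this, Nat.div_add_mod]
    exact hD.1
  · intro x hx
    simp only [mem_filter, mem_range] at hx
    show (gg N M * b + x) % gg N M = x
    rw [Nat.mul_add_mod, Nat.mod_eq_of_lt hx.1]
  · intro D hD
    simp only [mem_filter, mem_range] at hD
    unfold bet at hD
    have : D / gg N M = b := by omega
    show gg N M * b + D % gg N M = D
    rw [← this, Nat.div_add_mod]
  · intro x hx
    simp only [mem_filter, mem_range] at hx
    rw [Nat.mul_add_mod, Nat.mod_eq_of_lt hx.1]

open Classical in
/-- Digit `D` of the sum of the vectors of the items in `S`. -/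
noncomputable def H6_cnt (N : ℕ) (lit : ℕ → ℕ) (S : Finset ℕ) (D : ℕ) : ℕ :=
  ∑ i ∈ S, ((range 3).filter (fun r => act N lit i D r)).card

theorem H6_sum_aa (S : Finset ℕ) (β : ℕ) :
    ∑ i ∈ S, aa N M lit i β = ∑ D ∈ (range (dK N M)).filter (fun D => bet N M D = β),
      H6_cnt N lit S D * 8 ^ (D % gg N M) := by
  unfold aa H6_cnt
  rw [Finset.sum_comm]
  refine Finset.sum_congr rfl fun D _ => ?_
  rw [Finset.sum_mul]

open Classical in
theorem H6_cnt_var {S : Finset ℕ} {D : ℕ} (hD : D < N) :
    H6_cnt N lit S D = (if 2 * D ∈ S then 1 else 0) + (if 2 * D + 1 ∈ S then 1 else 0) := by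
  unfold H6_cnt
  have h1 : ∀ i, ((range 3).filter (fun r => act N lit i D r)).card =
      (if i = 2 * D then 1 else 0) + (if i = 2 * D + 1 then 1 else 0) := by
    intro i
    by_cases h : i / 2 = D
    · have : (range 3).filter (fun r => act N lit i D r) = {0} := by
        ext r
        simp only [mem_filter, mem_range, mem_singleton]
        unfold act
        constructor
        · rintro ⟨_, h1 | h1⟩
          · exact h1.2.1
          · omega
        · rintro rfl
          exact ⟨by omega, Or.inl ⟨hD, rfl, by omega, h⟩⟩
      rw [this, card_singleton]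
      have : i = 2 * D ∨ i = 2 * D + 1 := by omega
      rcases this with h | h
      · rw [if_pos h, if_neg (by omega)]
      · rw [if_neg (by omega), if_pos h]
    · have : (range 3).filter (fun r => act N lit i D r) = ∅ := by
        ext r
        simp only [mem_filter, mem_range, notMem_empty, iff_false, not_and]
        unfold act
        intro _ h1
        rcases h1 with h1 | h1
        · exact h h1.2.2.2
        · omega
      rw [this, card_empty, if_neg (by omega), if_neg (by omega)]
  simp_rw [h1, Finset.sum_add_distrib]
  simp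

open Classical in
theorem H6_cnt_clause {S : Finset ℕ} {j : ℕ} (hlit : ∀ r < 3, lit (3 * j + r) < 2 * N) :
    H6_cnt N lit S (N + j) = (∑ r ∈ range 3, if lit (3 * j + r) ∈ S then 1 else 0) +
      ((if 2 * N + 2 * j ∈ S then 1 else 0) + (if 2 * N + 2 * j + 1 ∈ S then 1 else 0)) := by
  unfold H6_cnt
  have h1 : ∀ i, ((range 3).filter (fun r => act N lit i (N + j) r)).card =
      (∑ r ∈ range 3, if i = lit (3 * j + r) then 1 else 0) +
      ((if i = 2 * N + 2 * j then 1 else 0) + (if i = 2 * N + 2 * j + 1 then 1 else 0)) := by
    intro i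
    by_cases h : i < 2 * N
    · rw [if_neg (by omega : ¬ i = 2 * N + 2 * j), if_neg (by omega : ¬ i = 2 * N + 2 * j + 1)]
      simp only [Finset.card_filter, add_zero]
      refine Finset.sum_congr rfl fun r _ => ?_
      congr 1
      rw [eq_iff_iff]
      unfold act
      rw [show N + j - N = j by omega]
      constructor
      · rintro (h1 | h1)
        · omega
        · rcases h1.2 with h2 | h2
          · exact h2.2.symm
          · omega
      · intro h1
        exact Or.inr ⟨by omega, Or.inl ⟨h, h1.symm⟩⟩
    · have h0 : (∑ r ∈ range 3, if i = lit (3 * j + r) then 1 else 0 : ℕ) = 0 := by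
        refine Finset.sum_eq_zero fun r hr => ?_
        have := hlit r (mem_range.1 hr)
        exact if_neg (by omega)
      rw [h0, zero_add]
      by_cases h2 : (i - 2 * N) / 2 = j
      · have : (range 3).filter (fun r => act N lit i (N + j) r) = {0} := by
          ext r
          simp only [mem_filter, mem_range, mem_singleton]
          unfold act
          rw [show N + j - N = j by omega]
          constructor
          · rintro ⟨_, h1 | h1⟩
            · exact h1.2.1
            · rcases h1.2 with h3 | h3
              · omega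
              · exact h3.2.1
          · rintro rfl
            exact ⟨by omega, Or.inr ⟨by omega, Or.inr ⟨by omega, rfl, h2⟩⟩⟩
        rw [this, card_singleton]
        have : i = 2 * N + 2 * j ∨ i = 2 * N + 2 * j + 1 := by omega
        rcases this with h | h
        · rw [if_pos h, if_neg (by omega)]
        · rw [if_neg (by omega), if_pos h]
      · have : (range 3).filter (fun r => act N lit i (N + j) r) = ∅ := by
          ext r
          simp only [mem_filter, mem_range, notMem_empty, iff_false, not_and]
          unfold act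
          rw [show N + j - N = j by omega]
          intro _ h1
          rcases h1 with h1 | h1
          · omega
          · rcases h1.2 with h3 | h3
            · omega
            · exact h2 h3.2.2
        rw [this, card_empty, if_neg (by omega), if_neg (by omega)]
  simp_rw [h1, Finset.sum_add_distrib]
  rw [Finset.sum_comm]
  simp

theorem H6_cnt_lt (hlit : ∀ k < 3 * M, lit k < 2 * N) (S : Finset ℕ) {D : ℕ}
    (hD : D < dK N M) : H6_cnt N lit S D < 8 := by
  classical
  have hite : ∀ p : Prop, ∀ [Decidable p], (if p then 1 else 0 : ℕ) ≤ 1 := by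
    intro p _
    split_ifs <;> omega
  rcases lt_or_ge D N with h | h
  · rw [H6_cnt_var h]
    have h1 := hite (2 * D ∈ S)
    have h2 := hite (2 * D + 1 ∈ S)
    omega
  · obtain ⟨j, rfl⟩ := Nat.exists_eq_add_of_le h
    have hj : j < M := by unfold dK at hD; omega
    rw [H6_cnt_clause (j := j) (fun r hr => hlit _ (by omega))]
    have h1 := hite (2 * N + 2 * j ∈ S)
    have h2 := hite (2 * N + 2 * j + 1 ∈ S)
    have h3 : (∑ r ∈ range 3, if lit (3 * j + r) ∈ S then 1 else 0) ≤ 3 := by
      calc (∑ r ∈ range 3, if lit (3 * j + r) ∈ S then 1 else 0) ≤ ∑ r ∈ range 3, 1 :=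
            Finset.sum_le_sum fun r _ => hite _
        _ = 3 := by simp
    omega

theorem H6_gg_bound {D : ℕ} (hD : D < dK N M) : D / gg N M < gg N M := by
  have hg : 0 < gg N M := by unfold gg; omega
  rw [Nat.div_lt_iff_lt_mul hg]
  have := Nat.lt_succ_sqrt (dK N M)
  unfold gg
  exact hD.trans this

/-- The equality of the sums means equality of the digits. -/
theorem H6_digitwise (hlit : ∀ k < 3 * M, lit k < 2 * N) (S : Finset ℕ) :
    (∀ β ∈ Icc 4 (hc N M), ∑ i ∈ S, aa N M lit i β = TT N M β) ↔
      ∀ D < dK N M, H6_cnt N lit S D = tau N D := by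
  have hg : 0 < gg N M := by unfold gg; omega
  constructor
  · intro h D hD
    have h1 := h (4 + D / gg N M) (by
      rw [mem_Icc]
      have := H6_gg_bound hD
      unfold hc
      exact ⟨Nat.le_add_right _ _, by omega⟩)
    rw [H6_sum_aa, TT, H6_sum_block, H6_sum_block] at h1
    have h2 := H6_digits_unique (gg N M) _ _ ?_ ?_ h1 (D % gg N M) (Nat.mod_lt _ hg)
    · rw [Nat.div_add_mod, if_pos hD, if_pos hD] at h2
      exact h2
    · intro i _
      split_ifs with h3
      · exact H6_cnt_lt hlit S h3
      · omega
    · intro i _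
      split_ifs with h3
      · unfold tau
        split_ifs <;> omega
      · omega
  · intro h β _
    rw [H6_sum_aa, TT]
    refine Finset.sum_congr rfl fun D hD => ?_
    rw [h D (mem_range.1 (mem_filter.1 hD).1)]

theorem digits_iff (hlit : ∀ k < 3 * M, lit k < 2 * N) :
    (∃ S ⊆ range (2 * dK N M), ∀ β ∈ Icc 4 (hc N M), ∑ i ∈ S, aa N M lit i β = TT N M β) ↔
      SatN M lit := by
  classical
  simp_rw [H6_digitwise hlit]
  constructor
  · rintro ⟨S, -, hS⟩
    have hvar : ∀ i < 2 * N, (i ∈ S ↔ i % 2 = if 2 * (i / 2) + 1 ∈ S then 1 else 0) := by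
      intro i hi
      have h1 := hS (i / 2) (by unfold dK; omega)
      rw [H6_cnt_var (by omega), tau, if_pos (show i / 2 < N by omega)] at h1
      rcases Nat.mod_two_eq_zero_or_one i with h2 | h2
      · have h3 : 2 * (i / 2) = i := by omega
        rw [h3] at h1 ⊢
        rw [h2]
        by_cases h4 : i ∈ S
        · rw [if_pos h4] at h1
          have h5 : i + 1 ∉ S := by
            intro h6
            rw [if_pos h6] at h1
            omega
          rw [if_neg h5]
          simp [h4]
        · rw [if_neg h4] at h1
          have h5 : i + 1 ∈ S := by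
            by_contra h6
            rw [if_neg h6] at h1
            omega
          rw [if_pos h5]
          simp [h4]
      · have h3 : 2 * (i / 2) + 1 = i := by omega
        rw [h3, h2]
        by_cases h4 : i ∈ S
        · simp [h4]
        · simp [h4]
    refine ⟨fun v => if 2 * v + 1 ∈ S then 1 else 0, fun j hj => ?_⟩
    have h1 := hS (N + j) (by unfold dK; omega)
    rw [H6_cnt_clause (j := j) (fun r hr => hlit _ (by omega)), tau, if_neg (show ¬ N + j < N by omega)] at h1
    by_contra hcon
    push Not at hcon
    have h2 : (∑ r ∈ range 3, if lit (3 * j + r) ∈ S then 1 else 0) = 0 := by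
      refine Finset.sum_eq_zero fun r hr => ?_
      rw [if_neg]
      intro h3
      exact hcon r (mem_range.1 hr)
        ((hvar _ (hlit _ (by have := mem_range.1 hr; omega))).1 h3)
    rw [h2] at h1
    split_ifs at h1 <;> omega
  · rintro ⟨a, ha⟩
    let t : ℕ → ℕ := fun j => ((range 3).filter (fun r =>
      lit (3 * j + r) % 2 = if a (lit (3 * j + r) / 2) = 1 then 1 else 0)).card
    let S : Finset ℕ := (range (2 * dK N M)).filter (fun i =>
      (i < 2 * N ∧ i % 2 = if a (i / 2) = 1 then 1 else 0) ∨
      (2 * N ≤ i ∧ (i - 2 * N) % 2 + t ((i - 2 * N) / 2) < 3))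
    refine ⟨S, filter_subset _ _, fun D hD => ?_⟩
    have hmem1 : ∀ i < 2 * N, (i ∈ S ↔ i % 2 = if a (i / 2) = 1 then 1 else 0) := by
      intro i hi
      simp only [S, mem_filter, mem_range]
      constructor
      · rintro ⟨_, h | h⟩
        · exact h.2
        · omega
      · intro h
        exact ⟨by unfold dK; omega, Or.inl ⟨hi, h⟩⟩
    have hmem2 : ∀ j < M, ∀ e < 2, (2 * N + 2 * j + e ∈ S ↔ e + t j < 3) := by
      intro j hj e he
      simp only [S, mem_filter, mem_range]
      have h1 : (2 * N + 2 * j + e - 2 * N) % 2 = e := by omega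
      have h2 : (2 * N + 2 * j + e - 2 * N) / 2 = j := by omega
      rw [h1, h2]
      constructor
      · rintro ⟨_, h | h⟩
        · omega
        · exact h.2
      · intro h
        exact ⟨by unfold dK; omega, Or.inr ⟨by omega, h⟩⟩
    rcases lt_or_ge D N with h | h
    · rw [H6_cnt_var h, tau, if_pos h]
      have h1 := hmem1 (2 * D) (by omega)
      have h2 := hmem1 (2 * D + 1) (by omega)
      rw [show 2 * D / 2 = D by omega, show 2 * D % 2 = 0 by omega] at h1
      rw [show (2 * D + 1) / 2 = D by omega, show (2 * D + 1) % 2 = 1 by omega] at h2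
      by_cases h3 : a D = 1
      · rw [if_pos h3] at h1 h2
        rw [if_neg (by rw [h1]; omega), if_pos (by rw [h2])]
      · rw [if_neg h3] at h1 h2
        rw [if_pos (by rw [h1]), if_neg (by rw [h2]; omega)]
    · obtain ⟨j, rfl⟩ := Nat.exists_eq_add_of_le h
      have hj : j < M := by unfold dK at hD; omega
      rw [H6_cnt_clause (j := j) (fun r hr => hlit _ (by omega)), tau, if_neg (show ¬ N + j < N by omega)]
      have h1 := hmem2 j hj 0 (by omega)
      have h2 := hmem2 j hj 1 (by omega)
      rw [add_zero, zero_add] at h1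
      have h3 : (∑ r ∈ range 3, if lit (3 * j + r) ∈ S then 1 else 0) = t j := by
        simp only [t]
        rw [Finset.card_filter]
        refine Finset.sum_congr rfl fun r hr => ?_
        congr 1
        rw [eq_iff_iff]
        exact hmem1 _ (hlit _ (by have := mem_range.1 hr; omega))
      rw [h3]
      have h4 : 1 ≤ t j := by
        obtain ⟨r, hr, hr2⟩ := ha j hj
        refine Finset.card_pos.2 ⟨r, ?_⟩
        rw [mem_filter, mem_range]
        refine ⟨hr, ?_⟩
        rw [hr2]
        split_ifs with h5
        · exact h5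
        · rw [← hr2] at h5 ⊢
          omega
      have h5 : t j ≤ 3 := by
        have := Finset.card_filter_le (range 3) (fun r =>
          lit (3 * j + r) % 2 = if a (lit (3 * j + r) / 2) = 1 then 1 else 0)
        rw [card_range] at this
        exact this
      by_cases h6 : t j < 3
      · rw [if_pos (h1.2 h6)]
        by_cases h7 : 1 + t j < 3
        · rw [if_pos (h2.2 h7)]
          omega
        · rw [if_neg (fun h8 => h7 (h2.1 h8))]
          omega
      · rw [if_neg (fun h8 => h6 (h1.1 h8)), if_neg (fun h8 => by have := h2.1 h8; omega)]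
        omega

end Pool.Agent.BCP
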