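import Mathlib
import Pool.Agent.BCP.Parse
import Pool.Agent.BCP.HardDefs
import Pool.Agent.Lib.PolyTime.Iter
import Pool.Agent.Lib.PolyTime.PB

/-!
# Module HP: the reduction is given by expressions on well padded inputs

`PFo W F`: the function `F` agrees on the inputs with `W` with a function given by an expression.
-/

set_option autoImplicit false

namespace Pool.Agent.BCP

open Finset Pool.Agent.PolyTime

variable {W : List Bool → Prop} {α : Type} [Ctx α]

/-- `F` agrees on `W` with a function given by an expression. -/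
def PFo (W : List Bool → Prop) (F : List Bool → α → ℕ) : Prop :=
  ∃ F' : List Bool → α → ℕ, PF F' ∧ ∀ y, W y → ∀ a, F' y a = F y a

/-- `P` agrees on `W` with a predicate given by an expression. -/
def PDo (W : List Bool → Prop) (P : List Bool → α → Prop) : Prop :=
  ∃ P' : List Bool → α → Prop, PD P' ∧ ∀ y, W y → ∀ a, P' y a ↔ P y a

theorem PFo.of {F : List Bool → α → ℕ} (h : PF F) : PFo W F := ⟨F, h, fun _ _ _ => rfl⟩

theorem PDo.of {P : List Bool → α → Prop} (h : PD P) : PDo W P := ⟨P, h, fun _ _ _ => Iff.rfl⟩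

theorem PFo.congr {F G : List Bool → α → ℕ} (h : PFo W F) (e : ∀ y, W y → ∀ a, F y a = G y a) :
    PFo W G := by
  obtain ⟨F', h1, h2⟩ := h
  exact ⟨F', h1, fun y hy a => (h2 y hy a).trans (e y hy a)⟩

theorem PDo.congr {P Q : List Bool → α → Prop} (h : PDo W P)
    (e : ∀ y, W y → ∀ a, P y a ↔ Q y a) : PDo W Q := by
  obtain ⟨P', h1, h2⟩ := h
  exact ⟨P', h1, fun y hy a => (h2 y hy a).trans (e y hy a)⟩

theorem PFo.const (c : ℕ) : PFo W (fun (_ : List Bool) (_ : α) => c) := PFo.of (PF.const c)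

theorem PFo.snd : PFo W (fun (_ : List Bool) (p : α × ℕ) => p.2) := PFo.of PF.snd

theorem PFo.fst {F : List Bool → α → ℕ} (h : PFo W F) :
    PFo W (fun (y : List Bool) (p : α × ℕ) => F y p.1) := by
  obtain ⟨F', h1, h2⟩ := h
  exact ⟨_, h1.fst, fun y hy a => h2 y hy a.1⟩

theorem PFo.add {F G : List Bool → α → ℕ} (hF : PFo W F) (hG : PFo W G) :
    PFo W (fun y a => F y a + G y a) := by
  obtain ⟨F', h1, h2⟩ := hF
  obtain ⟨G', h3, h4⟩ := hG
  exact ⟨_, h1.add h3, fun y hy a => by rw [h2 y hy a, h4 y hy a]⟩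

theorem PFo.sub {F G : List Bool → α → ℕ} (hF : PFo W F) (hG : PFo W G) :
    PFo W (fun y a => F y a - G y a) := by
  obtain ⟨F', h1, h2⟩ := hF
  obtain ⟨G', h3, h4⟩ := hG
  exact ⟨_, h1.sub h3, fun y hy a => by rw [h2 y hy a, h4 y hy a]⟩

theorem PFo.mul {F G : List Bool → α → ℕ} (hF : PFo W F) (hG : PFo W G) :
    PFo W (fun y a => F y a * G y a) := by
  obtain ⟨F', h1, h2⟩ := hF
  obtain ⟨G', h3, h4⟩ := hG
  exact ⟨_, h1.mul h3, fun y hy a => by rw [h2 y hy a, h4 y hy a]⟩

theorem PFo.div {F G : List Bool → α → ℕ} (hF : PFo W F) (hG : PFo W G) :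
    PFo W (fun y a => F y a / G y a) := by
  obtain ⟨F', h1, h2⟩ := hF
  obtain ⟨G', h3, h4⟩ := hG
  exact ⟨_, h1.div h3, fun y hy a => by rw [h2 y hy a, h4 y hy a]⟩

theorem PFo.mod {F G : List Bool → α → ℕ} (hF : PFo W F) (hG : PFo W G) :
    PFo W (fun y a => F y a % G y a) := by
  obtain ⟨F', h1, h2⟩ := hF
  obtain ⟨G', h3, h4⟩ := hG
  exact ⟨_, h1.mod h3, fun y hy a => by rw [h2 y hy a, h4 y hy a]⟩

theorem PFo.sqrt {F : List Bool → α → ℕ} (hF : PFo W F) : PFo W (fun y a => Nat.sqrt (F y a)) := by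
  obtain ⟨F', h1, h2⟩ := hF
  exact ⟨_, h1.sqrt, fun y hy a => by rw [h2 y hy a]⟩

theorem PDo.not {P : List Bool → α → Prop} (hP : PDo W P) : PDo W (fun y a => ¬ P y a) := by
  obtain ⟨P', h1, h2⟩ := hP
  exact ⟨_, h1.not, fun y hy a => not_congr (h2 y hy a)⟩

theorem PDo.and {P Q : List Bool → α → Prop} (hP : PDo W P) (hQ : PDo W Q) :
    PDo W (fun y a => P y a ∧ Q y a) := by
  obtain ⟨P', h1, h2⟩ := hP
  obtain ⟨Q', h3, h4⟩ := hQ
  exact ⟨_, h1.and h3, fun y hy a => and_congr (h2 y hy a) (h4 y hy a)⟩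

theorem PDo.or {P Q : List Bool → α → Prop} (hP : PDo W P) (hQ : PDo W Q) :
    PDo W (fun y a => P y a ∨ Q y a) := by
  obtain ⟨P', h1, h2⟩ := hP
  obtain ⟨Q', h3, h4⟩ := hQ
  exact ⟨_, h1.or h3, fun y hy a => or_congr (h2 y hy a) (h4 y hy a)⟩

theorem PDo.lt {F G : List Bool → α → ℕ} (hF : PFo W F) (hG : PFo W G) :
    PDo W (fun y a => F y a < G y a) := by
  obtain ⟨F', h1, h2⟩ := hF
  obtain ⟨G', h3, h4⟩ := hG
  exact ⟨_, PD.lt h1 h3, fun y hy a => by rw [h2 y hy a, h4 y hy a]⟩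

theorem PDo.le {F G : List Bool → α → ℕ} (hF : PFo W F) (hG : PFo W G) :
    PDo W (fun y a => F y a ≤ G y a) := by
  obtain ⟨F', h1, h2⟩ := hF
  obtain ⟨G', h3, h4⟩ := hG
  exact ⟨_, PD.le h1 h3, fun y hy a => by rw [h2 y hy a, h4 y hy a]⟩

theorem PDo.eq {F G : List Bool → α → ℕ} (hF : PFo W F) (hG : PFo W G) :
    PDo W (fun y a => F y a = G y a) := by
  obtain ⟨F', h1, h2⟩ := hF
  obtain ⟨G', h3, h4⟩ := hG
  exact ⟨_, PD.eq h1 h3, fun y hy a => by rw [h2 y hy a, h4 y hy a]⟩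

theorem PFo.ite {P : List Bool → α → Prop} [∀ y a, Decidable (P y a)] {F G : List Bool → α → ℕ}
    (hP : PDo W P) (hF : PFo W F) (hG : PFo W G) :
    PFo W (fun y a => if P y a then F y a else G y a) := by
  classical
  obtain ⟨P', h1, h2⟩ := hP
  obtain ⟨F', h3, h4⟩ := hF
  obtain ⟨G', h5, h6⟩ := hG
  refine ⟨_, PF.ite h1 h3 h5, fun y hy a => ?_⟩
  change (if P' y a then F' y a else G' y a) = if P y a then F y a else G y a
  by_cases h : P y a
  · rw [if_pos h, if_pos ((h2 y hy a).2 h), h4 y hy a]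
  · rw [if_neg h, if_neg (fun h' => h ((h2 y hy a).1 h')), h6 y hy a]

theorem PDo.ite {P : List Bool → α → Prop} [∀ y a, Decidable (P y a)] {Q R : List Bool → α → Prop}
    (hP : PDo W P) (hQ : PDo W Q) (hR : PDo W R) :
    PDo W (fun y a => if P y a then Q y a else R y a) := by
  refine ((hP.and hQ).or (hP.not.and hR)).congr fun y _ a => ?_
  by_cases h : P y a
  · simp [h]
  · simp [h]

theorem PFo.sum {B : List Bool → α → ℕ} {F : List Bool → α × ℕ → ℕ} (hB : PFo W B)
    (hF : PFo W F) : PFo W (fun y a => ∑ i ∈ Finset.range (B y a), F y (a, i)) := by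
  obtain ⟨B', h1, h2⟩ := hB
  obtain ⟨F', h3, h4⟩ := hF
  refine ⟨_, h1.sum h3, fun y hy a => ?_⟩
  rw [h2 y hy a]
  exact Finset.sum_congr rfl fun i _ => h4 y hy (a, i)

theorem PFo.count {B : List Bool → α → ℕ} {P : List Bool → α × ℕ → Prop}
    [∀ y a, DecidablePred (fun i => P y (a, i))] (hB : PFo W B) (hP : PDo W P) :
    PFo W (fun y a => ((Finset.range (B y a)).filter (fun i => P y (a, i))).card) := by
  classical
  obtain ⟨B', h1, h2⟩ := hB
  obtain ⟨P', h3, h4⟩ := hP
  refine ⟨_, PF.count h1 h3, fun y hy a => ?_⟩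
  rw [h2 y hy a]
  congr 1
  ext i
  simp only [Finset.mem_filter, h4 y hy (a, i)]

theorem PDo.exists_lt {B : List Bool → α → ℕ} {P : List Bool → α × ℕ → Prop} (hB : PFo W B)
    (hP : PDo W P) : PDo W (fun y a => ∃ i < B y a, P y (a, i)) := by
  obtain ⟨B', h1, h2⟩ := hB
  obtain ⟨P', h3, h4⟩ := hP
  refine ⟨_, PD.exists_lt h1 h3, fun y hy a => ?_⟩
  rw [h2 y hy a]
  exact exists_congr fun i => and_congr_right fun _ => h4 y hy (a, i)

/-- powers of two that are at most the length of the input -/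
theorem PFo.pow2 {E : List Bool → α → ℕ} (hE : PFo W E)
    (hb : ∀ y, W y → ∀ a, 2 ^ E y a ≤ y.length) : PFo W (fun y a => 2 ^ E y a) := by
  classical
  obtain ⟨E', h1, h2⟩ := hE
  refine ⟨_, PF.sum (B := fun y (_ : α) => y.length + 1)
    (F := fun y (p : α × ℕ) => if p.2 = 2 ^ E' y p.1 then p.2 else 0) (PF.len.add (PF.const 1))
    (PF.ite (PD.eq_pow PF.snd h1.fst) PF.snd (PF.const 0)), fun y hy a => ?_⟩
  simp only [h2 y hy a]
  rw [Finset.sum_ite_eq' (Finset.range (y.length + 1)) (2 ^ E y a) (fun i => i)]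
  rw [if_pos (Finset.mem_range.2 (Nat.lt_succ_of_le (hb y hy a)))]

theorem PFo.log2 {F : List Bool → α → ℕ} (hF : PFo W F) : PFo W (fun y a => Nat.log 2 (F y a)) := by
  classical
  obtain ⟨F', h1, h2⟩ := hF
  have h3 : PF (fun y (a : α) => ((Finset.range (F' y a)).filter
      (fun i => ∃ P < F' y a + 1, P = 2 ^ (i + 1))).card) := by
    refine PF.count (P := fun y (p : α × ℕ) => ∃ P < F' y p.1 + 1, P = 2 ^ (p.2 + 1)) h1 ?_
    exact PD.exists_lt (h1.add (PF.const 1)).fst
      (P := fun y (q : (α × ℕ) × ℕ) => q.2 = 2 ^ (q.1.2 + 1))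
      (PD.eq_pow PF.snd (PF.snd.fst.add (PF.const 1)))
  refine ⟨_, h3, fun y hy a => ?_⟩
  change _ = Nat.log 2 (F y a)
  rw [← h2 y hy a]
  generalize F' y a = n
  have : (Finset.range n).filter (fun i => ∃ P < n + 1, P = 2 ^ (i + 1)) =
      Finset.range (Nat.log 2 n) := by
    ext i
    rw [Finset.mem_filter, Finset.mem_range, Finset.mem_range]
    have h4 : (∃ P < n + 1, P = 2 ^ (i + 1)) ↔ 2 ^ (i + 1) ≤ n := by
      constructor
      · rintro ⟨P, h5, rfl⟩; omega
      · intro h5; exact ⟨_, by omega, rfl⟩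
    rw [h4]
    constructor
    · rintro ⟨h5, h6⟩
      exact (Nat.le_log_iff_pow_le (by norm_num) (by omega)).2 h6
    · intro h5
      have h6 : n ≠ 0 := by
        rintro rfl
        simp at h5
      have h7 : 2 ^ (i + 1) ≤ n := (Nat.le_log_iff_pow_le (by norm_num) h6).1 h5
      have h8 : i + 1 < 2 ^ (i + 1) := Nat.lt_two_pow_self
      exact ⟨by omega, h7⟩
  rw [this, Finset.card_range]

/-! ### The unpadded input -/

/-- number of bits before the last `false` -/
def hpCut (y : List Bool) : ℕ :=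
  ((range y.length).filter (fun i => ∃ j < y.length, i < j ∧ ¬ y.getD j false = true)).card

/-- the unpadded input -/
def hpX (y : List Bool) : List Bool := y.take (hpCut y)

theorem hpCut_pf : PF (fun y (_ : α) => hpCut y) := by
  refine PF.count (α := α) (P := fun y (p : α × ℕ) => ∃ j < y.length, p.2 < j ∧
    ¬ y.getD j false = true) PF.len ?_
  exact PD.exists_lt PF.len (P := fun y (q : (α × ℕ) × ℕ) => q.1.2 < q.2 ∧
    ¬ y.getD q.2 false = true) ((PD.lt PF.snd.fst PF.snd).and (PD.bit PF.snd).not)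

theorem hpCut_le (y : List Bool) : hpCut y ≤ y.length := by
  unfold hpCut
  exact (card_filter_le _ _).trans (by rw [card_range])

theorem hpX_bits : PFBits hpX := by
  classical
  refine ⟨hpCut, fun y i => (y.getD i false).toNat, hpCut_pf, PF.inp PF.snd, fun y => ?_⟩
  unfold hpX
  apply List.ext_getElem
  · simp [hpCut_le]
  · intro i h1 h2
    rw [List.getElem_take, List.getElem_map, List.getElem_range]
    have h3 : i < y.length := by
      rw [List.length_take] at h1; omega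
    change y[i] = decide ((y.getD i false).toNat ≠ 0)
    rw [List.getD_eq_getElem _ _ h3]
    cases y[i] <;> simp

theorem hpX_pad (x : List Bool) (m : ℕ) : hpX (x ++ false :: List.replicate m true) = x := by
  have h : hpCut (x ++ false :: List.replicate m true) = x.length := by
    unfold hpCut
    have : (range (x ++ false :: List.replicate m true).length).filter
        (fun i => ∃ j < (x ++ false :: List.replicate m true).length, i < j ∧
          ¬ (x ++ false :: List.replicate m true).getD j false = true) = range x.length := by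
      ext i
      rw [mem_filter, mem_range, mem_range]
      constructor
      · rintro ⟨-, j, hj, hij, hb⟩
        by_contra hcon
        apply hb
        have hj' : x.length ≤ j := by omega
        rw [List.getD_append_right _ _ _ _ hj']
        obtain ⟨k, rfl⟩ : ∃ k, j = x.length + (k + 1) := ⟨j - x.length - 1, by omega⟩
        rw [Nat.add_sub_cancel_left]
        rw [List.getD_cons_succ]
        rw [List.length_append, List.length_cons, List.length_replicate] at hj
        rw [List.getD_eq_getElem _ _ (by rw [List.length_replicate]; omega),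
          List.getElem_replicate]
      · intro hi
        refine ⟨by rw [List.length_append]; omega, x.length, ?_, hi, ?_⟩
        · rw [List.length_append, List.length_cons]; omega
        · rw [List.getD_append_right _ _ _ _ le_rfl, Nat.sub_self]
          simp
    rw [this, card_range]
  unfold hpX
  rw [h, List.take_left']
  rfl

/-- number of variables -/
def hN (y : List Bool) : ℕ := num (hpX y) 0
/-- number of clauses -/
def hM (y : List Bool) : ℕ := num (hpX y) 1
/-- literals -/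
def hL (y : List Bool) (k : ℕ) : ℕ := num (hpX y) (2 + k)

/-- well padded inputs -/
def hW (y : List Bool) : Prop := 4 * hn (hN y) (hM y) ≤ y.length

theorem hp_num {K : List Bool → α → ℕ} (hK : PFo W K) :
    PFo W (fun y a => num (hpX y) (K y a)) := by
  obtain ⟨K', h1, h2⟩ := hK
  have h3 : PF (fun y (p : α × ℕ) => num (hpX y) p.2) :=
    PF.comp hpX_bits (F := fun x (p : α × ℕ) => num x p.2) (pf_num PF.snd)
  exact ⟨_, PF.subst h1 h3, fun y hy a => by
    show num (hpX y) (K' y a) = _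
    rw [h2 y hy a]⟩

theorem hN_pf : PFo W (fun y (_ : α) => hN y) := hp_num (PFo.const 0)
theorem hM_pf : PFo W (fun y (_ : α) => hM y) := hp_num (PFo.const 1)
theorem hL_pf {K : List Bool → α → ℕ} (hK : PFo W K) : PFo W (fun y a => hL y (K y a)) :=
  hp_num ((PFo.const 2).add hK)

theorem dK_pf : PFo W (fun y (_ : α) => dK (hN y) (hM y)) := hN_pf.add hM_pf

theorem gg_pf : PFo W (fun y (_ : α) => gg (hN y) (hM y)) := dK_pf.sqrt.add (PFo.const 1)

theorem hc_pf : PFo W (fun y (_ : α) => hc (hN y) (hM y)) := gg_pf.add (PFo.const 3)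

theorem hh_pf : PFo W (fun y (_ : α) => hh (hN y) (hM y)) :=
  ((hc_pf.add (PFo.const 1)).log2).add (PFo.const 1)

/-! ### Bounds -/

theorem hp_gg_pos (N M : ℕ) : 1 ≤ gg N M := by unfold gg; omega

theorem hp_hh_ge (N M : ℕ) : 3 ≤ hh N M := by
  unfold hh hc
  have h1 := hp_gg_pos N M
  have h2 : Nat.log 2 4 ≤ Nat.log 2 (gg N M + 3 + 1) := Nat.log_mono_right (by omega)
  have h3 : Nat.log 2 4 = 2 := by
    rw [show (4 : ℕ) = 2 ^ 2 by norm_num, Nat.log_pow (by norm_num)]
  omega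

theorem hp_qq_le (N M : ℕ) : qq N M ≤ 2 * (hc N M + 1) := by
  unfold qq hh
  have h1 : 2 ^ Nat.log 2 (hc N M + 1) ≤ hc N M + 1 := Nat.pow_log_le_self 2 (by omega)
  rw [pow_succ]
  omega

theorem hp_UU_pos (N M : ℕ) : 1 ≤ UU N M := by unfold UU; omega

theorem hp_big (N M : ℕ) : ZZ N M * qq N M ≤ hn N M := by
  have h1 := hp_qq_le N M
  have h2 := hp_UU_pos N M
  have h3 : 2 * (hc N M + 1) ≤ Sl N M := by
    unfold Sl HH
    apply Nat.mul_le_mul_right
    have : 4 ≤ hc N M := by unfold hc; have := hp_gg_pos N M; omega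
    calc 2 ≤ hc N M * 1 := by omega
      _ ≤ hc N M * UU N M := Nat.mul_le_mul_left _ h2
  calc ZZ N M * qq N M ≤ ZZ N M * Sl N M := Nat.mul_le_mul_left _ (h1.trans h3)
    _ = 1 * Sl N M * ZZ N M := by ring
    _ ≤ UU N M * Sl N M * ZZ N M := Nat.mul_le_mul_right _ (Nat.mul_le_mul_right _ h2)
    _ ≤ hn N M := by unfold hn; omega

theorem hp_pow_le {y : List Bool} (hy : hW y) {e : ℕ}
    (he : e ≤ hh (hN y) (hM y) * (hc (hN y) (hM y) + 1)) : 2 ^ e ≤ y.length := by
  have h1 := hp_big (hN y) (hM y)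
  have h2 : 2 ^ e ≤ 2 ^ (hh (hN y) (hM y) * (hc (hN y) (hM y) + 1)) :=
    Nat.pow_le_pow_right (by norm_num) he
  have h3 : 2 ^ (hh (hN y) (hM y) * (hc (hN y) (hM y) + 1)) =
      ZZ (hN y) (hM y) * qq (hN y) (hM y) := by
    unfold ZZ qq
    rw [← pow_add]
    congr 1
  unfold hW at hy
  omega

theorem hp_pow_le3 {y : List Bool} (hy : hW y) {e : ℕ}
    (he : e ≤ 3 * gg (hN y) (hM y)) : 2 ^ e ≤ y.length := by
  apply hp_pow_le hy
  have h1 := hp_hh_ge (hN y) (hM y)
  have h2 : gg (hN y) (hM y) ≤ hc (hN y) (hM y) + 1 := by unfold hc; omega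
  calc e ≤ 3 * gg (hN y) (hM y) := he
    _ ≤ _ := Nat.mul_le_mul h1 h2

/-! ### The functions of the reduction -/

theorem qq_pf : PFo hW (fun y (_ : α) => qq (hN y) (hM y)) :=
  PFo.pow2 hh_pf fun y hy _ => hp_pow_le hy (Nat.le_mul_of_pos_right _ (by omega))

theorem YY_pf : PFo hW (fun y (_ : α) => YY (hN y) (hM y)) :=
  PFo.pow2 ((PFo.const 3).mul gg_pf) fun y hy _ => hp_pow_le3 hy le_rfl

theorem ZZ_pf : PFo hW (fun y (_ : α) => ZZ (hN y) (hM y)) :=
  PFo.pow2 (hh_pf.mul hc_pf) fun y hy _ => hp_pow_le hy (Nat.mul_le_mul_left _ (by omega))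

theorem Lam_pf : PFo hW (fun y (_ : α) => Lam (hN y) (hM y)) :=
  ((((PFo.const 3).mul dK_pf).mul YY_pf).mul (hc_pf.add (PFo.const 1))).add (PFo.const 2)

theorem UU_pf : PFo hW (fun y (_ : α) => UU (hN y) (hM y)) :=
  (PFo.const 1).add (((PFo.const 2).mul dK_pf).mul (Lam_pf.add (PFo.const 1)))

theorem HH_pf : PFo hW (fun y (_ : α) => HH (hN y) (hM y)) := hc_pf.mul UU_pf

theorem Sl_pf : PFo hW (fun y (_ : α) => Sl (hN y) (hM y)) := HH_pf.mul (hc_pf.add (PFo.const 1))

theorem hn_pf : PFo hW (fun y (_ : α) => hn (hN y) (hM y)) :=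
  UU_pf.add ((UU_pf.mul Sl_pf).mul ZZ_pf)

theorem bet_pf {D : List Bool → α → ℕ} (hD : PFo W D) :
    PFo W (fun y a => bet (hN y) (hM y) (D y a)) := (PFo.const 4).add (hD.div gg_pf)

theorem act_pd {i D r : List Bool → α → ℕ} (hi : PFo W i) (hD : PFo W D) (hr : PFo W r) :
    PDo W (fun y a => act (hN y) (hL y) (i y a) (D y a) (r y a)) := by
  unfold act
  refine ((PDo.lt hD hN_pf).and ((PDo.eq hr (PFo.const 0)).and
    ((PDo.lt hi ((PFo.const 2).mul hN_pf)).and (PDo.eq (hi.div (PFo.const 2)) hD)))).or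
    ((PDo.le hN_pf hD).and (((PDo.lt hi ((PFo.const 2).mul hN_pf)).and
      (PDo.eq (hL_pf (((PFo.const 3).mul (hD.sub hN_pf)).add hr)) hi)).or
      ((PDo.le ((PFo.const 2).mul hN_pf) hi).and ((PDo.eq hr (PFo.const 0)).and
        (PDo.eq ((hi.sub ((PFo.const 2).mul hN_pf)).div (PFo.const 2)) (hD.sub hN_pf))))))

theorem lD_pf {l : List Bool → α → ℕ} (hl : PFo hW l) :
    PFo hW (fun y a => lD (hN y) (hM y) (l y a)) :=
  ((hl.div (hc_pf.add (PFo.const 1))).div YY_pf).div (PFo.const 3)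

theorem lR_pf {l : List Bool → α → ℕ} (hl : PFo hW l) :
    PFo hW (fun y a => lR (hN y) (hM y) (l y a)) :=
  ((hl.div (hc_pf.add (PFo.const 1))).div YY_pf).mod (PFo.const 3)

theorem lY_pf {l : List Bool → α → ℕ} (hl : PFo hW l) :
    PFo hW (fun y a => lY (hN y) (hM y) (l y a)) :=
  (hl.div (hc_pf.add (PFo.const 1))).mod YY_pf

theorem lE_pf {l : List Bool → α → ℕ} (hl : PFo hW l) :
    PFo hW (fun y a => lE (hN y) (hM y) (l y a)) := hl.mod (hc_pf.add (PFo.const 1))

theorem dig_pf {D : List Bool → α → ℕ} (hD : PFo hW D) :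
    PFo hW (fun y a => 2 ^ (3 * (D y a % gg (hN y) (hM y)))) :=
  PFo.pow2 ((PFo.const 3).mul (hD.mod gg_pf)) fun y hy a => hp_pow_le3 hy
    (Nat.mul_le_mul_left _ (Nat.mod_lt _ (hp_gg_pos _ _)).le)

theorem leafOn_pd {i l : List Bool → α → ℕ} (hi : PFo hW i) (hl : PFo hW l) :
    PDo hW (fun y a => leafOn (hN y) (hM y) (hL y) (i y a) (l y a)) := by
  unfold leafOn
  exact ((PDo.lt (hl.add (PFo.const 2)) Lam_pf).and ((act_pd hi (lD_pf hl) (lR_pf hl)).and
    ((PDo.lt (lY_pf hl) (dig_pf (lD_pf hl))).and (PDo.lt (lE_pf hl) (bet_pf (lD_pf hl)))))).or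
    ((PDo.eq (hl.add (PFo.const 2)) Lam_pf).or (PDo.eq (hl.add (PFo.const 1)) Lam_pf))

theorem leafT_pf {l : List Bool → α → ℕ} (hl : PFo hW l) :
    PFo hW (fun y a => leafT (hN y) (hM y) (l y a)) := by
  unfold leafT
  exact PFo.ite (PDo.eq (hl.add (PFo.const 1)) Lam_pf) (PFo.const 0)
    (PFo.ite (PDo.eq (hl.add (PFo.const 2)) Lam_pf) (PFo.const 3)
      (PFo.ite (PDo.eq (lE_pf hl) (PFo.const 0)) (bet_pf (lD_pf hl)) (PFo.const 0)))

theorem uI_pf {u : List Bool → α → ℕ} (hu : PFo hW u) :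
    PFo hW (fun y a => uI (hN y) (hM y) (u y a)) :=
  (hu.sub (PFo.const 1)).div (Lam_pf.add (PFo.const 1))

theorem uL_pf {u : List Bool → α → ℕ} (hu : PFo hW u) :
    PFo hW (fun y a => uL (hN y) (hM y) (u y a)) :=
  (hu.sub (PFo.const 1)).mod (Lam_pf.add (PFo.const 1))

theorem blk_pd {u j : List Bool → α → ℕ} (hu : PFo hW u) (hj : PFo hW j) :
    PDo hW (fun y a => blk (hN y) (hM y) (hL y) (u y a) (j y a)) := by
  unfold blk
  refine PDo.ite (PDo.eq hu (PFo.const 0))
    ((PDo.le (PFo.const 1) hj).and (PDo.le hj (PFo.const 2)))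
    (PDo.ite (PDo.eq (uL_pf hu) (PFo.const 0))
      ((PDo.le (PFo.const 3) hj).and (PDo.le hj hc_pf))
      ((leafOn_pd (uI_pf hu) ((uL_pf hu).sub (PFo.const 1))).and
        (PDo.ite (PDo.eq (leafT_pf ((uL_pf hu).sub (PFo.const 1))) (PFo.const 0))
          (PDo.eq hj (PFo.const 1))
          ((PDo.le (PFo.const 2) hj).and
            (PDo.lt hj (leafT_pf ((uL_pf hu).sub (PFo.const 1))))))))

/-- powers of the base -/
theorem qpow_pf {e : List Bool → α → ℕ} (he : PFo hW e)
    (hb : ∀ y, hW y → ∀ a, e y a ≤ hc (hN y) (hM y) + 1) :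
    PFo hW (fun y a => qq (hN y) (hM y) ^ e y a) := by
  have h1 : PFo hW (fun y a => 2 ^ (hh (hN y) (hM y) * e y a)) :=
    PFo.pow2 (hh_pf.mul he) fun y hy a => hp_pow_le hy (Nat.mul_le_mul_left _ (hb y hy a))
  exact h1.congr fun y _ a => by unfold qq; rw [pow_mul]

theorem hp_vq_le (q C y : ℕ) : vq q C y ≤ C := by
  unfold vq
  exact (card_filter_le _ _).trans (by rw [card_range])

theorem vq_pf {v : List Bool → α → ℕ} (hv : PFo hW v) :
    PFo hW (fun y a => vq (qq (hN y) (hM y)) (hc (hN y) (hM y)) (v y a)) := by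
  classical
  have h1 : PFo hW (fun y (p : α × ℕ) => qq (hN y) (hM y) ^
      (if p.2 < hc (hN y) (hM y) then p.2 + 1 else 0)) := by
    refine qpow_pf (PFo.ite (PDo.lt PFo.snd hc_pf) (PFo.snd.add (PFo.const 1)) (PFo.const 0)) ?_
    intro y _ p
    split_ifs with h <;> omega
  have h2 := PFo.count (W := hW) (B := fun y (_ : α) => hc (hN y) (hM y))
    (P := fun y (p : α × ℕ) => v y p.1 % (qq (hN y) (hM y) ^
      (if p.2 < hc (hN y) (hM y) then p.2 + 1 else 0)) = 0) hc_pf
    (PDo.eq (hv.fst.mod h1) (PFo.const 0))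
  refine h2.congr fun y _ a => ?_
  unfold vq
  congr 1
  ext e
  simp only [mem_filter, mem_range]
  refine and_congr_right fun he => ?_
  rw [if_pos he, Nat.dvd_iff_mod_eq_zero]

theorem lb_pf {j v : List Bool → α → ℕ} (hj : PFo hW j) (hv : PFo hW v) :
    PFo hW (fun y a => lb (qq (hN y) (hM y)) (hc (hN y) (hM y)) (j y a) (v y a)) := by
  unfold lb
  exact PFo.ite (PDo.eq hv (PFo.const 0)) hj ((PFo.const 1).add (vq_pf hv))

theorem parq_pf {v : List Bool → α → ℕ} (hv : PFo hW v) :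
    PFo hW (fun y a => parq (qq (hN y) (hM y)) (hc (hN y) (hM y)) (v y a)) := by
  unfold parq
  exact hv.sub (hv.mod (qpow_pf ((vq_pf hv).add (PFo.const 1)) fun y _ a =>
    Nat.succ_le_succ (hp_vq_le _ _ _)))

theorem vU_pf {v : List Bool → α → ℕ} (hv : PFo hW v) :
    PFo hW (fun y a => vU (hN y) (hM y) (v y a)) := ((hv.sub UU_pf).div ZZ_pf).div Sl_pf

theorem vS_pf {v : List Bool → α → ℕ} (hv : PFo hW v) :
    PFo hW (fun y a => vS (hN y) (hM y) (v y a)) := ((hv.sub UU_pf).div ZZ_pf).mod Sl_pf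

theorem vJ_pf {v : List Bool → α → ℕ} (hv : PFo hW v) :
    PFo hW (fun y a => vJ (hN y) (hM y) (v y a)) := (vS_pf hv).mod (hc_pf.add (PFo.const 1))

theorem vX_pf {v : List Bool → α → ℕ} (hv : PFo hW v) :
    PFo hW (fun y a => vX (hN y) (hM y) (v y a)) := (hv.sub UU_pf).mod ZZ_pf

theorem real_pd {v : List Bool → α → ℕ} (hv : PFo hW v) :
    PDo hW (fun y a => real (hN y) (hM y) (hL y) (v y a)) := by
  unfold real
  refine (blk_pd (vU_pf hv) (vJ_pf hv)).and (PDo.lt (vX_pf hv)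
    (qpow_pf ((vJ_pf hv).sub (PFo.const 1)) fun y _ a => ?_))
  have : vJ (hN y) (hM y) (v y a) < hc (hN y) (hM y) + 1 := Nat.mod_lt _ (by omega)
  omega

theorem hp_pf {v : List Bool → α → ℕ} (hv : PFo hW v) :
    PFo hW (fun y a => hp (hN y) (hM y) (hL y) (v y a)) := by
  classical
  unfold hp
  exact PFo.ite (PDo.lt hv UU_pf)
    (PFo.ite ((PDo.eq hv (PFo.const 0)).or (PDo.eq (uL_pf hv) (PFo.const 0))) (PFo.const 0)
      (PFo.ite (leafOn_pd (uI_pf hv) ((uL_pf hv).sub (PFo.const 1))) (hv.sub (uL_pf hv))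
        (PFo.const 0)))
    (PFo.ite (real_pd hv)
      (PFo.ite (PDo.eq (vX_pf hv) (PFo.const 0)) (vU_pf hv)
        ((hv.sub (vX_pf hv)).add (parq_pf (vX_pf hv)))) (PFo.const 0))

theorem ideal_pf {v : List Bool → α → ℕ} (hv : PFo hW v) :
    PFo hW (fun y a => ideal (hN y) (hM y) (hL y) (v y a)) := by
  classical
  unfold ideal
  exact PFo.ite (PDo.lt hv UU_pf)
    (PFo.ite (PDo.eq hv (PFo.const 0)) (PFo.const 3)
      (PFo.ite (PDo.eq (uL_pf hv) (PFo.const 0)) (PFo.const 2)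
        (PFo.ite (leafOn_pd (uI_pf hv) ((uL_pf hv).sub (PFo.const 1)))
          (PFo.ite (PDo.eq (leafT_pf ((uL_pf hv).sub (PFo.const 1))) (PFo.const 0)) (PFo.const 3)
            (PFo.const 1)) (PFo.const 1))))
    (PFo.ite (real_pd hv) (lb_pf (vJ_pf hv) (vX_pf hv)) (PFo.const 1))

theorem tau_pf {D : List Bool → α → ℕ} (hD : PFo W D) :
    PFo W (fun y a => tau (hN y) (D y a)) := by
  unfold tau
  exact PFo.ite (PDo.lt hD hN_pf) (PFo.const 1) (PFo.const 3)

theorem TT_pf {β : List Bool → α → ℕ} (hβ : PFo hW β) :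
    PFo hW (fun y a => TT (hN y) (hM y) (β y a)) := by
  have h := PFo.sum (W := hW) (B := fun y (_ : α) => dK (hN y) (hM y))
    (F := fun y (p : α × ℕ) => if bet (hN y) (hM y) p.2 = β y p.1 then
      tau (hN y) p.2 * 2 ^ (3 * (p.2 % gg (hN y) (hM y))) else 0) dK_pf
    (PFo.ite (PDo.eq (bet_pf PFo.snd) hβ.fst) ((tau_pf PFo.snd).mul (dig_pf PFo.snd))
      (PFo.const 0))
  refine h.congr fun y _ a => ?_
  unfold TT
  rw [Finset.sum_filter]
  refine Finset.sum_congr rfl fun D _ => ?_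
  rw [pow_mul]
  norm_num

theorem T1_pf : PFo hW (fun y (_ : α) => T1 (hN y) (hM y)) := by
  unfold T1
  exact PFo.sum (hc_pf.add (PFo.const 1)) (F := fun y (p : α × ℕ) => TT (hN y) (hM y) p.2)
    (TT_pf PFo.snd)

theorem T2_pf : PFo hW (fun y (_ : α) => T2 (hN y) (hM y)) := by
  unfold T2
  exact PFo.sum (hc_pf.add (PFo.const 1))
    (F := fun y (p : α × ℕ) => (p.2 - 1) * TT (hN y) (hM y) p.2)
    ((PFo.snd.sub (PFo.const 1)).mul (TT_pf PFo.snd))

theorem P0_pf {j : List Bool → α → ℕ} (hj : PFo hW j) :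
    PFo hW (fun y a => P0 (hN y) (hM y) (hL y) (j y a)) := by
  unfold P0
  exact PFo.count hn_pf (P := fun y (p : α × ℕ) => ideal (hN y) (hM y) (hL y) p.2 = j y p.1)
    (PDo.eq (ideal_pf PFo.snd) hj.fst)

theorem bud_pf {j : List Bool → α → ℕ} (hj : PFo hW j) :
    PFo hW (fun y a => bud (hN y) (hM y) (hL y) (j y a)) := by
  unfold bud
  exact PFo.ite (PDo.eq hj (PFo.const 1)) ((P0_pf (PFo.const 1)).sub T1_pf)
    (PFo.ite (PDo.eq hj (PFo.const 2)) ((P0_pf (PFo.const 2)).add T2_pf)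
      (PFo.ite (PDo.eq hj (PFo.const 3)) ((P0_pf (PFo.const 3)).sub T2_pf)
        ((P0_pf hj).add (TT_pf hj))))

/-- Lists of numbers given by expressions, in unary, are computed by programs. -/
theorem hp_unary_pc {L : List Bool → ℕ} {B : List Bool → ℕ → ℕ}
    (hL : PF (fun x (_ : Unit) => L x)) (hB : PF (fun x (p : Unit × ℕ) => B x p.2)) :
    PC (fun x => unary ((List.range (L x)).map (B x))) := by
  have h : PL (fun x (_ : Unit) => (List.range (L x)).flatMap
      (fun i => List.replicate (B x i) true ++ [false])) :=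
    PL.flatMap (α := Unit) (G := fun x (p : Unit × ℕ) => List.replicate (B x p.2) true ++ [false])
      hL (PL.append (PL.replicate hB true) (PL.const_cons false))
  obtain ⟨L', P, hL', ⟨F, hF, hPF⟩, e⟩ := h
  refine PFBits.pc ⟨fun x => L' x (), fun x i => F x ((), i), hL', hF, fun x => ?_⟩
  have h1 : unary ((List.range (L x)).map (B x)) = (List.range (L x)).flatMap
      (fun i => List.replicate (B x i) true ++ [false]) := by
    unfold unary
    rw [List.flatMap_map]
  have e' := e x ()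
  change unary ((List.range (L x)).map (B x)) = _
  rw [h1]
  refine Eq.trans e' ?_
  apply List.map_congr_left
  intro i _
  simp only [decide_eq_decide]
  exact hPF x ((), i)

/-- The entries of the code of the instance. -/
noncomputable def hpB (y : List Bool) (i : ℕ) : ℕ :=
  if i = 0 then hn (hN y) (hM y) - 1 else if i = 1 then hc (hN y) (hM y)
  else if i < 2 + (hn (hN y) (hM y) - 1) then hp (hN y) (hM y) (hL y) (i - 2 + 1)
  else bud (hN y) (hM y) (hL y) (i - 2 - (hn (hN y) (hM y) - 1) + 1)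

theorem hpB_pf : PFo hW (fun y (p : Unit × ℕ) => hpB y p.2) := by
  unfold hpB
  exact PFo.ite (PDo.eq PFo.snd (PFo.const 0)) (hn_pf.sub (PFo.const 1))
    (PFo.ite (PDo.eq PFo.snd (PFo.const 1)) hc_pf
      (PFo.ite (PDo.lt PFo.snd ((PFo.const 2).add (hn_pf.sub (PFo.const 1))))
        (hp_pf ((PFo.snd.sub (PFo.const 2)).add (PFo.const 1)))
        (bud_pf (((PFo.snd.sub (PFo.const 2)).sub (hn_pf.sub (PFo.const 1))).add
          (PFo.const 1)))))

theorem hp_list_aux (B f g : ℕ → ℕ) (a b p q : ℕ) (h0 : B 0 = a) (h1 : B 1 = b)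
    (h2 : ∀ i < p, B (2 + i) = f i) (h3 : ∀ j < q, B (2 + p + j) = g j) :
    (List.range (2 + p + q)).map B = a :: b :: ((List.range p).map f ++ (List.range q).map g) := by
  rw [List.range_add, List.map_append, List.range_add, List.map_append, List.map_map,
    List.map_map]
  have e0 : (List.range 2).map B = [a, b] := by
    have : List.range 2 = [0, 1] := rfl
    rw [this, List.map_cons, List.map_cons, List.map_nil, h0, h1]
  have e1 : (List.range p).map (B ∘ fun x => 2 + x) = (List.range p).map f := by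
    apply List.map_congr_left
    intro i hi
    rw [List.mem_range] at hi
    exact h2 i hi
  have e2 : (List.range q).map (B ∘ fun x => 2 + p + x) = (List.range q).map g := by
    apply List.map_congr_left
    intro i hi
    rw [List.mem_range] at hi
    exact h3 i hi
  rw [e0, e1, e2]
  rfl

theorem hpB_list (y : List Bool) :
    (List.range (2 + (hn (hN y) (hM y) - 1) + hc (hN y) (hM y))).map (hpB y) =
      (hn (hN y) (hM y) - 1) :: hc (hN y) (hM y) ::
        ((List.range (hn (hN y) (hM y) - 1)).map (fun i => hp (hN y) (hM y) (hL y) (i + 1)) ++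
        (List.range (hc (hN y) (hM y))).map (fun j => bud (hN y) (hM y) (hL y) (j + 1))) := by
  apply hp_list_aux
  · simp [hpB]
  · simp [hpB]
  · intro i hi
    unfold hpB
    rw [if_neg (by omega), if_neg (by omega), if_pos (by omega), Nat.add_sub_cancel_left]
  · intro j hj
    have e : 2 + (hn (hN y) (hM y) - 1) + j - 2 - (hn (hN y) (hM y) - 1) + 1 = j + 1 := by omega
    unfold hpB
    rw [if_neg (by omega), if_neg (by omega), if_neg (by omega), e]

end Pool.Agent.BCP
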