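import Mathlib
import Pool.Agent.BCP.HardDefs

namespace Pool.Agent.BCP

open Finset

/-- Exponent of the padding. -/
def eB (N M : ℕ) : ℕ := 200 * (Nat.sqrt (N + M) + 1) * (Nat.log 2 (N + M) + 1)

theorem HS_dK (N M : ℕ) : dK N M ≤ 2 ^ (Nat.log 2 (N + M) + 1) :=
  (Nat.lt_pow_succ_log_self (by norm_num) (N + M)).le

theorem HS_hc (N M : ℕ) : hc N M + 1 ≤ 2 ^ (Nat.log 2 (N + M) + 3) := by
  have h1 : N + M < 2 ^ (Nat.log 2 (N + M) + 1) := Nat.lt_pow_succ_log_self (by norm_num) (N + M)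
  have h2 : Nat.sqrt (N + M) ≤ N + M := Nat.sqrt_le_self _
  have h3 : 2 ^ 1 ≤ 2 ^ (Nat.log 2 (N + M) + 1) := Nat.pow_le_pow_right (by norm_num) (by omega)
  have h4 : 2 ^ (Nat.log 2 (N + M) + 3) = 4 * 2 ^ (Nat.log 2 (N + M) + 1) := by
    rw [show Nat.log 2 (N + M) + 3 = 2 + (Nat.log 2 (N + M) + 1) by ring, pow_add]; norm_num
  rw [h4]
  unfold hc gg dK
  omega

theorem HS_hh (N M : ℕ) : hh N M ≤ Nat.log 2 (N + M) + 4 := by
  unfold hh
  have h := Nat.log_mono_right (b := 2) (HS_hc N M)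
  rw [Nat.log_pow (by norm_num)] at h
  omega

theorem hn_le (N M : ℕ) : hn N M ≤ 2 ^ eB N M := by
  have hg : gg N M = Nat.sqrt (N + M) + 1 := rfl
  set l := Nat.log 2 (N + M) with hl
  set g := gg N M with hgg
  have hd : dK N M ≤ 2 ^ (l + 1) := HS_dK N M
  have hc1 : hc N M + 1 ≤ 2 ^ (l + 3) := HS_hc N M
  have hc0 : hc N M ≤ 2 ^ (l + 3) := by omega
  have hcg : hc N M ≤ 4 * g := by
    have : hc N M = g + 3 := rfl
    omega
  have hhh : hh N M ≤ l + 4 := HS_hh N M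
  have hZ : ZZ N M ≤ 2 ^ (16 * ((l + 1) * g)) := by
    unfold ZZ
    apply Nat.pow_le_pow_right (by norm_num)
    calc hh N M * hc N M ≤ (l + 4) * (4 * g) := Nat.mul_le_mul hhh hcg
      _ ≤ (4 * (l + 1)) * (4 * g) := Nat.mul_le_mul_right _ (by omega)
      _ = 16 * ((l + 1) * g) := by ring
  have hY : YY N M = 2 ^ (3 * g) := rfl
  have hLam : Lam N M + 1 ≤ 2 ^ (2 * l + 7 + 3 * g) := by
    have h1 : 3 * dK N M * YY N M * (hc N M + 1) ≤ 2 ^ (2 * l + 6 + 3 * g) := by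
      calc 3 * dK N M * YY N M * (hc N M + 1)
          ≤ 2 ^ 2 * 2 ^ (l + 1) * 2 ^ (3 * g) * 2 ^ (l + 3) := by
            apply Nat.mul_le_mul _ hc1
            rw [hY]
            apply Nat.mul_le_mul_right
            exact Nat.mul_le_mul (by norm_num) hd
        _ = 2 ^ (2 * l + 6 + 3 * g) := by
            rw [← pow_add, ← pow_add, ← pow_add]; congr 1; ring
    have h2 : 2 ^ (2 * l + 7 + 3 * g) = 2 * 2 ^ (2 * l + 6 + 3 * g) := by
      rw [show 2 * l + 7 + 3 * g = (2 * l + 6 + 3 * g) + 1 by ring, pow_succ]; ring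
    have h3 : 2 ^ 2 ≤ 2 ^ (2 * l + 6 + 3 * g) := Nat.pow_le_pow_right (by norm_num) (by omega)
    unfold Lam
    omega
  have hU : UU N M ≤ 2 ^ (3 * l + 10 + 3 * g) := by
    have h1 : 2 * dK N M * (Lam N M + 1) ≤ 2 ^ (3 * l + 9 + 3 * g) := by
      calc 2 * dK N M * (Lam N M + 1) ≤ 2 ^ 1 * 2 ^ (l + 1) * 2 ^ (2 * l + 7 + 3 * g) :=
            Nat.mul_le_mul (Nat.mul_le_mul (by norm_num) hd) hLam
        _ = 2 ^ (3 * l + 9 + 3 * g) := by
            rw [← pow_add, ← pow_add]; congr 1; ring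
    have h2 : 2 ^ (3 * l + 10 + 3 * g) = 2 * 2 ^ (3 * l + 9 + 3 * g) := by
      rw [show 3 * l + 10 + 3 * g = (3 * l + 9 + 3 * g) + 1 by ring, pow_succ]; ring
    have h3 : 2 ^ 1 ≤ 2 ^ (3 * l + 9 + 3 * g) := Nat.pow_le_pow_right (by norm_num) (by omega)
    unfold UU
    omega
  have hH : HH N M ≤ 2 ^ (4 * l + 13 + 3 * g) := by
    calc HH N M = hc N M * UU N M := rfl
      _ ≤ 2 ^ (l + 3) * 2 ^ (3 * l + 10 + 3 * g) := Nat.mul_le_mul hc0 hU
      _ = 2 ^ (4 * l + 13 + 3 * g) := by rw [← pow_add]; congr 1; ring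
  have hS : Sl N M ≤ 2 ^ (5 * l + 16 + 3 * g) := by
    calc Sl N M = HH N M * (hc N M + 1) := rfl
      _ ≤ 2 ^ (4 * l + 13 + 3 * g) * 2 ^ (l + 3) := Nat.mul_le_mul hH hc1
      _ = 2 ^ (5 * l + 16 + 3 * g) := by rw [← pow_add]; congr 1; ring
  set E := (l + 1) * g with hE
  have hg1 : 1 ≤ g := by omega
  have hE1 : l + 1 ≤ E := by
    calc l + 1 = (l + 1) * 1 := by ring
      _ ≤ (l + 1) * g := Nat.mul_le_mul_left _ hg1
  have hE2 : g ≤ E := by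
    calc g = 1 * g := by ring
      _ ≤ (l + 1) * g := Nat.mul_le_mul_right _ (by omega)
  have hp : UU N M * Sl N M * ZZ N M ≤ 2 ^ (8 * l + 26 + 6 * g + 16 * E) := by
    calc UU N M * Sl N M * ZZ N M
        ≤ 2 ^ (3 * l + 10 + 3 * g) * 2 ^ (5 * l + 16 + 3 * g) * 2 ^ (16 * E) :=
          Nat.mul_le_mul (Nat.mul_le_mul hU hS) hZ
      _ = 2 ^ (8 * l + 26 + 6 * g + 16 * E) := by
          rw [← pow_add, ← pow_add]; congr 1; ring
  have hU' : UU N M ≤ 2 ^ (8 * l + 26 + 6 * g + 16 * E) :=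
    hU.trans (Nat.pow_le_pow_right (by norm_num) (by omega))
  have heB : eB N M = 200 * E := by
    unfold eB
    rw [hE, hg, hl]; ring
  rw [heB]
  calc hn N M = UU N M + UU N M * Sl N M * ZZ N M := rfl
    _ ≤ 2 ^ (8 * l + 26 + 6 * g + 16 * E) + 2 ^ (8 * l + 26 + 6 * g + 16 * E) :=
        Nat.add_le_add hU' hp
    _ = 2 ^ (8 * l + 27 + 6 * g + 16 * E) := by
        rw [show 8 * l + 27 + 6 * g + 16 * E = (8 * l + 26 + 6 * g + 16 * E) + 1 by ring, pow_succ]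
        ring
    _ ≤ 2 ^ (200 * E) := Nat.pow_le_pow_right (by norm_num) (by omega)

end Pool.Agent.BCP
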