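import Mathlib
import Pool.Agent.BCP.Parse
import Pool.Agent.BCP.H4
import Pool.Agent.BCP.H6
import Pool.Agent.BCP.HSize
import Pool.Agent.BCP.HPAux
import Pool.Agent.Lib.PolyTime.Iter
import Pool.Agent.Lib.PolyTime.PB

/-!
# The reduction is computable in polynomial time on padded inputs
-/

namespace Pool.Agent.BCP

open Finset Pool.Agent.PolyTime

/-- The code of the instance of a formula. -/
noncomputable def encHard (N M : ℕ) (lit : ℕ → ℕ) : List Bool :=
  unary ((hn N M - 1) :: hc N M :: ((List.range (hn N M - 1)).map (fun i => hp N M lit (i + 1)) ++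
    (List.range (hc N M)).map (fun j => bud N M lit (j + 1))))

/-- The reduction on strings. -/
theorem exists_red : ∃ R : List Bool → List Bool, PC R ∧ ∀ (x : List Bool) (m : ℕ),
    4 * hn (num x 0) (num x 1) ≤ m →
      R (x ++ false :: List.replicate m true) =
        encHard (num x 0) (num x 1) (fun k => num x (2 + k)) := by
  obtain ⟨B', hB', eB⟩ := hpB_pf
  have hlen : PFo hW (fun y (_ : Unit) => 2 + (hn (hN y) (hM y) - 1) + hc (hN y) (hM y)) :=
    ((PFo.const 2).add (hn_pf.sub (PFo.const 1))).add hc_pf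
  obtain ⟨L', hL', eL⟩ := hlen
  refine ⟨fun y => unary ((List.range (L' y ())).map (fun i => B' y ((), i))),
    hp_unary_pc hL' hB', fun x m hm => ?_⟩
  have hX := hpX_pad x m
  have hN' : hN (x ++ false :: List.replicate m true) = num x 0 := by unfold hN; rw [hX]
  have hM' : hM (x ++ false :: List.replicate m true) = num x 1 := by unfold hM; rw [hX]
  have hL'' : hL (x ++ false :: List.replicate m true) = fun k => num x (2 + k) := by
    funext k
    unfold hL; rw [hX]
  have hw : hW (x ++ false :: List.replicate m true) := by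
    unfold hW
    rw [hN', hM', List.length_append, List.length_cons, List.length_replicate]
    omega
  have h1 : (fun i => B' (x ++ false :: List.replicate m true) ((), i)) =
      hpB (x ++ false :: List.replicate m true) := by
    funext i
    exact eB _ hw ((), i)
  have h2 := eL _ hw ()
  simp only at h2 ⊢
  rw [h1, h2, hpB_list, hN', hM', hL'']
  rfl

theorem hq_hn_pos (N M : ℕ) : 0 < hn N M := by
  unfold hn UU
  positivity

theorem hq_ofFn (n : ℕ) (f : ℕ → ℕ) : List.ofFn (fun i : Fin n => f i) = (List.range n).map f := by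
  rw [List.ofFn_eq_map]
  apply List.ext_getElem
  · simp
  · intro i h1 h2
    simp

/-- Correctness. -/
theorem encHard_correct {N M : ℕ} {lit : ℕ → ℕ} (hlit : ∀ k < 3 * M, lit k < 2 * N) :
    ∃ (n c : ℕ) (p : (i : Fin n) → Fin (i + 1)) (b : Fin c → ℕ), 3 ≤ c ∧
      encHard N M lit = encInst p b ∧ (BudgetColorable (treeOf p) b ↔ SatN M lit) := by
  have hpos := hq_hn_pos N M
  have hlt : ∀ i : Fin (hn N M - 1), hp N M lit (i + 1) < (i : ℕ) + 1 := by
    intro i
    exact isPar_hp N M lit (i + 1) (Nat.succ_pos _) (by omega)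
  refine ⟨hn N M - 1, hc N M, fun i => ⟨hp N M lit (i + 1), hlt i⟩,
    fun j => bud N M lit (j + 1), ?_, ?_, ?_⟩
  · unfold hc
    omega
  · unfold encHard encInst
    simp only
    rw [hq_ofFn (hn N M - 1) (fun i => hp N M lit (i + 1)),
      hq_ofFn (hc N M) (fun j => bud N M lit (j + 1))]
  · rw [budgetColorable_iff _ _ (hp N M lit) (fun j => bud N M lit (j + 1)) (fun _ => rfl)
      (fun _ => rfl), show hn N M - 1 + 1 = hn N M by omega, ← digits_iff hlit]
    exact ⟨forward hlit, backward hlit⟩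

theorem hq_num {N M : ℕ} (φ : CNF3 N M) (j : Fin M) (r : Fin 3) :
    num (encCNF φ) (2 + (3 * (j : ℕ) + r)) = 2 * ((φ j r).1 : ℕ) + (φ j r).2.toNat := by
  have hk : 3 * (j : ℕ) + r < M * 3 := by omega
  rw [encCNF, num_unary, show 2 + (3 * (j : ℕ) + r) = (3 * (j : ℕ) + r) + 1 + 1 by omega,
    List.getD_cons_succ, List.getD_cons_succ, List.getD_eq_getElem _ _ (by simpa using hk),
    List.getElem_ofFn]
  have h1 : Fin.divNat (⟨3 * (j : ℕ) + r, hk⟩ : Fin (M * 3)) = j := by
    apply Fin.ext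
    simp only [Fin.coe_divNat]
    omega
  have h2 : Fin.modNat (⟨3 * (j : ℕ) + r, hk⟩ : Fin (M * 3)) = r := by
    apply Fin.ext
    simp only [Fin.coe_modNat]
    omega
  rw [h1, h2]

theorem sat_iff {N M : ℕ} (φ : CNF3 N M) :
    num (encCNF φ) 0 = N ∧ num (encCNF φ) 1 = M ∧
      (∀ k < 3 * M, num (encCNF φ) (2 + k) < 2 * N) ∧
      (SatN M (fun k => num (encCNF φ) (2 + k)) ↔ Sat φ) := by
  refine ⟨by rw [encCNF, num_unary]; rfl, by rw [encCNF, num_unary]; rfl, ?_, ?_⟩
  · intro k hk
    have h := hq_num φ ⟨k / 3, by omega⟩ ⟨k % 3, by omega⟩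
    simp only at h
    rw [show 3 * (k / 3) + k % 3 = k by omega] at h
    rw [h]
    have h1 := (φ ⟨k / 3, by omega⟩ ⟨k % 3, by omega⟩).1.2
    have h2 := Bool.toNat_le (φ ⟨k / 3, by omega⟩ ⟨k % 3, by omega⟩).2
    omega
  · constructor
    · rintro ⟨a, ha⟩
      refine ⟨fun v => decide (a v = 1), fun j => ?_⟩
      obtain ⟨r, hr, h⟩ := ha j j.2
      refine ⟨⟨r, hr⟩, ?_⟩
      have h0 := hq_num φ j ⟨r, hr⟩
      simp only at h0 h
      rw [h0] at h
      cases hs : (φ j ⟨r, hr⟩).2
      · rw [hs] at h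
        simp only [Bool.toNat_false, add_zero] at h
        rw [Nat.mul_mod_right, Nat.mul_div_cancel_left _ (by norm_num)] at h
        rw [decide_eq_false_iff_not]
        omega
      · rw [hs] at h
        simp only [Bool.toNat_true] at h
        rw [decide_eq_true_iff]
        rw [show (2 * ((φ j ⟨r, hr⟩).1 : ℕ) + 1) / 2 = ((φ j ⟨r, hr⟩).1 : ℕ) by omega] at h
        omega
    · rintro ⟨a, ha⟩
      have hA : ∀ v : Fin N, (fun v : ℕ => if h : v < N then (a ⟨v, h⟩).toNat else 0) v =
          (a v).toNat := fun v => by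
        simp only [dif_pos v.2]
      revert hA
      generalize (fun v : ℕ => if h : v < N then (a ⟨v, h⟩).toNat else 0) = A
      intro hA
      refine ⟨A, fun j hj => ?_⟩
      obtain ⟨r, h⟩ := ha ⟨j, hj⟩
      refine ⟨r, r.2, ?_⟩
      have h0 := hq_num φ ⟨j, hj⟩ r
      simp only at h0
      simp only
      rw [h0, ← h]
      have h3 := Bool.toNat_le (a (φ ⟨j, hj⟩ r).1)
      rw [show (2 * ((φ ⟨j, hj⟩ r).1 : ℕ) + (a (φ ⟨j, hj⟩ r).1).toNat) / 2 =
        ((φ ⟨j, hj⟩ r).1 : ℕ) by omega, hA]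
      omega

end Pool.Agent.BCP
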