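import Mathlib
import Pool.Agent.BCP.Defs
import Pool.Agent.Lib.PolyTime.Iter
import Pool.Agent.Lib.PolyTime.PL

/-!
# Padding
-/

namespace Pool.Agent.BCP

open Pool.Agent.PolyTime Turing Function
open Polynomial (X C)

/-! ### Iteration with growing length -/

theorem PD_iterLoop {f : List Bool → List Bool} {P : Prog} {T : ℕ} {R : ℕ} (hR : 2 < R)
    (hPR : Prog.regsLt R P) {N : ℕ}
    (hP : ∀ x, x.length ≤ N → Exec P (Prog.inSt x) (Prog.outSt (f x)) T) :
    ∀ (m : ℕ) (x : List Bool), (∀ j ≤ m, (f^[j] x).length ≤ N) →
      Exec (.loop R (.seq (.pop R) (.seq P (moveK 1 2 0)))) (tri R x (un m) [])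
        (tri R (f^[m] x) [] []) (m * (T + 8 * N + 4) + 1) := by
  intro m
  induction m with
  | zero =>
    intro x _
    refine (Exec.loop_nil ?_).mono (by omega)
    unfold tri
    rw [update_of_ne (by omega), update_self]
    rfl
  | succ m ih =>
    intro x hx
    have e1 : Exec (.pop R) (tri R x (un (m + 1)) []) (tri R x (un m) []) 1 := by
      refine (Exec.pop R _).of_eq ?_
      unfold tri
      rw [update_of_ne (by omega : R ≠ R + 1), update_self]
      funext j
      by_cases h1 : j = R + 1
      · subst h1; simp
      · by_cases h2 : j = R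
        · subst h2; simp [un_succ]
        · simp [h1, h2]
    have hx0 : x.length ≤ N := hx 0 (Nat.zero_le _)
    have hx1 : (f x).length ≤ N := hx 1 (by omega)
    have e2 := step_exec hR hPR (hP x hx0) (un m) []
    have e3 := ih (f x) (fun j hj => by
      have := hx (j + 1) (by omega)
      rwa [Function.iterate_succ_apply] at this)
    have hne : tri R x (un (m + 1)) [] R ≠ [] := by
      unfold tri
      rw [update_of_ne (by omega : R ≠ R + 1), update_self]
      simp
    refine (Exec.loop_cons hne (e1.seq e2) e3).mono ?_
    have : (m + 1) * (T + 8 * N + 4) = m * (T + 8 * N + 4) + (T + 8 * N + 4) := by ring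
    rw [this]
    omega

/-- Iteration of a polynomial-time function without a bound for the growth of the length: the time
is polynomial in the maximal length `W` that occurs. -/
theorem iterate_growing {f : List Bool → List Bool} (hf : PC f) {c : List Bool → ℕ}
    (hc : PC (fun x => List.replicate (c x) true)) :
    ∃ (P : Prog) (U : Polynomial ℕ), ∀ (x : List Bool) (W : ℕ),
      (∀ m ≤ c x, (f^[m] x).length ≤ W) → Exec P (Prog.inSt x) (Prog.outSt (f^[c x] x)) (U.eval W) := by
  obtain ⟨P, T, hP⟩ := hf
  obtain ⟨Q, U, hQ⟩ := hc
  set R := max 3 (max P.maxReg Q.maxReg) with hRdef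
  have hR : 2 < R := by omega
  have hPR : Prog.regsLt R P := Prog.regsLt_mono (by omega) (Prog.regsLt_maxReg P)
  have hQR : Prog.regsLt R Q := Prog.regsLt_mono (by omega) (Prog.regsLt_maxReg Q)
  -- copy the input to `R + 1`
  have a1 : ∀ x, Exec (.seq (moveD 0 2) (moveDD 2 0 (R + 1))) (Prog.inSt x) (tri R x [] x)
      (9 * x.length + 2) := by
    intro x
    have e1 := moveD_exec (k := 0) (k' := 2) (by omega) x (Prog.inSt x) (by simp [Prog.inSt])
    have e2 := moveDD_exec (k := 2) (k' := 0) (k'' := R + 1) (by omega) (by omega) (by omega)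
      x.reverse (update (update (Prog.inSt x) 0 []) 2 (x.reverse ++ Prog.inSt x 2)) (by
        rw [update_self]; simp [Prog.inSt])
    refine ((e1.seq e2).of_eq ?_).mono (by rw [List.length_reverse]; omega)
    unfold tri Prog.inSt
    funext j
    by_cases h1 : j = R + 1
    · subst h1
      rw [update_self, update_self, update_of_ne (by omega : R + 1 ≠ 2),
        update_of_ne (by omega : R + 1 ≠ 0), update_of_ne (by omega : R + 1 ≠ 0)]
      simp
    · rw [update_of_ne h1, update_of_ne h1]
      by_cases h2 : j = R
      · subst h2
        simp only [update_self]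
        rw [update_of_ne (by omega), update_of_ne (by omega), update_of_ne (by omega),
          update_of_ne (by omega), update_of_ne (by omega)]
      · rw [update_of_ne h2]
        by_cases h3 : j = 0
        · subst h3; simp
        · rw [update_of_ne h3]
          by_cases h4 : j = 2
          · subst h4; simp
          · rw [update_of_ne h4, update_of_ne h4, update_of_ne h3, update_of_ne h3]
  -- compute the counter
  have a2 : ∀ x, Exec Q (tri R x [] x) (PolyTime.glue R (Prog.outSt (un (c x))) (tri R [] [] x))
      (U.eval x.length) := by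
    intro x
    have := (hQ x).glue hQR (tri R [] [] x)
    rwa [glue_inSt R hR] at this
  -- move the counter to `R`
  have a3 : ∀ x, Exec (moveU 1 R) (PolyTime.glue R (Prog.outSt (un (c x))) (tri R [] [] x))
      (tri R [] (un (c x)) x) (3 * c x + 1) := by
    intro x
    have e := moveU_exec (k := 1) (k' := R) (by omega) (c x)
      (PolyTime.glue R (Prog.outSt (un (c x))) (tri R [] [] x)) (by
        unfold PolyTime.glue
        rw [if_pos (by omega)]
        simp [Prog.outSt])
    refine e.of_eq ?_
    unfold PolyTime.glue tri Prog.outSt Prog.inSt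
    funext j
    by_cases h1 : j = R + 1
    · subst h1
      rw [update_of_ne (by omega), update_of_ne (by omega), if_neg (by omega), update_self,
        update_self]
    · rw [update_of_ne h1]
      by_cases h2 : j = R
      · subst h2
        rw [update_self, update_self, if_neg (by omega), update_of_ne (by omega), update_self]
        simp
      · rw [update_of_ne h2, update_of_ne h2]
        by_cases h3 : j = 1
        · subst h3
          rw [update_self, update_of_ne (by omega)]
        · rw [update_of_ne h3]
          by_cases h4 : j < R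
          · rw [if_pos h4, update_of_ne h3]
            by_cases h5 : j = 0
            · subst h5; simp
            · rw [update_of_ne h5]
          · rw [if_neg h4, update_of_ne h1, update_of_ne h2]
  -- move the input back
  have a4 : ∀ x a, Exec (moveK (R + 1) 2 0) (tri R [] a x) (tri R x a [])
      (8 * x.length + 2) := by
    intro x a
    have e := moveK_exec (k := R + 1) (c := 2) (k' := 0) (by omega) (by omega) x (tri R [] a x)
      (by unfold tri; rw [update_self]) (by
        unfold tri Prog.inSt
        rw [update_of_ne (by omega), update_of_ne (by omega), update_of_ne (by omega)])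
    refine e.of_eq ?_
    unfold tri Prog.inSt
    funext j
    by_cases h1 : j = R + 1
    · subst h1
      rw [update_of_ne (by omega), update_self, update_self]
    · rw [update_of_ne h1]
      by_cases h2 : j = R
      · subst h2
        rw [update_self, update_of_ne (by omega), update_of_ne h1, update_of_ne h1, update_self]
      · rw [update_of_ne h2]
        by_cases h3 : j = 0
        · subst h3
          rw [update_self, update_self, update_of_ne (by omega), update_of_ne (by omega),
            update_of_ne (by omega), update_self]
          simp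
        · rw [update_of_ne h3, update_of_ne h3, update_of_ne h1, update_of_ne h1,
            update_of_ne h2, update_of_ne h3]
  -- final move
  have a5 : ∀ y, Exec (moveK 0 2 1) (tri R y [] []) (Prog.outSt y) (8 * y.length + 2) := by
    intro y
    have e := moveK_exec (k := 0) (c := 2) (k' := 1) (by omega) (by omega) y (tri R y [] [])
      (by
        unfold tri Prog.inSt
        rw [update_of_ne (by omega), update_of_ne (by omega), update_self]) (by
        unfold tri Prog.inSt
        rw [update_of_ne (by omega), update_of_ne (by omega), update_of_ne (by omega)])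
    refine e.of_eq ?_
    unfold tri Prog.inSt Prog.outSt
    funext j
    by_cases h3 : j = 1
    · subst h3
      rw [update_self, update_self, update_of_ne (by omega), update_of_ne (by omega),
        update_of_ne (by omega), update_of_ne (by omega)]
      simp
    · rw [update_of_ne h3, update_of_ne h3]
      by_cases h4 : j = 0
      · subst h4; rw [update_self]
      · rw [update_of_ne h4]
        by_cases h1 : j = R + 1
        · subst h1; rw [update_self]
        · rw [update_of_ne h1]
          by_cases h2 : j = R
          · subst h2; rw [update_self]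
          · rw [update_of_ne h2, update_of_ne h4]
  have hcl : ∀ x, c x ≤ U.eval x.length := by
    intro x
    have := PC.length_le hQ x
    simpa using this
  refine ⟨.seq (.seq (moveD 0 2) (moveDD 2 0 (R + 1))) (.seq Q (.seq (moveU 1 R)
    (.seq (moveK (R + 1) 2 0) (.seq (.loop R (.seq (.pop R) (.seq P (moveK 1 2 0))))
      (moveK 0 2 1))))),
    9 * X + 2 + (U + (3 * U + 1 + (8 * X + 2 + (U * (T + 8 * X + 4) + 1 + (8 * X + 2))))),
    fun x W hW => ?_⟩
  have a6 := PD_iterLoop (f := f) (T := T.eval W) (N := W) hR hPR
    (fun y hy => (hP y).mono (eval_mono T hy)) (c x) x hW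
  refine ((a1 x).seq ((a2 x).seq ((a3 x).seq ((a4 x _).seq (a6.seq (a5 _)))))).mono ?_
  have h0 : x.length ≤ W := hW 0 (Nat.zero_le _)
  have h1 : c x ≤ U.eval W := (hcl x).trans (eval_mono U h0)
  have h1' : U.eval x.length ≤ U.eval W := eval_mono U h0
  have h2 := hW (c x) le_rfl
  simp only [Polynomial.eval_add, Polynomial.eval_mul, Polynomial.eval_X, Polynomial.eval_one,
      Polynomial.eval_ofNat]
  have h3 : c x * (T.eval W + 8 * W + 4) ≤
      U.eval W * (T.eval W + 8 * W + 4) := Nat.mul_le_mul_right _ h1
  omega

/-- A program that takes `t` steps gives a machine. -/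
theorem outIn_of_exec (P : Prog) : ∃ M : TM2ComputableAux Bool Bool, ∀ (x y : List Bool) (t : ℕ),
    Exec P (Prog.inSt x) (Prog.outSt y) t → OutIn M x y (t + 1) := by
  refine ⟨{ tm := P.toTM, inputAlphabet := Equiv.refl _, outputAlphabet := Equiv.refl _ },
    fun x y T hx => ?_⟩
  obtain ⟨t, ht, hrun⟩ := hx
  have hs := Prog.sim (R := max P.maxReg 1) (L := P.size) P.toTM.m hrun 0 P.size
    (Prog.regsLt_mono (by omega) (Prog.regsLt_maxReg P)) (by omega) (by
      intro l _ hl
      show (if ((Fin.ofNat (P.size + 1) l : Fin (P.size + 1)) : ℕ) < P.size then _ else _) = _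
      rw [Prog.ofNat_val (by omega), if_pos (by omega)])
  refine ⟨⟨⟨t + 1, ?_⟩, ?_⟩⟩
  · have e1 : initList P.toTM x = Prog.cfg (max P.maxReg 1) P.size 0 (Prog.inSt x) := by
      refine Prog.initList_eq P.toTM x (fun k : Fin (max P.maxReg 1 + 1) => Prog.inSt x k) ?_ ?_
      · show Prog.inSt x ((Fin.ofNat (max P.maxReg 1 + 1) 0 : Fin (max P.maxReg 1 + 1)) : ℕ) = x
        rw [Prog.ofNat_val (by omega)]
        simp [Prog.inSt]
      · intro (k : Fin (max P.maxReg 1 + 1)) hk
        show Prog.inSt x (k : ℕ) = []
        have : (k : ℕ) ≠ 0 := by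
          intro h0
          apply hk
          apply Fin.ext
          rw [h0]
          exact (Prog.ofNat_val (by omega)).symm
        unfold Prog.inSt
        rw [update_of_ne this]
    have e2 : haltList P.toTM y =
          (⟨none, none, fun k : Fin (max P.maxReg 1 + 1) => Prog.outSt y k⟩ :
            Prog.MCfg (max P.maxReg 1) P.size) := by
      refine Prog.haltList_eq P.toTM y (fun k : Fin (max P.maxReg 1 + 1) => Prog.outSt y k) ?_ ?_
      · show Prog.outSt y ((Fin.ofNat (max P.maxReg 1 + 1) 1 : Fin (max P.maxReg 1 + 1)) : ℕ) = y
        rw [Prog.ofNat_val (by omega)]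
        simp [Prog.outSt]
      · intro (k : Fin (max P.maxReg 1 + 1)) hk
        show Prog.outSt y (k : ℕ) = []
        have : (k : ℕ) ≠ 1 := by
          intro h0
          apply hk
          apply Fin.ext
          rw [h0]
          exact (Prog.ofNat_val (by omega)).symm
        unfold Prog.outSt
        rw [update_of_ne this]
    have hfin : TM2.step P.toTM.m (Prog.cfg (max P.maxReg 1) P.size P.size (Prog.outSt y)) =
        some (⟨none, none, fun k : Fin (max P.maxReg 1 + 1) => Prog.outSt y k⟩ :
            Prog.MCfg (max P.maxReg 1) P.size) := by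
      have : P.toTM.m (Fin.ofNat _ P.size) = TM2.Stmt.halt := by
        have h1 : ((Fin.ofNat (P.size + 1) P.size : Fin (P.size + 1)) : ℕ) = P.size :=
          Prog.ofNat_val (by omega)
        have h2 : ¬ ((Fin.ofNat (P.size + 1) P.size : Fin (P.size + 1)) : ℕ) < P.size := by
          rw [h1]; omega
        exact if_neg h2
      show some (TM2.stepAux (P.toTM.m (Fin.ofNat _ P.size)) none _) = _
      rw [this]
      rfl
    have key : (flip bind (TM2.step P.toTM.m))^[t + 1]
        (some (Prog.cfg (max P.maxReg 1) P.size 0 (Prog.inSt x))) =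
        some (⟨none, none, fun k : Fin (max P.maxReg 1 + 1) => Prog.outSt y k⟩ :
            Prog.MCfg (max P.maxReg 1) P.size) :=
      hs.trans (Prog.Steps.one hfin)
    have e3 : (List.map (Equiv.refl Bool).invFun x) = x := List.map_id x
    have e4 : (List.map (Equiv.refl Bool).invFun y) = y := List.map_id _
    have g1 : initList P.toTM (List.map (Equiv.refl Bool).invFun x) =
        Prog.cfg (max P.maxReg 1) P.size 0 (Prog.inSt x) :=
      (congrArg (initList P.toTM) e3).trans e1
    have g2 : haltList P.toTM (List.map (Equiv.refl Bool).invFun y) =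
        (⟨none, none, fun k : Fin (max P.maxReg 1 + 1) => Prog.outSt y k⟩ :
            Prog.MCfg (max P.maxReg 1) P.size) := (congrArg (haltList P.toTM) e4).trans e2
    exact (congrArg (fun c => (flip bind (TM2.step P.toTM.m))^[t + 1] (some c)) g1).trans
      (key.trans (congrArg some g2.symm))
  · show t + 1 ≤ T + 1
    omega

/-! ### The padding -/

theorem PD_pfBits {f : List Bool → List Bool} (hf : PL (fun x (_ : Unit) => f x)) : PFBits f := by
  obtain ⟨L, P, hL, ⟨F, hF, hPF⟩, hf⟩ := hf
  refine ⟨fun x => L x (), fun x i => F x ((), i), hL, hF, fun x => ?_⟩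
  refine (hf x ()).trans ?_
  apply List.map_congr_left
  intro i _
  simp only [decide_eq_decide]
  exact hPF x ((), i)

theorem PD_map_getD (x : List Bool) :
    (List.range x.length).map (fun i => x.getD i false) = x := by
  apply List.ext_getElem
  · simp
  · intro i h1 h2
    simp [List.getD_eq_getElem?_getD, List.getElem?_eq_getElem h2]

theorem PD_id : PL (fun x (_ : Unit) => x) :=
  ⟨fun x _ => x.length, fun x p => x.getD p.2 false = true, PF.len, PD.bit PF.snd, fun x _ => by
    conv_lhs => rw [← PD_map_getD x]
    apply List.map_congr_left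
    intro i _
    simp⟩

open Classical in
/-- The number of ones at the end. -/
noncomputable def PD_tr (y : List Bool) : ℕ :=
  ((Finset.range y.length).filter (fun i => ∀ j < y.length, i ≤ j → y.getD j false = true)).card

theorem PD_tr_pf : PF (fun x (_ : Unit) => PD_tr x) := by
  classical
  have h := PF.count (α := Unit) (B := fun x _ => x.length)
    (P := fun x (p : Unit × ℕ) => ∀ j < x.length, (p.2 ≤ j → x.getD j false = true)) PF.len
    (PD.forall_lt (P := fun x (q : (Unit × ℕ) × ℕ) => (q.1.2 ≤ q.2 → x.getD q.2 false = true))
      PF.len ?_)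
  · refine h.congr fun x a => ?_
    unfold PD_tr
    congr
  · refine (((PD.le PF.snd.fst PF.snd).not).or (PD.bit PF.snd)).congr fun x q => ?_
    constructor
    · rintro (h | h) h'
      · exact absurd h' h
      · exact h
    · intro h
      by_cases h' : q.1.2 ≤ q.2
      · exact Or.inr (h h')
      · exact Or.inl h'

theorem PD_tr_eq (x : List Bool) (m : ℕ) :
    PD_tr (x ++ false :: List.replicate m true) = m := by
  classical
  unfold PD_tr
  have hl : (x ++ false :: List.replicate m true).length = x.length + 1 + m := by
    simp; omega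
  have : (Finset.range (x ++ false :: List.replicate m true).length).filter
      (fun i => ∀ j < (x ++ false :: List.replicate m true).length, i ≤ j →
        (x ++ false :: List.replicate m true).getD j false = true) =
      Finset.Ico (x.length + 1) (x.length + 1 + m) := by
    ext i
    rw [Finset.mem_filter, Finset.mem_range, Finset.mem_Ico, hl]
    constructor
    · rintro ⟨h1, h2⟩
      refine ⟨?_, h1⟩
      by_contra h3
      have := h2 x.length (by omega) (by omega)
      rw [List.getD_append_right _ _ _ _ le_rfl] at this
      simp at this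
    · rintro ⟨h1, h2⟩
      refine ⟨h2, fun j hj hij => ?_⟩
      rw [List.getD_append_right _ _ _ _ (by omega)]
      obtain ⟨k, hk⟩ : ∃ k, j - x.length = k + 1 := ⟨j - x.length - 1, by omega⟩
      rw [hk, List.getD_cons_succ, List.getD_eq_getElem?_getD, List.getElem?_replicate,
        if_pos (by omega)]
      rfl
  rw [this, Nat.card_Ico]
  omega

/-- Doubling of the number of ones at the end. -/
noncomputable def PD_dbl (y : List Bool) : List Bool := y ++ List.replicate (PD_tr y) true

theorem PD_dbl_pc : PC PD_dbl :=
  (PD_pfBits (f := PD_dbl) (PD_id.append (PL.replicate PD_tr_pf true))).pc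

theorem PD_dbl_iter (x : List Bool) (m : ℕ) :
    PD_dbl^[m] (x ++ [false, true]) = x ++ false :: List.replicate (2 ^ m) true := by
  induction m with
  | zero => rfl
  | succ m ih =>
    rw [Function.iterate_succ_apply', ih]
    unfold PD_dbl
    rw [PD_tr_eq, List.append_assoc, List.cons_append, ← List.replicate_add, pow_succ, mul_two]

/-- Removal of the last two bits. -/
def PD_drop (y : List Bool) : List Bool := (List.range (y.length - 2)).map (fun i => y.getD i false)

theorem PD_drop_pf : PFBits PD_drop :=
  ⟨fun y => y.length - 2, fun y i => (y.getD i false).toNat, PF.len.sub (PF.const 2), PF.snd.inp,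
    fun y => by
      unfold PD_drop
      apply List.map_congr_left
      intro i _
      show y.getD i false = decide ((y.getD i false).toNat ≠ 0)
      cases y.getD i false <;> rfl⟩

theorem PD_drop_eq (x : List Bool) : PD_drop (x ++ [false, true]) = x := by
  unfold PD_drop
  conv_rhs => rw [← PD_map_getD x]
  have : (x ++ [false, true]).length - 2 = x.length := by simp
  rw [this]
  apply List.map_congr_left
  intro i hi
  rw [List.mem_range] at hi
  rw [List.getD_append _ _ _ _ hi]

theorem PD_ext_pc : PC (fun x => x ++ [false, true]) :=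
  (PD_pfBits ((PD_id.append ((PL.const_cons false).append (PL.const_cons true))))).pc

/-- The padding machine followed by a polynomial-time function. -/
theorem run_padded {c : List Bool → ℕ} (hc : PF (fun x (_ : Unit) => c x))
    {D : List Bool → List Bool} (hD : PC D) :
    ∃ (M : TM2ComputableAux Bool Bool) (V : Polynomial ℕ), ∀ x : List Bool,
      OutIn M x (D (x ++ false :: List.replicate (2 ^ c x) true)) (V.eval (x.length + 2 ^ c x)) := by
  have hc' : PC (fun y => List.replicate (c (PD_drop y)) true) := by
    refine PFBits.pc ⟨fun y => c (PD_drop y), fun _ _ => 1, hc.comp PD_drop_pf, PF.const 1,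
      fun x => ?_⟩
    simp
  obtain ⟨P0, T0, h0⟩ := PD_ext_pc
  obtain ⟨P1, U, h1⟩ := iterate_growing PD_dbl_pc hc'
  obtain ⟨Q, TD, hQ⟩ := hD
  obtain ⟨M, hM⟩ := outIn_of_exec
    (.seq P0 (.seq (moveK 1 2 0) (.seq P1 (.seq (moveK 1 2 0) Q))))
  refine ⟨M, T0 + ((8 * (X + 1) + 2) + (U.comp (X + 1) + ((8 * (X + 1) + 2) +
    TD.comp (X + 1)))) + 1, fun x => ?_⟩
  have hpos : 1 ≤ 2 ^ c x := Nat.one_le_two_pow
  have hlz : ∀ m, (x ++ false :: List.replicate (2 ^ m) true).length = x.length + 2 ^ m + 1 := by
    intro m; simp; omega
  have e1 := h1 (x ++ [false, true]) (x.length + 2 ^ c x + 1) (by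
    intro m hm
    rw [PD_drop_eq] at hm
    rw [PD_dbl_iter, hlz]
    have : 2 ^ m ≤ 2 ^ c x := Nat.pow_le_pow_right (by omega) hm
    omega)
  rw [PD_drop_eq, PD_dbl_iter] at e1
  have e0 := (h0 x).seq ((outSt_to_inSt (x ++ [false, true])).seq (e1.seq
    ((outSt_to_inSt _).seq (hQ _))))
  refine (hM x _ _ e0).mono ?_
  rw [hlz]
  have hl2 : (x ++ [false, true]).length = x.length + 2 := by simp
  rw [hl2]
  have h3 : T0.eval x.length ≤ T0.eval (x.length + 2 ^ c x) := eval_mono T0 (by omega)
  simp only [Polynomial.eval_add, Polynomial.eval_mul, Polynomial.eval_X, Polynomial.eval_one,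
      Polynomial.eval_ofNat, Polynomial.eval_comp]
  omega

end Pool.Agent.BCP
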