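import Mathlib
import Pool.Agent.BCP.Decider
import Pool.Agent.BCP.Pad
import Pool.Agent.BCP.HardPC

/-!
# Main theorem
-/

namespace Pool.Agent.BCP

open Finset Pool.Agent.PolyTime Turing

/-! ### Time bounds -/

theorem ma_poly_le (V : Polynomial ℕ) : ∃ K : ℕ, ∀ y : ℕ, 2 ≤ y → V.eval y ≤ y ^ K := by
  induction V using Polynomial.induction_on' with
  | add p q hp hq =>
    obtain ⟨K, hK⟩ := hp
    obtain ⟨L, hL⟩ := hq
    refine ⟨K + L + 1, fun y hy => ?_⟩
    rw [Polynomial.eval_add]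
    have h1 := hK y hy
    have h2 := hL y hy
    have h3 : y ^ K ≤ y ^ (K + L) := Nat.pow_le_pow_right (by omega) (by omega)
    have h4 : y ^ L ≤ y ^ (K + L) := Nat.pow_le_pow_right (by omega) (by omega)
    have h5 : y ^ (K + L + 1) = y ^ (K + L) * y := pow_succ _ _
    have h6 : y ^ (K + L) * 2 ≤ y ^ (K + L) * y := Nat.mul_le_mul_left _ hy
    omega
  | monomial n c =>
    refine ⟨c + n, fun y hy => ?_⟩
    rw [Polynomial.eval_monomial, pow_add]
    refine Nat.mul_le_mul_right _ ?_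
    calc c ≤ 2 ^ c := Nat.lt_two_pow_self.le
      _ ≤ y ^ c := Nat.pow_le_pow_left hy c

/-- `T` is at most `2 ^ (C E)` for some constant `C`. -/
def MaSB {A : Type} (E T : A → ℕ) : Prop := ∃ C : ℕ, ∀ a, T a ≤ 2 ^ (C * E a)

section MaSB

variable {A : Type} {E T U : A → ℕ}

theorem MaSB.mono (hU : MaSB E U) (h : ∀ a, T a ≤ U a) : MaSB E T := by
  obtain ⟨C, hC⟩ := hU
  exact ⟨C, fun a => (h a).trans (hC a)⟩

theorem MaSB.const (hE : ∀ a, 1 ≤ E a) (c : ℕ) : MaSB E (fun _ => c) :=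
  ⟨c, fun a => Nat.lt_two_pow_self.le.trans
    (Nat.pow_le_pow_right (by omega) (Nat.le_mul_of_pos_right _ (hE a)))⟩

theorem MaSB.mul (hT : MaSB E T) (hU : MaSB E U) : MaSB E (fun a => T a * U a) := by
  obtain ⟨C, hC⟩ := hT
  obtain ⟨D, hD⟩ := hU
  refine ⟨C + D, fun a => ?_⟩
  rw [Nat.add_mul, pow_add]
  exact Nat.mul_le_mul (hC a) (hD a)

theorem MaSB.add (hE : ∀ a, 1 ≤ E a) (hT : MaSB E T) (hU : MaSB E U) :
    MaSB E (fun a => T a + U a) := by
  obtain ⟨C, hC⟩ := hT
  obtain ⟨D, hD⟩ := hU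
  refine ⟨C + D + 1, fun a => ?_⟩
  have h1 : 2 ^ (C * E a) ≤ 2 ^ ((C + D) * E a) :=
    Nat.pow_le_pow_right (by omega) (Nat.mul_le_mul_right _ (by omega))
  have h2 : 2 ^ (D * E a) ≤ 2 ^ ((C + D) * E a) :=
    Nat.pow_le_pow_right (by omega) (Nat.mul_le_mul_right _ (by omega))
  have h3 : 2 ^ ((C + D + 1) * E a) = 2 ^ ((C + D) * E a) * 2 ^ E a := by
    rw [← pow_add]
    congr 1
    ring
  have h4 : 2 ≤ 2 ^ E a := by
    calc 2 = 2 ^ 1 := by norm_num
      _ ≤ 2 ^ E a := Nat.pow_le_pow_right (by omega) (hE a)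
  have h5 : 2 ^ ((C + D) * E a) * 2 ≤ 2 ^ ((C + D) * E a) * 2 ^ E a := Nat.mul_le_mul_left _ h4
  have h6 := hC a
  have h7 := hD a
  show T a + U a ≤ _
  omega

theorem MaSB.poly (hE : ∀ a, 1 ≤ E a) (hT : MaSB E T) (V : Polynomial ℕ) :
    MaSB E (fun a => V.eval (T a)) := by
  obtain ⟨C, hC⟩ := hT
  obtain ⟨K, hK⟩ := ma_poly_le V
  refine ⟨(C + 1) * K, fun a => ?_⟩
  have h1 : T a ≤ 2 ^ ((C + 1) * E a) :=
    (hC a).trans (Nat.pow_le_pow_right (by omega) (Nat.mul_le_mul_right _ (by omega)))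
  have h2 : 2 ≤ 2 ^ ((C + 1) * E a) := by
    calc 2 = 2 ^ 1 := by norm_num
      _ ≤ 2 ^ ((C + 1) * E a) :=
        Nat.pow_le_pow_right (by omega) (Nat.mul_pos (by omega) (hE a))
  calc V.eval (T a) ≤ V.eval (2 ^ ((C + 1) * E a)) := eval_mono V h1
    _ ≤ (2 ^ ((C + 1) * E a)) ^ K := hK _ h2
    _ = 2 ^ ((C + 1) * K * E a) := by
      rw [← pow_mul]
      congr 1
      ring

theorem MaSB.id (E : A → ℕ) : MaSB E E :=
  ⟨1, fun a => by rw [one_mul]; exact Nat.lt_two_pow_self.le⟩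

end MaSB

theorem ma_len (x : List Bool) : x.length < 2 ^ LX x :=
  Nat.lt_pow_succ_log_self (by omega) _

theorem ma_LX_pos (x : List Bool) : 1 ≤ LX x := by unfold LX; omega

theorem ma_one_le_sq (x : List Bool) : 1 ≤ (Nat.log 2 x.length + 1) ^ 2 :=
  Nat.one_le_pow _ _ (by omega)

theorem ma_le_sq {n : ℕ} : n ≤ n ^ 2 := by nlinarith [Nat.zero_le n, Nat.le_mul_self n]

theorem ma_SB_len : MaSB (fun x : List Bool => (Nat.log 2 x.length + 1) ^ 2)
    (fun x => x.length) := by
  refine ⟨1, fun x => (ma_len x).le.trans (Nat.pow_le_pow_right (by omega) ?_)⟩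
  rw [one_mul]
  exact ma_le_sq

/-! ### Logarithms -/

theorem ma_log_eq (n : ℕ) :
    Nat.log 2 n = ((range n).filter (fun e => ∃ P < n + 1, P = 2 ^ (e + 1))).card := by
  classical
  rcases Nat.eq_zero_or_pos n with rfl | hn
  · simp
  · have : (range n).filter (fun e => ∃ P < n + 1, P = 2 ^ (e + 1)) = range (Nat.log 2 n) := by
      ext e
      rw [mem_filter, mem_range, mem_range]
      constructor
      · rintro ⟨_, P, hP, rfl⟩
        exact (Nat.le_log_iff_pow_le (by omega) (by omega)).2 (by omega)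
      · intro h
        have h1 : 2 ^ (e + 1) ≤ n := (Nat.le_log_iff_pow_le (by omega) (by omega)).1 h
        refine ⟨?_, _, Nat.lt_succ_of_le h1, rfl⟩
        have : e + 1 < 2 ^ (e + 1) := Nat.lt_two_pow_self
        omega
    rw [this, card_range]

theorem ma_PF_log {α : Type} [Ctx α] {F : List Bool → α → ℕ} (hF : PF F) :
    PF (fun x a => Nat.log 2 (F x a)) := by
  classical
  have hP : PD (fun x (q : α × ℕ) => ∃ P < F x q.1 + 1, P = 2 ^ (q.2 + 1)) :=
    PD.exists_lt (hF.fst.add (PF.const 1)) (P := fun x (r : (α × ℕ) × ℕ) => r.2 = 2 ^ (r.1.2 + 1))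
      (PD.eq_pow PF.snd (PF.snd.fst.add (PF.const 1)))
  refine (PF.count hF hP).congr fun x a => ?_
  rw [ma_log_eq]

/-! ### The theorems -/

theorem ma_decide {D : List Bool → List Bool} {z : List Bool} {p : Prop} [Decidable p]
    (h1 : D z = [true] ↔ p) (h2 : (D z).length = 1) : D z = [decide p] := by
  obtain ⟨b, hb⟩ := List.length_eq_one_iff.1 h2
  rw [hb] at h1 ⊢
  cases b
  · have : ¬ p := fun hp => by simpa using h1.2 hp
    simp [this]
  · have : p := h1.1 rfl
    simp [this]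

/-- Quasi-polynomial algorithm. -/
theorem quasi_poly : ∃ C : ℕ, DecidedIn BCPTree (fun x => 2 ^ (C * (Nat.log 2 x.length + 1) ^ 2)) := by
  classical
  obtain ⟨D, hD, h⟩ := exists_decider
  have hc : PF (fun (x : List Bool) (_ : Unit) => 40 * (LX x) ^ 2) :=
    (PF.const 40).mul (((ma_PF_log PF.len).add (PF.const 1)).pow 2)
  obtain ⟨M, V, hM⟩ := run_padded hc hD
  have hb : MaSB (fun x : List Bool => (Nat.log 2 x.length + 1) ^ 2)
      (fun x => V.eval (x.length + 2 ^ (40 * (LX x) ^ 2))) :=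
    MaSB.poly ma_one_le_sq (MaSB.add ma_one_le_sq ma_SB_len ⟨40, fun x => le_rfl⟩) V
  obtain ⟨C, hC⟩ := hb
  refine ⟨C, M, fun x => ?_⟩
  obtain ⟨h1, h2⟩ := h x (2 ^ (40 * (LX x) ^ 2)) (tabX_le x)
  have h3 := hM x
  rw [ma_decide h1 h2] at h3
  convert h3.mono (hC x)

/-- Everything reducible to the problem has a quasi-polynomial algorithm. -/
theorem not_hard (L : Set (List Bool)) (f : List Bool → List Bool)
    (hf : Nonempty (TM2ComputableInPolyTime (id : List Bool → List Bool)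
      (id : List Bool → List Bool) f)) (hL : ∀ x, x ∈ L ↔ f x ∈ BCPTree) :
    ∃ C : ℕ, DecidedIn L (fun x => 2 ^ (C * (Nat.log 2 x.length + 1) ^ 2)) := by
  classical
  obtain ⟨C, M, hM⟩ := quasi_poly
  obtain ⟨F⟩ := hf
  set MF := F.toTM2ComputableAux with hMF
  have o1 : ∀ x, OutIn MF x (f x) (F.time.eval x.length) := fun x => by
    have := F.outputsFun x
    simp only [id_eq] at this
    exact ⟨this⟩
  set B : List Bool → ℕ := fun x => x.length + TMComp.npMax MF.tm * F.time.eval x.length with hB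
  have l1 : ∀ x, (f x).length ≤ B x := fun x => (o1 x).len
  -- the logarithm of the length of the output
  have hE1 : ∀ x : List Bool, 1 ≤ LX x := ma_LX_pos
  have hlen1 : MaSB LX (fun x : List Bool => x.length) :=
    ⟨1, fun x => by rw [one_mul]; exact (ma_len x).le⟩
  have hB1 : MaSB LX B :=
    MaSB.add hE1 hlen1 ((MaSB.const hE1 _).mul (MaSB.poly hE1 hlen1 _))
  obtain ⟨K, hK⟩ := hB1
  have hlog : ∀ x, Nat.log 2 (f x).length + 1 ≤ (K + 1) * LX x := fun x => by
    have h1 : (f x).length ≤ 2 ^ (K * LX x) := (l1 x).trans (hK x)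
    have h2 : Nat.log 2 (f x).length ≤ K * LX x := by
      calc Nat.log 2 (f x).length ≤ Nat.log 2 (2 ^ (K * LX x)) := Nat.log_mono_right h1
        _ = K * LX x := Nat.log_pow (by omega) _
    have h3 := hE1 x
    calc Nat.log 2 (f x).length + 1 ≤ K * LX x + LX x := by omega
      _ = (K + 1) * LX x := by ring
  have hE := ma_one_le_sq
  have hT : MaSB (fun x : List Bool => (Nat.log 2 x.length + 1) ^ 2)
      (fun x => 2 ^ (C * (Nat.log 2 (f x).length + 1) ^ 2)) := by
    refine ⟨C * (K + 1) ^ 2, fun x => Nat.pow_le_pow_right (by omega) ?_⟩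
    calc C * (Nat.log 2 (f x).length + 1) ^ 2 ≤ C * ((K + 1) * LX x) ^ 2 :=
          Nat.mul_le_mul_left _ (Nat.pow_le_pow_left (hlog x) 2)
      _ = C * (K + 1) ^ 2 * (Nat.log 2 x.length + 1) ^ 2 := by unfold LX; ring
  have hpoly : MaSB (fun x : List Bool => (Nat.log 2 x.length + 1) ^ 2)
      (fun x => F.time.eval x.length) := MaSB.poly hE ma_SB_len _
  have hB2 : MaSB (fun x : List Bool => (Nat.log 2 x.length + 1) ^ 2) B :=
    MaSB.add hE ma_SB_len ((MaSB.const hE _).mul hpoly)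
  have htot : MaSB (fun x : List Bool => (Nat.log 2 x.length + 1) ^ 2)
      (fun x => F.time.eval x.length + 2 * (B x + 1) +
        2 ^ (C * (Nat.log 2 (f x).length + 1) ^ 2)) :=
    MaSB.add hE (MaSB.add hE hpoly ((MaSB.const hE 2).mul (MaSB.add hE hB2 (MaSB.const hE 1)))) hT
  obtain ⟨C', hC'⟩ := htot
  refine ⟨C', compAux MF M, fun x => ?_⟩
  have h1 := (o1 x).comp (hM (f x))
  have h2 : decide (f x ∈ BCPTree) = decide (x ∈ L) := by
    by_cases h : x ∈ L
    · simp [h, (hL x).1 h]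
    · have h' : f x ∉ BCPTree := fun h' => h ((hL x).2 h')
      simp [h, h']
  have h3 : OutIn (compAux MF M) x [decide (x ∈ L)]
      (F.time.eval x.length + 2 * ((f x).length + 1) +
        2 ^ (C * (Nat.log 2 (f x).length + 1) ^ 2)) := by
    rw [← h2]
    convert h1
  refine h3.mono (le_trans ?_ (hC' x))
  have h4 : 2 * ((f x).length + 1) ≤ 2 * (B x + 1) :=
    Nat.mul_le_mul_left _ (Nat.add_le_add_right (l1 x) _)
  exact Nat.add_le_add_right (Nat.add_le_add_left h4 _) _

theorem ma_length_unary (l : List ℕ) : (unary l).length = l.sum + l.length := by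
  induction l with
  | nil => rfl
  | cons a l ih =>
    simp only [unary, List.flatMap_cons, List.length_append, List.length_replicate,
      List.length_cons, List.length_nil, List.sum_cons] at ih ⊢
    omega

theorem ma_length_encCNF {N M : ℕ} (φ : CNF3 N M) :
    (encCNF φ).length ≤ 2 + N + 4 * M + 6 * (M * N) := by
  unfold encCNF
  rw [ma_length_unary, List.sum_cons, List.sum_cons, List.length_cons, List.length_cons,
    List.length_ofFn, List.sum_ofFn]
  have : ∑ k : Fin (M * 3), (2 * ((φ k.divNat k.modNat).1 : ℕ) + (φ k.divNat k.modNat).2.toNat) ≤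
      ∑ _k : Fin (M * 3), 2 * N := by
    refine sum_le_sum fun k _ => ?_
    have h1 := (φ k.divNat k.modNat).1.2
    have h2 : (φ k.divNat k.modNat).2.toNat ≤ 1 := by
      cases (φ k.divNat k.modNat).2 <;> simp
    omega
  rw [sum_const, card_univ, Fintype.card_fin, smul_eq_mul] at this
  have h2 : M * 3 * (2 * N) = 6 * (M * N) := by ring
  omega

/-- The evaluation of the answer. -/
def maG (y : List Bool) : List Bool := [decide (y.length = 1 ∧ y.getD 0 false = true)]

theorem maG_pc : PC maG := by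
  refine PFBits.pc ?_
  have hP : PD (fun (x : List Bool) (_ : Unit × ℕ) => x.length = 1 ∧ x.getD 0 false = true) :=
    (PD.eq PF.len (PF.const 1)).and (PD.bit (PF.const 0))
  have hF := PF.ite (P := fun (x : List Bool) (_ : Unit × ℕ) =>
    x.length = 1 ∧ x.getD 0 false = true) hP (PF.const 1) (PF.const 0)
  refine ⟨fun _ => 1, fun x _ => if x.length = 1 ∧ x.getD 0 false = true then 1 else 0,
    PF.const 1, hF, fun x => ?_⟩
  unfold maG
  by_cases h : x.length = 1 ∧ x.getD 0 false = true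
  · simp [h]
  · simp only [h, decide_false, if_false, ne_eq, not_true_eq_false, List.range_one, List.map_cons,
      List.map_nil]

theorem maG_eq (y : List Bool) : maG y = [decide (y = [true])] := by
  unfold maG
  congr 1
  rw [decide_eq_decide]
  constructor
  · rintro ⟨h1, h2⟩
    obtain ⟨b, rfl⟩ := List.length_eq_one_iff.1 h1
    simpa using h2
  · rintro rfl
    simp

/-- A polynomial-time algorithm would solve 3-SAT in subexponential time. -/
theorem not_easy (f : List Bool → List Bool)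
    (hf : Nonempty (TM2ComputableInPolyTime (id : List Bool → List Bool)
      (id : List Bool → List Bool) f))
    (hcor : ∀ (n c : ℕ) (p : (i : Fin n) → Fin (i + 1)) (b : Fin c → ℕ), 3 ≤ c →
      (f (encInst p b) = [true] ↔ BudgetColorable (treeOf p) b)) :
    ∃ (A : TM2ComputableAux Bool Bool) (C : ℕ), ∀ (N M : ℕ) (φ : CNF3 N M),
      open Classical in
      OutIn A (encCNF φ) [decide (Sat φ)]
        (2 ^ (C * (Nat.sqrt (N + M) + 1) * (Nat.log 2 (N + M) + 1))) := by
  classical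
  obtain ⟨R, hR, hRx⟩ := exists_red
  obtain ⟨F⟩ := hf
  obtain ⟨G⟩ := maG_pc.polyTime
  -- the padding
  set cc : List Bool → ℕ := fun x => eB (num x 0) (num x 1) + 2 with hcc
  have hnum : ∀ k, PF (fun (x : List Bool) (_ : Unit) => num x k) := fun k => pf_num (PF.const k)
  have hc : PF (fun (x : List Bool) (_ : Unit) => cc x) :=
    (((PF.const 200).mul (((hnum 0).add (hnum 1)).sqrt.add (PF.const 1))).mul
      ((ma_PF_log ((hnum 0).add (hnum 1))).add (PF.const 1))).add (PF.const 2)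
  obtain ⟨M1, V, hM1⟩ := run_padded hc hR
  set MF := F.toTM2ComputableAux with hMF
  set MG := G.toTM2ComputableAux with hMG
  have oF : ∀ x, OutIn MF x (f x) (F.time.eval x.length) := fun x => by
    have := F.outputsFun x
    simp only [id_eq] at this
    exact ⟨this⟩
  have oG : ∀ x, OutIn MG x (maG x) (G.time.eval x.length) := fun x => by
    have := G.outputsFun x
    simp only [id_eq] at this
    exact ⟨this⟩
  -- the index type and the bounds
  let I : Type := Σ (N : ℕ) (M : ℕ), CNF3 N M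
  let E : I → ℕ := fun a => (Nat.sqrt (a.1 + a.2.1) + 1) * (Nat.log 2 (a.1 + a.2.1) + 1)
  have hE : ∀ a : I, 1 ≤ E a := fun a => Nat.mul_pos (by omega) (by omega)
  let X : I → List Bool := fun a => encCNF a.2.2
  have hlen : MaSB E (fun a => (X a).length) := by
    have hs : ∀ a : I, a.1 + a.2.1 ≤ 2 ^ E a := fun a => by
      have h1 : a.1 + a.2.1 < 2 ^ (Nat.log 2 (a.1 + a.2.1) + 1) :=
        Nat.lt_pow_succ_log_self (by omega) _
      refine h1.le.trans (Nat.pow_le_pow_right (by omega) ?_)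
      exact Nat.le_mul_of_pos_left _ (by omega)
    have hN : MaSB E (fun a => a.1) := ⟨1, fun a => by
      rw [one_mul]
      exact (Nat.le_add_right _ _).trans (hs a)⟩
    have hM : MaSB E (fun a => a.2.1) := ⟨1, fun a => by
      rw [one_mul]
      exact (Nat.le_add_left _ _).trans (hs a)⟩
    refine MaSB.mono ?_ (fun a => ma_length_encCNF a.2.2)
    exact MaSB.add hE (MaSB.add hE (MaSB.add hE (MaSB.const hE 2) hN)
      ((MaSB.const hE 4).mul hM)) ((MaSB.const hE 6).mul (hM.mul hN))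
  have hpad : MaSB E (fun a => 2 ^ cc (X a)) := by
    have h1 : MaSB E (fun a => 2 ^ eB a.1 a.2.1 * 4) :=
      MaSB.mul ⟨200, fun a => by
        show 2 ^ eB a.1 a.2.1 ≤ 2 ^ (200 * ((Nat.sqrt (a.1 + a.2.1) + 1) *
          (Nat.log 2 (a.1 + a.2.1) + 1)))
        rw [← mul_assoc]
        exact le_rfl⟩ (MaSB.const hE 4)
    refine h1.mono fun a => ?_
    obtain ⟨h2, h3, -, -⟩ := sat_iff a.2.2
    show 2 ^ (eB (num (encCNF a.2.2) 0) (num (encCNF a.2.2) 1) + 2) ≤ _
    rw [h2, h3, pow_add]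
    exact le_rfl
  set T1 : I → ℕ := fun a => V.eval ((X a).length + 2 ^ cc (X a)) with hT1
  have b1 : MaSB E T1 := MaSB.poly hE (MaSB.add hE hlen hpad) V
  set Y : I → List Bool := fun a =>
    R (X a ++ false :: List.replicate (2 ^ cc (X a)) true) with hY
  set L2 : I → ℕ := fun a => (X a).length + TMComp.npMax M1.tm * T1 a with hL2
  have o1 : ∀ a, OutIn M1 (X a) (Y a) (T1 a) := fun a => hM1 (X a)
  have l2 : ∀ a, (Y a).length ≤ L2 a := fun a => (o1 a).len
  have b2 : MaSB E L2 := MaSB.add hE hlen ((MaSB.const hE _).mul b1)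
  set T2 : I → ℕ := fun a => F.time.eval (L2 a) with hT2
  have b3 : MaSB E T2 := MaSB.poly hE b2 _
  have o2 : ∀ a, OutIn MF (Y a) (f (Y a)) (T2 a) := fun a =>
    (oF (Y a)).mono (eval_mono _ (l2 a))
  set L3 : I → ℕ := fun a => L2 a + TMComp.npMax MF.tm * T2 a with hL3
  have l3 : ∀ a, (f (Y a)).length ≤ L3 a := fun a =>
    (o2 a).len.trans (Nat.add_le_add_right (l2 a) _)
  have b4 : MaSB E L3 := MaSB.add hE b2 ((MaSB.const hE _).mul b3)
  set T3 : I → ℕ := fun a => G.time.eval (L3 a) with hT3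
  have b5 : MaSB E T3 := MaSB.poly hE b4 _
  have o3 : ∀ a, OutIn MG (f (Y a)) (maG (f (Y a))) (T3 a) := fun a =>
    (oG _).mono (eval_mono _ (l3 a))
  have b6 : MaSB E (fun a => (T1 a + 2 * (L2 a + 1) + T2 a) + 2 * (L3 a + 1) + T3 a) :=
    MaSB.add hE (MaSB.add hE
      (MaSB.add hE (MaSB.add hE b1 ((MaSB.const hE 2).mul (MaSB.add hE b2 (MaSB.const hE 1)))) b3)
      ((MaSB.const hE 2).mul (MaSB.add hE b4 (MaSB.const hE 1)))) b5
  obtain ⟨C, hC⟩ := b6
  refine ⟨compAux (compAux M1 MF) MG, C, fun N M φ => ?_⟩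
  set a : I := ⟨N, M, φ⟩ with ha
  have h1 := ((o1 a).comp (o2 a)).comp (o3 a)
  -- correctness
  have hval : maG (f (Y a)) = [decide (Sat φ)] := by
    rw [maG_eq]
    congr 1
    rw [decide_eq_decide]
    obtain ⟨h2, h3, h4, h5⟩ := sat_iff φ
    have h6 : Y a = encHard N M (fun k => num (encCNF φ) (2 + k)) := by
      have h7 : 4 * hn (num (encCNF φ) 0) (num (encCNF φ) 1) ≤ 2 ^ cc (encCNF φ) := by
        show _ ≤ 2 ^ (eB (num (encCNF φ) 0) (num (encCNF φ) 1) + 2)
        rw [pow_add]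
        have := hn_le (num (encCNF φ) 0) (num (encCNF φ) 1)
        omega
      have h8 := hRx (encCNF φ) _ h7
      rw [h2, h3] at h8
      exact h8
    obtain ⟨n, c, p, b, hc3, he, hiff⟩ := encHard_correct h4
    rw [h6, he, hcor n c p b hc3, hiff, h5]
  rw [hval] at h1
  have h9 : OutIn (compAux (compAux M1 MF) MG) (encCNF φ) [decide (Sat φ)]
      ((T1 a + 2 * ((Y a).length + 1) + T2 a) + 2 * ((f (Y a)).length + 1) + T3 a) := h1
  refine h9.mono ?_
  have h10 := hC a
  have e1 : C * (Nat.sqrt (N + M) + 1) * (Nat.log 2 (N + M) + 1) = C * E a := mul_assoc _ _ _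
  rw [e1]
  refine le_trans ?_ h10
  have h11 : 2 * ((Y a).length + 1) ≤ 2 * (L2 a + 1) :=
    Nat.mul_le_mul_left _ (Nat.add_le_add_right (l2 a) _)
  have h12 : 2 * ((f (Y a)).length + 1) ≤ 2 * (L3 a + 1) :=
    Nat.mul_le_mul_left _ (Nat.add_le_add_right (l3 a) _)
  exact Nat.add_le_add_right (Nat.add_le_add (Nat.add_le_add_right
    (Nat.add_le_add_left h11 _) _) h12) _

end Pool.Agent.BCP
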