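import Mathlib
import Pool.Agent.BCP.Main
import Pool.Agent.BCP.AdjA
import Pool.Agent.BCP.Bin

/-!
# The main theorems for instances given by adjacency matrices and binary budgets
-/

namespace Pool.Agent.BCP

open Finset Pool.Agent.PolyTime Turing

/-- Reduction of the language with adjacency matrices and binary budgets to the language with
parent lists. -/
theorem fin_toTree : ∃ F : List Bool → List Bool, PC F ∧ ∀ x, F x ∈ BCPTree ↔ x ∈ BCPTB := by
  obtain ⟨F, hF, h1⟩ := exists_toPar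
  obtain ⟨G, hG, h2⟩ := exists_cap
  exact ⟨fun x => F (G x), hF.comp hG, fun x => (h1 (G x)).trans (h2 x)⟩

/-- Recoding of instances. -/
theorem fin_toB : ∃ F : List Bool → List Bool, PC F ∧
    ∀ (n c : ℕ) (p : (i : Fin n) → Fin (i + 1)) (b : Fin c → ℕ),
      F (encInst p b) = encInstB (treeOf p) b := by
  obtain ⟨F, hF, h1⟩ := exists_toAdj
  obtain ⟨G, hG, h2⟩ := exists_toBin
  exact ⟨fun x => G (F x), hG.comp hF, fun n c p b => by beta_reduce; rw [h1, h2]⟩

/-- Everything reducible to the problem has a quasi-polynomial algorithm. -/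
theorem fin_not_hard (L : Set (List Bool)) (f : List Bool → List Bool)
    (hf : Nonempty (TM2ComputableInPolyTime (id : List Bool → List Bool)
      (id : List Bool → List Bool) f)) (hL : ∀ x, x ∈ L ↔ f x ∈ BCPTB) :
    ∃ C : ℕ, DecidedIn L (fun x => 2 ^ (C * (Nat.log 2 x.length + 1) ^ 2)) := by
  obtain ⟨F, hF, h1⟩ := fin_toTree
  exact not_hard L (fun x => F (f x)) (polyTime_comp hf hF.polyTime)
    (fun x => (hL x).trans (h1 (f x)).symm)

/-- Quasi-polynomial algorithm. -/
theorem fin_quasi_poly :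
    ∃ C : ℕ, DecidedIn BCPTB (fun x => 2 ^ (C * (Nat.log 2 x.length + 1) ^ 2)) := by
  obtain ⟨F, hF, h1⟩ := fin_toTree
  exact not_hard BCPTB F hF.polyTime (fun x => (h1 x).symm)

/-- A polynomial-time algorithm would solve 3-SAT in subexponential time. -/
theorem fin_not_easy (f : List Bool → List Bool)
    (hf : Nonempty (TM2ComputableInPolyTime (id : List Bool → List Bool)
      (id : List Bool → List Bool) f))
    (hcor : ∀ (n c : ℕ) (G : SimpleGraph (Fin n)) (b : Fin c → ℕ), G.IsTree → 3 ≤ c →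
      (f (encInstB G b) = [true] ↔ BudgetColorable G b)) :
    ∃ (A : TM2ComputableAux Bool Bool) (C : ℕ), ∀ (N M : ℕ) (φ : CNF3 N M),
      open Classical in
      OutIn A (encCNF φ) [decide (Sat φ)]
        (2 ^ (C * (Nat.sqrt (N + M) + 1) * (Nat.log 2 (N + M) + 1))) := by
  obtain ⟨F, hF, h1⟩ := fin_toB
  refine not_easy (fun x => f (F x)) (polyTime_comp hF.polyTime hf)
    (fun n c p b hc => ?_)
  show f (F (encInst p b)) = [true] ↔ _
  rw [h1]
  exact hcor (n + 1) c (treeOf p) b (treeOf_isTree p) hc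

/-- An algorithm with running time `T` solves 3-SAT in time about `T (2 ^ √L)`. -/
theorem fin_lower (D : TM2ComputableAux Bool Bool) (T : ℕ → ℕ) (hT : Monotone T)
    (hD : ∀ (n c : ℕ) (G : SimpleGraph (Fin n)) (b : Fin c → ℕ), G.IsTree → 3 ≤ c →
      open Classical in
      OutIn D (encInstB G b) [decide (BudgetColorable G b)] (T (encInstB G b).length)) :
    ∃ (A : TM2ComputableAux Bool Bool) (C : ℕ), ∀ (N M : ℕ) (φ : CNF3 N M),
      open Classical in
      OutIn A (encCNF φ) [decide (Sat φ)]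
        (2 ^ (C * (Nat.sqrt (N + M) + 1) * (Nat.log 2 (N + M) + 1)) +
          T (2 ^ (C * (Nat.sqrt (N + M) + 1) * (Nat.log 2 (N + M) + 1)))) := by
  classical
  obtain ⟨R, hR, hRx⟩ := exists_red
  obtain ⟨F, hF, hFx⟩ := fin_toB
  -- the padding
  set cc : List Bool → ℕ := fun x => eB (num x 0) (num x 1) + 2 with hcc
  have hnum : ∀ k, PF (fun (x : List Bool) (_ : Unit) => num x k) := fun k => pf_num (PF.const k)
  have hc : PF (fun (x : List Bool) (_ : Unit) => cc x) :=
    (((PF.const 200).mul (((hnum 0).add (hnum 1)).sqrt.add (PF.const 1))).mul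
      ((ma_PF_log ((hnum 0).add (hnum 1))).add (PF.const 1))).add (PF.const 2)
  obtain ⟨M1, V, hM1⟩ := run_padded hc (hF.comp hR)
  -- the index type and the bounds
  let I : Type := Σ (N : ℕ) (M : ℕ), CNF3 N M
  let E : I → ℕ := fun a => (Nat.sqrt (a.1 + a.2.1) + 1) * (Nat.log 2 (a.1 + a.2.1) + 1)
  have hE : ∀ a : I, 1 ≤ E a := fun a => Nat.mul_pos (by omega) (by omega)
  let X : I → List Bool := fun a => encCNF a.2.2
  have hlen : MaSB E (fun a => (X a).length) := by
    have hs : ∀ a : I, a.1 + a.2.1 ≤ 2 ^ E a := fun a => by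
      have h1 : a.1 + a.2.1 < 2 ^ (Nat.log 2 (a.1 + a.2.1) + 1) :=
        Nat.lt_pow_succ_log_self (by omega) _
      refine h1.le.trans (Nat.pow_le_pow_right (by omega) ?_)
      exact Nat.le_mul_of_pos_left _ (by omega)
    have hN : MaSB E (fun a => a.1) := ⟨1, fun a => by
      rw [one_mul]
      exact (Nat.le_add_right _ _).trans (hs a)⟩
    have hM : MaSB E (fun a => a.2.1) := ⟨1, fun a => by
      rw [one_mul]
      exact (Nat.le_add_left _ _).trans (hs a)⟩
    refine MaSB.mono ?_ (fun a => ma_length_encCNF a.2.2)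
    exact MaSB.add hE (MaSB.add hE (MaSB.add hE (MaSB.const hE 2) hN)
      ((MaSB.const hE 4).mul hM)) ((MaSB.const hE 6).mul (hM.mul hN))
  have hpad : MaSB E (fun a => 2 ^ cc (X a)) := by
    have h1 : MaSB E (fun a => 2 ^ eB a.1 a.2.1 * 4) :=
      MaSB.mul ⟨200, fun a => by
        show 2 ^ eB a.1 a.2.1 ≤ 2 ^ (200 * ((Nat.sqrt (a.1 + a.2.1) + 1) *
          (Nat.log 2 (a.1 + a.2.1) + 1)))
        rw [← mul_assoc]
        exact le_rfl⟩ (MaSB.const hE 4)
    refine h1.mono fun a => ?_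
    obtain ⟨h2, h3, -, -⟩ := sat_iff a.2.2
    show 2 ^ (eB (num (encCNF a.2.2) 0) (num (encCNF a.2.2) 1) + 2) ≤ _
    rw [h2, h3, pow_add]
    exact le_rfl
  set T1 : I → ℕ := fun a => V.eval ((X a).length + 2 ^ cc (X a)) with hT1
  have b1 : MaSB E T1 := MaSB.poly hE (MaSB.add hE hlen hpad) V
  set Y : I → List Bool := fun a =>
    F (R (X a ++ false :: List.replicate (2 ^ cc (X a)) true)) with hY
  set L2 : I → ℕ := fun a => (X a).length + TMComp.npMax M1.tm * T1 a with hL2
  have o1 : ∀ a, OutIn M1 (X a) (Y a) (T1 a) := fun a => hM1 (X a)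
  have l2 : ∀ a, (Y a).length ≤ L2 a := fun a => (o1 a).len
  have b2 : MaSB E L2 := MaSB.add hE hlen ((MaSB.const hE _).mul b1)
  have b6 : MaSB E (fun a => T1 a + 2 * (L2 a + 1)) :=
    MaSB.add hE b1 ((MaSB.const hE 2).mul (MaSB.add hE b2 (MaSB.const hE 1)))
  obtain ⟨C, hC⟩ := b6
  refine ⟨compAux M1 D, C, fun N M φ => ?_⟩
  set a : I := ⟨N, M, φ⟩ with ha
  have e1 : C * (Nat.sqrt (N + M) + 1) * (Nat.log 2 (N + M) + 1) = C * E a := mul_assoc _ _ _
  rw [e1]
  -- correctness
  obtain ⟨h2, h3, h4, h5⟩ := sat_iff φ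
  have h6 : R (X a ++ false :: List.replicate (2 ^ cc (X a)) true) =
      encHard N M (fun k => num (encCNF φ) (2 + k)) := by
    have h7 : 4 * hn (num (encCNF φ) 0) (num (encCNF φ) 1) ≤ 2 ^ cc (encCNF φ) := by
      show _ ≤ 2 ^ (eB (num (encCNF φ) 0) (num (encCNF φ) 1) + 2)
      rw [pow_add]
      have := hn_le (num (encCNF φ) 0) (num (encCNF φ) 1)
      omega
    have h8 := hRx (encCNF φ) _ h7
    rw [h2, h3] at h8
    exact h8
  obtain ⟨n, c, p, b, hc3, he, hiff⟩ := encHard_correct h4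
  have h9 : Y a = encInstB (treeOf p) b := by
    show F (R (X a ++ false :: List.replicate (2 ^ cc (X a)) true)) = _
    rw [h6, he, hFx]
  have h10 := hD (n + 1) c (treeOf p) b (treeOf_isTree p) hc3
  rw [← h9] at h10
  have h11 : decide (BudgetColorable (treeOf p) b) = decide (Sat φ) := by
    rw [decide_eq_decide, hiff, h5]
  rw [h11] at h10
  have h12 := (o1 a).comp h10
  refine h12.mono ?_
  have h13 := hC a
  have h14 : 2 * ((Y a).length + 1) ≤ 2 * (L2 a + 1) :=
    Nat.mul_le_mul_left _ (Nat.add_le_add_right (l2 a) _)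
  have h15 : T ((Y a).length) ≤ T (2 ^ (C * E a)) := by
    refine hT ?_
    have := l2 a
    simp only at h13
    omega
  simp only at h13
  omega

end Pool.Agent.BCP
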